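import Pool.Agent.Lib.MP_f2f914_nt.EAB.Defs

namespace Pool.Agent.Lib.MP_f2f914_nt.EAB

open Polynomial

theorem card_blk_mono (a : ℕ → ℤ) (N₀ N : ℕ) {k k' : ℕ} (h : k ≤ k') :
    (blk a k N₀ N).card ≤ (blk a k' N₀ N).card := by
  have : blk a k N₀ N = (blk a k' N₀ N).image fun w j => w (Fin.castLE h j) := by
    rw [blk, blk, Finset.image_image]; rfl
  rw [this]
  exact Finset.card_image_le

/-- A length at which few blocks have two extensions. -/
theorem exists_length (a : ℕ → ℤ) (L n N₀ N : ℕ) (hn : 1 ≤ n)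
    (h : (blk a n N₀ N).card ≤ L * n) :
    ∃ k, n ≤ 2 * k + 1 ∧ k < n ∧ (blk a (k + 1) N₀ N).card ≤ (blk a k N₀ N).card + 2 * L := by
  by_contra hc
  push Not at hc
  have key : ∀ t, n / 2 + t ≤ n → t * (2 * L + 1) ≤ (blk a (n / 2 + t) N₀ N).card := by
    intro t
    induction t with
    | zero => simp
    | succ t ih =>
      intro ht
      have h1 := ih (by omega)
      have h2 := hc (n / 2 + t) (by omega) (by omega)
      rw [← add_assoc, add_mul]
      omega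
  have h1 := key ((n + 1) / 2) (by omega)
  rw [show n / 2 + (n + 1) / 2 = n by omega] at h1
  have h2 := h1.trans h
  obtain ⟨s, rfl | rfl⟩ := Nat.even_or_odd' n
  · rw [show (2 * s + 1) / 2 = s by omega] at h2
    nlinarith
  · rw [show (2 * s + 1 + 1) / 2 = s + 1 by omega] at h2
    nlinarith

/-- Default extensions, given by a representative position of each block. -/
theorem exists_default (a : ℕ → ℤ) (k N₀ N : ℕ) :
    ∃ ρ : ℕ → ℕ, (∀ i ∈ Finset.Ico N₀ N, ρ i ∈ Finset.Ico N₀ N ∧ ∀ j < k, a (ρ i + j) = a (i + j)) ∧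
      (∀ i ∈ Finset.Ico N₀ N, ∀ i' ∈ Finset.Ico N₀ N, (∀ j < k, a (i + j) = a (i' + j)) →
        ρ i = ρ i') ∧
      ∀ i ∈ Finset.Ico N₀ N, ∀ i', i < i' → 2 * (i' - i) ≤ k →
        (∀ j ≤ k, a (i + j) = a (i' + j)) → a (i + k) = a (ρ i + k) := by
  let B : ℕ → Fin k → ℤ := fun i j => a (i + j)
  let Per : ℕ → Prop := fun i => ∃ q, 1 ≤ q ∧ 2 * q ≤ k ∧ ∀ j, j + q ≤ k → a (i + j) = a (i + (j + q))
  have hB : ∀ i i', B i = B i' ↔ ∀ j < k, a (i + j) = a (i' + j) := fun i i' =>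
    ⟨fun h j hj => congrFun h ⟨j, hj⟩, fun h => funext fun j => h j j.2⟩
  have hex : ∀ w, ∃ r, (∃ i ∈ Finset.Ico N₀ N, B i = w) → r ∈ Finset.Ico N₀ N ∧ B r = w ∧
      ((∃ i ∈ Finset.Ico N₀ N, B i = w ∧ Per i) → Per r) := by
    intro w
    by_cases h1 : ∃ i ∈ Finset.Ico N₀ N, B i = w ∧ Per i
    · obtain ⟨i, hi, h2, h3⟩ := h1
      exact ⟨i, fun _ => ⟨hi, h2, fun _ => h3⟩⟩
    · by_cases h2 : ∃ i ∈ Finset.Ico N₀ N, B i = w
      · obtain ⟨i, hi, h3⟩ := h2
        exact ⟨i, fun _ => ⟨hi, h3, fun h => absurd h h1⟩⟩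
      · exact ⟨0, fun h => absurd h h2⟩
  choose r hr using hex
  refine ⟨fun i => r (B i), fun i hi => ?_, fun i _ i' _ h => congrArg r ((hB i i').mpr h),
    fun i hi i' hlt hq h => ?_⟩
  · obtain ⟨h1, h2, -⟩ := hr (B i) ⟨i, hi, rfl⟩
    exact ⟨h1, (hB _ _).mp h2⟩
  · obtain ⟨-, h2, h3⟩ := hr (B i) ⟨i, hi, rfl⟩
    obtain ⟨q, rfl⟩ : ∃ q, i' = i + q := ⟨i' - i, by omega⟩
    have hp : ∀ j, j + q ≤ k → a (i + j) = a (i + (j + q)) := fun j hj => by
      rw [h j (by omega)]; congr 1; omega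
    obtain ⟨q', g1, g2, g3⟩ := h3 ⟨i, hi, rfl, q, by omega, by omega, hp⟩
    have h4 := (hB _ _).mp h2
    obtain ⟨c, rfl⟩ : ∃ c, k = c + q + q' := ⟨k - q - q', by omega⟩
    have e1 := hp (c + q') (by omega)
    have e2 := hp c (by omega)
    have e3 := g3 (c + q) (by omega)
    have e4 := g3 c (by omega)
    have e5 := h4 (c + q') (by omega)
    have e6 := h4 (c + q) (by omega)
    have e7 := h4 c (by omega)
    rw [show c + q' + q = c + q + q' by omega] at e1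
    beta_reduce
    omega

/-- The non default extensions are numbered by `Fin M`. -/
theorem exists_types (a : ℕ → ℤ) (k N₀ N M : ℕ) (ρ : ℕ → ℕ)
    (hρ : ∀ i ∈ Finset.Ico N₀ N, ρ i ∈ Finset.Ico N₀ N ∧ ∀ j < k, a (ρ i + j) = a (i + j))
    (hρ' : ∀ i ∈ Finset.Ico N₀ N, ∀ i' ∈ Finset.Ico N₀ N, (∀ j < k, a (i + j) = a (i' + j)) →
      ρ i = ρ i')
    (hM : (blk a (k + 1) N₀ N).card ≤ (blk a k N₀ N).card + M) :
    ∃ ty : ℕ → Option (Fin M), (∀ i ∈ Finset.Ico N₀ N, ty i = none ↔ a (i + k) = a (ρ i + k)) ∧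
      ∀ i ∈ Finset.Ico N₀ N, ∀ i' ∈ Finset.Ico N₀ N, ∀ β, ty i = some β → ty i' = some β →
        ∀ j ≤ k, a (i + j) = a (i' + j) := by
  classical
  let B : ℕ → Fin (k + 1) → ℤ := fun i j => a (i + j)
  let Df := (Finset.Ico N₀ N).image fun i => B (ρ i)
  have h1 : Df ⊆ blk a (k + 1) N₀ N := fun w hw => by
    obtain ⟨i, hi, rfl⟩ := Finset.mem_image.mp hw
    exact Finset.mem_image.mpr ⟨ρ i, (hρ i hi).1, rfl⟩
  have h2 : (blk a k N₀ N).card ≤ Df.card := by
    have : blk a k N₀ N = Df.image fun w j => w (Fin.castSucc j) := by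
      rw [blk, Finset.image_image]
      exact Finset.image_congr fun i hi => funext fun j => ((hρ i hi).2 j j.2).symm
    rw [this]
    exact Finset.card_image_le
  have h3 : Fintype.card ↥(blk a (k + 1) N₀ N \ Df) ≤ Fintype.card (Fin M) := by
    rw [Fintype.card_coe, Finset.card_sdiff_of_subset h1, Fintype.card_fin]; omega
  obtain ⟨f⟩ := Function.Embedding.nonempty_of_card_le h3
  have h4 : ∀ i ∈ Finset.Ico N₀ N, B i ∈ Df ↔ a (i + k) = a (ρ i + k) := by
    intro i hi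
    constructor
    · intro h
      obtain ⟨i', hi', e⟩ := Finset.mem_image.mp h
      rw [hρ' i hi i' hi' fun j hj => by
        rw [← (hρ i' hi').2 j hj]; exact (congrFun e ⟨j, by omega⟩).symm]
      exact (congrFun e (Fin.last k)).symm
    · intro h
      refine Finset.mem_image.mpr ⟨i, hi, funext fun j => ?_⟩
      rcases Nat.lt_succ_iff_lt_or_eq.mp j.2 with hj | hj
      · exact (hρ i hi).2 j hj
      · simp only [B, hj, h]
  refine ⟨fun i => if h : B i ∈ blk a (k + 1) N₀ N \ Df then some (f ⟨B i, h⟩) else none,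
    fun i hi => ?_, fun i _ i' _ β e e' j hj => ?_⟩
  · rw [← h4 i hi]
    have : B i ∈ blk a (k + 1) N₀ N := Finset.mem_image.mpr ⟨i, hi, rfl⟩
    by_cases h : B i ∈ Df <;> simp [h, this]
  · beta_reduce at e e'
    split_ifs at e e' with g g'
    have := f.injective (Option.some_injective _ (e.trans e'.symm))
    exact congrFun (congrArg Subtype.val this) ⟨j, by omega⟩

end Pool.Agent.Lib.MP_f2f914_nt.EAB
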