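import Pool.Agent.Lib.MP_f2f914_nt.EAB.Defs

namespace Pool.Agent.Lib.MP_f2f914_nt.EAB

theorem le_pow_M (m D : ℕ) (hD : 1 ≤ D) : m + 1 ≤ (m + 1) ^ D := by
  simpa using Nat.pow_le_pow_right (Nat.succ_pos m) hD

theorem one_le_M (m D : ℕ) : 1 ≤ (m + 1) ^ D := Nat.one_le_pow _ _ (Nat.succ_pos m)

theorem twenty_le_cP (m D : ℕ) : 20 ≤ cP m D := by
  unfold cP
  have : 1 ≤ (m + 1) * (aP m D + nuP m D + 1) := Nat.mul_pos (by omega) (by omega)
  nlinarith

/-- The master bound: any product of factors bounded by those of `sC`. -/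
theorem le_sC (m D c p a d q e : ℕ) (hc : c ≤ 100) (hp : p ≤ cP m D) (ha : a ≤ (m + 1) ^ 3)
    (hd : d ≤ (D + 2) ^ 2) (hq : q ≤ (m + 1) ^ D + 1) (he : e ≤ (m + 1) ^ D + 1) :
    c * p * a * d * q * e ≤ sC m D := by
  unfold sC
  gcongr

theorem succ_le_cube (m : ℕ) : m + 1 ≤ (m + 1) ^ 3 := Nat.le_self_pow (by norm_num) _

theorem sq_le_cube (m : ℕ) : (m + 1) ^ 2 ≤ (m + 1) ^ 3 :=
  Nat.pow_le_pow_right (Nat.succ_pos m) (by norm_num)

theorem add_two_le_sq (D : ℕ) : D + 2 ≤ (D + 2) ^ 2 := Nat.le_self_pow (by norm_num) _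

theorem m_le_sC (m D : ℕ) : m + 1 ≤ sC m D := by
  have := le_sC m D 1 1 (m + 1) 1 1 1 (by norm_num) (by have := twenty_le_cP m D; omega)
    (succ_le_cube m) (by have := add_two_le_sq D; omega) (by omega) (by omega)
  simpa using this

theorem D_le_sC (m D : ℕ) : D + 2 ≤ sC m D := by
  have := le_sC m D 1 1 1 (D + 2) 1 1 (by norm_num) (by have := twenty_le_cP m D; omega)
    (by have := succ_le_cube m; omega) (add_two_le_sq D) (by omega) (by omega)
  simpa using this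

theorem sN_le_sC (m D : ℕ) : 2 * (sN m D + 2) ≤ sC m D := by
  have h := le_sC m D 100 1 ((m + 1) ^ 2) (D + 2) ((m + 1) ^ D + 1) 1 le_rfl
    (by have := twenty_le_cP m D; omega) (sq_le_cube m) (add_two_le_sq D) le_rfl (by omega)
  have h1 : 1 ≤ (m + 1) ^ 2 * (D + 2) * ((m + 1) ^ D + 1) := Nat.succ_le_of_lt (by positivity)
  unfold sN
  nlinarith

theorem cP_le_sC (m D : ℕ) : cP m D ≤ sC m D := by
  have := le_sC m D 1 (cP m D) 1 1 1 1 (by norm_num) le_rfl
    (by have := succ_le_cube m; omega) (by have := add_two_le_sq D; omega) (by omega)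
    (by omega)
  simpa using this

end Pool.Agent.Lib.MP_f2f914_nt.EAB
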