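import Pool.Agent.Lib.MP_f2f914_nt.EAB.FewSmall

namespace Pool.Agent.Lib.MP_f2f914_nt.EAB

open Polynomial

open Finset in
theorem count_lag {α : Type*} {ν Λ Ξ : ℕ} (hΛ : 1 ≤ Λ) (hΞ : 1 ≤ Ξ) (A : Finset α) (x : α → ℕ)
    (s1 : ∀ a ∈ A, ∀ a' ∈ A, a ≠ a' →
      (Λ : ℤ) ≤ |(x a : ℤ) - x a'| ∧ |(x a : ℤ) - x a'| ≤ (Ξ * Λ : ℕ)) {g : ℚ[X]} (hg : g ≠ 0)
    (hd : g.natDegree ≤ ν) :
    ∃ (M : ℚ) (Bd : Finset α), 0 < M ∧ card Bd ≤ ν ∧ ∀ a ∈ A, a ∉ Bd →
      |g.eval (x a : ℚ)| ≤ M ∧ M ≤ (ν + 1) * Ξ ^ ν * |g.eval (x a : ℚ)| := by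
  classical
  by_cases hA : card A ≤ ν
  · exact ⟨1, A, one_pos, hA, fun a ha n => absurd ha n⟩
  obtain ⟨a₀, h0, hm⟩ := A.exists_max_image (fun a => |g.eval (x a : ℚ)|) (card_pos.1 (by omega))
  refine ⟨_, _, lt_of_le_of_ne (abs_nonneg _) fun e => hg ?_,
    few_small ν Ξ Λ hΛ hΞ x A s1 g hd a₀ h0, fun a ha n => ⟨hm a ha, ?_⟩⟩
  · refine eq_zero_of_natDegree_lt_card_of_eval_eq_zero' g (A.image fun a => (x a : ℚ))
      (fun y hy => ?_) ?_
    · obtain ⟨a, ha, rfl⟩ := mem_image.1 hy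
      exact abs_nonpos_iff.1 ((hm a ha).trans e.ge)
    · rw [card_image_of_injOn fun a ha a' ha' e => by
        by_contra n
        have := (s1 a ha a' ha' n).1
        rw [show x a = x a' by exact_mod_cast e, sub_self, abs_zero] at this
        omega]
      omega
  · have := not_lt.1 fun l => n (mem_filter.2 ⟨ha, l⟩)
    push_cast at this
    linarith

theorem count_taylor {ν : ℕ} {g : ℚ[X]} (hd : g.natDegree ≤ ν) (r : ℚ) :
    (taylor r g).coeff ν = g.coeff ν := by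
  rcases hd.eq_or_lt with e | l
  · rw [← e, coeff_taylor_natDegree, coeff_natDegree]
  · rw [coeff_eq_zero_of_natDegree_lt l,
      coeff_eq_zero_of_natDegree_lt (by rwa [natDegree_taylor])]

open Finset in
theorem count_main {α ι : Type*} [DecidableEq ι] {b ν W G Λ Ξ : ℕ} (hb : 2 ≤ b) (hΛ : 1 ≤ Λ)
    (hΞ : 1 ≤ Ξ) (hG : (W * ((ν + 1) * Ξ ^ ν) ^ 2 : ℚ) < 2 ^ G) (σ : α → ι → ℤ) (π : α → ι → ℕ)
    (n : ℕ) :
    ∀ (J : Finset ι), card J = n → n ≤ W → ∀ (A : Finset α),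
    (∀ j ∈ J, ∀ a ∈ A, ∀ a' ∈ A, a ≠ a' →
      (Λ : ℤ) ≤ |(π a j : ℤ) - π a' j| ∧ |(π a j : ℤ) - π a' j| ≤ (Ξ * Λ : ℕ)) →
    (∀ j ∈ J, ∀ j' ∈ J, ∀ a ∈ A, ∀ a' ∈ A, σ a j - σ a j' = σ a' j - σ a' j' →
      (π a j : ℤ) - π a j' = (π a' j : ℤ) - π a' j') →
    ∀ g : ι → ℚ[X], (∀ j, (g j).natDegree ≤ ν) →
    (∀ a ∈ A, ∑ j ∈ J, (b : ℚ) ^ (-σ a j) * (g j).eval (π a j : ℚ) = 0) →
    (∀ a ∈ A, ∑ j ∈ J, (b : ℚ) ^ (-σ a j) * (g j).coeff ν ≠ 0) →
    card A ≤ (W ^ 2 * G + W * ν + 1) ^ n := by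
  classical
  have b1 : (1 : ℚ) < b := by exact_mod_cast hb
  have b0 : (0 : ℚ) < b := by linarith
  induction n with
  | zero =>
    intro J hJ _ A _ _ g _ _ h2
    rw [card_eq_zero.1 hJ] at h2
    rw [eq_empty_of_forall_notMem fun a ha => h2 a ha sum_empty]
    simp
  | succ n ih =>
    intro J hJ hW A s1 rg g hd h1 h2
    have red : ∀ j₁ ∈ J, ∀ F ⊆ A, ∀ g' : ι → ℚ[X], (∀ j, (g' j).natDegree ≤ ν) →
        (∀ a ∈ F, ∑ j ∈ J.erase j₁, (b : ℚ) ^ (-σ a j) * (g' j).eval (π a j : ℚ) = 0) →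
        (∀ a ∈ F, ∑ j ∈ J.erase j₁, (b : ℚ) ^ (-σ a j) * (g' j).coeff ν ≠ 0) →
        card F ≤ (W ^ 2 * G + W * ν + 1) ^ n := fun j₁ h F hF g' =>
      ih _ (by rw [card_erase_of_mem h, hJ]; rfl) (by omega) F
        (fun j hj a ha a' ha' => s1 j (mem_of_mem_erase hj) a (hF ha) a' (hF ha'))
        (fun j hj j' hj' a ha a' ha' =>
          rg j (mem_of_mem_erase hj) j' (mem_of_mem_erase hj') a (hF ha) a' (hF ha')) g'
    by_cases hz : ∃ j ∈ J, g j = 0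
    · obtain ⟨j, hj, e⟩ := hz
      refine (red j hj A subset_rfl g hd (fun a ha => ?_) fun a ha => ?_).trans
        (Nat.pow_le_pow_right (by omega) (by omega))
      · rw [sum_erase _ (by simp [e]), h1 a ha]
      · rw [sum_erase _ (by simp [e])]; exact h2 a ha
    push Not at hz
    choose! M Bd hM hB hgood using fun j hj =>
      count_lag hΛ hΞ A (π · j) (s1 j hj) (hz j hj) (hd j)
    set R : ℚ := (ν + 1) * Ξ ^ ν with hR
    have R0 : 0 < R := by positivity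
    let T : α → ι → ℚ := fun a j => |(b : ℚ) ^ (-σ a j) * (g j).eval (π a j : ℚ)|
    have pick : ∀ a ∈ A \ J.biUnion Bd, ∃ p ∈ J ×ˢ J, p.1 ≠ p.2 ∧ T a p.2 ≤ T a p.1 ∧
        T a p.1 ≤ W * T a p.2 := fun a ha => by
      obtain ⟨ha, hn⟩ := mem_sdiff.1 ha
      obtain ⟨j₁, m1, x1⟩ := J.exists_max_image (T a) (card_pos.1 (by omega))
      have e : T a j₁ = |∑ j ∈ J.erase j₁, (b : ℚ) ^ (-σ a j) * (g j).eval (π a j : ℚ)| := by
        have := h1 a ha
        rw [← add_sum_erase _ _ m1, add_eq_zero_iff_eq_neg] at this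
        simp only [T, this, abs_neg]
      rcases (J.erase j₁).eq_empty_or_nonempty with em | ne
      · rw [em, sum_empty, abs_zero, abs_eq_zero, mul_eq_zero,
          or_iff_right (zpow_ne_zero _ b0.ne')] at e
        have := (hgood j₁ m1 a ha fun l => hn (mem_biUnion.2 ⟨j₁, m1, l⟩)).2
        rw [e, abs_zero, mul_zero] at this
        exact absurd this (hM j₁ m1).not_ge
      obtain ⟨j₂, m2, x2⟩ := (J.erase j₁).exists_max_image (T a) ne
      refine ⟨(j₁, j₂), mem_product.2 ⟨m1, mem_of_mem_erase m2⟩, (ne_of_mem_erase m2).symm,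
        x1 _ (mem_of_mem_erase m2), e ▸ (abs_sum_le_sum_abs _ _).trans
          ((sum_le_card_nsmul _ _ _ x2).trans ?_)⟩
      rw [nsmul_eq_mul]
      exact mul_le_mul_of_nonneg_right (by
        exact_mod_cast (card_erase_le.trans (by omega) : card (J.erase j₁) ≤ W)) (abs_nonneg _)
    have : Nonempty ι := (card_pos.1 (show 0 < card J by omega)).elim fun j _ => ⟨j⟩
    choose! p hp hne hT1 hT2 using pick
    have G0 : 0 < G ∨ A \ J.biUnion Bd = ∅ := by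
      rcases (A \ J.biUnion Bd).eq_empty_or_nonempty with em | ⟨a, ha⟩
      · exact .inr em
      refine .inl (Nat.pos_of_ne_zero fun e => ?_)
      obtain ⟨ha', hn⟩ := mem_sdiff.1 ha
      obtain ⟨j, hj⟩ := card_pos.1 (show 0 < card J by omega)
      have := hgood j hj a ha' fun l => hn (mem_biUnion.2 ⟨j, hj, l⟩)
      have h3 := hM j hj
      have h4 : 1 ≤ R := by nlinarith [this.1, this.2, abs_nonneg ((g j).eval (π a j : ℚ))]
      have h5 : (1 : ℚ) ≤ W := by exact_mod_cast (by omega : 1 ≤ W)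
      rw [e, pow_zero] at hG
      nlinarith
    have cnt : card (A \ J.biUnion Bd) ≤ (W ^ 2 * G + W * ν + 1) ^ n * (W ^ 2 * G) := by
      rcases G0 with G0 | em
      swap
      · simp [em]
      refine (card_le_mul_card_image_of_maps_to (t := (J ×ˢ J) ×ˢ Ico (0 : ℤ) G)
        (f := fun a => (p a, (σ a (p a).1 - σ a (p a).2) % G)) (fun a ha => mem_product.2
          ⟨hp a ha, mem_Ico.2 ⟨Int.emod_nonneg _ (by omega), Int.emod_lt_of_pos _ (by omega)⟩⟩)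
        _ fun c hc => ?_).trans (Nat.mul_le_mul_left _ ?_)
      swap
      · rw [card_product, card_product, hJ, Int.card_Ico, sq]
        exact Nat.mul_le_mul (Nat.mul_le_mul hW hW) (by simp)
      rcases ({a ∈ A \ J.biUnion Bd | (p a, (σ a (p a).1 - σ a (p a).2) % G) = c}
        ).eq_empty_or_nonempty with em | ⟨a₀, h0⟩
      · simp [em]
      obtain ⟨⟨j₁, j₂⟩, r⟩ := c
      have m1 : j₁ ∈ J := (mem_product.1 (mem_product.1 hc).1).1
      have m2 : j₂ ∈ J := (mem_product.1 (mem_product.1 hc).1).2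
      have bd : ∀ a ∈ {a ∈ A \ J.biUnion Bd | (p a, (σ a (p a).1 - σ a (p a).2) % G) =
          ((j₁, j₂), r)}, a ∈ A ∧ j₁ ≠ j₂ ∧ (σ a j₁ - σ a j₂) % G = r ∧
          M j₂ ≤ R * M j₁ * (b : ℚ) ^ (-(σ a j₁ - σ a j₂)) ∧
          M j₁ * (b : ℚ) ^ (-(σ a j₁ - σ a j₂)) ≤ W * R * M j₂ := fun a ha => by
        obtain ⟨ha, e⟩ := mem_filter.1 ha
        obtain ⟨e1, e2⟩ := Prod.ext_iff.1 e
        have t1 := hT1 a ha
        have t2 := hT2 a ha
        have t3 := hne a ha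
        dsimp only at e1 e2
        rw [e1] at t1 t2 t3 e2
        obtain ⟨ha', hn⟩ := mem_sdiff.1 ha
        have g1 := hgood j₁ m1 a ha' fun l => hn (mem_biUnion.2 ⟨_, m1, l⟩)
        have g2 := hgood j₂ m2 a ha' fun l => hn (mem_biUnion.2 ⟨_, m2, l⟩)
        have z : (b : ℚ) ^ (-σ a j₁) = b ^ (-σ a j₂) * b ^ (-(σ a j₁ - σ a j₂)) := by
          rw [← zpow_add₀ b0.ne']; congr 1; ring
        have p2 := zpow_pos b0 (-σ a j₂)
        have p3 := zpow_pos b0 (-(σ a j₁ - σ a j₂))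
        simp only [T, abs_mul, z, abs_of_pos p2, abs_of_pos p3, mul_assoc] at t1 t2
        rw [mul_le_mul_iff_right₀ p2] at t1
        rw [mul_left_comm (W : ℚ), mul_le_mul_iff_right₀ p2] at t2
        have W0 : (0 : ℚ) ≤ W := by positivity
        refine ⟨ha', t3, e2, g2.2.trans ?_, ?_⟩
        · rw [mul_assoc R, mul_comm (M j₁)]
          exact mul_le_mul_of_nonneg_left (t1.trans (mul_le_mul_of_nonneg_left g1.1 p3.le)) R0.le
        · calc _ ≤ R * |(g j₁).eval (π a j₁ : ℚ)| * _ := mul_le_mul_of_nonneg_right g1.2 p3.le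
            _ = R * (_ * |(g j₁).eval (π a j₁ : ℚ)|) := by rw [mul_assoc R, mul_comm |_|]
            _ ≤ R * (W * M j₂) := mul_le_mul_of_nonneg_left
              (t2.trans (mul_le_mul_of_nonneg_left g2.1 W0)) R0.le
            _ = _ := by ring
      have close : ∀ d d' : ℤ, M j₂ ≤ R * M j₁ * (b : ℚ) ^ (-d) →
          M j₁ * (b : ℚ) ^ (-d') ≤ W * R * M j₂ → d - d' < G := fun d d' l l' => by
        have p3 := zpow_pos b0 (-d)
        have h3 := hM j₁ m1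
        have W0 : (0 : ℚ) ≤ W := by positivity
        have : (b : ℚ) ^ (d - d') ≤ W * R ^ 2 := by
          rw [show d - d' = -d' - -d by ring, zpow_sub₀ b0.ne', div_le_iff₀ p3,
            ← mul_le_mul_iff_right₀ h3]
          calc _ ≤ W * R * (R * M j₁ * (b : ℚ) ^ (-d)) :=
              l'.trans (mul_le_mul_of_nonneg_left l (by positivity))
            _ = _ := by ring
        have h6 : (2 : ℚ) ^ G ≤ b ^ G := pow_le_pow_left₀ (by norm_num) (by exact_mod_cast hb) _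
        exact (zpow_lt_zpow_iff_right₀ b1).1 ((this.trans_lt hG).trans_le (by exact_mod_cast h6))
      obtain ⟨a1, ne, r0, l0, l0'⟩ := bd a₀ h0
      have same : ∀ a ∈ {a ∈ A \ J.biUnion Bd | (p a, (σ a (p a).1 - σ a (p a).2) % G) =
          ((j₁, j₂), r)}, σ a j₁ - σ a j₂ = σ a₀ j₁ - σ a₀ j₂ := fun a ha => by
        obtain ⟨-, -, r1, l1, l1'⟩ := bd a ha
        have c1 := close _ _ l0 l1'
        have c2 := close _ _ l1 l0'
        exact sub_eq_zero.1 (Int.eq_zero_of_abs_lt_dvd (Int.dvd_of_emod_eq_zero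
          (Int.emod_eq_emod_iff_emod_sub_eq_zero.1 (r1.trans r0.symm)))
          (abs_lt.2 ⟨by omega, by omega⟩))
      have m3 : j₂ ∈ J.erase j₁ := mem_erase.2 ⟨ne.symm, m2⟩
      have merge : ∀ (a : α) (u v : ι → ℚ), σ a j₁ - σ a j₂ = σ a₀ j₁ - σ a₀ j₂ →
          (∀ j, j ≠ j₂ → v j = u j) →
          v j₂ = u j₂ + (b : ℚ) ^ (-(σ a₀ j₁ - σ a₀ j₂)) * u j₁ →
          ∑ j ∈ J.erase j₁, (b : ℚ) ^ (-σ a j) * v j = ∑ j ∈ J, (b : ℚ) ^ (-σ a j) * u j :=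
        fun a u v e k k' => by
          rw [← add_sum_erase _ _ m1, ← add_sum_erase _ _ m3, ← add_sum_erase _ _ m3, k', ← e,
            sum_congr rfl fun j hj => by rw [k j (ne_of_mem_erase hj)], mul_add, ← mul_assoc,
            ← zpow_add₀ b0.ne', show -σ a j₂ + -(σ a j₁ - σ a j₂) = -σ a j₁ by ring]
          ring
      refine red j₁ m1 _ (fun a ha => (bd a ha).1) (Function.update g j₂ (g j₂ +
        C ((b : ℚ) ^ (-(σ a₀ j₁ - σ a₀ j₂))) * taylor (π a₀ j₁ - π a₀ j₂ : ℚ) (g j₁)))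
        (fun j => ?_) (fun a ha => ?_) fun a ha => ?_
      · by_cases e : j = j₂
        · rw [e, Function.update_self]
          exact (natDegree_add_le _ _).trans (max_le (hd _)
            ((natDegree_C_mul_le _ _).trans (by rw [natDegree_taylor]; exact hd _)))
        · rw [Function.update_of_ne e]; exact hd j
      · rw [merge a (fun j => (g j).eval (π a j : ℚ)) _ (same a ha)
          (fun j e => by rw [Function.update_of_ne e]) ?_, h1 a (bd a ha).1]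
        rw [Function.update_self, eval_add, eval_mul, eval_C, taylor_eval,
          ← show (π a j₁ - π a j₂ : ℚ) = π a₀ j₁ - π a₀ j₂ by
            exact_mod_cast rg j₁ m1 j₂ m2 a (bd a ha).1 a₀ a1 (same a ha), add_sub_cancel]
      · rw [merge a (fun j => (g j).coeff ν) _ (same a ha)
          (fun j e => by rw [Function.update_of_ne e]) ?_]
        · exact h2 a (bd a ha).1
        rw [Function.update_self, coeff_add, coeff_C_mul, count_taylor (hd _)]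
    have c2 : card (J.biUnion Bd) ≤ W * ν :=
      card_biUnion_le.trans ((sum_le_card_nsmul _ _ _ hB).trans
        (by rw [smul_eq_mul, hJ]; exact Nat.mul_le_mul_right _ hW))
    have c3 := le_card_sdiff (J.biUnion Bd) A
    have c4 : 1 ≤ (W ^ 2 * G + W * ν + 1) ^ n := Nat.one_le_pow _ _ (by omega)
    rw [pow_succ (_ + _)]
    nlinarith [Nat.sub_add_cancel (le_refl 0), Nat.le_add_of_sub_le (c3.trans cnt)]

/-- The counting lemma for windows. -/
theorem count_windows {A J : Type*} [DecidableEq J] (b : ℕ) (hb : 2 ≤ b) (ν W Ξ Λ G : ℕ)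
    (hΛ : 1 ≤ Λ) (hΞ : 1 ≤ Ξ) (hG : W * ((ν + 1) * Ξ ^ ν) ^ 2 < 2 ^ G) (σ : A → J → ℤ)
    (π : A → J → ℕ) (s : Finset J) (hs : s.card ≤ W) (𝒜 : Finset A)
    (hsp : ∀ j ∈ s, ∀ a ∈ 𝒜, ∀ a' ∈ 𝒜, a ≠ a' →
      (Λ : ℤ) ≤ |(π a j : ℤ) - π a' j| ∧ |(π a j : ℤ) - π a' j| ≤ (Ξ * Λ : ℕ))
    (hrig : ∀ j ∈ s, ∀ j' ∈ s, ∀ a ∈ 𝒜, ∀ a' ∈ 𝒜, σ a j - σ a j' = σ a' j - σ a' j' →
      (π a j : ℤ) - π a j' = (π a' j : ℤ) - π a' j')
    (g : J → ℚ[X]) (hg : ∀ j, (g j).natDegree ≤ ν)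
    (h0 : ∀ a ∈ 𝒜, ∑ j ∈ s, (b : ℚ) ^ (-σ a j) * (g j).eval (π a j : ℚ) = 0)
    (h1 : ∀ a ∈ 𝒜, ∑ j ∈ s, (b : ℚ) ^ (-σ a j) * (g j).coeff ν ≠ 0) :
    𝒜.card ≤ (W ^ 2 * G + W * ν + 1) ^ s.card := by
  exact count_main hb hΛ hΞ (by exact_mod_cast hG) σ π _ s rfl hs 𝒜 hsp hrig g hg h0 h1

end Pool.Agent.Lib.MP_f2f914_nt.EAB
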