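import Mathlib

/-!
Effective lower bound for the block complexity of algebraic numbers: definitions and the basic
norm and evaluation lemmas.
-/

namespace Pool.Agent.Lib.MP_f2f914_nt.EAB

open Polynomial

/-- Sum of the absolute values of the coefficients. -/
noncomputable def nm (f : ℤ[X]) : ℕ := ∑ i ∈ f.support, (f.coeff i).natAbs

/-- Value at `1 / B`. -/
noncomputable def ev (B : ℕ) : ℤ[X] →ₐ[ℤ] ℚ := aeval ((B : ℚ)⁻¹)

/-- The Euler operator `v d/dv`. -/
noncomputable def th (f : ℤ[X]) : ℤ[X] := X * derivative f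

/-- The operator `∑ a_e θ^e`. -/
noncomputable def opL (ν : ℕ) (a : ℕ → ℤ[X]) (y : ℤ[X]) : ℤ[X] :=
  ∑ e ∈ Finset.range (ν + 1), a e * th^[e] y

/-- Sum of the absolute values of the coefficients, several variables. -/
noncomputable def nmv {σ : Type*} (P : MvPolynomial σ ℤ) : ℕ :=
  ∑ s ∈ P.support, (MvPolynomial.coeff s P).natAbs

/-- Substitution `none ↦ v`, `some j ↦ S j`. -/
noncomputable def evS {m : ℕ} (S : Fin m → ℤ[X]) : MvPolynomial (Option (Fin m)) ℤ →ₐ[ℤ] ℤ[X] :=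
  MvPolynomial.aeval fun o => o.elim X S

/-- Jacobian matrix in the variables `some j`. -/
noncomputable def jac {m : ℕ} {ρ : Type*} (Φ : ρ → MvPolynomial (Option (Fin m)) ℤ) :
    Matrix ρ (Fin m) (MvPolynomial (Option (Fin m)) ℤ) :=
  fun i j => MvPolynomial.pderiv (some j) (Φ i)

/-- The product of series attached to a word in `1, Y_1, ..., Y_m`. -/
noncomputable def wordS {m D : ℕ} (S : Fin m → ℤ[X]) (f : Fin D → Option (Fin m)) : ℤ[X] :=
  ∏ i, (f i).elim 1 S

/-- The polynomial `∑_f l_f(v) Y^f`. -/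
noncomputable def wordP {m D : ℕ} (l : (Fin D → Option (Fin m)) → ℤ[X]) :
    MvPolynomial (Option (Fin m)) ℤ :=
  ∑ f, aeval (MvPolynomial.X none : MvPolynomial (Option (Fin m)) ℤ) (l f) *
    ∏ i, (f i).elim 1 fun j => MvPolynomial.X (some j)

/-- The sparse series `∑_{p ∈ E} b ^ η p * v ^ p`. -/
noncomputable def spS (b : ℕ) (E : Finset ℕ) (η : ℕ → ℕ) : ℤ[X] :=
  ∑ p ∈ E, monomial p ((b : ℤ) ^ η p)

/-- Order of the differential operator. -/
def nuP (m D : ℕ) : ℕ := 4 * m * (m * D + 1) ^ m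

/-- Degree of the auxiliary polynomials. -/
def aP (m D : ℕ) : ℕ := 1 + 3 * nuP m D * m * D

/-- Constant of the full rank case. -/
def cP (m D : ℕ) : ℕ := 20 * (m + 1) * (aP m D + nuP m D + 1)

/-- Norm exponent of one reduction step. -/
def sN (m D : ℕ) : ℕ := 40 * (m + 1) ^ 2 * (D + 2) * ((m + 1) ^ D + 1)

/-- The blocks of length `k` starting in `[N₀, N)`. -/
def blk (a : ℕ → ℤ) (k N₀ N : ℕ) : Finset (Fin k → ℤ) :=
  (Finset.Ico N₀ N).image fun i => fun j : Fin k => a (i + j)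

/-- Constant of one stage of the induction on the number of series. -/
def sC (m D : ℕ) : ℕ :=
  100 * cP m D * (m + 1) ^ 3 * (D + 2) ^ 2 * ((m + 1) ^ D + 1) * ((m + 1) ^ D + 1)

section nm

theorem nm_eq_sum_of_subset (f : ℤ[X]) {s : Finset ℕ} (h : f.support ⊆ s) :
    nm f = ∑ i ∈ s, (f.coeff i).natAbs := by
  unfold nm
  refine Finset.sum_subset h fun i _ hi => ?_
  rw [notMem_support_iff.mp hi, Int.natAbs_zero]

theorem sum_coeff_le_nm (f : ℤ[X]) (s : Finset ℕ) : ∑ i ∈ s, (f.coeff i).natAbs ≤ nm f := by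
  rw [nm_eq_sum_of_subset f (s := s ∪ f.support) Finset.subset_union_right]
  exact Finset.sum_le_sum_of_subset Finset.subset_union_left

theorem natAbs_coeff_le_nm (f : ℤ[X]) (i : ℕ) : (f.coeff i).natAbs ≤ nm f := by
  simpa using sum_coeff_le_nm f {i}

theorem abs_coeff_le_nm (f : ℤ[X]) (i : ℕ) : |f.coeff i| ≤ (nm f : ℤ) := by
  rw [Int.abs_eq_natAbs]; exact_mod_cast natAbs_coeff_le_nm f i

@[simp] theorem nm_zero : nm 0 = 0 := by simp [nm]

theorem nm_monomial (n : ℕ) (a : ℤ) : nm (monomial n a) = a.natAbs := by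
  rw [nm_eq_sum_of_subset _ (s := {n}) (support_monomial_subset n a)]
  simp

theorem nm_C (a : ℤ) : nm (C a) = a.natAbs := nm_monomial 0 a

theorem nm_one : nm 1 = 1 := by rw [← C_1, nm_C]; rfl

theorem nm_X_pow (n : ℕ) : nm (X ^ n) = 1 := by rw [X_pow_eq_monomial, nm_monomial]; rfl

theorem nm_X : nm X = 1 := by simpa using nm_X_pow 1

theorem nm_neg (f : ℤ[X]) : nm (-f) = nm f := by simp [nm, support_neg]

theorem nm_add_le (f g : ℤ[X]) : nm (f + g) ≤ nm f + nm g := by
  rw [nm_eq_sum_of_subset (f + g) support_add,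
    nm_eq_sum_of_subset f (s := f.support ∪ g.support) Finset.subset_union_left,
    nm_eq_sum_of_subset g (s := f.support ∪ g.support) Finset.subset_union_right,
    ← Finset.sum_add_distrib]
  exact Finset.sum_le_sum fun i _ => by rw [coeff_add]; exact Int.natAbs_add_le _ _

theorem nm_sub_le (f g : ℤ[X]) : nm (f - g) ≤ nm f + nm g := by
  rw [sub_eq_add_neg]; exact (nm_add_le _ _).trans (by rw [nm_neg])

theorem nm_sum_le {α : Type*} (s : Finset α) (f : α → ℤ[X]) :
    nm (∑ a ∈ s, f a) ≤ ∑ a ∈ s, nm (f a) := by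
  classical
  induction s using Finset.induction_on with
  | empty => simp
  | insert a s ha ih =>
    rw [Finset.sum_insert ha, Finset.sum_insert ha]
    exact (nm_add_le _ _).trans (by omega)

theorem nm_mul_le (f g : ℤ[X]) : nm (f * g) ≤ nm f * nm g := by
  conv_lhs => rw [f.as_sum_support, g.as_sum_support, Finset.sum_mul_sum]
  refine (nm_sum_le _ _).trans ?_
  unfold nm
  rw [Finset.sum_mul_sum]
  refine Finset.sum_le_sum fun a _ => ?_
  refine (nm_sum_le _ _).trans (Finset.sum_le_sum fun c _ => ?_)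
  rw [monomial_mul_monomial, nm_monomial, Int.natAbs_mul]

theorem nm_prod_le {α : Type*} (s : Finset α) (f : α → ℤ[X]) :
    nm (∏ a ∈ s, f a) ≤ ∏ a ∈ s, nm (f a) := by
  classical
  induction s using Finset.induction_on with
  | empty => simp [nm_one]
  | insert a s ha ih =>
    rw [Finset.prod_insert ha, Finset.prod_insert ha]
    exact (nm_mul_le _ _).trans (Nat.mul_le_mul_left _ ih)

theorem nm_pow_le (f : ℤ[X]) (e : ℕ) : nm (f ^ e) ≤ nm f ^ e := by
  induction e with
  | zero => simp [nm_one]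
  | succ e ih =>
    rw [pow_succ, pow_succ]
    exact (nm_mul_le _ _).trans (Nat.mul_le_mul_right _ ih)

theorem nm_le_of_coeff (f : ℤ[X]) {d A : ℕ} (hd : f.natDegree ≤ d)
    (hA : ∀ i, (f.coeff i).natAbs ≤ A) : nm f ≤ (d + 1) * A := by
  rw [nm_eq_sum_of_subset f (s := Finset.range (d + 1))
    (fun i hi => Finset.mem_range.mpr (Nat.lt_succ_of_le ((le_natDegree_of_mem_supp i hi).trans hd)))]
  refine (Finset.sum_le_sum fun i _ => hA i).trans ?_
  simp

theorem nm_pos {f : ℤ[X]} (hf : f ≠ 0) : 0 < nm f :=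
  lt_of_lt_of_le (Int.natAbs_pos.mpr (leadingCoeff_ne_zero.mpr hf)) (natAbs_coeff_le_nm f _)

/-- Determinant bound. -/
theorem nm_det_le {n : Type*} [Fintype n] [DecidableEq n] (A : Matrix n n ℤ[X]) {H : ℕ}
    (hA : ∀ i j, nm (A i j) ≤ H) : nm A.det ≤ (Fintype.card n * H) ^ Fintype.card n := by
  rw [Matrix.det_apply]
  refine (nm_sum_le _ _).trans ?_
  have h1 : ∀ σ : Equiv.Perm n, nm (Equiv.Perm.sign σ • ∏ i, A (σ i) i) ≤ H ^ Fintype.card n := by
    intro σ
    have h2 : nm (∏ i, A (σ i) i) ≤ H ^ Fintype.card n := by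
      refine (nm_prod_le _ _).trans ?_
      calc ∏ i, nm (A (σ i) i) ≤ ∏ _i : n, H := Finset.prod_le_prod' fun i _ => hA _ _
        _ = H ^ Fintype.card n := by simp
    rcases Int.units_eq_one_or (Equiv.Perm.sign σ) with h | h <;> rw [h]
    · simpa using h2
    · simpa [nm_neg] using h2
  refine (Finset.sum_le_sum fun σ _ => h1 σ).trans ?_
  rw [Finset.sum_const, Finset.card_univ, Fintype.card_perm, smul_eq_mul, mul_pow]
  exact Nat.mul_le_mul_right _ (Nat.factorial_le_pow _)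

end nm

section th

theorem coeff_th (f : ℤ[X]) (n : ℕ) : (th f).coeff n = n * f.coeff n := by
  unfold th
  cases n with
  | zero => simp
  | succ n => rw [coeff_X_mul, coeff_derivative]; push_cast; ring

theorem coeff_th_iterate (f : ℤ[X]) (e n : ℕ) : (th^[e] f).coeff n = (n : ℤ) ^ e * f.coeff n := by
  induction e with
  | zero => simp
  | succ e ih => rw [Function.iterate_succ_apply', coeff_th, ih]; ring

theorem th_add (f g : ℤ[X]) : th (f + g) = th f + th g := by simp [th, mul_add]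

theorem th_sub (f g : ℤ[X]) : th (f - g) = th f - th g := by simp [th, mul_sub]

theorem th_mul (f g : ℤ[X]) : th (f * g) = th f * g + f * th g := by
  simp only [th, derivative_mul]; ring

theorem th_sum {α : Type*} (s : Finset α) (f : α → ℤ[X]) :
    th (∑ a ∈ s, f a) = ∑ a ∈ s, th (f a) := by
  simp only [th, derivative_sum, Finset.mul_sum]

theorem X_pow_dvd_th {f : ℤ[X]} {t : ℕ} (h : X ^ t ∣ f) : X ^ t ∣ th f := by
  rw [X_pow_dvd_iff] at h ⊢
  intro d hd
  rw [coeff_th, h d hd, mul_zero]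

theorem natDegree_th_le (f : ℤ[X]) : (th f).natDegree ≤ f.natDegree := by
  rw [natDegree_le_iff_coeff_eq_zero]
  intro N hN
  rw [coeff_th, coeff_eq_zero_of_natDegree_lt hN, mul_zero]

theorem nm_th_le (f : ℤ[X]) : nm (th f) ≤ f.natDegree * nm f := by
  have hs : (th f).support ⊆ f.support := by
    intro i hi
    rw [mem_support_iff] at hi ⊢
    intro h
    exact hi (by rw [coeff_th, h, mul_zero])
  rw [nm_eq_sum_of_subset _ hs, nm, Finset.mul_sum]
  refine Finset.sum_le_sum fun i hi => ?_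
  rw [coeff_th, Int.natAbs_mul, Int.natAbs_natCast]
  exact Nat.mul_le_mul_right _ (le_natDegree_of_mem_supp i hi)

/-- Cancelling a factor of order at most `θ`. -/
theorem X_pow_dvd_of_mul {f g : ℤ[X]} {θ T : ℕ} (hf : ¬ X ^ (θ + 1) ∣ f) (h : X ^ T ∣ f * g) :
    X ^ (T - θ) ∣ g := by
  have hf0 : f ≠ 0 := fun h0 => hf (by rw [h0]; exact dvd_zero _)
  by_cases hg : g = 0
  · rw [hg]; exact dvd_zero _
  have h1 : f.natTrailingDegree ≤ θ := by
    by_contra hlt
    apply hf
    rw [X_pow_dvd_iff]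
    intro d hd
    exact coeff_eq_zero_of_lt_natTrailingDegree (by omega)
  have h2 : T ≤ (f * g).natTrailingDegree := by
    rw [X_pow_dvd_iff] at h
    by_contra hlt
    exact (mul_ne_zero hf0 hg) (trailingCoeff_eq_zero.mp (h _ (by omega)))
  rw [natTrailingDegree_mul hf0 hg] at h2
  rw [X_pow_dvd_iff]
  intro d hd
  exact coeff_eq_zero_of_lt_natTrailingDegree (by omega)

theorem not_X_pow_dvd_of_natDegree {f : ℤ[X]} {d : ℕ} (hf : f ≠ 0) (hd : f.natDegree ≤ d) :
    ¬ X ^ (d + 1) ∣ f := fun h => by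
  have := natDegree_le_of_dvd h hf
  rw [natDegree_X_pow] at this
  omega

theorem not_X_pow_dvd_mul {f g : ℤ[X]} {s t : ℕ} (hf : ¬ X ^ (s + 1) ∣ f)
    (hg : ¬ X ^ (t + 1) ∣ g) : ¬ X ^ (s + t + 1) ∣ f * g := fun h => by
  have := X_pow_dvd_of_mul hf h
  rw [show s + t + 1 - s = t + 1 by omega] at this
  exact hg this

theorem not_X_pow_dvd_pow {f : ℤ[X]} {s : ℕ} (hf : ¬ X ^ (s + 1) ∣ f) (k : ℕ) :
    ¬ X ^ (k * s + 1) ∣ f ^ k := by
  induction k with
  | zero =>
    simp only [zero_mul, zero_add, pow_one, pow_zero]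
    exact fun h => by simpa using natDegree_le_of_dvd h one_ne_zero
  | succ k ih =>
    rw [pow_succ f k, show (k + 1) * s + 1 = k * s + s + 1 by ring]
    exact not_X_pow_dvd_mul ih hf

end th

section ev

theorem ev_X (B : ℕ) : ev B X = (B : ℚ)⁻¹ := by simp [ev]

theorem ev_C (B : ℕ) (a : ℤ) : ev B (C a) = a := by simp [ev]

theorem ev_monomial (B n : ℕ) (a : ℤ) : ev B (monomial n a) = a * ((B : ℚ)⁻¹) ^ n := by
  simp [ev, aeval_monomial]

theorem ev_eq_sum (B : ℕ) (f : ℤ[X]) :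
    ev B f = ∑ i ∈ f.support, (f.coeff i : ℚ) * ((B : ℚ)⁻¹) ^ i := by
  conv_lhs => rw [f.as_sum_support, map_sum]
  exact Finset.sum_congr rfl fun i _ => ev_monomial B i _

theorem abs_ev_le {B : ℕ} (hB : 1 ≤ B) {f : ℤ[X]} {t : ℕ} (h : X ^ t ∣ f) :
    |ev B f| ≤ nm f / (B : ℚ) ^ t := by
  have hB1 : (1 : ℚ) ≤ B := by exact_mod_cast hB
  have hB0 : (0 : ℚ) < B := by linarith
  rw [ev_eq_sum, nm]
  push_cast
  rw [Finset.sum_div]
  refine (Finset.abs_sum_le_sum_abs _ _).trans (Finset.sum_le_sum fun i hi => ?_)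
  have hti : t ≤ i := by
    by_contra hlt
    exact (mem_support_iff.mp hi) (X_pow_dvd_iff.mp h i (by omega))
  rw [abs_mul, abs_of_pos (by positivity : (0 : ℚ) < ((B : ℚ)⁻¹) ^ i), inv_pow, div_eq_mul_inv]
  have : (((f.coeff i).natAbs : ℕ) : ℚ) = |(f.coeff i : ℚ)| := by
    rw [Nat.cast_natAbs, Int.cast_abs]
  rw [this]
  exact mul_le_mul_of_nonneg_left (inv_anti₀ (by positivity) (pow_le_pow_right₀ hB1 hti))
    (abs_nonneg _)

theorem abs_ev_le_nm {B : ℕ} (hB : 1 ≤ B) (f : ℤ[X]) : |ev B f| ≤ nm f := by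
  simpa using abs_ev_le hB (f := f) (t := 0) (by simp)

/-- `B ^ d * f (1 / B)` is an integer. -/
theorem exists_int_ev {B : ℕ} (hB : 1 ≤ B) {f : ℤ[X]} {d : ℕ} (hd : f.natDegree ≤ d) :
    ∃ z : ℤ, (z : ℚ) = (B : ℚ) ^ d * ev B f := by
  have hB0 : (B : ℚ) ≠ 0 := by positivity
  refine ⟨∑ i ∈ f.support, f.coeff i * (B : ℤ) ^ (d - i), ?_⟩
  rw [ev_eq_sum, Finset.mul_sum]
  push_cast
  refine Finset.sum_congr rfl fun i hi => ?_
  have : i ≤ d := (le_natDegree_of_mem_supp i hi).trans hd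
  rw [pow_sub₀ _ hB0 this, inv_pow]; ring

/-- A nonzero polynomial of norm less than `B` does not vanish at `1 / B`. -/
theorem ev_ne_zero {B : ℕ} {f : ℤ[X]} (hf : f ≠ 0) (h : nm f < B) : ev B f ≠ 0 := by
  intro h0
  have hB : 1 ≤ B := by omega
  have hB0 : (B : ℚ) ≠ 0 := by positivity
  set d := f.natDegree with hd
  have key : ∑ i ∈ f.support, f.coeff i * (B : ℤ) ^ (d - i) = 0 := by
    have : ((∑ i ∈ f.support, f.coeff i * (B : ℤ) ^ (d - i) : ℤ) : ℚ) = (B : ℚ) ^ d * ev B f := by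
      rw [ev_eq_sum, Finset.mul_sum]
      push_cast
      refine Finset.sum_congr rfl fun i hi => ?_
      have : i ≤ d := le_natDegree_of_mem_supp i hi
      rw [pow_sub₀ _ hB0 this, inv_pow]; ring
    rw [h0, mul_zero] at this
    exact_mod_cast this
  have hmem : d ∈ f.support := natDegree_mem_support_of_nonzero hf
  rw [← Finset.add_sum_erase _ _ hmem, Nat.sub_self, pow_zero, mul_one] at key
  have hdvd : (B : ℤ) ∣ f.coeff d := by
    rw [eq_neg_of_add_eq_zero_left key, dvd_neg]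
    refine Finset.dvd_sum fun i hi => Dvd.dvd.mul_left (dvd_pow_self _ ?_) _
    have h1 := Finset.ne_of_mem_erase hi
    have h2 : i ≤ d := le_natDegree_of_mem_supp i (Finset.mem_of_mem_erase hi)
    omega
  have h3 := Int.natAbs_le_of_dvd_ne_zero hdvd (mem_support_iff.mp hmem)
  have h4 := natAbs_coeff_le_nm f d
  rw [Int.natAbs_natCast] at h3
  omega

end ev

end Pool.Agent.Lib.MP_f2f914_nt.EAB
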