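import Pool.Agent.Lib.MP_f2f914_nt.EAB.Small

namespace Pool.Agent.Lib.MP_f2f914_nt.EAB

open Polynomial

theorem abs_aeval_sub_le {𝕜 : Type*} [Field 𝕜] [LinearOrder 𝕜] [IsStrictOrderedRing 𝕜]
    (P : ℤ[X]) (D A : ℕ) (hP : P.natDegree ≤ D) (hcoef : ∀ i, (P.coeff i).natAbs ≤ A) (R x y : 𝕜)
    (hR : 1 ≤ R) (hx : |x| ≤ R) (hy : |y| ≤ R) :
    |aeval x P - aeval y P| ≤ ((D + 1) * D * A : ℕ) * R ^ D * |x - y| := by
  rw [aeval_eq_sum_range' (Nat.lt_succ_of_le hP), aeval_eq_sum_range' (Nat.lt_succ_of_le hP),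
    ← Finset.sum_sub_distrib]
  refine (Finset.abs_sum_le_sum_abs _ _).trans ((Finset.sum_le_card_nsmul _ _
    (A * (|x - y| * D * R ^ D)) fun i hi => ?_).trans_eq ?_)
  · have h1 := Nat.le_of_lt_succ (Finset.mem_range.1 hi)
    have h2 : |(P.coeff i : 𝕜)| ≤ A := by
      rw [← Int.cast_abs, ← Nat.cast_natAbs]
      exact Nat.cast_le.2 (hcoef i)
    rw [← smul_sub, zsmul_eq_mul, abs_mul]
    refine mul_le_mul h2 ((abs_pow_sub_pow_le x y i).trans (mul_le_mul (by gcongr)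
      ((pow_le_pow_left₀ (by positivity) (max_le hx hy) _).trans
        (pow_le_pow_right₀ hR (by omega))) (by positivity) (by positivity))) (abs_nonneg _)
      A.cast_nonneg
  · rw [Finset.card_range, nsmul_eq_mul]
    push_cast
    ring

theorem no_rat_root (P : ℤ[X]) (hirr : Irreducible (P.map (Int.castRingHom ℚ))) (x : ℝ)
    (hx : Irrational x) (hroot : aeval x P = 0) (r : ℚ) : aeval r P ≠ 0 := by
  intro h
  rw [← algebraMap_int_eq] at hirr
  obtain ⟨g, hg⟩ : X - C r ∣ P.map (algebraMap ℤ ℚ) :=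
    dvd_iff_isRoot.2 (by rwa [IsRoot, eval_map_algebraMap])
  have h1 := ((hirr.isUnit_or_isUnit hg).resolve_left (not_isUnit_X_sub_C r)).map (aeval x)
  rw [← aeval_map_algebraMap ℚ, hg, map_mul, mul_eq_zero_iff_right h1.ne_zero] at hroot
  exact hx.ne_rat r (by simpa [sub_eq_zero] using hroot)

theorem two_le_natDegree (P : ℤ[X]) (hirr : Irreducible (P.map (Int.castRingHom ℚ))) (x : ℝ)
    (hx : Irrational x) (hroot : aeval x P = 0) : 2 ≤ P.natDegree := by
  by_contra h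
  have h1 := hirr.natDegree_pos
  have h2 : (P.map (Int.castRingHom ℚ)).natDegree ≤ P.natDegree := natDegree_map_le
  obtain ⟨r, hr⟩ := exists_root_of_degree_eq_one (p := P.map (Int.castRingHom ℚ))
    ((degree_eq_iff_natDegree_eq_of_pos one_pos).2 (by omega))
  exact no_rat_root P hirr x hx hroot r (by
    rwa [IsRoot, ← algebraMap_int_eq, eval_map_algebraMap] at hr)

theorem deriv_sum {u : ℚ[X]} {n D : ℕ} (h : u.degree < n) (h1 : n ≤ D) (h2 : 0 < D) :
    ∑ i : Fin D, C (u.coeff i) * X ^ (i : ℕ) = u := by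
  rw [Fin.sum_univ_eq_sum_range (fun i => C (u.coeff i) * X ^ i)]
  refine (as_sum_range_C_mul_X_pow' u ?_).symm
  rcases eq_or_ne u 0 with rfl | k
  · exact h2
  · exact ((natDegree_lt_iff_degree_lt k).2 h).trans_le h1

/-- Where `P` is small, `P'` is not. -/
theorem deriv_lower (P : ℤ[X]) (hirr : Irreducible (P.map (Int.castRingHom ℚ))) (D A : ℕ)
    (hP : P.natDegree ≤ D) (hcoef : ∀ i, (P.coeff i).natAbs ≤ A) (hA : 2 * D + 2 ≤ A) (x : ℚ)
    (hx : |x| ≤ A) (hsmall : |aeval x P| ≤ 1 / (A : ℚ) ^ (7 * D + 4)) :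
    1 / (A : ℚ) ^ (7 * D + 4) ≤ |aeval x (derivative P)| := by
  by_contra! hlt
  obtain ⟨f, hf⟩ : ∃ f, f = P.map (Int.castRingHom ℚ) := ⟨_, rfl⟩
  have fd : f.natDegree ≤ D := hf ▸ natDegree_map_le.trans hP
  rw [← hf] at hirr
  have f0 := hirr.natDegree_pos
  have hP' := (natDegree_derivative_le P).trans ((Nat.sub_le _ _).trans hP)
  obtain ⟨u, v, hu, hv, e⟩ := exists_mul_add_mul_eq_C_resultant f (derivative f) le_rfl le_rfl
    (.inl f0.ne')
  have r0 : f.resultant (derivative f) ≠ 0 := fun k =>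
    (resultant_eq_zero_iff.1 k).2 hirr.separable
  obtain ⟨g, hg⟩ : ∃ g : Fin D ⊕ Fin D → ℤ[X], g = Sum.elim (fun _ => P) fun _ => derivative P :=
    ⟨_, rfl⟩
  obtain ⟨n, hn⟩ : ∃ n : Fin D ⊕ Fin D → Fin D, n = Sum.elim id id := ⟨_, rfl⟩
  have g1 : ∀ t, (g t).natDegree ≤ D := by
    rw [hg]
    rintro (t | t)
    exacts [hP, hP']
  have g2 : ∀ t, |aeval x (g t)| ≤ 1 / (A : ℚ) ^ (7 * D + 4) := by
    rw [hg]
    rintro (t | t)
    exacts [hsmall, hlt.le]
  have g3 : ∀ t k, ((g t).coeff k).natAbs ≤ A * A := by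
    rw [hg]
    rintro (t | t) k
    · exact (hcoef k).trans (Nat.le_mul_self A)
    · rw [Sum.elim_inr, coeff_derivative]
      rcases Nat.lt_or_ge D (k + 1) with h | h
      · simp [coeff_eq_zero_of_natDegree_lt (hP.trans_lt h)]
      · rw [Int.natAbs_mul]
        exact Nat.mul_le_mul (hcoef _) (by omega)
  have g4 : ∀ t k, ((X ^ (n t : ℕ) * g t).coeff k).natAbs ≤ A * A := fun t k => by
    rw [coeff_X_pow_mul']
    split_ifs
    exacts [g3 _ _, Nat.zero_le _]
  have key : ∀ k, ∑ t, Sum.elim (fun i : Fin D => u.coeff i) (fun i : Fin D => v.coeff i) t *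
      ((X ^ (n t : ℕ) * g t).coeff k : ℚ) = (C (f.resultant (derivative f))).coeff k := fun k => by
    have c : ∀ p : ℤ[X], (p.coeff k : ℚ) = (p.map (Int.castRingHom ℚ)).coeff k := fun p => by
      rw [coeff_map, eq_intCast]
    rw [← deriv_sum hu ((natDegree_derivative_le f).trans ((Nat.sub_le _ _).trans fd))
      (f0.trans_le fd), ← deriv_sum hv fd (f0.trans_le fd), mul_comm f, mul_comm (derivative f)]
      at e
    simp only [← e, c, Fintype.sum_sum_type, hg, hn, Sum.elim_inl, Sum.elim_inr, id,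
      Polynomial.map_mul, Polynomial.map_pow, map_X, ← derivative_map, ← hf, coeff_add,
      Finset.sum_mul, finsetSum_coeff, mul_assoc, coeff_C_mul]
  obtain ⟨d, d1, d2, d3⟩ := small_comb (fun t (i : Fin (2 * D)) =>
    (X ^ (n t : ℕ) * g t).coeff (i + 1)) (fun t => (X ^ (n t : ℕ) * g t).coeff 0) (A * A)
    (Nat.mul_pos (by omega) (by omega)) (fun _ _ => g4 _ _) _
    (fun i => (key _).trans (coeff_C_succ)) (by rwa [key, coeff_C_zero])
  have w : ∑ t, C (d t) * (X ^ (n t : ℕ) * g t) = C (∑ t, d t * (X ^ (n t : ℕ) * g t).coeff 0) := by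
    ext k
    simp only [finsetSum_coeff, coeff_C_mul]
    rcases k with _ | k
    · rw [coeff_C_zero]
    · rw [coeff_C_succ]
      rcases Nat.lt_or_ge k (2 * D) with h | h
      · exact d1 ⟨k, h⟩
      · refine Finset.sum_eq_zero fun t _ => mul_eq_zero_of_right _
          (coeff_eq_zero_of_natDegree_lt (natDegree_mul_le.trans_lt ?_))
        have := g1 t
        have := (n t).2
        rw [natDegree_X_pow]
        omega
  have a1 : (1 : ℚ) < A := by exact_mod_cast (by omega : 1 < A)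
  have w1 := congrArg (fun p => |aeval x p|) w
  simp only [map_sum (aeval x), map_mul, map_pow, aeval_X, eq_intCast, map_intCast] at w1
  have w2 : (1 : ℚ) ≤ (∑ t, (d t).natAbs : ℕ) * (A ^ D * (1 / (A : ℚ) ^ (7 * D + 4))) := by
    refine le_trans (by exact_mod_cast Int.one_le_abs d2) (w1.symm.trans_le
      ((Finset.abs_sum_le_sum_abs _ _).trans ?_))
    rw [Nat.cast_sum, Finset.sum_mul]
    refine Finset.sum_le_sum fun t _ => ?_
    rw [abs_mul, abs_mul, abs_pow, Nat.cast_natAbs, Int.cast_abs]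
    exact mul_le_mul_of_nonneg_left (mul_le_mul ((pow_le_pow_left₀ (abs_nonneg _) hx _).trans
      (pow_le_pow_right₀ a1.le (n t).2.le)) (g2 t) (abs_nonneg _) (by positivity)) (abs_nonneg _)
  have w3 : ∑ t, (d t).natAbs ≤ A ^ (6 * D + 3) := d3.trans (by
    rw [Fintype.card_fin, show 6 * D + 3 = 3 * (2 * D + 1) by ring, pow_mul]
    exact Nat.pow_le_pow_left ((Nat.mul_le_mul_right _ (by omega)).trans_eq
      (show A * (A * A) = A ^ 3 by ring)) _)
  have w4 := w2.trans (mul_le_mul_of_nonneg_right (Nat.cast_le.2 w3) (by positivity))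
  rw [← mul_assoc, Nat.cast_pow, ← pow_add, mul_one_div, one_le_div (by positivity)] at w4
  exact (pow_lt_pow_right₀ a1 (by omega)).not_ge w4

end Pool.Agent.Lib.MP_f2f914_nt.EAB
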