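import Pool.Agent.Lib.MP_f2f914_nt.EAB.Defs

namespace Pool.Agent.Lib.MP_f2f914_nt.EAB

open Polynomial

/-- Simultaneous Dirichlet approximation. -/
theorem dirichlet_sim (U : Finset ℕ) (n Q : ℕ) (hn : 1 ≤ n) (hQ : 1 ≤ Q) :
    ∃ (q : ℕ) (π : ℕ → ℕ), 1 ≤ q ∧ q ≤ Q ^ U.card ∧
      ∀ s ∈ U, (Q : ℤ) * |(q : ℤ) * s - (π s : ℤ) * n| < n := by
  let cell : Fin (Q ^ U.card + 1) → U → Fin Q := fun q s =>
    ⟨Q * (q.val * s.val % n) / n, Nat.div_lt_of_lt_mul (by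
      rw [mul_comm n Q]
      exact Nat.mul_lt_mul_of_pos_left (Nat.mod_lt _ hn) hQ)⟩
  have key : ∀ x y : Fin (Q ^ U.card + 1), x < y → cell x = cell y →
      ∃ (q : ℕ) (π : ℕ → ℕ), 1 ≤ q ∧ q ≤ Q ^ U.card ∧
        ∀ s ∈ U, (Q : ℤ) * |(q : ℤ) * s - (π s : ℤ) * n| < n := fun x y hxy h => by
    have h0 : x.val < y.val := hxy
    have hy := y.2
    refine ⟨y.val - x.val, fun s => y.val * s / n - x.val * s / n, by omega, by omega,
      fun s hs => ?_⟩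
    have h1 : Q * (x.val * s % n) / n = Q * (y.val * s % n) / n :=
      congrArg Fin.val (congrFun h ⟨s, hs⟩)
    have h2 : x.val * s / n ≤ y.val * s / n := Nat.div_le_div_right (Nat.mul_le_mul_right _ h0.le)
    have a1 := Nat.div_add_mod (x.val * s) n
    have a2 := Nat.div_add_mod (y.val * s) n
    have b1 := Nat.div_add_mod (Q * (x.val * s % n)) n
    have b2 := Nat.div_add_mod (Q * (y.val * s % n)) n
    have c1 := Nat.mod_lt (Q * (x.val * s % n)) hn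
    have c2 := Nat.mod_lt (Q * (y.val * s % n)) hn
    rw [h1] at b1
    rw [Nat.cast_sub h0.le, Nat.cast_sub h2]
    generalize x.val * s / n = u1 at *
    generalize y.val * s / n = u2 at *
    generalize x.val * s % n = r1 at *
    generalize y.val * s % n = r2 at *
    have e : ((y.val : ℤ) - x.val) * s - ((u2 : ℤ) - u1) * n = (r2 : ℤ) - r1 := by
      zify at a1 a2
      linear_combination a1 - a2
    rw [e, ← Int.abs_natCast Q, ← abs_mul, mul_sub, ← Nat.cast_mul, ← Nat.cast_mul, abs_lt]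
    omega
  obtain ⟨x, y, hne, h⟩ := Fintype.exists_ne_map_eq_of_card_lt cell (by simp)
  rcases lt_or_gt_of_ne hne with h' | h'
  · exact key x y h' h
  · exact key y x h' h.symm

theorem dirichlet_card {E : Finset ℕ} {T n : ℕ} (hn : 1 ≤ n) (hE : ∀ s ∈ E, s ≤ 2 * T * n)
    (hsp : ∀ s ∈ E, ∀ s' ∈ E, s < s' → s + n ≤ s') : E.card ≤ 2 * T + 1 := by
  have h : ∀ s ∈ E, ∀ s' ∈ E, s < s' → s / n < s' / n := fun s hs s' hs' h => by
    have := Nat.div_le_div_right (c := n) (hsp s hs s' hs' h)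
    rwa [Nat.add_div_right _ hn] at this
  rw [← Finset.card_range (2 * T + 1)]
  refine Finset.card_le_card_of_injOn (· / n) (fun s hs => ?_) fun s hs s' hs' e => ?_
  · exact Finset.mem_coe.2 (Finset.mem_range.2 (Nat.lt_succ_of_le
      (Nat.div_le_of_le_mul (by rw [mul_comm]; exact hE s hs))))
  · rcases lt_trichotomy s s' with k | k | k
    · exact absurd e (h s hs s' hs' k).ne
    · exact k
    · exact absurd e (h s' hs' s hs k).ne'

theorem dirichlet_near {T n Q Λ s p : ℕ} (hQ : 1 ≤ Q) (hΛ : 1 ≤ Λ) (hs : s ≤ 2 * T * n)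
    (h : (Q : ℤ) * |(Λ : ℤ) * s - (p : ℤ) * n| < n) :
    s ≤ n / Λ / Q + 2 * Λ * T + 3 + p * (n / Λ) ∧
      p * (n / Λ) ≤ n / Λ / Q + 2 * Λ * T + 3 + s := by
  have a1 := Nat.div_add_mod n Λ
  have a2 := Nat.mod_lt n hΛ
  have b1 := Nat.div_add_mod (n / Λ) Q
  have b2 := Nat.mod_lt (n / Λ) hQ
  generalize n / Λ = n₀ at *
  generalize n % Λ = ρ at *
  generalize n₀ / Q = w at *
  generalize n₀ % Q = τ at *
  obtain ⟨δ, hδ⟩ : ∃ δ : ℤ, δ = |(Λ : ℤ) * s - (p : ℤ) * n| := ⟨_, rfl⟩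
  have d0 : 0 ≤ δ := hδ ▸ abs_nonneg _
  have d1 : (Λ : ℤ) * s - (p : ℤ) * n ≤ δ := hδ ▸ le_abs_self _
  have d2 : -((Λ : ℤ) * s - (p : ℤ) * n) ≤ δ := hδ ▸ neg_le_abs _
  rw [← hδ] at h
  zify at a1 a2 b1 b2 hQ hΛ hs ⊢
  have p0 : (0 : ℤ) ≤ p := Int.natCast_nonneg _
  have r0 : (0 : ℤ) ≤ ρ := Int.natCast_nonneg _
  have k1 : δ < n := by nlinarith
  have k2 : (p : ℤ) < 2 * Λ * T + 1 := by
    refine lt_of_mul_lt_mul_right (a := (n : ℤ)) ?_ (Int.natCast_nonneg _)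
    nlinarith [mul_le_mul_of_nonneg_left hs (show (0 : ℤ) ≤ Λ by linarith)]
  have k3 : δ < Λ * (w + 1) := by
    refine lt_of_mul_lt_mul_left (a := (Q : ℤ)) ?_ (by linarith)
    nlinarith [mul_le_mul_of_nonneg_left (show (n₀ : ℤ) + 1 ≤ Q * (w + 1) by linarith)
      (show (0 : ℤ) ≤ Λ by linarith)]
  have k4 : (p : ℤ) * ρ ≤ 2 * Λ * T * Λ :=
    mul_le_mul (by linarith) a2.le r0 (by positivity)
  have k5 : 0 ≤ (p : ℤ) * ρ := mul_nonneg p0 r0
  have k6 : (0 : ℤ) ≤ 2 * Λ * T * Λ := by positivity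
  rw [← a1] at d1 d2
  constructor
  · refine le_of_mul_le_mul_left (a := (Λ : ℤ)) ?_ (by linarith)
    nlinarith
  · refine le_of_mul_le_mul_left (a := (Λ : ℤ)) ?_ (by linarith)
    nlinarith

/-- All positions are close to multiples of one number `n₀`. -/
theorem dirichlet_model (b m T n Q : ℕ) (hb : 2 ≤ b) (hn : 1 ≤ n) (hQ : 1 ≤ Q)
    (E : Fin m → Finset ℕ) (hE : ∀ β, ∀ s ∈ E β, s ≤ 2 * T * n)
    (hsp : ∀ β, ∀ s ∈ E β, ∀ s' ∈ E β, s < s' → s + n ≤ s') :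
    ∃ (Λ n₀ : ℕ) (Ev : Fin m → Finset ℕ) (η : Fin m → ℕ → ℕ), 1 ≤ Λ ∧
      Λ ≤ Q ^ (m * (2 * T + 1)) ∧ n₀ * Λ ≤ n ∧ n < (n₀ + 1) * Λ ∧
      (∀ β p, η β p ≤ 2 * (n₀ / Q + 2 * Λ * T + 3)) ∧ (∀ β, (Ev β).card ≤ 2 * T + 1) ∧
      (4 * (n₀ / Q + 2 * Λ * T + 3) < n₀ →
        (∀ β, ∀ p ∈ Ev β, ∀ p' ∈ Ev β, p < p' → p + Λ ≤ p') ∧
        ∀ β, ev (b ^ n₀) (spS b (Ev β) (η β)) =
          (b : ℚ) ^ (n₀ / Q + 2 * Λ * T + 3) * ∑ s ∈ E β, 1 / (b : ℚ) ^ s) := by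
  classical
  obtain ⟨Λ, π, hΛ, hΛ', hπ⟩ := dirichlet_sim (Finset.univ.biUnion E) n Q hn hQ
  replace hπ : ∀ β, ∀ s ∈ E β, (Q : ℤ) * |(Λ : ℤ) * s - (π s : ℤ) * n| < n := fun β s hs =>
    hπ s (Finset.mem_biUnion.2 ⟨β, Finset.mem_univ _, hs⟩)
  have hc : ∀ β, (E β).card ≤ 2 * T + 1 := fun β => dirichlet_card hn (hE β) (hsp β)
  have hnear := fun β s hs => dirichlet_near hQ hΛ (hE β s hs) (hπ β s hs)
  refine ⟨Λ, n / Λ, fun β => (E β).image π, fun β p => if h : ∃ s ∈ E β, π s = p then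
    n / Λ / Q + 2 * Λ * T + 3 + p * (n / Λ) - h.choose else 0, hΛ,
    hΛ'.trans (Nat.pow_le_pow_right hQ ?_), Nat.div_mul_le_self _ _, ?_, fun β p => ?_,
    fun β => Finset.card_image_le.trans (hc β), fun h4 => ?_⟩
  · simpa using Finset.card_biUnion_le_card_mul Finset.univ E _ fun β _ => hc β
  · rw [mul_comm]
    exact Nat.lt_mul_div_succ n hΛ
  · beta_reduce
    split_ifs with h
    · have := (hnear β _ h.choose_spec.1).2
      rw [h.choose_spec.2] at this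
      omega
    · exact Nat.zero_le _
  have hQ2 : (2 : ℤ) ≤ Q := by
    have : Q ≠ 1 := fun e => by
      rw [e, Nat.div_one] at h4
      omega
    omega
  have sp : ∀ β, ∀ s ∈ E β, ∀ s' ∈ E β, s < s' → π s + Λ ≤ π s' := fun β s hs s' hs' h => by
    have h1 := hπ β s hs
    have h2 := hπ β s' hs'
    have h3 := hsp β s hs s' hs' h
    have h5 := mul_le_mul_of_nonneg_right hQ2 (abs_nonneg ((Λ : ℤ) * s - (π s : ℤ) * n))
    have h6 := mul_le_mul_of_nonneg_right hQ2 (abs_nonneg ((Λ : ℤ) * s' - (π s' : ℤ) * n))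
    have h7 := neg_le_abs ((Λ : ℤ) * s - (π s : ℤ) * n)
    have h8 := le_abs_self ((Λ : ℤ) * s' - (π s' : ℤ) * n)
    zify at h3 ⊢
    refine Int.le_of_lt_add_one (lt_of_mul_lt_mul_right (a := (n : ℤ)) ?_ (Int.natCast_nonneg _))
    nlinarith [mul_le_mul_of_nonneg_left h3 (Int.natCast_nonneg Λ)]
  have inj : ∀ β, ∀ s ∈ E β, ∀ s' ∈ E β, π s = π s' → s = s' := fun β s hs s' hs' e => by
    rcases lt_trichotomy s s' with k | k | k
    · have := sp β s hs s' hs' k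
      omega
    · exact k
    · have := sp β s' hs' s hs k
      omega
  refine ⟨fun β p hp p' hp' h => ?_, fun β => ?_⟩
  · obtain ⟨s, hs, rfl⟩ := Finset.mem_image.1 hp
    obtain ⟨s', hs', rfl⟩ := Finset.mem_image.1 hp'
    rcases lt_trichotomy s s' with k | rfl | k
    · exact sp β s hs s' hs' k
    · omega
    · have := sp β s' hs' s hs k
      omega
  · have hb0 : (b : ℚ) ≠ 0 := by positivity
    rw [spS, map_sum, Finset.sum_image (inj β), Finset.mul_sum]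
    refine Finset.sum_congr rfl fun s hs => ?_
    have h : ∃ s' ∈ E β, π s' = π s := ⟨s, hs, rfl⟩
    rw [ev_monomial]
    beta_reduce
    rw [dif_pos h, inj β _ h.choose_spec.1 s hs h.choose_spec.2]
    push_cast
    rw [pow_sub₀ _ hb0 (hnear β s hs).1, pow_add _ _ (π s * (n / Λ)), inv_pow, ← pow_mul,
      mul_comm (n / Λ) (π s)]
    field_simp

end Pool.Agent.Lib.MP_f2f914_nt.EAB
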