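import Pool.Agent.Lib.MP_f2f914_nt.EAB.Defs

namespace Pool.Agent.Lib.MP_f2f914_nt.EAB

open Polynomial

theorem elim_pow_lt (k H : ℕ) (hH : 1 ≤ H) : (k * H) ^ k < (2 * H) ^ 2 ^ k := by
  have h1 : ∀ k : ℕ, 2 * k ≤ 2 ^ k := fun k => by
    cases k with
    | zero => simp
    | succ k => have := Nat.lt_two_pow_self (n := k); rw [pow_succ]; omega
  have h2 : ∀ k : ℕ, (k - 1) * k < 2 ^ k := fun k => by
    induction k with
    | zero => simp
    | succ k ih =>
      have := h1 k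
      rw [pow_succ, Nat.add_sub_cancel]
      cases k with
      | zero => simp
      | succ k => rw [Nat.add_sub_cancel] at ih; nlinarith
  have h3 : k ≤ 2 ^ (k - 1) := by
    have := Nat.lt_two_pow_self (n := k - 1); omega
  rw [mul_pow, mul_pow]
  refine Nat.mul_lt_mul_of_lt_of_le ?_ (Nat.pow_le_pow_right hH Nat.lt_two_pow_self.le)
    (Nat.pow_pos hH)
  exact (Nat.pow_le_pow_left h3 k).trans_lt
    (by rw [← pow_mul]; exact Nat.pow_lt_pow_right (by norm_num) (h2 k))

theorem elim_natDegree_det {ι : Type*} [Fintype ι] [DecidableEq ι] (M : Matrix ι ι ℤ[X]) {d : ℕ}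
    (hM : ∀ i j, (M i j).natDegree ≤ d) : M.det.natDegree ≤ Fintype.card ι * d := by
  rw [Matrix.det_apply]
  refine natDegree_sum_le_of_forall_le _ _ fun σ _ => ?_
  have h1 : (∏ i, M (σ i) i).natDegree ≤ Fintype.card ι * d :=
    (natDegree_prod_le _ _).trans
      ((Finset.sum_le_card_nsmul _ _ d fun i _ => hM _ _).trans (by simp))
  rcases Int.units_eq_one_or (Equiv.Perm.sign σ) with h2 | h2 <;> rw [h2]
  · simpa using h1
  · simpa using h1

theorem elim_det_updateRow {ι R : Type*} [Fintype ι] [DecidableEq ι] [CommRing R]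
    (M : Matrix ι ι R) (i0 : ι) (u : ι → R) :
    (M.updateRow i0 u).det = ∑ j, u j * (M.updateRow i0 (Pi.single j 1)).det := by
  simp only [← Matrix.cramer_transpose_apply]
  conv_lhs => rw [pi_eq_sum_univ' u, map_sum, Finset.sum_apply]
  exact Finset.sum_congr rfl fun j _ => by rw [map_smul]; rfl

open Finset Matrix in
/-- A linear dependence of the values at `1 / B` comes from a formal one. -/
theorem elim_span {A κ : Type*} [Fintype κ] (B H lam : ℕ) (hH : 1 ≤ H) (𝒜 : Finset A)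
    (Xp : A → κ → ℤ[X]) (Y : κ → ℤ[X]) (hXd : ∀ a ∈ 𝒜, ∀ k, (Xp a k).natDegree ≤ lam)
    (hXn : ∀ a ∈ 𝒜, ∀ k, nm (Xp a k) ≤ H) (hYd : ∀ k, (Y k).natDegree ≤ lam)
    (hYn : ∀ k, nm (Y k) ≤ H) (hB : (2 * H) ^ 2 ^ Fintype.card κ ≤ B)
    (hspan : (fun k => ev B (Y k)) ∈
      Submodule.span ℚ ((fun a k => ev B (Xp a k)) '' (𝒜 : Set A))) :
    ∃ (Δ : ℤ[X]) (Δa : A → ℤ[X]), Δ ≠ 0 ∧ Δ.natDegree ≤ 2 ^ Fintype.card κ * lam ∧
      (∀ a, (Δa a).natDegree ≤ 2 ^ Fintype.card κ * lam) ∧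
      nm Δ ≤ (2 * H) ^ 2 ^ Fintype.card κ ∧ ∀ k, Δ * Y k = ∑ a ∈ 𝒜, Δa a * Xp a k := by
  classical
  let P : Finset κ → Prop := fun C => ∃ M : Matrix κ κ ℤ[X],
    (∀ i ∈ C, ∃ a ∈ 𝒜, M i = Xp a) ∧ (∀ i ∉ C, M i = Pi.single i 1) ∧ ev B M.det ≠ 0
  have h0 : P ∅ := ⟨1, by simp,
    fun i _ => by funext j; simp [Matrix.one_apply, Pi.single_apply, eq_comm], by simp⟩
  obtain ⟨C, hC, hmax⟩ := exists_max_image (univ.filter P) Finset.card ⟨∅, by simpa using h0⟩
  obtain ⟨M, hM1, hM2, hM3⟩ := (mem_filter.mp hC).2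
  have hM : ∀ i j, (M i j).natDegree ≤ lam ∧ nm (M i j) ≤ H := fun i j => by
    by_cases hi : i ∈ C
    · obtain ⟨a, ha, h⟩ := hM1 i hi
      rw [h]; exact ⟨hXd a ha j, hXn a ha j⟩
    · rw [hM2 i hi, Pi.single_apply]
      split_ifs
      · rw [nm_one]; exact ⟨by simp, hH⟩
      · simp
  have hbd : ∀ N : Matrix κ κ ℤ[X], (∀ i j, (N i j).natDegree ≤ lam ∧ nm (N i j) ≤ H) →
      N.det.natDegree ≤ 2 ^ Fintype.card κ * lam ∧ nm N.det < (2 * H) ^ 2 ^ Fintype.card κ :=
    fun N hN => ⟨(elim_natDegree_det N fun i j => (hN i j).1).trans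
      (Nat.mul_le_mul_right _ Nat.lt_two_pow_self.le),
      (nm_det_le N fun i j => (hN i j).2).trans_lt (elim_pow_lt _ H hH)⟩
  have hY : ∀ i, (M.updateRow i Y).det.natDegree ≤ 2 ^ Fintype.card κ * lam ∧
      nm (M.updateRow i Y).det < (2 * H) ^ 2 ^ Fintype.card κ := fun i => hbd _ fun i' j => by
    rw [updateRow_apply]
    split_ifs
    · exact ⟨hYd j, hYn j⟩
    · exact hM i' j
  have hz : ∀ i ∉ C, (M.updateRow i Y).det = 0 := by
    intro i0 hi0
    by_contra hne
    refine ev_ne_zero (B := B) hne ((hY i0).2.trans_le hB) ?_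
    have key : ∀ w ∈ Submodule.span ℚ ((fun a k => ev B (Xp a k)) '' (𝒜 : Set A)),
        ∑ j, w j * ev B (M.updateRow i0 (Pi.single j 1)).det = 0 := by
      intro w hw
      induction hw using Submodule.span_induction with
      | mem w hw =>
        obtain ⟨a, ha, rfl⟩ := hw
        simp only [← map_mul, ← map_sum]
        rw [← elim_det_updateRow]
        by_contra hnd
        have := hmax (insert i0 C) (mem_filter.mpr ⟨mem_univ _, M.updateRow i0 (Xp a),
          fun i hi => ?_, fun i hi => ?_, hnd⟩)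
        · rw [card_insert_of_notMem hi0] at this; omega
        · by_cases h2 : i = i0
          · exact ⟨a, ha, by rw [h2, updateRow_self]⟩
          · rw [updateRow_ne h2]; exact hM1 i ((mem_insert.mp hi).resolve_left h2)
        · rw [mem_insert, not_or] at hi
          rw [updateRow_ne hi.1]; exact hM2 i hi.2
      | zero => simp
      | add x y _ _ hx hy => simp only [Pi.add_apply, add_mul, sum_add_distrib, hx, hy, add_zero]
      | smul a x _ hx => simp only [Pi.smul_apply, smul_eq_mul, mul_assoc, ← mul_sum, hx, mul_zero]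
    rw [elim_det_updateRow, map_sum]
    simpa only [map_mul] using key _ hspan
  choose ρ hρA hρ using fun i : C => hM1 i i.2
  refine ⟨M.det, fun a => ∑ i with ρ i = a, (M.updateRow i Y).det,
    fun h => hM3 (by rw [h, map_zero]), (hbd M hM).1,
    fun a => natDegree_sum_le_of_forall_le _ _ fun i _ => (hY i).1, (hbd M hM).2.le, fun k => ?_⟩
  have h1 := congrFun (mulVec_cramer Mᵀ Y) k
  rw [det_transpose, Pi.smul_apply, smul_eq_mul] at h1
  rw [← h1]
  simp only [mulVec, dotProduct, transpose_apply, cramer_transpose_apply]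
  rw [← sum_subset (subset_univ C) fun i _ hi => by rw [hz i hi, mul_zero], ← sum_coe_sort,
    ← sum_fiberwise_of_maps_to (s := univ) (t := 𝒜) (g := ρ) fun v _ => hρA v]
  refine sum_congr rfl fun a _ => ?_
  rw [sum_mul]
  exact sum_congr rfl fun i hi => by rw [← (mem_filter.mp hi).2, hρ i, mul_comm]

end Pool.Agent.Lib.MP_f2f914_nt.EAB
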