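import Pool.Agent.Lib.MP_f2f914_nt.EAB.Defs

namespace Pool.Agent.Lib.MP_f2f914_nt.EAB

open Polynomial

/-- A polynomial of degree at most `ν` is much smaller than at `a₀` at no more than `ν` of the
well spaced points. -/
theorem few_small {A : Type*} (ν Ξ Λ : ℕ) (hΛ : 1 ≤ Λ) (hΞ : 1 ≤ Ξ) (π : A → ℕ) (𝒜 : Finset A)
    (hsp : ∀ a ∈ 𝒜, ∀ a' ∈ 𝒜, a ≠ a' →
      (Λ : ℤ) ≤ |(π a : ℤ) - π a'| ∧ |(π a : ℤ) - π a'| ≤ (Ξ * Λ : ℕ))
    (g : ℚ[X]) (hg : g.natDegree ≤ ν) (a₀ : A) (ha₀ : a₀ ∈ 𝒜) :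
    (𝒜.filter fun a => |g.eval (π a : ℚ)| * (((ν + 1) * Ξ ^ ν : ℕ) : ℚ) <
      |g.eval (π a₀ : ℚ)|).card ≤ ν := by
  classical
  have hΛ' : (0 : ℚ) < Λ := by exact_mod_cast hΛ
  have s1 : ∀ a ∈ 𝒜, ∀ a' ∈ 𝒜, a ≠ a' → (Λ : ℚ) ≤ |(π a : ℚ) - π a'| := fun a ha a' ha' n => by
    exact_mod_cast (hsp a ha a' ha' n).1
  have s2 : ∀ a ∈ 𝒜, |(π a₀ : ℚ) - π a| ≤ Ξ * Λ := fun a ha => by
    by_cases n : a₀ = a
    · simp only [n, sub_self, abs_zero]
      positivity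
    · exact_mod_cast (hsp a₀ ha₀ a ha n).2
  by_contra! hc
  obtain ⟨s, hs, hc⟩ := Finset.exists_subset_card_eq (n := ν + 1) hc
  have hs' : s ⊆ 𝒜 := hs.trans (Finset.filter_subset _ _)
  have e := congrArg (eval (π a₀ : ℚ)) (Lagrange.eq_interpolate (s := s) (v := fun a => (π a : ℚ))
    (f := g) (fun a ha a' ha' e => by
      by_contra n
      have := s1 a (hs' ha) a' (hs' ha') n
      rw [show (π a : ℚ) = π a' from e, sub_self, abs_zero] at this
      exact absurd this hΛ'.not_ge) (degree_le_natDegree.trans_lt (by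
        rw [hc]; exact_mod_cast Nat.lt_succ_of_le hg)))
  rw [Lagrange.interpolate_apply, eval_finsetSum] at e
  have b : ∀ i ∈ s, |eval (π a₀ : ℚ) (C (g.eval (π i : ℚ)) *
      Lagrange.basis s (fun a => (π a : ℚ)) i)| ≤ Ξ ^ ν * |g.eval (π i : ℚ)| := fun i hi => by
    rw [eval_mul, eval_C, abs_mul, mul_comm, Lagrange.basis, eval_prod, Finset.abs_prod]
    refine mul_le_mul_of_nonneg_right ?_ (abs_nonneg _)
    rw [show ν = (s.erase i).card by rw [Finset.card_erase_of_mem hi, hc]; rfl,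
      ← Finset.prod_const]
    refine Finset.prod_le_prod (fun _ _ => abs_nonneg _) fun j hj => ?_
    have h1 := s1 i (hs' hi) j (hs' (Finset.mem_of_mem_erase hj)) (Finset.ne_of_mem_erase hj).symm
    have h2 := s2 j (hs' (Finset.mem_of_mem_erase hj))
    simp only [Lagrange.basisDivisor, eval_mul, eval_C, eval_sub, eval_X, abs_mul, abs_inv]
    rw [inv_mul_le_iff₀ (hΛ'.trans_le h1)]
    nlinarith [(Nat.cast_nonneg Ξ : (0 : ℚ) ≤ Ξ)]
  have c : (ν + 1 : ℚ) * |g.eval (π a₀ : ℚ)| < ∑ _i ∈ s, |g.eval (π a₀ : ℚ)| :=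
    calc _ ≤ (ν + 1 : ℚ) * ∑ i ∈ s, Ξ ^ ν * |g.eval (π i : ℚ)| :=
          mul_le_mul_of_nonneg_left (e ▸ (Finset.abs_sum_le_sum_abs _ _).trans
            (Finset.sum_le_sum b)) (by positivity)
      _ < _ := by
          rw [Finset.mul_sum]
          exact Finset.sum_lt_sum_of_nonempty (Finset.card_pos.1 (by omega)) fun i hi => by
            have := (Finset.mem_filter.1 (hs hi)).2
            push_cast at this
            linarith
  rw [Finset.sum_const, hc, nsmul_eq_mul] at c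
  push_cast at c
  exact c.false

end Pool.Agent.Lib.MP_f2f914_nt.EAB
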