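import Pool.Agent.Lib.MP_f2f914_nt.EAB.Defs

namespace Pool.Agent.Lib.MP_f2f914_nt.EAB

open Polynomial

theorem numF_sC {x D k : ℕ} (hx : 6 ≤ x) (hk : k + 1 ≤ x) (hDx : D + 2 ≤ x) :
    sC k D ≤ x ^ (7 * x) := by
  have hx0 : 0 < x := by omega
  have k1 : k * D + 1 ≤ x ^ 2 := by nlinarith
  have k2 : (k * D + 1) ^ k ≤ (x ^ x) ^ 2 := by
    calc _ ≤ (x ^ 2) ^ x :=
          (Nat.pow_le_pow_left k1 _).trans (Nat.pow_le_pow_right (by positivity) (by omega))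
      _ = _ := by rw [← pow_mul, ← pow_mul, mul_comm]
  have z1 : 1 ≤ x ^ x := Nat.one_le_pow _ _ hx0
  have k4 : (k + 1) ^ D + 1 ≤ 2 * x ^ x := by
    have : (k + 1) ^ D ≤ x ^ x :=
      (Nat.pow_le_pow_left hk _).trans (Nat.pow_le_pow_right hx0 (by omega))
    omega
  have k5 : x ^ 16 ≤ (x ^ x) ^ 3 := by
    rw [← pow_mul]
    exact Nat.pow_le_pow_right hx0 (by omega)
  have k6 : 6 ^ 7 ≤ x ^ 7 := Nat.pow_le_pow_left hx _
  have e : x ^ (7 * x) = (x ^ x) ^ 3 * (x ^ x) ^ 4 := by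
    rw [← pow_add, ← pow_mul, mul_comm]
  rw [e]
  generalize x ^ x = z at *
  have k3 : aP k D + nuP k D + 1 ≤ 13 * x ^ 3 * z ^ 2 := by
    have a0 : 1 ≤ z ^ 2 := Nat.one_le_pow _ _ z1
    have a1 : nuP k D ≤ 4 * x * z ^ 2 := by
      unfold nuP
      gcongr
      omega
    have a2 : nuP k D * (3 * (k * D) + 1) ≤ 4 * x * z ^ 2 * (3 * x ^ 2) :=
      Nat.mul_le_mul a1 (by omega)
    have a3 : 2 ≤ x ^ 3 * z ^ 2 := by
      have : x ≤ x ^ 3 := Nat.le_self_pow (by norm_num) x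
      calc 2 ≤ x ^ 3 * 1 := by omega
        _ ≤ _ := by gcongr
    have e1 : aP k D + nuP k D + 1 = 2 + nuP k D * (3 * (k * D) + 1) := by
      unfold aP
      ring
    have e2 : 4 * x * z ^ 2 * (3 * x ^ 2) = 12 * (x ^ 3 * z ^ 2) := by ring
    have e3 : 13 * x ^ 3 * z ^ 2 = 13 * (x ^ 3 * z ^ 2) := by ring
    omega
  unfold sC cP
  calc _ ≤ 100 * (20 * x * (13 * x ^ 3 * z ^ 2)) * x ^ 3 * x ^ 2 * (2 * z) * (2 * z) := by gcongr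
    _ = 104000 * x ^ 9 * z ^ 4 := by ring
    _ ≤ x ^ 7 * x ^ 9 * z ^ 4 := by gcongr; omega
    _ = x ^ 16 * z ^ 4 := by ring
    _ ≤ _ := Nat.mul_le_mul_right _ k5

theorem numF_Y {x m κ : ℕ} (hx : 6 ≤ x) (hm : m ≤ x) (hκ : κ ≤ 300 * x ^ 2) :
    x ^ (7 * x) * (x ^ 3) ^ m * κ + 1 ≤ x ^ (12 * x) := by
  have hx0 : 0 < x := by omega
  have h1 : (x ^ 3) ^ m ≤ x ^ (3 * x) := by
    rw [← pow_mul]
    exact Nat.pow_le_pow_right hx0 (by omega)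
  have h2 : κ ≤ x ^ x := by
    have : 6 ^ 4 ≤ x ^ 4 := Nat.pow_le_pow_left hx _
    calc κ ≤ x ^ 4 * x ^ 2 := hκ.trans (Nat.mul_le_mul_right _ (by omega))
      _ = x ^ 6 := by ring
      _ ≤ _ := Nat.pow_le_pow_right hx0 hx
  calc _ ≤ x ^ (7 * x) * x ^ (3 * x) * x ^ x + 1 := by gcongr
    _ = x ^ (11 * x) + 1 := by rw [← pow_add, ← pow_add]; congr 2; ring
    _ ≤ _ := Nat.pow_lt_pow_right (by omega) (by omega)

theorem numF_Z {x : ℕ} (hx : 6 ≤ x) : 2 * 2 ^ (x ^ (12 * x)) ^ 10 ≤ 2 ^ x ^ (121 * x) := by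
  rw [← pow_succ', ← pow_mul]
  exact Nat.pow_le_pow_right (by norm_num) (Nat.pow_lt_pow_right (by omega) (by omega))

theorem numF_big {x : ℕ} (hx : 6 ≤ x) : 256 ≤ x ^ (12 * x) ∧ 8 * x ≤ x ^ (121 * x) := by
  have h1 : 6 ^ 4 ≤ x ^ 4 := Nat.pow_le_pow_left hx _
  have h2 : 6 ^ 2 ≤ x ^ 2 := Nat.pow_le_pow_left hx _
  refine ⟨le_trans (by omega) (Nat.pow_le_pow_right (by omega) (by omega : 4 ≤ 12 * x)), ?_⟩
  calc 8 * x ≤ x ^ 2 * x := Nat.mul_le_mul_right _ (by omega)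
    _ = x ^ 3 := by ring
    _ ≤ _ := Nat.pow_le_pow_right (by omega) (by omega)

end Pool.Agent.Lib.MP_f2f914_nt.EAB
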