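import Pool.Agent.Lib.MP_f2f914_nt.EAB.Defs

namespace Pool.Agent.Lib.MP_f2f914_nt.EAB

open Polynomial

theorem natAbs_det_le_prod {n : Type*} [Fintype n] [DecidableEq n] (A : Matrix n n ℤ) :
    A.det.natAbs ≤ ∏ i, ∑ j, (A i j).natAbs := by
  classical
  rw [← Matrix.det_transpose, Matrix.det_apply, Finset.prod_univ_sum]
  refine (Int.natAbs_sum_le _ _).trans ?_
  have h1 : ∀ σ : Equiv.Perm n, (Equiv.Perm.sign σ • ∏ i, A.transpose (σ i) i).natAbs =
      ∏ i, (A i (σ i)).natAbs := by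
    intro σ
    have h2 : (∏ i, A.transpose (σ i) i).natAbs = ∏ i, (A i (σ i)).natAbs :=
      map_prod Int.natAbsHom _ _
    rcases Int.units_eq_one_or (Equiv.Perm.sign σ) with h | h <;> rw [h]
    · rw [one_smul, h2]
    · rw [Units.neg_smul, one_smul, Int.natAbs_neg, h2]
  simp only [h1]
  rw [← Finset.sum_image (s := Finset.univ) (g := fun σ : Equiv.Perm n => (σ : n → n))
    (f := fun f : n → n => ∏ i, (A i (f i)).natAbs) fun σ _ τ _ h => Equiv.ext (congrFun h)]
  exact Finset.sum_le_sum_of_subset fun f _ => by simp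

/-- The maximum principle. -/
theorem values_max {S : Type*} [Fintype S] (b : ℕ) (hb : 2 ≤ b) (nx : S → Option S)
    (Y c : S → ℤ) (C : ℕ) (hc : ∀ s, (c s).natAbs ≤ C)
    (h : ∀ s, (b : ℤ) * Y s = c s + (nx s).elim 0 Y) (s : S) : (Y s).natAbs ≤ C := by
  obtain ⟨t, -, ht⟩ := Finset.exists_max_image Finset.univ (fun s => (Y s).natAbs)
    ⟨s, Finset.mem_univ s⟩
  have h1 : ((nx t).elim 0 Y).natAbs ≤ (Y t).natAbs := by
    cases nx t with
    | none => simp
    | some u => exact ht u (Finset.mem_univ u)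
  have h2 : b * (Y t).natAbs ≤ C + (Y t).natAbs := by
    have := congrArg Int.natAbs (h t)
    rw [Int.natAbs_mul, Int.natAbs_natCast] at this
    rw [this]
    exact (Int.natAbs_add_le _ _).trans (add_le_add (hc t) h1)
  have h3 : 2 * (Y t).natAbs ≤ b * (Y t).natAbs := Nat.mul_le_mul_right _ hb
  have h4 := ht s (Finset.mem_univ s)
  omega

/-- The linear system on a finite set of states. -/
theorem values_solve {S : Type*} [Fintype S] (b : ℕ) (hb : 2 ≤ b) (nx : S → Option S)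
    (d : S → ℤ) (A : ℕ) (hd : ∀ s, (d s).natAbs ≤ A) :
    ∃ (q : ℤ) (Y : S → ℤ), q ≠ 0 ∧ q.natAbs ≤ (b + 1) ^ Fintype.card S ∧
      (∀ s, (Y s).natAbs ≤ q.natAbs * A) ∧ ∀ s, (b : ℤ) * Y s = q * d s + (nx s).elim 0 Y := by
  classical
  set M : Matrix S S ℤ := Matrix.of fun s t =>
    (if t = s then (b : ℤ) else 0) - if nx s = some t then 1 else 0 with hM
  have hmul : ∀ (Y : S → ℤ) (s : S), M.mulVec Y s = b * Y s - (nx s).elim 0 Y := by
    intro Y s
    simp only [hM, Matrix.mulVec, dotProduct, Matrix.of_apply, sub_mul, Finset.sum_sub_distrib,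
      ite_mul, zero_mul, one_mul, Finset.sum_ite_eq', Finset.mem_univ, if_true]
    congr 1
    cases nx s with
    | none => simp
    | some u => simp
  have hq : M.det ≠ 0 := by
    intro h0
    obtain ⟨v, hv, hv0⟩ := Matrix.exists_mulVec_eq_zero_iff.2 h0
    apply hv
    funext s
    have := values_max b hb nx v (fun _ => 0) 0 (fun _ => le_rfl) (fun t => by
      have h1 := congrFun hv0 t
      rw [hmul, Pi.zero_apply] at h1
      linarith) s
    simpa using this
  have he : ∀ s, (b : ℤ) * M.adjugate.mulVec d s =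
      M.det * d s + (nx s).elim 0 (M.adjugate.mulVec d) := by
    intro s
    have h1 := hmul (M.adjugate.mulVec d) s
    rw [Matrix.mulVec_mulVec, Matrix.mul_adjugate, Matrix.smul_mulVec, Matrix.one_mulVec,
      Pi.smul_apply, smul_eq_mul] at h1
    linarith
  refine ⟨M.det, M.adjugate.mulVec d, hq, ?_, values_max b hb nx _ (fun s => M.det * d s) _
    (fun s => by rw [Int.natAbs_mul]; exact Nat.mul_le_mul_left _ (hd s)) he, he⟩
  refine (natAbs_det_le_prod M).trans ?_
  rw [← Finset.card_univ, ← Finset.prod_const]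
  refine Finset.prod_le_prod' fun s _ => ?_
  have h1 : ∀ t, (M s t).natAbs ≤ (if t = s then b else 0) + if nx s = some t then 1 else 0 := by
    intro t
    simp only [hM, Matrix.of_apply]
    split_ifs <;> omega
  refine (Finset.sum_le_sum fun t _ => h1 t).trans ?_
  rw [Finset.sum_add_distrib]
  refine add_le_add (by simp) ?_
  cases nx s with
  | none => simp
  | some u => simp

/-- The values of the default continuations, with a common denominator `q`. -/
theorem exists_values (b : ℕ) (hb : 2 ≤ b) (a : ℕ → ℤ) (A : ℕ) (ha : ∀ i, (a i).natAbs ≤ A)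
    (k N₀ N : ℕ) (ρ : ℕ → ℕ)
    (hρ : ∀ i ∈ Finset.Ico N₀ N, ρ i ∈ Finset.Ico N₀ N ∧ ∀ j < k, a (ρ i + j) = a (i + j))
    (hρ' : ∀ i ∈ Finset.Ico N₀ N, ∀ i' ∈ Finset.Ico N₀ N, (∀ j < k, a (i + j) = a (i' + j)) →
      ρ i = ρ i') :
    ∃ (q : ℤ) (y : ℕ → ℤ), q ≠ 0 ∧ q.natAbs ≤ (b + 1) ^ ((blk a k N₀ N).card + 1) ∧
      (∀ i, (y i).natAbs ≤ q.natAbs * A) ∧
      (∀ i i', (∀ j < k, a (i + j) = a (i' + j)) → y i = y i') ∧
      ∀ i ∈ Finset.Ico N₀ N, (b : ℤ) * y i = q * a (ρ i + k) + y (ρ i + 1) := by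
  classical
  have hrep : ∀ s : blk a k N₀ N, ∃ i ∈ Finset.Ico N₀ N,
      (fun j : Fin k => a (i + j)) = s.val := fun s => Finset.mem_image.1 s.2
  choose r hr hr' using hrep
  let st : ℕ → Option (blk a k N₀ N) := fun i =>
    if h : (fun j : Fin k => a (i + j)) ∈ blk a k N₀ N then some ⟨_, h⟩ else none
  obtain ⟨q, Y, hq, hq', hY, he⟩ := values_solve b hb (fun s => st (ρ (r s) + 1))
    (fun s => a (ρ (r s) + k)) A fun s => ha _
  refine ⟨q, fun i => (st i).elim 0 Y, hq, ?_, fun i => ?_, fun i i' h => ?_, fun i hi => ?_⟩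
  · rw [Fintype.card_coe] at hq'
    exact hq'.trans (Nat.pow_le_pow_right (by omega) (Nat.le_succ _))
  · show ((st i).elim 0 Y).natAbs ≤ _
    cases st i with
    | none => simp
    | some u => exact hY u
  · have h1 : (fun j : Fin k => a (i + j)) = fun j : Fin k => a (i' + j) :=
      funext fun j => h j j.2
    have h2 : st i = st i' := by simp only [st, h1]
    show (st i).elim 0 Y = (st i').elim 0 Y
    rw [h2]
  · have hm : (fun j : Fin k => a (i + j)) ∈ blk a k N₀ N := Finset.mem_image.2 ⟨i, hi, rfl⟩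
    have h1 : st i = some ⟨_, hm⟩ := dif_pos hm
    have h2 : ρ (r ⟨_, hm⟩) = ρ i :=
      hρ' _ (hr _) _ hi fun j hj => congrFun (hr' ⟨_, hm⟩) ⟨j, hj⟩
    have h3 := he ⟨_, hm⟩
    simp only [h2] at h3
    show (b : ℤ) * (st i).elim 0 Y = _
    rw [h1]
    exact h3

end Pool.Agent.Lib.MP_f2f914_nt.EAB
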