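import Pool.Agent.Lib.MP_f2f914_nt.EAB.Blocks
import Pool.Agent.Lib.MP_f2f914_nt.EAB.Values

namespace Pool.Agent.Lib.MP_f2f914_nt.EAB

open Polynomial

theorem sparse_tail (b A : ℕ) (hb : 2 ≤ b) (a : ℕ → ℤ) (ha : ∀ i, (a i).natAbs ≤ A) (x : ℝ)
    (hsum : HasSum (fun i : ℕ => (a i : ℝ) / (b : ℝ) ^ i) x) (m : ℕ) :
    |x - ∑ i ∈ Finset.range m, (a i : ℝ) / (b : ℝ) ^ i| ≤ 2 * A / (b : ℝ) ^ m := by
  have hb2 : (2 : ℝ) ≤ b := by exact_mod_cast hb
  have hb0 : (0 : ℝ) < b := by linarith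
  have h1 := (hasSum_nat_add_iff' m).2 hsum
  have h2 := hasSum_geometric_two.mul_left ((A : ℝ) / (b : ℝ) ^ m)
  rw [← h1.tsum_eq, ← Real.norm_eq_abs]
  refine (tsum_of_norm_bounded h2 fun i => ?_).trans (le_of_eq (by ring))
  have h3 : |(a (i + m) : ℝ)| ≤ A := by
    rw [← Int.cast_abs, ← Nat.cast_natAbs]
    exact_mod_cast ha (i + m)
  rw [Real.norm_eq_abs, abs_div, abs_of_pos (pow_pos hb0 _), pow_add, one_div, inv_pow,
    div_mul_eq_mul_div, div_eq_mul_inv, mul_inv, ← mul_assoc, div_eq_mul_inv]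
  refine mul_le_mul_of_nonneg_right (mul_le_mul h3 ?_ (by positivity) (by positivity))
    (by positivity)
  exact inv_anti₀ (by positivity) (pow_le_pow_left₀ (by norm_num) hb2 i)

theorem sparse_size (b L n Q c : ℕ) (hb : 2 ≤ b) (hn : 1 ≤ n) (hQ : Q ≤ (b + 1) ^ (L * n + 1))
    (hc : c ≤ b ^ (2 * n + 1)) : b ^ (2 * n) * (Q * b ^ (2 * n)) * c ≤ b ^ ((2 * L + 12) * n) := by
  have h1 : Q ≤ b ^ (2 * (L * n + 1)) := by
    rw [pow_mul]
    exact hQ.trans (Nat.pow_le_pow_left (by nlinarith) _)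
  calc b ^ (2 * n) * (Q * b ^ (2 * n)) * c
      ≤ b ^ (2 * n) * (b ^ (2 * (L * n + 1)) * b ^ (2 * n)) * b ^ (2 * n + 1) := by gcongr
    _ = b ^ (2 * n + (2 * (L * n + 1) + 2 * n) + (2 * n + 1)) := by rw [← pow_add, ← pow_add, ← pow_add]
    _ ≤ b ^ ((2 * L + 12) * n) := Nat.pow_le_pow_right (by omega) (by nlinarith)

/-- Few blocks give a sparse sum with few weights. -/
theorem sparse_of_few_blocks (b L n T : ℕ) (hb : 2 ≤ b) (hn : 1 ≤ n) (hT : 1 ≤ T)
    (a : ℕ → ℤ) (ha : ∀ i, (a i).natAbs ≤ b ^ (2 * n)) (x : ℝ)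
    (hsum : HasSum (fun i : ℕ => (a i : ℝ) / (b : ℝ) ^ i) x)
    (hfew : (blk a n n (T * n)).card ≤ L * n) :
    ∃ (w₀ : ℤ) (w : Fin (2 * L + 1) → ℤ) (E : Fin (2 * L + 1) → Finset ℕ), w₀ ≠ 0 ∧
      w₀.natAbs ≤ b ^ ((2 * L + 12) * n) ∧ (∀ β, (w β).natAbs ≤ b ^ ((2 * L + 12) * n)) ∧
      (∀ β, ∀ s ∈ E β, s ≤ (T + 1) * n) ∧
      (∀ β, ∀ s ∈ E β, ∀ s' ∈ E β, s < s' → s + (n / 4 + 1) ≤ s') ∧
      |(w₀ : ℝ) * x - ∑ β, (w β : ℝ) * ∑ s ∈ E β, 1 / (b : ℝ) ^ s| ≤
        (b : ℝ) ^ ((2 * L + 12) * n) / (b : ℝ) ^ (T * n) := by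
  classical
  obtain ⟨k, hk1, hk2, hk3⟩ := exists_length a L n n (T * n) hn hfew
  obtain ⟨ρ, hρ, hρ', hper⟩ := exists_default a k n (T * n)
  obtain ⟨ty, hty0, hty⟩ := exists_types a k n (T * n) (2 * L) ρ hρ hρ' hk3
  obtain ⟨q, y, hq0, hq, hy, hyb, hrec⟩ :=
    exists_values b hb a (b ^ (2 * n)) ha k n (T * n) ρ hρ hρ'
  have hb2 : (2 : ℝ) ≤ b := by exact_mod_cast hb
  have hb0 : (0 : ℝ) < b := by linarith
  have hN : n ≤ T * n := Nat.le_mul_of_pos_left n hT
  have hQ : q.natAbs ≤ (b + 1) ^ (L * n + 1) :=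
    hq.trans (Nat.pow_le_pow_right (by omega)
      (Nat.succ_le_succ ((card_blk_mono a n (T * n) hk2.le).trans hfew)))
  have hc1 : b + 2 ≤ b ^ (2 * n + 1) :=
    le_trans (by nlinarith) (Nat.pow_le_pow_right (by omega) (show 2 ≤ 2 * n + 1 by omega))
  have hc2 : 2 * n + 1 ≤ b ^ (2 * n + 1) :=
    Nat.lt_two_pow_self.le.trans (Nat.pow_le_pow_left hb _)
  have hs1 := sparse_size b L n _ _ hb (by omega) hQ hc1
  have hs2 := sparse_size b L n _ _ hb (by omega) hQ hc2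
  have hApos : 0 < b ^ (2 * n) := pow_pos (by omega) _
  set A := b ^ (2 * n) with hA
  set e : ℕ → ℤ := fun i => q * a (i + k) + y (i + 1) - b * y i with he
  have he_le : ∀ i, (e i).natAbs ≤ q.natAbs * A * (b + 2) := fun i => by
    have h1 : (q * a (i + k)).natAbs ≤ q.natAbs * A := by
      rw [Int.natAbs_mul]; exact Nat.mul_le_mul_left _ (ha _)
    have h2 : ((b : ℤ) * y i).natAbs ≤ b * (q.natAbs * A) := by
      rw [Int.natAbs_mul, Int.natAbs_natCast]; exact Nat.mul_le_mul_left _ (hy _)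
    have h3 := Int.natAbs_sub_le (q * a (i + k) + y (i + 1)) (b * y i)
    have h4 := Int.natAbs_add_le (q * a (i + k)) (y (i + 1))
    have h5 := hy (i + 1)
    calc (e i).natAbs ≤ q.natAbs * A + q.natAbs * A + b * (q.natAbs * A) := by
          simp only [he]; omega
      _ = _ := by ring
  have he0 : ∀ i ∈ Finset.Ico n (T * n), ty i = none → e i = 0 := fun i hi h => by
    have h1 := (hty0 i hi).1 h
    have h2 : y (i + 1) = y (ρ i + 1) := hyb _ _ fun j hj => by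
      rw [add_assoc, add_assoc]
      rcases Nat.lt_or_ge (1 + j) k with h3 | h3
      · exact ((hρ i hi).2 _ h3).symm
      · rw [show 1 + j = k by omega]; exact h1
    simp only [he]
    rw [hrec i hi, h1, h2, sub_self]
  have he1 : ∀ i ∈ Finset.Ico n (T * n), ∀ i' ∈ Finset.Ico n (T * n), ∀ β, ty i = some β →
      ty i' = some β → e i = e i' := fun i hi i' hi' β h h' => by
    have h1 := hty i hi i' hi' β h h'
    have h2 : y (i + 1) = y (i' + 1) := hyb _ _ fun j hj => by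
      rw [add_assoc, add_assoc]; exact h1 _ (by omega)
    have h3 : y i = y i' := hyb _ _ fun j hj => h1 j hj.le
    simp only [he]
    rw [h1 k le_rfl, h2, h3]
  obtain ⟨f, hf_le, hf⟩ : ∃ f : Fin (2 * L) → ℤ, (∀ β, (f β).natAbs ≤ q.natAbs * A * (b + 2)) ∧
      ∀ i ∈ Finset.Ico n (T * n), ∀ β, ty i = some β → e i = f β := by
    refine ⟨fun β => if h : ∃ i ∈ Finset.Ico n (T * n), ty i = some β then e h.choose else 0,
      fun β => ?_, fun i hi β h => ?_⟩
    · dsimp only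
      split_ifs
      · exact he_le _
      · simp
    · have h1 : ∃ i ∈ Finset.Ico n (T * n), ty i = some β := ⟨i, hi, h⟩
      dsimp only
      rw [dif_pos h1]
      exact he1 i hi _ h1.choose_spec.1 β h h1.choose_spec.2
  set c0 : ℤ := q * ∑ j ∈ Finset.range (n + k), a j * (b : ℤ) ^ (2 * n - j) +
    y n * (b : ℤ) ^ (2 * n + 1 - (n + k)) with hc0
  have hc0_le : c0.natAbs ≤ A * (q.natAbs * A) * (2 * n + 1) := by
    have h1 : (∑ j ∈ Finset.range (n + k), a j * (b : ℤ) ^ (2 * n - j)).natAbs ≤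
        (n + k) * (A * A) := by
      refine (Int.natAbs_sum_le _ _).trans ?_
      refine (Finset.sum_le_card_nsmul _ _ (A * A) fun j _ => ?_).trans (by simp)
      rw [Int.natAbs_mul, Int.natAbs_pow, Int.natAbs_natCast]
      exact Nat.mul_le_mul (ha j) (Nat.pow_le_pow_right (by omega) (by omega))
    have h2 : (y n * (b : ℤ) ^ (2 * n + 1 - (n + k))).natAbs ≤ q.natAbs * A * A := by
      rw [Int.natAbs_mul, Int.natAbs_pow, Int.natAbs_natCast]
      exact Nat.mul_le_mul (hy n) (Nat.pow_le_pow_right (by omega) (by omega))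
    refine (Int.natAbs_add_le _ _).trans ?_
    rw [Int.natAbs_mul]
    calc _ ≤ q.natAbs * ((2 * n) * (A * A)) + q.natAbs * A * A :=
          Nat.add_le_add (Nat.mul_le_mul_left _ (h1.trans
            (Nat.mul_le_mul_right _ (by omega)))) h2
      _ = _ := by ring
  set u : ℕ → ℝ := fun i => q * (x - ∑ j ∈ Finset.range (i + k), (a j : ℝ) / (b : ℝ) ^ j) -
    b * y i / (b : ℝ) ^ (i + k) with hu
  have hstep : ∀ i, u i = (e i : ℝ) / (b : ℝ) ^ (i + k) + u (i + 1) := fun i => by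
    simp only [hu, he]
    rw [show i + 1 + k = i + k + 1 by omega, Finset.sum_range_succ, pow_succ]
    push_cast
    field_simp
    ring
  have htel : ∀ m, n ≤ m → u n = ∑ i ∈ Finset.Ico n m, (e i : ℝ) / (b : ℝ) ^ (i + k) + u m := by
    intro m hm
    induction m, hm using Nat.le_induction with
    | base => simp
    | succ m hm ih => rw [Finset.sum_Ico_succ_top hm, ih, hstep m, add_assoc]
  have hc0_eq : (c0 : ℝ) = (b : ℝ) ^ (2 * n) * (q * x - u n) := by
    have h1 : ((∑ j ∈ Finset.range (n + k), a j * (b : ℤ) ^ (2 * n - j) : ℤ) : ℝ) =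
        (b : ℝ) ^ (2 * n) * ∑ j ∈ Finset.range (n + k), (a j : ℝ) / (b : ℝ) ^ j := by
      rw [Finset.mul_sum]
      push_cast
      refine Finset.sum_congr rfl fun j hj => ?_
      rw [pow_sub₀ _ hb0.ne' (by have := Finset.mem_range.1 hj; omega)]
      ring
    rw [hc0, Int.cast_add, Int.cast_mul, h1, Int.cast_mul, Int.cast_pow, Int.cast_natCast,
      pow_sub₀ _ hb0.ne' (by omega : n + k ≤ 2 * n + 1), pow_succ]
    simp only [hu]
    ring
  have hfib : ∑ i ∈ Finset.Ico n (T * n), (e i : ℝ) / (b : ℝ) ^ (i + k) =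
      ∑ β : Fin (2 * L), (f β : ℝ) * ∑ s ∈ ((Finset.Ico n (T * n)).filter
        fun i => ty i = some β).image (· + k), 1 / (b : ℝ) ^ s := by
    rw [← Finset.sum_fiberwise (Finset.Ico n (T * n)) ty, Fintype.sum_option,
      Finset.sum_eq_zero fun i hi => by
        rw [he0 i (Finset.mem_filter.1 hi).1 (Finset.mem_filter.1 hi).2]; simp, zero_add]
    refine Finset.sum_congr rfl fun β _ => ?_
    rw [Finset.sum_image fun i _ j _ h => Nat.add_right_cancel h, Finset.mul_sum]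
    refine Finset.sum_congr rfl fun i hi => ?_
    rw [hf i (Finset.mem_filter.1 hi).1 β (Finset.mem_filter.1 hi).2]
    ring
  refine ⟨q * (b : ℤ) ^ (2 * n), Fin.cons c0 fun β => (b : ℤ) ^ (2 * n) * f β,
    Fin.cons {0} fun β => ((Finset.Ico n (T * n)).filter fun i => ty i = some β).image (· + k),
    mul_ne_zero hq0 (by positivity), ?_, fun β => ?_, fun β => ?_, fun β => ?_, ?_⟩
  · rw [Int.natAbs_mul, Int.natAbs_pow, Int.natAbs_natCast]
    refine le_trans ?_ hs2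
    calc q.natAbs * A = 1 * (q.natAbs * A) * 1 := by ring
      _ ≤ _ := Nat.mul_le_mul (Nat.mul_le_mul_right _ hApos) (by omega)
  · refine Fin.cases ?_ (fun β => ?_) β
    · rw [Fin.cons_zero]
      exact hc0_le.trans hs2
    · rw [Fin.cons_succ, Int.natAbs_mul, Int.natAbs_pow, Int.natAbs_natCast]
      refine le_trans ?_ hs1
      rw [mul_assoc]
      exact Nat.mul_le_mul_left _ (hf_le β)
  · refine Fin.cases ?_ (fun β => ?_) β
    · rw [Fin.cons_zero]
      intro s hs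
      rw [Finset.mem_singleton.1 hs]
      exact Nat.zero_le _
    · rw [Fin.cons_succ]
      intro s hs
      obtain ⟨i, hi, rfl⟩ := Finset.mem_image.1 hs
      have := (Finset.mem_Ico.1 (Finset.mem_filter.1 hi).1).2
      rw [add_mul, one_mul]
      omega
  · refine Fin.cases ?_ (fun β => ?_) β
    · rw [Fin.cons_zero]
      intro s hs s' hs' h
      rw [Finset.mem_singleton.1 hs, Finset.mem_singleton.1 hs'] at h
      exact absurd h (lt_irrefl _)
    · rw [Fin.cons_succ]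
      intro s hs s' hs' h
      obtain ⟨i, hi, rfl⟩ := Finset.mem_image.1 hs
      obtain ⟨i', hi', rfl⟩ := Finset.mem_image.1 hs'
      obtain ⟨h1, h2⟩ := Finset.mem_filter.1 hi
      obtain ⟨h1', h2'⟩ := Finset.mem_filter.1 hi'
      have h3 : ¬ 2 * (i' - i) ≤ k := fun h4 => by
        have h5 := (hty0 i h1).2 (hper i h1 i' (by omega) h4 (hty i h1 i' h1' β h2 h2'))
        rw [h2] at h5
        exact absurd h5 (by simp)
      omega
  · have h1 : ((q * (b : ℤ) ^ (2 * n) : ℤ) : ℝ) * x -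
        ∑ β : Fin (2 * L + 1), ((Fin.cons c0 (fun β => (b : ℤ) ^ (2 * n) * f β) :
          Fin (2 * L + 1) → ℤ) β : ℝ) * ∑ s ∈ (Fin.cons {0} (fun β =>
            ((Finset.Ico n (T * n)).filter fun i => ty i = some β).image (· + k)) :
              Fin (2 * L + 1) → Finset ℕ) β, 1 / (b : ℝ) ^ s =
        (b : ℝ) ^ (2 * n) * u (T * n) := by
      rw [Fin.sum_univ_succ]
      simp only [Fin.cons_zero, Fin.cons_succ, Finset.sum_singleton, pow_zero, Int.cast_mul,
        Int.cast_pow, Int.cast_natCast, mul_assoc]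
      rw [← Finset.mul_sum, ← hfib, hc0_eq, htel _ hN]
      ring
    rw [h1]
    have h2 := sparse_tail b A hb a ha x hsum (T * n + k)
    have h3 : |(y (T * n) : ℝ)| ≤ (q.natAbs : ℝ) * A := by
      rw [← Int.cast_abs, ← Nat.cast_natAbs]
      exact_mod_cast hy (T * n)
    have h4 : |(q : ℝ)| = (q.natAbs : ℝ) := by rw [← Int.cast_abs, ← Nat.cast_natAbs]
    have h5 : |u (T * n)| ≤ (q.natAbs : ℝ) * A * (b + 2) / (b : ℝ) ^ (T * n + k) := by
      simp only [hu]
      refine (abs_sub _ _).trans ?_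
      rw [abs_mul, h4, abs_div, abs_mul, abs_of_pos hb0, abs_of_pos (pow_pos hb0 _)]
      calc _ ≤ (q.natAbs : ℝ) * (2 * A / (b : ℝ) ^ (T * n + k)) +
            b * ((q.natAbs : ℝ) * A) / (b : ℝ) ^ (T * n + k) := by gcongr
        _ = _ := by ring
    have h6 : (b : ℝ) ^ (2 * n) * ((q.natAbs : ℝ) * A * (b + 2)) ≤
        (b : ℝ) ^ ((2 * L + 12) * n) := by
      rw [← mul_assoc]
      exact_mod_cast hs1
    rw [abs_mul, abs_of_pos (pow_pos hb0 _)]
    calc _ ≤ (b : ℝ) ^ (2 * n) * ((q.natAbs : ℝ) * A * (b + 2) / (b : ℝ) ^ (T * n + k)) := by gcongr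
      _ ≤ (b : ℝ) ^ ((2 * L + 12) * n) / (b : ℝ) ^ (T * n + k) := by
        rw [← mul_div_assoc]; gcongr
      _ ≤ _ := div_le_div_of_nonneg_left (by positivity) (by positivity)
          (pow_le_pow_right₀ (by linarith) (by omega))

end Pool.Agent.Lib.MP_f2f914_nt.EAB
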