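import Pool.Agent.Lib.MP_f2f914_nt.EAB.ThmB
import Pool.Agent.Lib.MP_f2f914_nt.EAB.Sparse
import Pool.Agent.Lib.MP_f2f914_nt.EAB.NumF

namespace Pool.Agent.Lib.MP_f2f914_nt.EAB

open Polynomial

theorem final_n (T S b n : ℕ) (hT : 65 ≤ T) (hS : S ≤ 4 * T) (hn : 2 ^ T ^ 4 ≤ max b n) :
    2 ^ S ^ 3 ≤ max b (n / 4 + 1) := by
  have h1 : S ^ 3 + 2 ≤ T ^ 4 := by
    have h2 : S ^ 3 ≤ (4 * T) ^ 3 := Nat.pow_le_pow_left hS 3
    have h3 : 2 ≤ T ^ 3 := le_trans (by omega) (Nat.le_self_pow (by norm_num) T)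
    have h4 : T ^ 4 = T ^ 3 * T := pow_succ T 3
    have h5 : (4 * T) ^ 3 = 64 * T ^ 3 := by ring
    nlinarith
  have h2 : 2 ^ S ^ 3 * 4 ≤ 2 ^ T ^ 4 :=
    calc 2 ^ S ^ 3 * 4 = 2 ^ (S ^ 3 + 2) := by rw [pow_add]; norm_num
      _ ≤ 2 ^ T ^ 4 := Nat.pow_le_pow_right (by norm_num) h1
  generalize 2 ^ S ^ 3 = u at h2 ⊢
  generalize 2 ^ T ^ 4 = v at h2 hn
  omega

/-- Theorem B with the final constants. -/
theorem final_core (D L b n m : ℕ) (hb : 2 ≤ b) (hm : m ≤ 2 * L + 1) (hn1 : 1 ≤ n)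
    (N : ℕ) (hN : N = (2 * L + D + 4) ^ (121 * (2 * L + D + 4)))
    (hn : 2 ^ 2 ^ (4 * N) ≤ max b n) (P : ℤ[X])
    (hirr : Irreducible (P.map (Int.castRingHom ℚ))) (hP : P.natDegree ≤ D)
    (hcoef : ∀ i, |P.coeff i| ≤ (b : ℤ) ^ n) (x : ℝ) (hx : Irrational x) (hroot : aeval x P = 0)
    (w₀ : ℤ) (w : Fin m → ℤ) (E : Fin m → Finset ℕ) (hw0 : w₀ ≠ 0)
    (hw₀ : w₀.natAbs ≤ b ^ ((2 * L + 12) * n)) (hw : ∀ β, (w β).natAbs ≤ b ^ ((2 * L + 12) * n))
    (hE : ∀ β, ∀ s ∈ E β, s ≤ (2 ^ N + 1) * n)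
    (hsp : ∀ β, ∀ s ∈ E β, ∀ s' ∈ E β, s < s' → s + (n / 4 + 1) ≤ s')
    (herr : |(w₀ : ℝ) * x - ∑ β, (w β : ℝ) * ∑ s ∈ E β, 1 / (b : ℝ) ^ s| ≤
      (b : ℝ) ^ ((2 * L + 12) * n) / (b : ℝ) ^ (2 ^ N * n)) :
    False := by
  have hD : 2 ≤ D := (two_le_natDegree P hirr x hx hroot).trans hP
  have hx6 : 6 ≤ 2 * L + D + 4 := by omega
  have hYT := numF_Z hx6
  have hYμ := numF_Y (m := m) (κ := 30 * (D + 1) * (10 * L + 60)) hx6 (by omega)
    (calc 30 * (D + 1) * (10 * L + 60) ≤ 30 * (2 * L + D + 4) * (10 * (2 * L + D + 4)) :=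
          Nat.mul_le_mul (by omega) (by omega)
      _ = _ := by ring)
  obtain ⟨hY, hZ⟩ := numF_big hx6
  have hμ : ∀ k, k ≤ m → sC k D ≤ _ := fun k hk => numF_sC hx6 (by omega) (by omega)
  have hlam : 22 * (m + 1) ≤ (2 * L + D + 4) ^ 3 := by
    have : 6 ^ 2 ≤ (2 * L + D + 4) ^ 2 := Nat.pow_le_pow_left hx6 _
    rw [pow_succ]
    exact Nat.mul_le_mul (by omega) (by omega)
  rw [← hN] at hYT hZ
  generalize (2 * L + D + 4) ^ (12 * (2 * L + D + 4)) = Y at hYT hYμ hY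
  generalize (2 * L + D + 4) ^ (7 * (2 * L + D + 4)) = μ at hYμ hμ
  generalize (2 * L + D + 4) ^ 3 = lam at hYμ hlam
  clear hN
  have hTL : N < 2 ^ N := Nat.lt_two_pow_self
  have hn' : 2 ^ (2 ^ N) ^ 4 ≤ max b n := by
    rw [← pow_mul, mul_comm]; exact hn
  have hY10 : Y ≤ 2 ^ Y ^ 10 := (Nat.le_self_pow (by norm_num) Y).trans Nat.lt_two_pow_self.le
  generalize 2 ^ N = T at hE herr hTL hYT hn'
  clear hn
  obtain ⟨R, rfl⟩ : ∃ R, T = R + (2 * L + 12) := ⟨T - (2 * L + 12), by omega⟩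
  have hb1 : 1 ≤ b := by omega
  have h4 : n ≤ 4 * (n / 4 + 1) := by omega
  have h5 : n / 4 + 1 ≤ n := by omega
  have hbig := fun S hS => final_n _ S b n (by omega) hS hn'
  have h0 : 0 < n / 4 + 1 := by omega
  generalize n / 4 + 1 = n' at hsp h5 h4 hbig h0
  have s1 : R * n / n' * n' ≤ R * n := Nat.div_mul_le_self _ _
  have s2 : R * n < R * n / n' * n' + n' := Nat.lt_div_mul_add h0
  generalize R * n / n' = S at s1 s2
  have s3 : S ≤ 4 * (R + (2 * L + 12)) := by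
    have : S * n' ≤ 4 * R * n' := s1.trans (by nlinarith)
    have := Nat.le_of_mul_le_mul_right this h0
    omega
  have s4 : R ≤ S := by
    have : R * n' < (S + 1) * n' := lt_of_le_of_lt (Nat.mul_le_mul_left _ h5) (by nlinarith)
    exact Nat.lt_succ_iff.mp (Nat.lt_of_mul_lt_mul_right this)
  have hκ : (2 * L + 12) * n ≤ (10 * L + 60) * n' := by nlinarith
  have hlow := thmB D m (10 * L + 60) μ lam Y S n' b (by omega) hμ hY hlam hYμ
    (by omega) h0 (hbig S s3) hb P hirr hP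
    (fun i => by
      have h1 := hcoef i
      rw [Int.abs_eq_natAbs] at h1
      have h2 : (P.coeff i).natAbs ≤ b ^ n := by exact_mod_cast h1
      exact h2.trans (Nat.pow_le_pow_right hb1 (by nlinarith)))
    x hx hroot w₀ w hw0 (hw₀.trans (Nat.pow_le_pow_right hb1 hκ))
    (fun β => (hw β).trans (Nat.pow_le_pow_right hb1 hκ)) E
    (fun β s hs => (hE β s hs).trans (by
      have h6 : (2 * L + 15) * n ≤ R * n := Nat.mul_le_mul_right _ (by omega)
      nlinarith)) hsp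
  have hbR : (1 : ℝ) ≤ b := by exact_mod_cast hb1
  have hlt := hlow.trans_le herr
  rw [div_lt_div_iff₀ (by positivity) (by positivity), one_mul, ← pow_add] at hlt
  have hle : (2 * L + 12) * n + S * n' ≤ (R + (2 * L + 12)) * n := by nlinarith
  exact absurd (pow_le_pow_right₀ hbR hle) (not_le.mpr hlt)

theorem final_natAbs_prod {α : Type*} (s : Finset α) (f : α → ℤ) :
    (∏ k ∈ s, f k).natAbs = ∏ k ∈ s, (f k).natAbs :=
  map_prod Int.natAbsHom f s

/-- An algebraic irrational is not a combination of `r` numbers with few blocks. -/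
theorem many_blocks_sum (D L r b n : ℕ) (hb : 2 ≤ b) (hn1 : 1 ≤ n)
    (N : ℕ) (hN : N = (2 * (r * (L + 6)) + D + 4) ^ (121 * (2 * (r * (L + 6)) + D + 4)))
    (hn : 2 ^ 2 ^ (4 * N) ≤ max b n) (P : ℤ[X])
    (hirr : Irreducible (P.map (Int.castRingHom ℚ))) (hP : P.natDegree ≤ D)
    (hcoef : ∀ i, |P.coeff i| ≤ (b : ℤ) ^ n) (x : ℝ) (hx : Irrational x) (hroot : aeval x P = 0)
    (a : Fin r → ℕ → ℤ) (ha : ∀ k i, |a k i| ≤ (b : ℤ) ^ (2 * n)) (y : Fin r → ℝ)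
    (hsum : ∀ k, HasSum (fun i : ℕ => (a k i : ℝ) / (b : ℝ) ^ i) (y k)) (q₀ : ℤ) (q : Fin r → ℤ)
    (hq0 : q₀ ≠ 0) (hq₀ : |q₀| ≤ (b : ℤ) ^ n) (hq : ∀ k, |q k| ≤ (b : ℤ) ^ n)
    (hxy : (q₀ : ℝ) * x = ∑ k, (q k : ℝ) * y k) :
    ∃ k, L * n < (blk (a k) n n (2 ^ N * n)).card := by
  classical
  by_contra hfew
  push Not at hfew
  have hD : 2 ≤ D := (two_le_natDegree P hirr x hx hroot).trans hP
  have hbig : r * (L + 6) ≤ max b n := by
    have h1 := (numF_big (x := 2 * (r * (L + 6)) + D + 4) (by omega)).2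
    have h2 : 4 * N < 2 ^ (4 * N) := Nat.lt_two_pow_self
    have h3 : 2 ^ (4 * N) < 2 ^ 2 ^ (4 * N) := Nat.lt_two_pow_self
    rw [← hN] at h1
    omega
  have hb1 : 1 ≤ b := by omega
  have hnat : ∀ {z : ℤ} {e : ℕ}, |z| ≤ (b : ℤ) ^ e → z.natAbs ≤ b ^ e := fun h => by
    rw [Int.abs_eq_natAbs] at h; exact_mod_cast h
  choose w₀ w E hw0 hw₀ hw hE hsp herr using fun k => sparse_of_few_blocks b L n _ hb hn1
    Nat.one_le_two_pow (a k) (fun i => hnat (ha k i)) (y k) (hsum k) (hfew k)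
  set c := (2 * L + 12) * n with hc
  have hrc : r * c = 2 * (r * (L + 6)) * n := by rw [hc]; ring
  have hexp : (2 * (r * (L + 6)) + 12) * n = r * c + 12 * n := by rw [hrc]; ring
  set u : Fin r → ℤ := fun k => q k * ∏ k' ∈ Finset.univ.erase k, w₀ k' with hu
  have hun : ∀ k, (u k).natAbs * b ^ c ≤ b ^ (r * c + n) := by
    intro k
    have h1 : (∏ k' ∈ Finset.univ.erase k, w₀ k').natAbs ≤ (b ^ c) ^ (r - 1) := by
      rw [final_natAbs_prod]
      refine (Finset.prod_le_pow_card _ _ _ fun k' _ => hw₀ k').trans ?_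
      rw [Finset.card_erase_of_mem (Finset.mem_univ k), Finset.card_univ, Fintype.card_fin]
    have h2 : r - 1 + 1 = r := Nat.sub_add_cancel k.pos
    simp only [hu, Int.natAbs_mul]
    calc (q k).natAbs * (∏ k' ∈ Finset.univ.erase k, w₀ k').natAbs * b ^ c
        ≤ b ^ n * (b ^ c) ^ (r - 1) * b ^ c :=
          Nat.mul_le_mul_right _ (Nat.mul_le_mul (hnat (hq k)) h1)
      _ = b ^ (r * c + n) := by
          rw [mul_assoc, ← pow_succ, h2, ← pow_mul, ← pow_add, mul_comm c, add_comm]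
  refine final_core D (r * (L + 6)) b n (r * (2 * L + 1)) hb (by nlinarith) hn1 N hN hn P hirr hP hcoef x hx
    hroot (q₀ * ∏ k, w₀ k)
    (fun β => u (finProdFinEquiv.symm β).1 * w (finProdFinEquiv.symm β).1 (finProdFinEquiv.symm β).2)
    (fun β => E (finProdFinEquiv.symm β).1 (finProdFinEquiv.symm β).2)
    (mul_ne_zero hq0 (Finset.prod_ne_zero_iff.mpr fun k _ => hw0 k)) ?_ (fun β => ?_)
    (fun β => hE _ _) (fun β => hsp _ _) ?_
  · rw [Int.natAbs_mul, final_natAbs_prod, hexp]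
    calc q₀.natAbs * ∏ k, (w₀ k).natAbs ≤ b ^ n * (b ^ c) ^ r := by
          refine Nat.mul_le_mul (hnat hq₀) ?_
          simpa using Finset.prod_le_pow_card Finset.univ _ _ fun k _ => hw₀ k
      _ = b ^ (r * c + n) := by rw [← pow_mul, ← pow_add, mul_comm c, add_comm]
      _ ≤ _ := Nat.pow_le_pow_right hb1 (by omega)
  · rw [Int.natAbs_mul, hexp]
    exact (Nat.mul_le_mul_left _ (hw _ _)).trans
      ((hun _).trans (Nat.pow_le_pow_right hb1 (by omega)))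
  · generalize 2 ^ N * n = N' at herr ⊢
    rw [← Equiv.sum_comp finProdFinEquiv]
    simp only [Equiv.symm_apply_apply]
    have h1 : ((q₀ * ∏ k, w₀ k : ℤ) : ℝ) * x -
        ∑ β : Fin r × Fin (2 * L + 1), ((u β.1 * w β.1 β.2 : ℤ) : ℝ) *
          ∑ s ∈ E β.1 β.2, 1 / (b : ℝ) ^ s =
        ∑ k, (u k : ℝ) * ((w₀ k : ℝ) * y k - ∑ β, (w k β : ℝ) * ∑ s ∈ E k β, 1 / (b : ℝ) ^ s) := by
      simp only [mul_sub, Finset.sum_sub_distrib]
      congr 1
      · push_cast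
        rw [mul_comm (q₀ : ℝ), mul_assoc, hxy, Finset.mul_sum]
        refine Finset.sum_congr rfl fun k _ => ?_
        rw [← Finset.mul_prod_erase _ _ (Finset.mem_univ k)]
        simp only [hu]
        push_cast
        ring
      · rw [Fintype.sum_prod_type]
        refine Finset.sum_congr rfl fun k _ => ?_
        rw [Finset.mul_sum]
        exact Finset.sum_congr rfl fun β _ => by push_cast; ring
    rw [h1]
    have hbR : (1 : ℝ) ≤ b := by exact_mod_cast hb1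
    have h2 : ∀ k, |(u k : ℝ) * ((w₀ k : ℝ) * y k -
        ∑ β, (w k β : ℝ) * ∑ s ∈ E k β, 1 / (b : ℝ) ^ s)| ≤ (b : ℝ) ^ (r * c + n) / (b : ℝ) ^ N' := by
      intro k
      rw [abs_mul]
      refine (mul_le_mul_of_nonneg_left (herr k) (abs_nonneg _)).trans ?_
      rw [← mul_div_assoc]
      refine div_le_div_of_nonneg_right ?_ (by positivity)
      rw [← Int.cast_abs, Int.abs_eq_natAbs]
      exact_mod_cast hun k
    refine (Finset.abs_sum_le_sum_abs _ _).trans ((Finset.sum_le_sum fun k _ => h2 k).trans ?_)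
    rw [Finset.sum_const, Finset.card_univ, Fintype.card_fin, nsmul_eq_mul, ← mul_div_assoc, hexp]
    refine div_le_div_of_nonneg_right ?_ (by positivity)
    have h3 : r ≤ b ^ n := by
      have h4 : n < 2 ^ n := Nat.lt_two_pow_self
      have h5 : 2 ^ n ≤ b ^ n := Nat.pow_le_pow_left hb _
      have h6 : r * 1 ≤ r * (L + 6) := Nat.mul_le_mul_left _ (by omega)
      have h8 : b ≤ b ^ n := Nat.le_self_pow (by omega) b
      omega
    have h7 : r * b ^ (r * c + n) ≤ b ^ (r * c + 12 * n) :=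
      calc r * b ^ (r * c + n) ≤ b ^ n * b ^ (r * c + n) := Nat.mul_le_mul_right _ h3
        _ = b ^ (n + (r * c + n)) := (pow_add _ _ _).symm
        _ ≤ _ := Nat.pow_le_pow_right hb1 (by omega)
    exact_mod_cast h7

end Pool.Agent.Lib.MP_f2f914_nt.EAB
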