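import Pool.Agent.Lib.MP_f2f914_nt.EAB.Siegel

namespace Pool.Agent.Lib.MP_f2f914_nt.EAB

open Polynomial

open Finset in
theorem liftSmall_dot {R ι : Type*} [CommRing R] [Fintype ι] (p τ : ι → R[X]) {e : ℕ}
    (h : ∀ i, (p i).natDegree < e) (t : ℕ) : (∑ i, p i * τ i).coeff t =
      ∑ k : ι × Fin e, (X ^ (k.2 : ℕ) * τ k.1).coeff t * (p k.1).coeff k.2 := by
  rw [finsetSum_coeff, Fintype.sum_prod_type]
  refine sum_congr rfl fun i _ => ?_
  conv_lhs => rw [as_sum_range_C_mul_X_pow' _ (h i), sum_mul, finsetSum_coeff, sum_range]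
  simp only [mul_assoc, coeff_C_mul, mul_comm ((p i).coeff _)]

/-- A nonzero relation gives a nonzero relation of small norm, twice the degree, same support. -/
theorem small_relation {ι : Type*} [Fintype ι] (τ : ι → ℤ[X]) (H θ' d : ℕ) (hH : 2 ≤ H)
    (hτ : ∀ i, nm (τ i) ≤ H) (hdH : Fintype.card ι * (2 * d + 1) ≤ H) (Ψ : ι → ℤ[X])
    (hΨ : Ψ ≠ 0) (hdeg : ∀ i, (Ψ i).natDegree ≤ d) (hdvd : X ^ θ' ∣ ∑ i, Ψ i * τ i) :
    ∃ l : ι → ℤ[X], l ≠ 0 ∧ (∀ i, Ψ i = 0 → l i = 0) ∧ (∀ i, (l i).natDegree ≤ 2 * d) ∧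
      (∀ i, nm (l i) ≤ H ^ (4 * Fintype.card ι + 1)) ∧ X ^ θ' ∣ ∑ i, l i * τ i := by
  classical
  have dg : ∀ (c : Fin (d + 1) → ℚ) i, ((∑ k, C (c k) * X ^ (k : ℕ)) *
      (Ψ i).map (Int.castRingHom ℚ)).natDegree < 2 * d + 1 := fun c i => by
    have := natDegree_sum_le_of_forall_le Finset.univ
      (fun k : Fin (d + 1) => C (c k) * X ^ (k : ℕ)) (n := d) fun k _ =>
        (natDegree_C_mul_X_pow_le _ _).trans (by omega)
    have := (natDegree_map_le (f := Int.castRingHom ℚ)).trans (hdeg i)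
    exact natDegree_mul_le.trans_lt (by omega)
  obtain ⟨t, t0, t1, t2⟩ := siegel_rank (Matrix.of
    fun (a : Fin θ' ⊕ {b : ι × Fin (2 * d + 1) // Ψ b.1 = 0}) (k : ι × Fin (2 * d + 1)) =>
      a.elim (fun a => (X ^ (k.2 : ℕ) * τ k.1).coeff a) fun b => if k = b.1 then 1 else 0) H
    (by omega) (by
      rintro (a | a) k <;>
        simp only [Matrix.of_apply, Sum.elim_inl, Sum.elim_inr, coeff_X_pow_mul'] <;> split_ifs
      exacts [(natAbs_coeff_le_nm _ _).trans (hτ _), by simp, by omega, by simp])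
    (d + 1) (2 * Fintype.card ι) (by omega)
    (fun j k => (X ^ (j : ℕ) * (Ψ k.1).map (Int.castRingHom ℚ)).coeff k.2)
    (Fintype.linearIndependent_iff.2 fun c hc j => by
      obtain ⟨i, hi⟩ := Function.ne_iff.1 hΨ
      have : (∑ k, C (c k) * X ^ (k : ℕ)) * (Ψ i).map (Int.castRingHom ℚ) = 0 := by
        ext s
        by_cases hs : s < 2 * d + 1
        · simpa [Finset.sum_mul, mul_assoc] using congrFun hc (i, ⟨s, hs⟩)
        · exact coeff_eq_zero_of_natDegree_lt ((dg c i).trans_le (by omega))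
      simpa [Fin.val_inj] using congrArg (coeff · j) ((mul_eq_zero.1 this).resolve_right
        ((Polynomial.map_ne_zero_iff (RingHom.injective_int _)).2 hi)))
    (by
      rintro j (a | a)
      · have := X_pow_dvd_iff.1 (hdvd.mul_left (X ^ (j : ℕ))) a a.2
        simp only [Finset.mul_sum, ← mul_assoc] at this
        rw [liftSmall_dot (e := 2 * d + 1) _ _ fun i => natDegree_mul_le.trans_lt (by
          have := hdeg i
          rw [natDegree_X_pow]
          omega)] at this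
        simpa [coeff_X_pow_mul', apply_ite] using congrArg (Int.cast : ℤ → ℚ) this
      · simp [a.2]) (by simp; nlinarith)
  let l : ι → ℤ[X] := fun i => ∑ s : Fin (2 * d + 1), C (t (i, s)) * X ^ (s : ℕ)
  have lc : ∀ i (s : Fin (2 * d + 1)), (l i).coeff s = t (i, s) := fun i s => by
    simp [l, Fin.val_inj]
  have ld : ∀ i, (l i).natDegree ≤ 2 * d := fun i => natDegree_sum_le_of_forall_le _ _ fun k _ =>
    (natDegree_C_mul_X_pow_le _ _).trans (by omega)
  refine ⟨l, fun e => t0 (funext fun k => by simpa [e] using (lc k.1 k.2).symm), fun i hi =>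
    Finset.sum_eq_zero fun s _ => by
      simpa [Matrix.mulVec, dotProduct] using congrFun t1 (.inr ⟨(i, s), hi⟩), ld, fun i => ?_,
    X_pow_dvd_iff.2 fun a ha => ?_⟩
  · have : 0 < Fintype.card ι := Fintype.card_pos_iff.2 ⟨i⟩
    refine (nm_le_of_coeff _ (ld i) (A := (H * H) ^ (2 * Fintype.card ι)) fun s => ?_).trans ?_
    · by_cases hs : s < 2 * d + 1
      · rw [lc i ⟨s, hs⟩]
        exact (t2 _).trans (by gcongr; simpa using hdH)
      · simp [coeff_eq_zero_of_natDegree_lt ((ld i).trans_lt (show _ < s by omega))]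
    · rw [← sq, ← pow_mul, pow_succ', show 2 * (2 * Fintype.card ι) = 4 * Fintype.card ι by ring]
      exact Nat.mul_le_mul_right _ (by nlinarith)
  · rw [liftSmall_dot _ _ fun i => Nat.lt_succ_of_le (ld i)]
    simpa [lc, Matrix.mulVec, dotProduct] using congrFun t1 (.inl ⟨a, ha⟩)

end Pool.Agent.Lib.MP_f2f914_nt.EAB
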