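import Pool.Agent.Lib.MP_f2f914_nt.EAB.LiftPsi
import Pool.Agent.Lib.MP_f2f914_nt.EAB.LiftSmall

namespace Pool.Agent.Lib.MP_f2f914_nt.EAB

open Polynomial

/-- Elimination of the coordinates in `Γ` one by one. -/
theorem lift_greedy {ι : Type*} [Fintype ι] [DecidableEq ι] (τ : ι → ℤ[X]) (i₀ : ι)
    (B H θ θ' : ℕ) (hH : 2 ≤ H) (hτ : ∀ i, nm (τ i) ≤ H) (h0 : ¬ X ^ (θ + 1) ∣ τ i₀)
    (hB : H ^ (6 * Fintype.card ι + 2) ≤ B) (Γ : Finset ι) (hΓ : i₀ ∉ Γ) (d e : ℕ) (hd : 1 ≤ d)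
    (hdH : Fintype.card ι * (2 * (6 ^ Γ.card * d) + 1) ≤ H) (hθ : θ + 6 ^ Γ.card * d < θ')
    (Ψ : ι → ℤ[X]) (ω : ι → ℤ) (ρ : ℚ) (hρ : ρ ≠ 0) (hsupp : ∀ i, i ≠ i₀ → i ∉ Γ → Ψ i = 0)
    (hdeg : ∀ i, (Ψ i).natDegree ≤ d) (hdvd : X ^ θ' ∣ ∑ i, Ψ i * τ i)
    (hev : ∀ i, ev B (Ψ i) = ρ * (ω i : ℚ)) (hω : ∀ i, (ω i).natAbs ≤ B ^ e) :
    ∃ (l : ι → ι → ℤ[X]) (α₀ : ℤ) (α : ι → ℤ), α₀ ≠ 0 ∧ α₀.natAbs ≤ B ^ (6 ^ Γ.card * d) ∧
      (∀ k, (α k).natAbs ≤ B ^ (e + 6 ^ Γ.card * d)) ∧ (∀ k, k ∉ Γ → l k = 0) ∧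
      (∀ k i, (l k i).natDegree ≤ 6 ^ Γ.card * d) ∧
      (∀ k i, nm (l k i) ≤ H ^ (4 * Fintype.card ι + 1)) ∧ (∀ k, X ^ θ' ∣ ∑ i, l k i * τ i) ∧
      ∀ i, (α₀ : ℚ) * (ω i : ℚ) = ∑ k, (α k : ℚ) * ev B (l k i) := by
  have HB : 2 * H ^ (4 * Fintype.card ι + 1) ≤ B :=
    calc _ ≤ H * H ^ (4 * Fintype.card ι + 1) := by gcongr
      _ ≤ _ := by rw [← pow_succ']; exact Nat.pow_le_pow_right (by omega) (by omega)
      _ ≤ B := hB
  have Hp : 0 < H ^ (4 * Fintype.card ι + 1) := by positivity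
  have B1 : 1 ≤ B := by omega
  have B0 : (B : ℚ) ≠ 0 := by positivity
  have one : ∀ {Ψ : ι → ℤ[X]} {c : ℕ}, (∀ i, i ≠ i₀ → Ψ i = 0) → (Ψ i₀).natDegree ≤ c →
      θ + c < θ' → X ^ θ' ∣ ∑ i, Ψ i * τ i → Ψ = 0 := fun {Ψ c} h1 h2 h3 h4 => by
    rw [Finset.sum_eq_single i₀ (fun i _ h => by simp [h1 i h]) (by simp)] at h4
    funext i
    by_cases h : i = i₀
    · by_contra n
      exact not_X_pow_dvd_mul (not_X_pow_dvd_of_natDegree (h ▸ n) h2) h0
        ((pow_dvd_pow _ (by omega)).trans h4)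
    · exact h1 i h
  generalize hn : Γ.card = n at hdH hθ ⊢
  induction n generalizing Γ d e Ψ ω ρ with
  | zero =>
    obtain rfl := Finset.card_eq_zero.1 hn
    obtain rfl := one (fun i h => hsupp i h (by simp)) (hdeg _) (by simpa using hθ) hdvd
    exact ⟨0, 1, 0, one_ne_zero, Nat.one_le_pow _ _ B1, by simp, by simp, by simp, by simp,
      by simp, fun i => by simpa [hρ] using hev i⟩
  | succ n ih =>
    by_cases Ψ0 : Ψ = 0
    · exact ⟨0, 1, 0, one_ne_zero, Nat.one_le_pow _ _ B1, by simp, by simp, by simp, by simp,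
        by simp, fun i => by simpa [hρ, Ψ0] using hev i⟩
    have p6 : d ≤ 6 ^ n * d := Nat.le_mul_of_pos_left _ (by positivity)
    have q6 : 6 ^ (n + 1) * d = 6 * (6 ^ n * d) := by ring
    have r6 : 6 ^ n * (3 * d) = 3 * (6 ^ n * d) := by ring
    rw [q6] at hdH hθ ⊢
    obtain ⟨l, l0, l1, l2, l3, l4⟩ := small_relation τ H θ' d hH hτ
      (le_trans (by gcongr; omega) hdH) Ψ Ψ0 hdeg hdvd
    obtain ⟨γ, g1, g2⟩ : ∃ γ, γ ≠ i₀ ∧ l γ ≠ 0 := by
      by_contra! h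
      exact l0 (one h (l2 _) (by omega) l4)
    have g3 : γ ∈ Γ := by_contra fun h => g2 (l1 _ (hsupp _ g1 h))
    choose z z1 using fun i => exists_int_ev B1 (l2 i)
    have z2 : ∀ i, (z i).natAbs ≤ B ^ (2 * d) * H ^ (4 * Fintype.card ι + 1) := fun i => by
      have : |(z i : ℚ)| ≤ B ^ (2 * d) * H ^ (4 * Fintype.card ι + 1) := by
        rw [z1, abs_mul, abs_of_nonneg (by positivity)]
        exact mul_le_mul_of_nonneg_left ((abs_ev_le_nm B1 _).trans (by exact_mod_cast l3 i))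
          (by positivity)
      rw [← Int.cast_abs, Int.abs_eq_natAbs] at this
      exact_mod_cast this
    have z0 : z γ ≠ 0 := fun e => ev_ne_zero g2 (B := B) ((l3 γ).trans_lt (by omega))
      (by simpa [e, B0] using z1 γ)
    obtain ⟨l', a₀, a, a1, a2, a3, a4, a5, a6, a7, a8⟩ := ih (Γ.erase γ) (by simp [hΓ]) (3 * d)
      (e + 2 * d + 1) (by omega) (fun i => l γ * Ψ i - Ψ γ * l i)
      (fun i => z γ * ω i - ω γ * z i) (ρ / B ^ (2 * d)) (by positivity) (fun i h1 h2 => by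
        by_cases h : i = γ
        · simp [h, mul_comm]
        · have := hsupp i h1 (by simpa [h] using h2)
          simp [this, l1 i this]) (fun i => by
        have := l2 γ
        have := l2 i
        have := hdeg i
        have := hdeg γ
        exact (natDegree_sub_le _ _).trans (max_le (natDegree_mul_le.trans (by omega))
          (natDegree_mul_le.trans (by omega)))) (by
        simp only [sub_mul, Finset.sum_sub_distrib, mul_assoc, ← Finset.mul_sum]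
        exact (hdvd.mul_left _).sub (l4.mul_left _)) (fun i => by
        simp only [map_sub, map_mul, hev]
        push_cast
        rw [z1, z1]
        field_simp) (fun i => by
        refine (Int.natAbs_sub_le _ _).trans ?_
        rw [Int.natAbs_mul, Int.natAbs_mul]
        calc _ ≤ B ^ (2 * d) * H ^ (4 * Fintype.card ι + 1) * B ^ e +
              B ^ e * (B ^ (2 * d) * H ^ (4 * Fintype.card ι + 1)) :=
            add_le_add (Nat.mul_le_mul (z2 γ) (hω i)) (Nat.mul_le_mul (hω γ) (z2 i))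
          _ = B ^ (e + 2 * d) * (2 * H ^ (4 * Fintype.card ι + 1)) := by ring
          _ ≤ _ := Nat.mul_le_mul_left _ HB) (by simp [g3, hn])
      (le_trans (Nat.mul_le_mul_left _ (by omega)) hdH) (by omega)
    rw [r6] at a2 a3 a5
    refine ⟨Function.update l' γ l, a₀ * z γ, Function.update a γ (a₀ * ω γ * B ^ (2 * d)),
      mul_ne_zero a1 z0, ?_, fun k => ?_, fun k hk => ?_, fun k i => ?_, fun k i => ?_,
      fun k => ?_, fun i => ?_⟩
    · rw [Int.natAbs_mul]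
      calc _ ≤ B ^ (3 * (6 ^ n * d)) * (B ^ (2 * d) * B) :=
            Nat.mul_le_mul a2 ((z2 γ).trans (Nat.mul_le_mul_left _ (by omega)))
        _ = B ^ (3 * (6 ^ n * d) + (2 * d + 1)) := by ring
        _ ≤ _ := Nat.pow_le_pow_right B1 (by omega)
    · by_cases h : k = γ
      · rw [h, Function.update_self, Int.natAbs_mul, Int.natAbs_mul, Int.natAbs_pow,
          Int.natAbs_natCast]
        refine (Nat.mul_le_mul_right _ (Nat.mul_le_mul a2 (hω γ))).trans ?_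
        rw [← pow_add, ← pow_add]
        exact Nat.pow_le_pow_right B1 (by omega)
      · rw [Function.update_of_ne h]
        exact (a3 k).trans (Nat.pow_le_pow_right B1 (by omega))
    · rw [Function.update_of_ne fun h : k = γ => hk (h ▸ g3)]
      exact a4 k fun h => hk (Finset.mem_of_mem_erase h)
    · by_cases h : k = γ
      · rw [h, Function.update_self]
        exact (l2 i).trans (by omega)
      · rw [Function.update_of_ne h]
        exact (a5 k i).trans (by omega)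
    · by_cases h : k = γ
      · rw [h, Function.update_self]
        exact l3 i
      · rw [Function.update_of_ne h]
        exact a6 k i
    · by_cases h : k = γ
      · rwa [h, Function.update_self]
      · rw [Function.update_of_ne h]
        exact a7 k
    · have := a8 i
      rw [← Finset.add_sum_erase _ _ (Finset.mem_univ γ), a4 γ (by simp)] at this
      rw [← Finset.add_sum_erase _ _ (Finset.mem_univ γ), Finset.sum_congr rfl fun k hk => by
        rw [Function.update_of_ne (Finset.ne_of_mem_erase hk),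
          Function.update_of_ne (Finset.ne_of_mem_erase hk)], Function.update_self,
        Function.update_self]
      simp only [Pi.zero_apply, map_zero, mul_zero, zero_add] at this
      rw [← this]
      push_cast
      rw [z1 i]
      ring

/-- The lifting lemma. -/
theorem lift {ι : Type*} [Fintype ι] [DecidableEq ι] (τ : ι → ℤ[X]) (ω : ι → ℤ) (i₀ : ι)
    (B H u θ θ' : ℕ) (hu : 1 ≤ u) (hH : 2 ≤ H) (hτ : ∀ i, nm (τ i) ≤ H)
    (hω : ∀ i, (ω i).natAbs ≤ B ^ u) (hs : |∑ i, (ω i : ℚ) * ev B (τ i)| ≤ 1 / (B : ℚ) ^ θ')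
    (h0 : ¬ X ^ (θ + 1) ∣ τ i₀) (hθ : θ + 6 ^ (Fintype.card ι + 1) * u < θ')
    (hMH : Fintype.card ι * (2 * (6 ^ (Fintype.card ι + 1) * u) + 1) ≤ H)
    (hB : H ^ (6 * Fintype.card ι + 2) ≤ B) :
    ∃ (l : ι → ι → ℤ[X]) (α₀ : ℤ) (α : ι → ℤ), α₀ ≠ 0 ∧
      α₀.natAbs ≤ B ^ (6 ^ (Fintype.card ι + 1) * u) ∧
      (∀ k, (α k).natAbs ≤ B ^ (6 ^ (Fintype.card ι + 1) * u)) ∧ l i₀ = 0 ∧
      (∀ k i, (l k i).natDegree ≤ 6 ^ (Fintype.card ι + 1) * u) ∧
      (∀ k i, nm (l k i) ≤ H ^ (4 * Fintype.card ι + 1)) ∧ (∀ k, X ^ θ' ∣ ∑ i, l k i * τ i) ∧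
      ∀ i, (α₀ : ℚ) * (ω i : ℚ) = ∑ k, (α k : ℚ) * ev B (l k i) := by
  have M1 : 0 < Fintype.card ι := Fintype.card_pos_iff.2 ⟨i₀⟩
  have hc : (Finset.univ.erase i₀).card + 1 = Fintype.card ι := by
    rw [Finset.card_erase_add_one (Finset.mem_univ _), Finset.card_univ]
  have p6 : 1 ≤ 6 ^ (Finset.univ.erase i₀).card := Nat.one_le_pow _ _ (by omega)
  have key : u + 6 ^ (Finset.univ.erase i₀).card * (2 * u + 2) ≤
      6 ^ (Fintype.card ι + 1) * u := by
    rw [← hc, pow_succ, pow_succ]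
    nlinarith
  obtain ⟨Ψ, ρ, h1, h2, h3, h4⟩ := lift_psi τ ω B H u θ' hH hτ hω hs (by nlinarith) hB
  have B1 : 1 ≤ B := (Nat.one_le_pow _ _ (by omega)).trans hB
  obtain ⟨l, a₀, a, a1, a2, a3, a4, a5, a6, a7, a8⟩ := lift_greedy τ i₀ B H θ θ' hH hτ h0 hB
    (Finset.univ.erase i₀) (by simp) (2 * u + 2) u (by omega)
    (le_trans (Nat.mul_le_mul_left _ (by omega)) hMH) (by omega) Ψ ω ρ h1 (by simp +contextual) h2 h3 h4 hω
  exact ⟨l, a₀, a, a1, a2.trans (Nat.pow_le_pow_right B1 (by omega)),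
    fun k => (a3 k).trans (Nat.pow_le_pow_right B1 key), a4 _ (by simp),
    fun k i => (a5 k i).trans (by omega), a6, a7, a8⟩

end Pool.Agent.Lib.MP_f2f914_nt.EAB
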