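import Pool.Agent.Lib.MP_f2f914_nt.EAB.Defs

namespace Pool.Agent.Lib.MP_f2f914_nt.EAB

open Polynomial

theorem tan_det_updateRow {ι R : Type*} [Fintype ι] [DecidableEq ι] [CommRing R]
    (M : Matrix ι ι R) (i0 : ι) (u : ι → R) :
    (M.updateRow i0 u).det = ∑ j, u j * (M.updateRow i0 (Pi.single j 1)).det := by
  simp only [← Matrix.cramer_transpose_apply]
  conv_lhs => rw [pi_eq_sum_univ' u, map_sum, Finset.sum_apply]
  exact Finset.sum_congr rfl fun j _ => by rw [map_smul]; rfl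

open Finset Matrix in
/-- Either a full minor has small order, or there is an approximate kernel vector. -/
theorem tan_dichotomy {ρ : Type*} {m : ℕ} (J : Matrix ρ (Fin m) ℤ[X]) (H g : ℕ) (hH : 1 ≤ H)
    (hJ : ∀ k j, nm (J k j) ≤ H) :
    (∃ e : Fin m → ρ, ¬ X ^ (m * g + 1) ∣ (J.submatrix e id).det) ∨
      ∃ (r : ℕ) (τ : Fin m → ℤ[X]) (i₀ : Fin m), r < m ∧ ¬ X ^ (r * g + 1) ∣ τ i₀ ∧
        (∀ k, X ^ ((r + 1) * g + 1) ∣ ∑ j, J k j * τ j) ∧ ∀ j, nm (τ j) ≤ (m * H) ^ m := by
  classical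
  let P : Finset (Fin m) → Prop := fun C => ∃ M : Matrix (Fin m) (Fin m) ℤ[X],
    (∀ i ∈ C, ∃ k, M i = J k) ∧ (∀ i ∉ C, M i = Pi.single i 1) ∧ ¬ X ^ (C.card * g + 1) ∣ M.det
  have h0 : P ∅ := ⟨1, by simp,
    fun i _ => by funext j; simp [Matrix.one_apply, Pi.single_apply, eq_comm], by simp [X_dvd_iff]⟩
  obtain ⟨C, hC, hmax⟩ := exists_max_image (univ.filter P) Finset.card ⟨∅, by simpa using h0⟩
  obtain ⟨M, hM1, hM2, hM3⟩ := (mem_filter.mp hC).2
  by_cases hu : C = univ
  · subst hu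
    choose e he using fun i => hM1 i (mem_univ i)
    have : J.submatrix e id = M := by ext i j; rw [submatrix_apply, he i]; rfl
    exact Or.inl ⟨e, by rw [this]; simpa using hM3⟩
  obtain ⟨i0, hi0⟩ : ∃ i0, i0 ∉ C := by
    by_contra hc
    push Not at hc
    exact hu (eq_univ_of_forall hc)
  have hsingle : ∀ i j : Fin m, nm ((Pi.single i 1 : Fin m → ℤ[X]) j) ≤ H := fun i j => by
    rw [Pi.single_apply]; split_ifs
    · rw [nm_one]; exact hH
    · simp
  refine Or.inr ⟨C.card, fun j => (M.updateRow i0 (Pi.single j 1)).det, i0,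
    by simpa using card_lt_univ_of_notMem hi0, ?_, fun k => ?_,
    fun j => by
      refine (nm_det_le _ (H := H) fun i k => ?_).trans (by simp)
      rw [updateRow_apply]
      split_ifs
      · exact hsingle _ _
      · by_cases hi : i ∈ C
        · obtain ⟨k', hk'⟩ := hM1 i hi
          rw [hk']; exact hJ _ _
        · rw [hM2 i hi]; exact hsingle _ _⟩
  · beta_reduce
    rw [← hM2 i0 hi0, updateRow_eq_self]; exact hM3
  · rw [← tan_det_updateRow]
    by_contra hnd
    have := hmax (insert i0 C) (mem_filter.mpr ⟨mem_univ _, M.updateRow i0 (J k), fun i hi => ?_,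
      fun i hi => ?_, by rwa [card_insert_of_notMem hi0]⟩)
    · rw [card_insert_of_notMem hi0] at this; omega
    · by_cases h2 : i = i0
      · exact ⟨k, by rw [h2, updateRow_self]⟩
      · rw [updateRow_ne h2]; exact hM1 i ((mem_insert.mp hi).resolve_left h2)
    · rw [mem_insert, not_or] at hi
      rw [updateRow_ne hi.1]; exact hM2 i hi.2

end Pool.Agent.Lib.MP_f2f914_nt.EAB
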