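import Pool.Agent.Lib.MP_f2f914_nt.EAB.LiftPsi
import Pool.Agent.Lib.MP_f2f914_nt.EAB.LiftSmall
import Pool.Agent.Lib.MP_f2f914_nt.EAB.Tan

namespace Pool.Agent.Lib.MP_f2f914_nt.EAB

open Polynomial

/-- Siegel's lemma outside the kernel of a linear map. -/
theorem siegel_avoid {α β N : Type*} [Fintype α] [Fintype β] [AddCommGroup N] [Module ℚ N]
    (A : Matrix α β ℤ) (H : ℕ) (hH : 1 ≤ H) (hA : ∀ i j, (A i j).natAbs ≤ H)
    (f : (β → ℚ) →ₗ[ℚ] N) (k g : ℕ) (hk : 1 ≤ k) (v : Fin k → β → ℚ)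
    (hv : LinearIndependent ℚ fun r => f (v r)) (hker : ∀ r i, ∑ j, (A i j : ℚ) * v r j = 0)
    (hg : Fintype.card β ≤ (g + 1) * k) :
    ∃ c : β → ℤ, f (fun j => c j) ≠ 0 ∧ A.mulVec c = 0 ∧
      ∀ j, (c j).natAbs ≤ (Fintype.card β * H) ^ g := by
  classical
  let U : (β → ℚ) → Prop := fun u => f u = 0 ∧ ∀ i, ∑ j, (A i j : ℚ) * u j = 0
  let Q : Finset β → Prop := fun S => ∀ t : β → ℚ, ∃ u, U u ∧ ∀ j ∈ S, u j = t j
  have h0 : Q ∅ := fun _ => ⟨0, ⟨map_zero f, by simp⟩, by simp⟩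
  obtain ⟨S, hS, hmax⟩ := Finset.exists_max_image (Finset.univ.filter Q) Finset.card
    ⟨∅, by simpa using h0⟩
  replace hS := (Finset.mem_filter.mp hS).2
  have hinj : ∀ u, U u → (∀ j ∈ S, u j = 0) → u = 0 := by
    intro u hu hz
    funext j
    by_contra hj
    have hjS : j ∉ S := fun h => hj (hz j h)
    have := hmax (insert j S) (Finset.mem_filter.mpr ⟨Finset.mem_univ _, fun t => ?_⟩)
    · rw [Finset.card_insert_of_notMem hjS] at this; omega
    obtain ⟨u₀, hu₀, ht⟩ := hS t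
    refine ⟨u₀ + ((t j - u₀ j) / u j) • u, ⟨by rw [map_add, map_smul, hu₀.1, hu.1]; simp,
      fun i => ?_⟩, fun j' hj' => ?_⟩
    · simp only [Pi.add_apply, Pi.smul_apply, smul_eq_mul, mul_add, Finset.sum_add_distrib,
        mul_left_comm _ ((t j - u₀ j) / u j), ← Finset.mul_sum, hu₀.2 i, hu.2 i]
      simp
    · rcases Finset.mem_insert.mp hj' with rfl | h
      · have : u j' ≠ 0 := hj
        simp only [Pi.add_apply, Pi.smul_apply, smul_eq_mul]
        field_simp
        ring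
      · simp [ht j' h, hz j' h]
  choose u hu hut using fun r => hS (v r)
  obtain ⟨c, c0, c1, c2⟩ := siegel_rank (Matrix.of fun (a : α ⊕ S) (j : β) =>
      a.elim (fun a => A a j) fun s => if j = s.1 then 1 else 0) H hH
    (by
      rintro (a | a) j
      · exact hA a j
      · simp only [Matrix.of_apply, Sum.elim_inr]
        split_ifs
        · exact hH
        · simp)
    k g hk (fun r => v r - u r)
    (LinearIndependent.of_comp f (by
      convert hv using 2 with r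
      simp [(hu r).1]))
    (by
      rintro r (a | a)
      · simp only [Matrix.of_apply, Sum.elim_inl, Pi.sub_apply, mul_sub, Finset.sum_sub_distrib,
          hker r a, (hu r).2 a, sub_self]
      · simp [hut r a.1 a.2]) hg
  have c3 : A.mulVec c = 0 := funext fun a => congrFun c1 (.inl a)
  refine ⟨c, fun h => c0 ?_, c3, c2⟩
  have := hinj (fun j => c j) ⟨h, fun i => by
    beta_reduce
    exact_mod_cast (show ∑ j, A i j * c j = 0 from congrFun c3 i)⟩ fun j hj => by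
      simpa [Matrix.mulVec, dotProduct] using congrFun c1 (.inr ⟨j, hj⟩)
  funext j
  simpa using congrFun this j

/-- A small relation of twice the degree that is not killed by a given form. -/
theorem small_avoid {ι : Type*} [Fintype ι] (τ : ι → ℤ[X]) (H θ' d : ℕ) (hH : 2 ≤ H)
    (hτ : ∀ i, nm (τ i) ≤ H) (hdH : Fintype.card ι * (2 * d + 1) ≤ H) (Ψ φ : ι → ℤ[X])
    (hφ : ∑ i, Ψ i * φ i ≠ 0) (hdeg : ∀ i, (Ψ i).natDegree ≤ d) (hdvd : X ^ θ' ∣ ∑ i, Ψ i * τ i) :
    ∃ l : ι → ℤ[X], ∑ i, l i * φ i ≠ 0 ∧ (∀ i, (l i).natDegree ≤ 2 * d) ∧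
      (∀ i, nm (l i) ≤ H ^ (4 * Fintype.card ι + 1)) ∧ X ^ θ' ∣ ∑ i, l i * τ i := by
  classical
  let f : (ι × Fin (2 * d + 1) → ℚ) →ₗ[ℚ] ℚ[X] := Fintype.linearCombination ℚ
    fun k => X ^ (k.2 : ℕ) * (φ k.1).map (Int.castRingHom ℚ)
  have hf : ∀ p : ι → ℤ[X], (∀ i, (p i).natDegree < 2 * d + 1) →
      f (fun k => ((p k.1).coeff k.2 : ℤ)) = (∑ i, p i * φ i).map (Int.castRingHom ℚ) := by
    intro p hp
    ext t
    rw [coeff_map, liftSmall_dot p φ hp, Fintype.linearCombination_apply, finsetSum_coeff, map_sum]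
    refine Finset.sum_congr rfl fun k _ => ?_
    rw [coeff_smul, coeff_X_pow_mul', coeff_X_pow_mul', smul_eq_mul]
    split_ifs <;> simp [mul_comm]
  have hd : ∀ (j : Fin (d + 1)) i, (X ^ (j : ℕ) * Ψ i).natDegree < 2 * d + 1 := fun j i =>
    natDegree_mul_le.trans_lt (by
      have := hdeg i
      rw [natDegree_X_pow]
      omega)
  obtain ⟨t, t0, t1, t2⟩ := siegel_avoid (Matrix.of
    fun (a : Fin θ') (k : ι × Fin (2 * d + 1)) => (X ^ (k.2 : ℕ) * τ k.1).coeff a) H
    (by omega) (by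
      intro a k
      simp only [Matrix.of_apply, coeff_X_pow_mul']
      split_ifs
      exacts [(natAbs_coeff_le_nm _ _).trans (hτ _), by simp])
    f (d + 1) (2 * Fintype.card ι) (by omega)
    (fun j k => (((X ^ (j : ℕ) * Ψ k.1).coeff k.2 : ℤ) : ℚ))
    (Fintype.linearIndependent_iff.2 fun c hc j => by
      have : (∑ k, C (c k) * X ^ (k : ℕ)) * (∑ i, Ψ i * φ i).map (Int.castRingHom ℚ) = 0 := by
        rw [← hc, Finset.sum_mul]
        refine Finset.sum_congr rfl fun k _ => ?_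
        rw [hf _ (hd k), smul_eq_C_mul]
        simp only [mul_assoc, ← Finset.mul_sum, Polynomial.map_mul, Polynomial.map_pow, map_X]
      simpa [Fin.val_inj] using congrArg (coeff · j) ((mul_eq_zero.1 this).resolve_right
        ((Polynomial.map_ne_zero_iff (RingHom.injective_int _)).2 hφ)))
    (by
      intro j a
      have := X_pow_dvd_iff.1 (hdvd.mul_left (X ^ (j : ℕ))) a a.2
      simp only [Finset.mul_sum, ← mul_assoc] at this
      rw [liftSmall_dot _ _ (hd j)] at this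
      exact_mod_cast this) (by simp; nlinarith)
  let l : ι → ℤ[X] := fun i => ∑ s : Fin (2 * d + 1), C (t (i, s)) * X ^ (s : ℕ)
  have lc : ∀ i (s : Fin (2 * d + 1)), (l i).coeff s = t (i, s) := fun i s => by
    simp [l, Fin.val_inj]
  have ld : ∀ i, (l i).natDegree ≤ 2 * d := fun i => natDegree_sum_le_of_forall_le _ _ fun k _ =>
    (natDegree_C_mul_X_pow_le _ _).trans (by omega)
  refine ⟨l, fun e => t0 ?_, ld, fun i => ?_, X_pow_dvd_iff.2 fun a ha => ?_⟩
  · have := hf l fun i => Nat.lt_succ_of_le (ld i)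
    simpa only [lc, e, Polynomial.map_zero] using this
  · have : 0 < Fintype.card ι := Fintype.card_pos_iff.2 ⟨i⟩
    refine (nm_le_of_coeff _ (ld i) (A := (H * H) ^ (2 * Fintype.card ι)) fun s => ?_).trans ?_
    · by_cases hs : s < 2 * d + 1
      · rw [lc i ⟨s, hs⟩]
        exact (t2 _).trans (by gcongr; simpa using hdH)
      · simp [coeff_eq_zero_of_natDegree_lt ((ld i).trans_lt (show _ < s by omega))]
    · rw [← sq, ← pow_mul, pow_succ', show 2 * (2 * Fintype.card ι) = 4 * Fintype.card ι by ring]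
      exact Nat.mul_le_mul_right _ (by nlinarith)
  · rw [liftSmall_dot _ _ fun i => Nat.lt_succ_of_le (ld i)]
    simpa [lc, Matrix.mulVec, dotProduct] using congrFun t1 ⟨a, ha⟩

theorem lift2_natDegree_det {ι : Type*} [Fintype ι] [DecidableEq ι] (M : Matrix ι ι ℤ[X]) {d : ℕ}
    (h : ∀ i j, (M i j).natDegree ≤ d) : M.det.natDegree ≤ Fintype.card ι * d := by
  rw [Matrix.det_apply]
  refine natDegree_sum_le_of_forall_le _ _ fun σ _ => (natDegree_smul_le _ _).trans
    ((natDegree_prod_le _ _).trans ?_)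
  exact (Finset.sum_le_card_nsmul _ _ d fun i _ => h _ _).trans (by simp)

theorem lift2_cramer {ι R : Type*} [Fintype ι] [DecidableEq ι] [CommRing R] (M : Matrix ι ι R)
    (y : ι → R) (j : ι) : M.det * y j = ∑ i, (M.updateRow i y).det * M i j := by
  have := congrFun (Matrix.mulVec_cramer M.transpose y) j
  simp only [Matrix.mulVec, dotProduct, Matrix.cramer_transpose_apply, Matrix.transpose_apply,
    Matrix.det_transpose, Pi.smul_apply, smul_eq_mul] at this
  rw [← this]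
  exact Finset.sum_congr rfl fun i _ => mul_comm _ _

/-- The lifting lemma, with a loss linear in the number of series. -/
theorem lift {ι : Type*} [Fintype ι] [DecidableEq ι] (τ : ι → ℤ[X]) (ω : ι → ℤ) (i₀ : ι)
    (B H u θ θ' : ℕ) (hu : 1 ≤ u) (hH : 2 ≤ H) (hτ : ∀ i, nm (τ i) ≤ H)
    (hω : ∀ i, (ω i).natAbs ≤ B ^ u) (hs : |∑ i, (ω i : ℚ) * ev B (τ i)| ≤ 1 / (B : ℚ) ^ θ')
    (h0 : ¬ X ^ (θ + 1) ∣ τ i₀) (hθ : θ + 10 * (Fintype.card ι + 1) * u < θ')
    (hMH : Fintype.card ι * (2 * (10 * (Fintype.card ι + 1) * u) + 1) ≤ H)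
    (hB : H ^ (6 * (Fintype.card ι + 1) ^ 2) ≤ B) :
    ∃ (l : ι → ι → ℤ[X]) (α₀ : ℤ) (α : ι → ℤ), α₀ ≠ 0 ∧
      α₀.natAbs ≤ B ^ (10 * (Fintype.card ι + 1) * u) ∧
      (∀ k, (α k).natAbs ≤ B ^ (10 * (Fintype.card ι + 1) * u)) ∧ l i₀ = 0 ∧
      (∀ k i, (l k i).natDegree ≤ 10 * (Fintype.card ι + 1) * u) ∧
      (∀ k i, nm (l k i) ≤ H ^ (4 * Fintype.card ι + 1)) ∧ (∀ k, X ^ θ' ∣ ∑ i, l k i * τ i) ∧
      ∀ i, (α₀ : ℚ) * (ω i : ℚ) = ∑ k, (α k : ℚ) * ev B (l k i) := by
  classical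
  have M1 : 0 < Fintype.card ι := Fintype.card_pos_iff.2 ⟨i₀⟩
  set n := Fintype.card ι with hn
  have H1 : 1 ≤ H := by omega
  have hpB : ∀ k, k ≤ 6 * (n + 1) ^ 2 → H ^ k ≤ B := fun k hk =>
    (Nat.pow_le_pow_right H1 hk).trans hB
  have B1 : 1 ≤ B := by simpa using hpB 0 (by omega)
  have hnu : 10 * (n + 1) * u = 10 * (n * u) + 10 * u := by ring
  have hnH : n ≤ H := le_trans (Nat.le_mul_of_pos_right _ (by omega)) hMH
  obtain ⟨Ψ, ρ, hρ, hΨd, hΨτ, hΨω⟩ := lift_psi τ ω B H u θ' hH hτ hω hs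
    (le_trans (by
      rw [← hn]
      calc n * (2 * u + 2) + 1 ≤ n * (2 * u + 2) + n := by omega
        _ = n * (2 * u + 2 + 1) := by ring
        _ ≤ _ := Nat.mul_le_mul_left _ (by omega)) hMH) (hpB _ (by rw [← hn]; nlinarith))
  let P : Finset ι → Prop := fun S => i₀ ∉ S ∧ ∃ M : Matrix ι ι ℤ[X],
    (∀ i j, (M i j).natDegree ≤ 2 * (2 * u + 2)) ∧ (∀ i j, nm (M i j) ≤ H ^ (4 * n + 1)) ∧
    (∀ i ∈ S, X ^ θ' ∣ ∑ j, M i j * τ j) ∧ (∀ i ∉ S, M i = Pi.single i 1) ∧ M.det ≠ 0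
  have hP0 : P ∅ := ⟨by simp, 1, fun i j => by rw [Matrix.one_apply]; split_ifs <;> simp,
    fun i j => by
      rw [Matrix.one_apply]
      split_ifs
      · rw [nm_one]; exact Nat.one_le_pow _ _ H1
      · simp,
    by simp, fun i _ => by funext j; simp [Matrix.one_apply, Pi.single_apply, eq_comm], by simp⟩
  obtain ⟨S, hS, hmax⟩ := Finset.exists_max_image (Finset.univ.filter P) Finset.card
    ⟨∅, by simpa using hP0⟩
  obtain ⟨hi₀, M, hMd, hMn, hMτ, hM1, hMdet⟩ := (Finset.mem_filter.mp hS).2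
  have hupd : ∀ (i : ι) (y : ι → ℤ[X]) (p : ℤ[X] → Prop), (∀ i j, p (M i j)) → (∀ j, p (y j)) →
      ∀ k j, p (M.updateRow i y k j) := fun i y p h1 h2 k j => by
    rw [Matrix.updateRow_apply]
    split_ifs
    exacts [h2 j, h1 k j]
  have hz1 : ∀ i, i ∉ S → i ≠ i₀ → (M.updateRow i Ψ).det = 0 := by
    intro i hi hi'
    by_contra hne
    rw [tan_det_updateRow] at hne
    obtain ⟨l, l0, ld, ln, lτ⟩ := small_avoid τ H θ' (2 * u + 2) hH hτ
      (le_trans (Nat.mul_le_mul_left _ (by omega)) hMH) Ψ _ hne hΨd hΨτ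
    rw [← tan_det_updateRow] at l0
    have := hmax (insert i S) (Finset.mem_filter.mpr ⟨Finset.mem_univ _, by simp [hi₀, hi'.symm],
      M.updateRow i l, hupd i l (fun f => f.natDegree ≤ _) hMd ld,
      hupd i l (fun f => nm f ≤ _) hMn ln, fun k hk => ?_, fun k hk => ?_, l0⟩)
    · rw [Finset.card_insert_of_notMem hi] at this; omega
    · by_cases h2 : k = i
      · rw [h2, Matrix.updateRow_self]; exact lτ
      · rw [Matrix.updateRow_ne h2]; exact hMτ k ((Finset.mem_insert.mp hk).resolve_left h2)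
    · rw [Finset.mem_insert, not_or] at hk
      rw [Matrix.updateRow_ne hk.1]; exact hM1 k hk.2
  have hz : ∀ i, i ∉ S → (M.updateRow i Ψ).det = 0 := by
    intro i hi
    by_cases hi' : i = i₀
    swap
    · exact hz1 i hi hi'
    subst hi'
    by_contra hne
    have h1 : M.det * ∑ j, Ψ j * τ j = ∑ k, (M.updateRow k Ψ).det * ∑ j, M k j * τ j := by
      simp only [Finset.mul_sum, ← mul_assoc, lift2_cramer M Ψ, Finset.sum_mul]
      exact Finset.sum_comm
    rw [← Finset.add_sum_erase _ (fun k => (M.updateRow k Ψ).det * ∑ j, M k j * τ j)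
      (Finset.mem_univ i), hM1 i hi] at h1
    have h2 : X ^ θ' ∣ (M.updateRow i Ψ).det * τ i := by
      have h3 : ∑ j, (Pi.single i 1 : ι → ℤ[X]) j * τ j = τ i := by simp [Pi.single_apply]
      rw [h3] at h1
      rw [← sub_eq_iff_eq_add.mpr h1]
      refine dvd_sub (hΨτ.mul_left _) (Finset.dvd_sum fun k hk => ?_)
      by_cases hkS : k ∈ S
      · exact (hMτ k hkS).mul_left _
      · rw [hz1 k hkS (Finset.ne_of_mem_erase hk), zero_mul]; exact dvd_zero _
    have h4 := lift2_natDegree_det _ (hupd i Ψ (fun f => f.natDegree ≤ 2 * (2 * u + 2)) hMd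
      fun j => (hΨd j).trans (by omega))
    refine not_X_pow_dvd_mul (not_X_pow_dvd_of_natDegree hne h4) h0 ((pow_dvd_pow X ?_).trans h2)
    rw [← hn]
    nlinarith
  have hev : ∀ N : Matrix ι ι ℤ[X], ev B N.det = (N.map (ev B)).det := fun N => by
    rw [AlgHom.map_det]; rfl
  have hzω : ∀ i, i ∉ S → ev B (M.updateRow i fun j => C (ω j)).det = 0 := by
    intro i hi
    have h1 := congrArg (ev B) (hz i hi)
    rw [hev, map_zero, Matrix.map_updateRow] at h1
    have h2 : ev B ∘ Ψ = ρ • (ev B ∘ fun j => C (ω j)) := by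
      funext j
      simp [hΨω j]
    rw [h2, Matrix.det_updateRow_smul] at h1
    rw [hev, Matrix.map_updateRow]
    exact (mul_eq_zero.mp h1).resolve_left hρ
  have hBu : B ≤ B ^ u := Nat.le_self_pow (by omega) B
  have hint : ∀ N : Matrix ι ι ℤ[X], (∀ i j, (N i j).natDegree ≤ 2 * (2 * u + 2)) →
      (∀ i j, nm (N i j) ≤ B ^ u) → ∃ z : ℤ, (z : ℚ) = (B : ℚ) ^ (n * (2 * (2 * u + 2))) *
        ev B N.det ∧ z.natAbs ≤ B ^ (10 * (n + 1) * u) := by
    intro N h1 h2
    obtain ⟨z, hz⟩ := exists_int_ev B1 (lift2_natDegree_det N h1)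
    refine ⟨z, hz, ?_⟩
    have h3 : nm N.det ≤ B ^ (2 * u * n) := (nm_det_le N h2).trans (by
      rw [pow_mul, two_mul, pow_add]
      refine Nat.pow_le_pow_left (Nat.mul_le_mul_right _ ?_) _
      have := hpB 1 (by nlinarith)
      rw [pow_one] at this
      omega)
    have h4 : ((z.natAbs : ℕ) : ℚ) ≤ ((B ^ (n * (2 * (2 * u + 2))) * B ^ (2 * u * n) : ℕ) : ℚ) := by
      rw [Nat.cast_natAbs, Int.cast_abs, hz, abs_mul, abs_of_nonneg (by positivity)]
      push_cast
      exact mul_le_mul_of_nonneg_left ((abs_ev_le_nm B1 _).trans (by exact_mod_cast h3))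
        (by positivity)
    refine (Nat.cast_le.mp h4).trans ?_
    rw [← pow_add]
    exact Nat.pow_le_pow_right B1 (by nlinarith)
  have hMB : ∀ i j, nm (M i j) ≤ B ^ u := fun i j =>
    (hMn i j).trans ((hpB _ (by nlinarith)).trans hBu)
  obtain ⟨α₀, hα₀, hα₀n⟩ := hint M hMd hMB
  choose α hα hαn using fun k => hint (M.updateRow k fun j => C (ω j))
    (hupd k _ (fun f => f.natDegree ≤ _) hMd fun j => by simp)
    (hupd k _ (fun f => nm f ≤ _) hMB fun j => by rw [nm_C]; exact hω j)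
  refine ⟨fun k => if k ∈ S then M k else 0, α₀, α, fun h => ?_, hα₀n, hαn, if_neg hi₀,
    fun k i => ?_, fun k i => ?_, fun k => ?_, fun i => ?_⟩
  · rw [h, Int.cast_zero] at hα₀
    refine ev_ne_zero hMdet ?_ ((mul_eq_zero.mp hα₀.symm).resolve_left (by positivity))
    refine (nm_det_le M hMn).trans_lt (lt_of_lt_of_le ?_ hB)
    calc (n * H ^ (4 * n + 1)) ^ n ≤ (H * H ^ (4 * n + 1)) ^ n :=
          Nat.pow_le_pow_left (Nat.mul_le_mul_right _ hnH) _
      _ = H ^ ((4 * n + 1 + 1) * n) := by rw [← pow_succ', ← pow_mul]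
      _ < _ := Nat.pow_lt_pow_right (by omega) (by nlinarith)
  · dsimp only
    split_ifs
    · exact (hMd k i).trans (by omega)
    · simp
  · dsimp only
    split_ifs
    · exact hMn k i
    · simp
  · dsimp only
    split_ifs with h
    · exact hMτ k h
    · simp
  · have h1 := congrArg (ev B) (lift2_cramer M (fun j => C (ω j)) i)
    rw [map_mul, ev_C, map_sum] at h1
    rw [hα₀, mul_assoc, h1, Finset.mul_sum]
    refine Finset.sum_congr rfl fun k _ => ?_
    rw [hα, map_mul]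
    dsimp only
    split_ifs with h
    · ring
    · rw [hzω k h]; simp

end Pool.Agent.Lib.MP_f2f914_nt.EAB
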