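import Pool.Agent.Lib.MP_f2f914_nt.EAB.Small

namespace Pool.Agent.Lib.MP_f2f914_nt.EAB

open Polynomial

open Finset in
theorem liftPsi_fun {ι : Type*} [Fintype ι] (τ : ι → ℤ[X]) (om : ι → ℤ) {B H u J θ : ℕ}
    (H1 : 1 ≤ H) (B1 : 1 ≤ B) (hτ : ∀ i, nm (τ i) ≤ H) (hom : ∀ i, (om i).natAbs ≤ B ^ u)
    (hs : |∑ i, (om i : ℚ) * ev B (τ i)| ≤ 1 / (B : ℚ) ^ θ)
    (hε : (1 + Fintype.card ι * (B ^ u * H)) * ((Fintype.card ι * J + 1) * H) ^
      (Fintype.card ι * J + 1) < B ^ (J + 1)) (f : ℤ[X])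
    (hf : f = ∑ i, C (om i) * (X ^ (J + 1) * τ i)) (G : ℕ → ℤ) (G0 : G 0 = f.coeff 0)
    (Gs : ∀ a, G (a + 1) = B * G a + f.coeff (a + 1)) :
    ∃ l : ι × Fin J → ℚ, ∀ a : Fin (θ + 1),
      (G a : ℚ) = ∑ k, l k * ((X ^ (J + 1) * τ k.1).coeff (a + (k.2 + 1)) : ℤ) := by
  classical
  obtain ⟨r, hr⟩ : ∃ r : ℚ, r = (B : ℚ)⁻¹ := ⟨_, rfl⟩
  have B1' : (1 : ℚ) ≤ B := by exact_mod_cast B1
  have rB : B * r = 1 := by rw [hr]; field_simp
  have r0 : 0 ≤ r := by rw [hr]; positivity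
  have r1 : r ≤ 1 := by nlinarith
  have fc : ∀ s, f.coeff s = ∑ i, om i * (X ^ (J + 1) * τ i).coeff s := fun s => by
    simp only [hf, finsetSum_coeff, coeff_C_mul]
  have Gc : ∀ a : ℕ, (G a : ℚ) = B ^ a * ∑ s ∈ range (a + 1), f.coeff s * r ^ s := fun a => by
    induction a with
    | zero => simp [G0]
    | succ a ih =>
      rw [Gs, sum_range_succ, mul_add, mul_left_comm, ← mul_pow, rB]
      push_cast
      rw [ih]
      ring
  refine exists_functional (fun (a : Fin (θ + 1)) (k : ι × Fin J) =>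
    (X ^ (J + 1) * τ k.1).coeff (a + (k.2 + 1))) (fun a => G a) H H1 (fun _ _ => ?_)
    (fun k => -(om k.1 * r ^ (k.2 + 1 : ℕ))) ((1 + Fintype.card ι * (B ^ u * H)) * r ^ (J + 1))
    (fun a => ?_) ?_
  · rw [coeff_X_pow_mul']
    split_ifs
    exacts [(natAbs_coeff_le_nm _ _).trans (hτ _), by simp]
  · have e1 : ev B f = ∑ s ∈ range (a + 1 + J + (f.natDegree + 1)), f.coeff s * r ^ s := by
      rw [ev, ← hr, aeval_eq_sum_range' (n := a + 1 + J + (f.natDegree + 1)) (by omega)]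
      simp
    have e2 : ev B f = r ^ (J + 1) * ∑ i, om i * ev B (τ i) := by
      simp [hf, hr, ev_X, mul_sum, mul_left_comm]
    have e3 : ∑ k : ι × Fin J, -(om k.1 * r ^ (k.2 + 1 : ℕ)) *
        ((X ^ (J + 1) * τ k.1).coeff (a + (k.2 + 1)) : ℤ) =
        -(B ^ (a : ℕ) * ∑ j ∈ range J, f.coeff (a + 1 + j) * r ^ (a + 1 + j)) := by
      rw [Fintype.sum_prod_type_right, sum_range, mul_sum, ← sum_neg_distrib]
      refine sum_congr rfl fun j _ => ?_
      rw [fc, add_assoc (a : ℕ), add_comm 1, pow_add r a, mul_left_comm, ← mul_assoc (B ^ _ : ℚ),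
        ← mul_pow, rB]
      push_cast
      rw [sum_mul, ← sum_neg_distrib]
      exact sum_congr rfl fun i _ => by ring
    have e4 : |B ^ (a : ℕ) * ∑ j ∈ range (f.natDegree + 1),
        (f.coeff (a + 1 + J + j) : ℚ) * r ^ (a + 1 + J + j)| ≤
        Fintype.card ι * (B ^ u * H) * r ^ (J + 1) := by
      have : ∑ j ∈ range (f.natDegree + 1), (f.coeff (a + 1 + J + j)).natAbs ≤
          Fintype.card ι * (B ^ u * H) := by
        refine (sum_le_sum fun j _ => (fc _).symm ▸ Int.natAbs_sum_le _ _).trans ?_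
        rw [sum_comm]
        refine sum_le_card_nsmul _ _ _ fun i _ => ?_
        simp only [Int.natAbs_mul, ← mul_sum, show ∀ j, a + 1 + J + j = a + j + (J + 1) from
          fun j => by ring, coeff_X_pow_mul]
        have := (sum_coeff_le_nm (τ i) (range (a + (f.natDegree + 1)))).trans (hτ i)
        rw [sum_range_add] at this
        exact Nat.mul_le_mul (hom i) (by omega)
      rw [mul_sum]
      refine (abs_sum_le_sum_abs _ _).trans (le_trans ?_ (mul_le_mul_of_nonneg_right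
        (by simp only [← Int.cast_abs, Int.abs_eq_natAbs]; exact_mod_cast this :
          (∑ j ∈ range (f.natDegree + 1), |(f.coeff (a + 1 + J + j) : ℚ)|) ≤ _) (by positivity)))
      rw [sum_mul]
      refine sum_le_sum fun j _ => ?_
      rw [show (B : ℚ) ^ (a : ℕ) * (f.coeff (a + 1 + J + j) * r ^ (a + 1 + J + j)) =
        (B * r) ^ (a : ℕ) * f.coeff (a + 1 + J + j) * (r ^ (J + 1) * r ^ j) by ring, rB, one_pow,
        one_mul, abs_mul, abs_of_nonneg (by positivity : 0 ≤ r ^ (J + 1) * r ^ j)]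
      exact mul_le_mul_of_nonneg_left (mul_le_of_le_one_right (by positivity)
        (pow_le_one₀ r0 r1)) (abs_nonneg _)
    rw [sum_range_add, sum_range_add, e2] at e1
    rw [e3, Gc, sub_neg_eq_add, ← mul_add, ← sub_eq_iff_eq_add.2 e1, mul_sub, add_mul, one_mul]
    refine (abs_sub _ _).trans (add_le_add ?_ e4)
    rw [mul_left_comm, abs_mul, abs_of_nonneg (by positivity), abs_mul,
      abs_of_nonneg (by positivity : (0 : ℚ) ≤ B ^ (a : ℕ))]
    rw [le_div_iff₀' (by positivity)] at hs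
    exact mul_le_of_le_one_right (by positivity) (le_trans (by gcongr; omega) hs)
  · rw [mul_right_comm, hr, inv_pow, ← div_eq_mul_inv, div_lt_one (by positivity),
      Fintype.card_prod, Fintype.card_fin]
    exact_mod_cast hε

/-- A numerical relation at `1 / B` lifts to a formal relation of bounded degree. -/
theorem lift_psi {ι : Type*} [Fintype ι] (τ : ι → ℤ[X]) (ω : ι → ℤ) (B H u θ' : ℕ) (hH : 2 ≤ H)
    (hτ : ∀ i, nm (τ i) ≤ H) (hω : ∀ i, (ω i).natAbs ≤ B ^ u)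
    (hs : |∑ i, (ω i : ℚ) * ev B (τ i)| ≤ 1 / (B : ℚ) ^ θ')
    (hMH : Fintype.card ι * (2 * u + 2) + 1 ≤ H) (hB : H ^ (6 * Fintype.card ι + 2) ≤ B) :
    ∃ (Ψ : ι → ℤ[X]) (ρ : ℚ), ρ ≠ 0 ∧ (∀ i, (Ψ i).natDegree ≤ 2 * u + 2) ∧
      X ^ θ' ∣ ∑ i, Ψ i * τ i ∧ ∀ i, ev B (Ψ i) = ρ * (ω i : ℚ) := by
  classical
  have B1 : 1 ≤ B := (Nat.one_le_pow _ _ (by omega)).trans hB
  obtain ⟨J, hJ⟩ : ∃ J, J = 2 * u + 2 := ⟨_, rfl⟩
  rw [← hJ] at hMH ⊢
  obtain ⟨f, hf⟩ : ∃ f : ℤ[X], f = ∑ i, C (ω i) * (X ^ (J + 1) * τ i) := ⟨_, rfl⟩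
  obtain ⟨G, G0, Gs⟩ : ∃ G : ℕ → ℤ, G 0 = f.coeff 0 ∧
      ∀ a, G (a + 1) = B * G a + f.coeff (a + 1) :=
    ⟨fun a => Nat.rec (f.coeff 0) (fun a g => B * g + f.coeff (a + 1)) a, rfl, fun _ => rfl⟩
  obtain ⟨l₀, hl₀⟩ := liftPsi_fun τ ω (J := J) (by omega) B1 hτ hω hs (by
    generalize Fintype.card ι = M at hMH hB
    have e2 : 1 + M * (B ^ u * H) < H * (B ^ u * H) := by
      have : 2 ≤ B ^ u * H := le_mul_of_one_le_of_le (Nat.one_le_pow _ _ B1) hH
      have : M + 1 ≤ H := by nlinarith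
      nlinarith
    calc _ < H * (B ^ u * H) * (H * H) ^ (M * J + 1) :=
          Nat.mul_lt_mul_of_lt_of_le e2 (by gcongr) (by positivity)
      _ = H ^ (2 * (M * J + 1) + 2) * B ^ u := by ring
      _ ≤ H ^ ((6 * M + 2) * (u + 3)) * B ^ u := by
          gcongr
          exacts [by omega, by nlinarith]
      _ ≤ B ^ (u + 3) * B ^ u := by
          rw [pow_mul]
          gcongr
      _ = _ := by rw [hJ]; ring) f hf G G0 Gs
  obtain ⟨⟨c, c0⟩, hc⟩ := IsLocalization.exist_integer_multiples_of_finite (nonZeroDivisors ℤ) l₀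
  choose l hl using hc
  let p : ι → ℤ[X] := fun i => ∑ j : Fin J, C (l (i, j)) * X ^ (J - 1 - j)
  have B0 : (B : ℚ) ≠ 0 := by positivity
  refine ⟨fun i => C (c * ω i) * X ^ J - (1 - C (B : ℤ) * X) * p i, c * (B : ℚ)⁻¹ ^ J,
    mul_ne_zero (by exact_mod_cast nonZeroDivisors.ne_zero c0) (by positivity), fun i => ?_, ?_,
    fun i => ?_⟩
  · refine (natDegree_sub_le _ _).trans (max_le (natDegree_C_mul_X_pow_le _ _) ?_)
    rw [Finset.mul_sum]
    refine natDegree_sum_le_of_forall_le _ _ fun j _ => natDegree_mul_le.trans ?_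
    have : (1 - C (B : ℤ) * X).natDegree ≤ 1 := by compute_degree
    have := natDegree_C_mul_X_pow_le (l (i, j)) (J - 1 - j)
    omega
  · let q : ℤ[X] := ∑ k : ι × Fin J, C (l k) * (X ^ (J - k.2) * τ k.1)
    have hq : ∀ a < θ' + 1, q.coeff a = c * G a := fun a ha => by
      apply Int.cast_injective (α := ℚ)
      rw [Int.cast_mul, hl₀ ⟨a, ha⟩, Finset.mul_sum]
      simp only [q, finsetSum_coeff, coeff_C_mul, Int.cast_sum, Int.cast_mul]
      refine Finset.sum_congr rfl fun k _ => ?_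
      rw [show J + 1 = k.2 + 1 + (J - k.2) by omega, pow_add, mul_assoc (X ^ _), coeff_X_pow_mul,
        show (l k : ℚ) = c * l₀ k by simpa using hl k, mul_assoc]
    have e : X * ∑ i, (C (c * ω i) * X ^ J - (1 - C (B : ℤ) * X) * p i) * τ i =
        C c * f - q + C (B : ℤ) * (X * q) := by
      have : q = X * ∑ i, p i * τ i := by
        simp only [q, p, Fintype.sum_prod_type, Finset.mul_sum, Finset.sum_mul]
        refine Finset.sum_congr rfl fun i _ => Finset.sum_congr rfl fun j _ => ?_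
        rw [show J - j = J - 1 - j + 1 by omega]
        ring
      rw [this]
      simp only [hf, Finset.mul_sum, ← Finset.sum_sub_distrib, ← Finset.sum_add_distrib]
      refine Finset.sum_congr rfl fun i _ => ?_
      rw [C_mul]
      ring
    rw [← mul_dvd_mul_iff_left (X_ne_zero (R := ℤ)), e, ← pow_succ', X_pow_dvd_iff]
    rintro (_ | a) ha
    · rw [coeff_add, coeff_sub, coeff_C_mul, coeff_C_mul, hq 0 ha, G0]
      simp
    · rw [coeff_add, coeff_sub, coeff_C_mul, coeff_C_mul, coeff_X_mul, hq _ ha, hq a (by omega), Gs]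
      ring
  · simp [ev_X, B0, mul_right_comm]

end Pool.Agent.Lib.MP_f2f914_nt.EAB
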