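import Pool.Agent.Lib.MP_f2f914_nt.EAB.Deriv

namespace Pool.Agent.Lib.MP_f2f914_nt.EAB

open Polynomial

theorem liou_nm_le {f g : ℤ[X]} (h : ∀ i, (g.coeff i).natAbs ≤ (f.coeff i).natAbs) :
    nm g ≤ nm f :=
  (Finset.sum_le_sum fun i _ => h i).trans (sum_coeff_le_nm f _)

theorem liou_split (f : ℤ[X]) {t₀ T : ℕ} (h : ∀ t, t₀ ≤ t → t < T → f.coeff t = 0) :
    ∃ N R : ℤ[X], f = N + R ∧ N.natDegree ≤ t₀ ∧ X ^ T ∣ R ∧ nm N ≤ nm f ∧ nm R ≤ nm f := by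
  have hc : ∀ i, (∑ t ∈ Finset.range t₀, monomial t (f.coeff t)).coeff i =
      if i < t₀ then f.coeff i else 0 := by
    intro i
    simp [coeff_monomial]
  refine ⟨∑ t ∈ Finset.range t₀, monomial t (f.coeff t),
    f - ∑ t ∈ Finset.range t₀, monomial t (f.coeff t), by ring, ?_, ?_, ?_, ?_⟩
  · rw [natDegree_le_iff_coeff_eq_zero]
    intro i hi
    rw [hc, if_neg (by omega)]
  · rw [X_pow_dvd_iff]
    intro i hi
    rw [coeff_sub, hc]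
    split_ifs with h1
    · exact sub_self _
    · rw [h i (by omega) hi, sub_zero]
  · refine liou_nm_le fun i => ?_
    rw [hc]
    split_ifs <;> simp
  · refine liou_nm_le fun i => ?_
    rw [coeff_sub, hc]
    split_ifs <;> simp

theorem liou_int (P : ℤ[X]) {D : ℕ} (hP : P.natDegree ≤ D) {q z : ℤ} {r : ℚ} (hq : q ≠ 0)
    (hz : (q : ℚ) * r = z) (hr : aeval r P ≠ 0) : 1 ≤ |(q : ℚ)| ^ D * |aeval r P| := by
  have hq' : (q : ℚ) ≠ 0 := by exact_mod_cast hq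
  have h1 : (q : ℚ) ^ D * aeval r P =
      ((∑ i ∈ Finset.range (D + 1), P.coeff i * z ^ i * q ^ (D - i) : ℤ) : ℚ) := by
    rw [aeval_eq_sum_range' (Nat.lt_succ_of_le hP), Finset.mul_sum]
    push_cast
    refine Finset.sum_congr rfl fun i hi => ?_
    have hi' : i ≤ D := Nat.le_of_lt_succ (Finset.mem_range.1 hi)
    obtain ⟨k, rfl⟩ := Nat.exists_eq_add_of_le hi'
    rw [← hz, Nat.add_sub_cancel_left, zsmul_eq_mul]
    ring
  have h2 : (q : ℚ) ^ D * aeval r P ≠ 0 := mul_ne_zero (pow_ne_zero _ hq') hr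
  rw [← abs_pow, ← abs_mul]
  rw [h1] at h2 ⊢
  have h3 := Int.one_le_abs (Int.cast_ne_zero.1 h2)
  exact_mod_cast h3

theorem liou_sum {m' B c T : ℕ} (hB : 1 ≤ B) (α : Fin m' → ℤ) (hα : ∀ j, (α j).natAbs ≤ B ^ c)
    (f : Fin m' → ℤ[X]) (hf : ∀ j, m' * nm (f j) ≤ B) (hT : ∀ j, X ^ T ∣ f j) :
    |∑ j, (α j : ℚ) * ev B (f j)| ≤ (B : ℚ) ^ (c + 1) / (B : ℚ) ^ T := by
  have hB0 : (0 : ℚ) < B := by exact_mod_cast hB
  have h1 : ∑ j, nm (f j) ≤ B := by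
    rcases Nat.eq_zero_or_pos m' with h0 | h0
    · subst h0
      simp
    · refine Nat.le_of_mul_le_mul_left ?_ h0
      rw [Finset.mul_sum]
      refine (Finset.sum_le_sum fun j _ => hf j).trans ?_
      simp
  have h2 : ∀ j, |(α j : ℚ) * ev B (f j)| ≤ (B : ℚ) ^ c / (B : ℚ) ^ T * nm (f j) := by
    intro j
    have h3 : |(α j : ℚ)| ≤ (B : ℚ) ^ c := by
      have h4 : (((α j).natAbs : ℕ) : ℚ) ≤ ((B ^ c : ℕ) : ℚ) := Nat.cast_le.2 (hα j)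
      rwa [Nat.cast_natAbs, Int.cast_abs, Nat.cast_pow] at h4
    rw [abs_mul]
    refine (mul_le_mul h3 (abs_ev_le hB (hT j)) (abs_nonneg _) (by positivity)).trans (le_of_eq ?_)
    ring
  refine (Finset.abs_sum_le_sum_abs _ _).trans ((Finset.sum_le_sum fun j _ => h2 j).trans ?_)
  rw [← Finset.mul_sum]
  have h5 : (∑ j, (nm (f j) : ℚ)) ≤ B := by exact_mod_cast h1
  refine (mul_le_mul_of_nonneg_left h5 (by positivity)).trans (le_of_eq ?_)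
  ring

/-- A gap from `t₀` to `K t₀` contradicts Liouville's inequality. -/
theorem liouville_gap (D B c t₀ K m' : ℕ) (P : ℤ[X]) (hP : P.natDegree ≤ D)
    (hroot : ∀ r : ℚ, aeval r P ≠ 0) (hcoef : ∀ i, (P.coeff i).natAbs ≤ B ^ c) (x : ℚ)
    (hx : |aeval x P| ≤ 1 / (B : ℚ) ^ (K * t₀)) (hK : 4 * D + 6 ≤ K) (hB : D + 2 ≤ B)
    (hc : 2 * c + 2 ≤ t₀) (y : Fin m' → ℤ[X]) (α₀ : ℤ) (α : Fin m' → ℤ) (hα0 : α₀ ≠ 0)
    (hα₀ : α₀.natAbs ≤ B ^ c) (hα : ∀ j, (α j).natAbs ≤ B ^ c)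
    (hxα : (α₀ : ℚ) * x = ∑ j, (α j : ℚ) * ev B (y j)) (A : ℤ[X]) (hA0 : A ≠ 0)
    (hAd : A.natDegree ≤ c) (hA : nm A < B) (hy : ∀ j, m' * (nm A * nm (y j)) ≤ B)
    (hgap : ∀ j t, t₀ ≤ t → t < K * t₀ → (A * y j).coeff t = 0) : False := by
  have hB1 : 1 ≤ B := by omega
  have hB2 : (2 : ℚ) ≤ B := by exact_mod_cast (by omega : 2 ≤ B)
  have hB1' : (1 : ℚ) ≤ B := by linarith
  have hB0 : (0 : ℚ) < B := by linarith
  choose N R hNR hNd hRd hN hR using fun j => liou_split (A * y j) (hgap j)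
  have hAy : ∀ j, m' * nm (A * y j) ≤ B := fun j =>
    (Nat.mul_le_mul_left _ (nm_mul_le _ _)).trans (hy j)
  have ha0 : ev B A ≠ 0 := ev_ne_zero hA0 hA
  obtain ⟨At, hAt⟩ := exists_int_ev hB1 hAd
  have hAt0 : At ≠ 0 := by
    rw [← Int.cast_ne_zero (α := ℚ), hAt]
    exact mul_ne_zero (by positivity) ha0
  choose z hz using fun j => exists_int_ev hB1 (hNd j)
  set a : ℚ := α₀ * ev B A with ha
  have ha0' : a ≠ 0 := mul_ne_zero (by exact_mod_cast hα0) ha0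
  have hal : 1 ≤ (B : ℚ) ^ c * |a| := by
    have h1 : (1 : ℤ) ≤ |α₀ * At| := Int.one_le_abs (mul_ne_zero hα0 hAt0)
    have h2 : (1 : ℚ) ≤ |(α₀ : ℚ) * At| := by exact_mod_cast h1
    rw [hAt, mul_left_comm, abs_mul, abs_of_pos (by positivity : (0 : ℚ) < (B : ℚ) ^ c)] at h2
    exact h2
  have hau : |a| ≤ (B : ℚ) ^ (c + 1) := by
    have h3 : |(α₀ : ℚ)| ≤ (B : ℚ) ^ c := by
      have h4 : ((α₀.natAbs : ℕ) : ℚ) ≤ ((B ^ c : ℕ) : ℚ) := Nat.cast_le.2 hα₀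
      rwa [Nat.cast_natAbs, Int.cast_abs, Nat.cast_pow] at h4
    have h5 : |ev B A| ≤ B := (abs_ev_le_nm hB1 A).trans (by exact_mod_cast hA.le)
    rw [ha, abs_mul, pow_succ]
    exact mul_le_mul h3 h5 (abs_nonneg _) (by positivity)
  have hdiv : ∀ (v : ℚ) (T : ℕ), |a * v| ≤ (B : ℚ) ^ (c + 1) / (B : ℚ) ^ T →
      |v| ≤ (B : ℚ) ^ t₀ / (B : ℚ) ^ T := by
    intro v T hv
    rw [abs_mul] at hv
    calc |v| ≤ ((B : ℚ) ^ c * |a|) * |v| := le_mul_of_one_le_left (abs_nonneg _) hal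
      _ = (B : ℚ) ^ c * (|a| * |v|) := by ring
      _ ≤ (B : ℚ) ^ c * ((B : ℚ) ^ (c + 1) / (B : ℚ) ^ T) :=
        mul_le_mul_of_nonneg_left hv (by positivity)
      _ = (B : ℚ) ^ (2 * c + 1) / (B : ℚ) ^ T := by ring
      _ ≤ _ := div_le_div_of_nonneg_right (pow_le_pow_right₀ hB1' (by omega)) (by positivity)
  have hax : a * x = ∑ j, (α j : ℚ) * ev B (A * y j) := by
    rw [ha, mul_right_comm, hxα, Finset.sum_mul]
    exact Finset.sum_congr rfl fun j _ => by rw [map_mul]; ring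
  set r : ℚ := (∑ j, (α j : ℚ) * ev B (N j)) / a with hr
  have har : a * r = ∑ j, (α j : ℚ) * ev B (N j) := by rw [hr, mul_div_cancel₀ _ ha0']
  have haxr : a * (x - r) = ∑ j, (α j : ℚ) * ev B (R j) := by
    rw [mul_sub, hax, har, ← Finset.sum_sub_distrib]
    exact Finset.sum_congr rfl fun j _ => by rw [hNR j, map_add]; ring
  have hx1 : |x| ≤ (B : ℚ) ^ t₀ := by
    have := hdiv x 0 (by rw [hax]; exact liou_sum hB1 α hα _ hAy fun j => by simp)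
    simpa using this
  have hr1 : |r| ≤ (B : ℚ) ^ t₀ := by
    have := hdiv r 0 (by
      rw [har]
      exact liou_sum hB1 α hα _ (fun j => (Nat.mul_le_mul_left _ (hN j)).trans (hAy j))
        fun j => by simp)
    simpa using this
  have hxr : |x - r| ≤ (B : ℚ) ^ t₀ / (B : ℚ) ^ (K * t₀) := hdiv _ _ (by
    rw [haxr]
    exact liou_sum hB1 α hα _ (fun j => (Nat.mul_le_mul_left _ (hR j)).trans (hAy j)) hRd)
  have hq0 : α₀ * At * (B : ℤ) ^ t₀ ≠ 0 :=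
    mul_ne_zero (mul_ne_zero hα0 hAt0) (pow_ne_zero _ (by omega))
  have hqe : ((α₀ * At * (B : ℤ) ^ t₀ : ℤ) : ℚ) = (B : ℚ) ^ c * (B : ℚ) ^ t₀ * a := by
    push_cast
    rw [hAt, ha]
    ring
  have hqr : ((α₀ * At * (B : ℤ) ^ t₀ : ℤ) : ℚ) * r = (((B : ℤ) ^ c * ∑ j, α j * z j : ℤ) : ℚ) := by
    rw [hqe, mul_assoc, har]
    push_cast
    rw [mul_assoc, Finset.mul_sum]
    congr 1
    exact Finset.sum_congr rfl fun j _ => by rw [hz j]; ring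
  have hqu : |((α₀ * At * (B : ℤ) ^ t₀ : ℤ) : ℚ)| ≤ (B : ℚ) ^ (2 * t₀) := by
    rw [hqe, abs_mul, abs_of_pos (by positivity : (0 : ℚ) < (B : ℚ) ^ c * (B : ℚ) ^ t₀)]
    calc (B : ℚ) ^ c * (B : ℚ) ^ t₀ * |a| ≤ (B : ℚ) ^ c * (B : ℚ) ^ t₀ * (B : ℚ) ^ (c + 1) :=
          mul_le_mul_of_nonneg_left hau (by positivity)
      _ = (B : ℚ) ^ (c + t₀ + (c + 1)) := by ring
      _ ≤ _ := pow_le_pow_right₀ hB1' (by omega)
  have hlow : 1 ≤ (B : ℚ) ^ (2 * t₀ * D) * |aeval r P| := by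
    refine (liou_int P hP hq0 hqr (hroot r)).trans ?_
    rw [pow_mul]
    exact mul_le_mul_of_nonneg_right (pow_le_pow_left₀ (abs_nonneg _) hqu D) (abs_nonneg _)
  have hsub := abs_aeval_sub_le P D (B ^ c) hP hcoef ((B : ℚ) ^ t₀) x r (one_le_pow₀ hB1') hx1 hr1
  have hcf : (((D + 1) * D * B ^ c : ℕ) : ℚ) ≤ (B : ℚ) ^ t₀ := by
    have h1 : (D + 1) * D * B ^ c ≤ B ^ t₀ := by
      calc (D + 1) * D * B ^ c ≤ B * B * B ^ c :=
            Nat.mul_le_mul_right _ (Nat.mul_le_mul (by omega) (by omega))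
        _ = B ^ (c + 2) := by ring
        _ ≤ B ^ t₀ := Nat.pow_le_pow_right hB1 (by omega)
    exact_mod_cast h1
  have hsub2 : |aeval x P - aeval r P| ≤ (B : ℚ) ^ ((D + 2) * t₀) / (B : ℚ) ^ (K * t₀) := by
    refine hsub.trans ?_
    calc (((D + 1) * D * B ^ c : ℕ) : ℚ) * ((B : ℚ) ^ t₀) ^ D * |x - r|
        ≤ (B : ℚ) ^ t₀ * ((B : ℚ) ^ t₀) ^ D * ((B : ℚ) ^ t₀ / (B : ℚ) ^ (K * t₀)) := by
          gcongr
      _ = _ := by ring
  have hPr : |aeval r P| ≤ (B : ℚ) ^ ((D + 2) * t₀ + 1) / (B : ℚ) ^ (K * t₀) := by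
    have h1 : |aeval r P| ≤ |aeval x P| + |aeval x P - aeval r P| := by
      have := abs_sub (aeval x P) (aeval x P - aeval r P)
      rwa [sub_sub_cancel] at this
    refine h1.trans ((add_le_add hx hsub2).trans ?_)
    rw [← add_div]
    refine div_le_div_of_nonneg_right ?_ (by positivity)
    have h2 : (1 : ℚ) ≤ (B : ℚ) ^ ((D + 2) * t₀) := one_le_pow₀ hB1'
    rw [pow_succ]
    nlinarith
  have hfin : (B : ℚ) ^ (K * t₀) ≤ (B : ℚ) ^ (2 * t₀ * D + ((D + 2) * t₀ + 1)) := by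
    have h1 := hlow.trans (mul_le_mul_of_nonneg_left hPr (by positivity))
    rwa [← mul_div_assoc, one_le_div (by positivity), ← pow_add] at h1
  have h2 := (pow_le_pow_iff_right₀ (by linarith : (1 : ℚ) < B)).1 hfin
  have h3 : (4 * D + 6) * t₀ ≤ K * t₀ := Nat.mul_le_mul_right _ hK
  nlinarith

end Pool.Agent.Lib.MP_f2f914_nt.EAB
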