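import Pool.Agent.Lib.MP_f2f914_nt.EAB.Defs

namespace Pool.Agent.Lib.MP_f2f914_nt.EAB

open Polynomial

variable {σ : Type*}

theorem mv_nmv_eq_sum (P : MvPolynomial σ ℤ) {s : Finset (σ →₀ ℕ)} (h : P.support ⊆ s) :
    nmv P = ∑ i ∈ s, (MvPolynomial.coeff i P).natAbs := by
  unfold nmv
  refine Finset.sum_subset h fun i _ hi => ?_
  rw [MvPolynomial.notMem_support_iff.mp hi, Int.natAbs_zero]

theorem mv_nmv_monomial (s : σ →₀ ℕ) (a : ℤ) :
    nmv (MvPolynomial.monomial s a : MvPolynomial σ ℤ) = a.natAbs := by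
  classical
  rw [mv_nmv_eq_sum _ (s := {s}) MvPolynomial.support_monomial_subset]
  simp

theorem mv_nmv_C (a : ℤ) : nmv (MvPolynomial.C a : MvPolynomial σ ℤ) = a.natAbs :=
  mv_nmv_monomial 0 a

theorem natAbs_coeff_le_nmv (P : MvPolynomial σ ℤ) (s : σ →₀ ℕ) :
    (MvPolynomial.coeff s P).natAbs ≤ nmv P := by
  by_cases h : s ∈ P.support
  · exact Finset.single_le_sum (f := fun s => (MvPolynomial.coeff s P).natAbs)
      (fun _ _ => Nat.zero_le _) h
  · rw [MvPolynomial.notMem_support_iff.mp h]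
    exact Nat.zero_le _

theorem nmv_zero : nmv (0 : MvPolynomial σ ℤ) = 0 := by
  simp [nmv]

theorem nmv_one : nmv (1 : MvPolynomial σ ℤ) = 1 := by
  exact mv_nmv_monomial 0 1

theorem nmv_X (i : σ) : nmv (MvPolynomial.X i : MvPolynomial σ ℤ) = 1 := by
  exact mv_nmv_monomial _ 1

theorem nmv_natCast (n : ℕ) : nmv (n : MvPolynomial σ ℤ) = n := by
  rw [← map_natCast (MvPolynomial.C : ℤ →+* MvPolynomial σ ℤ), mv_nmv_C, Int.natAbs_natCast]

theorem nmv_neg (P : MvPolynomial σ ℤ) : nmv (-P) = nmv P := by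
  simp [nmv]

theorem nmv_add_le (P Q : MvPolynomial σ ℤ) : nmv (P + Q) ≤ nmv P + nmv Q := by
  classical
  rw [mv_nmv_eq_sum (P + Q) MvPolynomial.support_add,
    mv_nmv_eq_sum P (s := P.support ∪ Q.support) Finset.subset_union_left,
    mv_nmv_eq_sum Q (s := P.support ∪ Q.support) Finset.subset_union_right,
    ← Finset.sum_add_distrib]
  exact Finset.sum_le_sum fun i _ => by rw [MvPolynomial.coeff_add]; exact Int.natAbs_add_le _ _

theorem nmv_sub_le (P Q : MvPolynomial σ ℤ) : nmv (P - Q) ≤ nmv P + nmv Q := by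
  rw [sub_eq_add_neg]; exact (nmv_add_le _ _).trans (by rw [nmv_neg])

theorem nmv_sum_le {α : Type*} (s : Finset α) (f : α → MvPolynomial σ ℤ) :
    nmv (∑ a ∈ s, f a) ≤ ∑ a ∈ s, nmv (f a) := by
  classical
  induction s using Finset.induction_on with
  | empty => simp [nmv_zero]
  | insert a s ha ih =>
    rw [Finset.sum_insert ha, Finset.sum_insert ha]
    exact (nmv_add_le _ _).trans (by omega)

theorem nmv_mul_le (P Q : MvPolynomial σ ℤ) : nmv (P * Q) ≤ nmv P * nmv Q := by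
  conv_lhs => rw [P.as_sum, Q.as_sum, Finset.sum_mul_sum]
  refine (nmv_sum_le _ _).trans ?_
  conv_rhs => unfold nmv
  rw [Finset.sum_mul_sum]
  refine Finset.sum_le_sum fun a _ => ?_
  refine (nmv_sum_le _ _).trans (Finset.sum_le_sum fun c _ => ?_)
  rw [MvPolynomial.monomial_mul, mv_nmv_monomial, Int.natAbs_mul]

theorem nmv_prod_le {α : Type*} (s : Finset α) (f : α → MvPolynomial σ ℤ) :
    nmv (∏ a ∈ s, f a) ≤ ∏ a ∈ s, nmv (f a) := by
  classical
  induction s using Finset.induction_on with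
  | empty => simp [nmv_one]
  | insert a s ha ih =>
    rw [Finset.prod_insert ha, Finset.prod_insert ha]
    exact (nmv_mul_le _ _).trans (Nat.mul_le_mul_left _ ih)

theorem nmv_pow_le (P : MvPolynomial σ ℤ) (e : ℕ) : nmv (P ^ e) ≤ nmv P ^ e := by
  induction e with
  | zero => simp [nmv_one]
  | succ e ih =>
    rw [pow_succ, pow_succ]
    exact (nmv_mul_le _ _).trans (Nat.mul_le_mul_right _ ih)

theorem nmv_pderiv_le (P : MvPolynomial σ ℤ) (i : σ) :
    nmv (MvPolynomial.pderiv i P) ≤ P.degreeOf i * nmv P := by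
  conv_lhs => rw [P.as_sum, map_sum]
  refine (nmv_sum_le _ _).trans ?_
  conv_rhs => rw [nmv, Finset.mul_sum]
  refine Finset.sum_le_sum fun s hs => ?_
  rw [MvPolynomial.pderiv_monomial, mv_nmv_monomial, Int.natAbs_mul, Int.natAbs_natCast, mul_comm]
  exact Nat.mul_le_mul_right _ (MvPolynomial.monomial_le_degreeOf i hs)

theorem mv_degreeOf_monomial_le (s : σ →₀ ℕ) (a : ℤ) (k : σ) :
    (MvPolynomial.monomial s a : MvPolynomial σ ℤ).degreeOf k ≤ s k := by
  by_cases ha : a = 0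
  · simp [ha]
  · exact (MvPolynomial.degreeOf_monomial_eq s k ha).le

theorem mv_degreeOf_sum_le {α : Type*} (k : σ) (s : Finset α) (f : α → MvPolynomial σ ℤ) {d : ℕ}
    (h : ∀ a ∈ s, (f a).degreeOf k ≤ d) : (∑ a ∈ s, f a).degreeOf k ≤ d :=
  (MvPolynomial.degreeOf_sum_le k s f).trans (Finset.sup_le h)

theorem degreeOf_pderiv_le (P : MvPolynomial σ ℤ) (i k : σ) :
    (MvPolynomial.pderiv i P).degreeOf k ≤ P.degreeOf k := by
  conv_lhs => rw [P.as_sum, map_sum]
  refine mv_degreeOf_sum_le k _ _ fun s hs => ?_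
  rw [MvPolynomial.pderiv_monomial]
  refine (mv_degreeOf_monomial_le _ _ k).trans (le_trans ?_ (MvPolynomial.monomial_le_degreeOf k hs))
  rw [Finsupp.tsub_apply]
  exact Nat.sub_le _ _

theorem degreeOf_X_mul_pderiv_le (P : MvPolynomial σ ℤ) (i k : σ) :
    (MvPolynomial.X i * MvPolynomial.pderiv i P).degreeOf k ≤ P.degreeOf k := by
  conv_lhs => rw [P.as_sum, map_sum, Finset.mul_sum]
  refine mv_degreeOf_sum_le k _ _ fun s hs => ?_
  rw [MvPolynomial.X_mul_pderiv_monomial, ← map_nsmul]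
  exact (mv_degreeOf_monomial_le _ _ k).trans (MvPolynomial.monomial_le_degreeOf k hs)

theorem nmv_det_le {n : Type*} [Fintype n] [DecidableEq n] (A : Matrix n n (MvPolynomial σ ℤ))
    {H : ℕ} (hA : ∀ i j, nmv (A i j) ≤ H) :
    nmv A.det ≤ (Fintype.card n * H) ^ Fintype.card n := by
  rw [Matrix.det_apply]
  refine (nmv_sum_le _ _).trans ?_
  have h1 : ∀ τ : Equiv.Perm n, nmv (Equiv.Perm.sign τ • ∏ i, A (τ i) i) ≤ H ^ Fintype.card n := by
    intro τ
    have h2 : nmv (∏ i, A (τ i) i) ≤ H ^ Fintype.card n := by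
      refine (nmv_prod_le _ _).trans ?_
      calc ∏ i, nmv (A (τ i) i) ≤ ∏ _i : n, H := Finset.prod_le_prod' fun i _ => hA _ _
        _ = H ^ Fintype.card n := by simp
    rcases Int.units_eq_one_or (Equiv.Perm.sign τ) with h | h <;> rw [h]
    · simpa using h2
    · simpa [nmv_neg] using h2
  refine (Finset.sum_le_sum fun τ _ => h1 τ).trans ?_
  rw [Finset.sum_const, Finset.card_univ, Fintype.card_perm, smul_eq_mul, mul_pow]
  exact Nat.mul_le_mul_right _ (Nat.factorial_le_pow _)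

theorem degreeOf_det_le {n : Type*} [Fintype n] [DecidableEq n]
    (A : Matrix n n (MvPolynomial σ ℤ)) (k : σ) {d : ℕ} (hA : ∀ i j, (A i j).degreeOf k ≤ d) :
    A.det.degreeOf k ≤ Fintype.card n * d := by
  rw [Matrix.det_apply]
  refine mv_degreeOf_sum_le k _ _ fun τ _ => ?_
  have h2 : (∏ i, A (τ i) i).degreeOf k ≤ Fintype.card n * d := by
    refine (MvPolynomial.degreeOf_prod_le _ _ _).trans ?_
    calc ∑ i, (A (τ i) i).degreeOf k ≤ ∑ _i : n, d := Finset.sum_le_sum fun i _ => hA _ _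
      _ = Fintype.card n * d := by simp
  rcases Int.units_eq_one_or (Equiv.Perm.sign τ) with h | h <;> rw [h]
  · simpa using h2
  · simpa [MvPolynomial.degreeOf_neg] using h2

theorem mv_aeval_X (i : σ) (f : ℤ[X]) : aeval (MvPolynomial.X i : MvPolynomial σ ℤ) f =
    ∑ n ∈ f.support, MvPolynomial.monomial (Finsupp.single i n) (f.coeff n) := by
  conv_lhs => rw [f.as_sum_support, map_sum]
  refine Finset.sum_congr rfl fun n _ => ?_
  rw [aeval_monomial, MvPolynomial.X_pow_eq_monomial, MvPolynomial.algebraMap_eq,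
    MvPolynomial.C_mul_monomial, mul_one]

theorem nmv_aeval_X (i : σ) (f : ℤ[X]) :
    nmv (aeval (MvPolynomial.X i : MvPolynomial σ ℤ) f) ≤ nm f := by
  rw [mv_aeval_X]
  refine (nmv_sum_le _ _).trans (le_of_eq ?_)
  exact Finset.sum_congr rfl fun n _ => mv_nmv_monomial _ _

theorem degreeOf_aeval_X_self (i : σ) (f : ℤ[X]) :
    (aeval (MvPolynomial.X i : MvPolynomial σ ℤ) f).degreeOf i ≤ f.natDegree := by
  rw [mv_aeval_X]
  refine mv_degreeOf_sum_le i _ _ fun n hn => (mv_degreeOf_monomial_le _ _ i).trans ?_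
  rw [Finsupp.single_eq_same]
  exact le_natDegree_of_mem_supp n hn

theorem degreeOf_aeval_X_ne {i k : σ} (h : k ≠ i) (f : ℤ[X]) :
    (aeval (MvPolynomial.X i : MvPolynomial σ ℤ) f).degreeOf k = 0 := by
  rw [mv_aeval_X]
  refine Nat.le_zero.mp (mv_degreeOf_sum_le k _ _ fun n _ =>
    (mv_degreeOf_monomial_le _ _ k).trans ?_)
  rw [Finsupp.single_eq_of_ne h]

end Pool.Agent.Lib.MP_f2f914_nt.EAB
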