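import Pool.Agent.Lib.MP_f2f914_nt.EAB.Defs

namespace Pool.Agent.Lib.MP_f2f914_nt.EAB

open Polynomial

theorem numB_step {Y : ℕ} (hY : 256 ≤ Y) (i : ℕ) : 256 * Y ^ i ≤ Y ^ (i + 1) := by
  rw [pow_succ, mul_comm]
  exact Nat.mul_le_mul_left _ hY

/-- The size conditions after the Dirichlet step, with `Q = 2 ^ Y ^ 6`. -/
theorem numB (Y m T n Λ n₀ : ℕ) (hY : 256 ≤ Y) (hm : m ≤ Y) (hT : 2 ^ Y ^ 10 ≤ T)
    (hn : 2 ^ T ^ 2 ≤ n) (hΛ : Λ ≤ (2 ^ Y ^ 6) ^ (m * (2 * T + 1))) (hΛ1 : 1 ≤ Λ)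
    (h2 : n < (n₀ + 1) * Λ) :
    (2 * (n₀ / 2 ^ Y ^ 6 + 2 * Λ * T + 3) + 3 * Y * T * Λ) * (2 ^ Y * 2 ^ Y ^ 5) ≤ n₀ ∧
      4 * (n₀ / 2 ^ Y ^ 6 + 2 * Λ * T + 3) < n₀ ∧ T ≤ n₀ := by
  have y1 : Y ≤ Y ^ 5 := Nat.le_self_pow (by norm_num) Y
  have y2 : 256 * Y ^ 5 ≤ Y ^ 6 := numB_step hY 5
  have y3 : 256 * Y ^ 6 ≤ Y ^ 7 := numB_step hY 6
  have y4 : 256 * Y ^ 7 ≤ Y ^ 8 := numB_step hY 7
  have y5 : Y ^ 8 ≤ Y ^ 10 := Nat.pow_le_pow_right (by omega) (by norm_num)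
  have t1 : Y ^ 10 ≤ T := Nat.lt_two_pow_self.le.trans hT
  have p0 : 2 ^ Y * 2 ^ Y ^ 5 ≤ 2 ^ (Y + Y ^ 5) := by
    rw [pow_add]
  have p1 : 4 * (2 ^ Y * 2 ^ Y ^ 5) ≤ 2 ^ Y ^ 6 := by
    calc _ ≤ 2 ^ 2 * 2 ^ (Y + Y ^ 5) := Nat.mul_le_mul_left _ p0
      _ = 2 ^ (2 + (Y + Y ^ 5)) := by rw [← pow_add]
      _ ≤ _ := Nat.pow_le_pow_right (by norm_num) (by omega)
  have p2 : 2 ^ Y * 2 ^ Y ^ 5 ≤ T :=
    p0.trans ((Nat.pow_le_pow_right (by norm_num) (by omega)).trans hT)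
  have p3 : Y ≤ 2 ^ Y * 2 ^ Y ^ 5 :=
    Nat.lt_two_pow_self.le.trans (Nat.le_mul_of_pos_right _ (by positivity))
  have l1 : Λ ≤ 2 ^ (3 * Y ^ 7 * T) := by
    refine hΛ.trans ?_
    rw [← pow_mul]
    refine Nat.pow_le_pow_right (by norm_num) ?_
    calc _ ≤ Y ^ 6 * (Y * (3 * T)) := by gcongr; omega
      _ = _ := by ring
  have q1 : 2 ^ Y ^ 6 * (n₀ / 2 ^ Y ^ 6) ≤ n₀ := Nat.mul_div_le _ _
  generalize n₀ / 2 ^ Y ^ 6 = A at q1 ⊢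
  generalize 2 ^ Y * 2 ^ Y ^ 5 = P at p0 p1 p2 p3 ⊢
  have q2 : 4 * P * A ≤ n₀ := (Nat.mul_le_mul_right _ p1).trans q1
  have t2 : T ≤ 2 ^ T := Nat.lt_two_pow_self.le
  have q3 : 26 * Y * T * P * Λ * Λ ≤ n := by
    calc _ ≤ 2 ^ T * 2 ^ T * 2 ^ T * 2 ^ (3 * Y ^ 7 * T) * 2 ^ (3 * Y ^ 7 * T) := by
          gcongr
          · omega
          · omega
      _ = 2 ^ ((3 + 6 * Y ^ 7) * T) := by
          rw [← pow_add, ← pow_add, ← pow_add, ← pow_add]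
          congr 1
          ring
      _ ≤ 2 ^ T ^ 2 := by
          refine Nat.pow_le_pow_right (by norm_num) ?_
          rw [sq]
          exact Nat.mul_le_mul_right _ (by omega)
      _ ≤ n := hn
  have q4 : 26 * Y * T * P * Λ ≤ n₀ :=
    Nat.lt_succ_iff.1 (Nat.lt_of_mul_lt_mul_right (q3.trans_lt h2))
  have t0 : 1 ≤ T := by omega
  have q5 : T ≤ Λ * T := Nat.le_mul_of_pos_left _ hΛ1
  have q6 : Λ * T ≤ Y * T * Λ := by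
    calc _ = 1 * T * Λ := by ring
      _ ≤ _ := by gcongr; omega
  have q7 : (4 * (Λ * T) + 6 + 3 * (Y * T * Λ)) * P ≤ 13 * (Y * T * Λ) * P :=
    Nat.mul_le_mul_right _ (by omega)
  have main : (2 * (A + 2 * Λ * T + 3) + 3 * Y * T * Λ) * P ≤ n₀ := by
    have e1 : (2 * (A + 2 * Λ * T + 3) + 3 * Y * T * Λ) * P =
        2 * (P * A) + (4 * (Λ * T) + 6 + 3 * (Y * T * Λ)) * P := by ring
    have e2 : 26 * Y * T * P * Λ = 2 * (13 * (Y * T * Λ) * P) := by ring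
    have e3 : 4 * P * A = 4 * (P * A) := by ring
    omega
  have q8 : 2 * (A + 2 * Λ * T + 3) * 256 ≤ n₀ :=
    (Nat.mul_le_mul (Nat.le_add_right _ _) (hY.trans p3)).trans main
  have e4 : 2 * Λ * T = 2 * (Λ * T) := by ring
  exact ⟨main, by omega, by omega⟩

end Pool.Agent.Lib.MP_f2f914_nt.EAB
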