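import Pool.Agent.Lib.MP_f2f914_nt.EAB.Defs

namespace Pool.Agent.Lib.MP_f2f914_nt.EAB

open Polynomial

theorem numE_two (Y : ℕ) : Y ≤ 2 ^ Y := Nat.lt_two_pow_self.le

theorem numE_sq (Y : ℕ) : 2 * Y ^ 2 ≤ 2 ^ (2 * Y + 1) := by
  calc 2 * Y ^ 2 ≤ 2 * (2 ^ Y) ^ 2 := by gcongr; exact numE_two Y
    _ = 2 ^ (2 * Y + 1) := by ring

theorem numE_step {Y : ℕ} (hY : 256 ≤ Y) (i : ℕ) : 256 * Y ^ i ≤ Y ^ (i + 1) := by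
  rw [pow_succ, mul_comm]
  exact Nat.mul_le_mul_left _ hY

theorem numE_G (Y m ν : ℕ) (hY : 256 ≤ Y) (hm : m ≤ Y) (hν : ν ≤ Y) :
    m * (2 * Y ^ 2) * ((ν + 1) * (2 ^ Y ^ 8 * (2 * Y ^ 2)) ^ ν) ^ 2 < 2 ^ Y ^ 10 := by
  have h1 : m ≤ 2 ^ Y := hm.trans (numE_two Y)
  have h2 : ν + 1 ≤ 2 ^ Y := Nat.succ_le_of_lt (hν.trans_lt Nat.lt_two_pow_self)
  have h3 := numE_sq Y
  have h4 : (2 ^ Y ^ 8 * (2 * Y ^ 2)) ^ ν ≤ (2 ^ Y ^ 8 * 2 ^ (2 * Y + 1)) ^ Y :=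
    (Nat.pow_le_pow_left (Nat.mul_le_mul_left _ h3) _).trans
      (Nat.pow_le_pow_right (by positivity) hν)
  calc _ ≤ 2 ^ Y * 2 ^ (2 * Y + 1) * (2 ^ Y * (2 ^ Y ^ 8 * 2 ^ (2 * Y + 1)) ^ Y) ^ 2 := by gcongr
    _ = 2 ^ (2 * Y ^ 9 + 4 * Y ^ 2 + 7 * Y ^ 1 + 1) := by
      rw [← pow_add, ← pow_add, ← pow_mul, ← pow_add, ← pow_mul, ← pow_add]
      congr 1
      ring
    _ < 2 ^ Y ^ 10 := by
      refine Nat.pow_lt_pow_right (by norm_num) ?_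
      have a0 : 1 ≤ Y ^ 1 := Nat.one_le_pow _ _ (by omega)
      have a1 : Y ^ 1 ≤ Y ^ 9 := Nat.pow_le_pow_right (by omega) (by norm_num)
      have a2 : Y ^ 2 ≤ Y ^ 9 := Nat.pow_le_pow_right (by omega) (by norm_num)
      have a3 : 256 * Y ^ 9 ≤ Y ^ 10 := numE_step hY 9
      omega

theorem numE_W {Y m : ℕ} (hm : m ≤ Y) : m * (2 * Y ^ 2) ≤ 2 * Y ^ 3 := by
  calc _ ≤ Y * (2 * Y ^ 2) := by gcongr
    _ = _ := by ring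

theorem numE_K {Y m ν : ℕ} (hY : 256 ≤ Y) (hm : m ≤ Y) (hν : ν ≤ Y) :
    m * (2 * Y ^ 2) * (ν + 1) ≤ 4 * Y ^ 4 := by
  calc _ ≤ 2 * Y ^ 3 * (2 * Y) := Nat.mul_le_mul (numE_W hm) (by omega)
    _ = _ := by ring

theorem numE_Nw (Y m ν : ℕ) (hY : 256 ≤ Y) (hm : m ≤ Y) (hν : ν ≤ Y) :
    (2 ^ (m * (2 * Y ^ 2) * (ν + 1)) + 2) ^ (m * (2 * Y ^ 2)) *
      ((m * (2 * Y ^ 2)) ^ 2 * Y ^ 10 + m * (2 * Y ^ 2) * ν + 1) ^ (m * (2 * Y ^ 2)) <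
      2 ^ Y ^ 8 := by
  have hW := numE_W hm
  have hK := numE_K hY hm hν
  generalize m * (2 * Y ^ 2) = W at hW hK ⊢
  have h1 : 2 ^ (W * (ν + 1)) + 2 ≤ 2 ^ (4 * Y ^ 4 + 2) := by
    have a1 : 2 ^ (W * (ν + 1)) ≤ 2 ^ (4 * Y ^ 4) := Nat.pow_le_pow_right (by norm_num) hK
    have a2 : 1 ≤ 2 ^ (4 * Y ^ 4) := Nat.one_le_two_pow
    rw [pow_add]
    omega
  have h2 : W ^ 2 * Y ^ 10 + W * ν + 1 ≤ 2 ^ (17 * Y) := by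
    have a1 : W ^ 2 * Y ^ 10 ≤ 4 * Y ^ 16 := by
      calc _ ≤ (2 * Y ^ 3) ^ 2 * Y ^ 10 := by gcongr
        _ = _ := by ring
    have a2 : W * ν ≤ 2 * Y ^ 4 := by
      calc _ ≤ 2 * Y ^ 3 * Y := by gcongr
        _ = _ := by ring
    have a3 : Y ^ 4 ≤ Y ^ 16 := Nat.pow_le_pow_right (by omega) (by norm_num)
    have a4 : 1 ≤ Y ^ 16 := Nat.one_le_pow _ _ (by omega)
    have a5 : 256 * Y ^ 16 ≤ Y ^ 17 := numE_step hY 16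
    have a6 : Y ^ 17 ≤ 2 ^ (17 * Y) := by
      rw [mul_comm, pow_mul]
      exact Nat.pow_le_pow_left (numE_two Y) _
    omega
  calc _ ≤ (2 ^ (4 * Y ^ 4 + 2)) ^ W * (2 ^ (17 * Y)) ^ W := by gcongr
    _ = 2 ^ ((4 * Y ^ 4 + 2 + 17 * Y) * W) := by
      rw [← mul_pow, ← pow_add, ← pow_mul]
    _ < 2 ^ Y ^ 8 := by
      refine Nat.pow_lt_pow_right (by norm_num) ?_
      have a0 : (4 * Y ^ 4 + 2 + 17 * Y) * W ≤ 8 * Y ^ 7 + 4 * Y ^ 3 + 34 * Y ^ 4 := by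
        calc _ ≤ (4 * Y ^ 4 + 2 + 17 * Y) * (2 * Y ^ 3) := by gcongr
          _ = _ := by ring
      have a1 : Y ^ 3 ≤ Y ^ 7 := Nat.pow_le_pow_right (by omega) (by norm_num)
      have a2 : Y ^ 4 ≤ Y ^ 7 := Nat.pow_le_pow_right (by omega) (by norm_num)
      have a3 : 256 * Y ^ 7 ≤ Y ^ 8 := numE_step hY 7
      have a4 : 1 ≤ Y ^ 7 := Nat.one_le_pow _ _ (by omega)
      omega

theorem numE_B (Y m ν H : ℕ) (hY : 256 ≤ Y) (hm : m ≤ Y) (hν : ν ≤ Y) (hH : Y ≤ H) :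
    (2 * H ^ (ν + 1)) ^ 2 ^ (m * (2 * Y ^ 2) * (ν + 1)) * H ^ 6 ≤ H ^ 2 ^ Y ^ 5 := by
  have hK := numE_K hY hm hν
  generalize m * (2 * Y ^ 2) * (ν + 1) = K at hK ⊢
  have h1 : 2 * H ^ (ν + 1) ≤ H ^ (ν + 2) := by
    rw [pow_succ H (ν + 1), mul_comm]
    exact Nat.mul_le_mul_left _ (by omega)
  calc _ ≤ (H ^ (ν + 2)) ^ 2 ^ K * H ^ 6 := by gcongr
    _ = H ^ ((ν + 2) * 2 ^ K + 6) := by rw [← pow_mul, ← pow_add]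
    _ ≤ H ^ 2 ^ Y ^ 5 := by
      refine Nat.pow_le_pow_right (by omega) ?_
      have a0 : 1 ≤ 2 ^ K := Nat.one_le_two_pow
      have a1 : ν + 8 ≤ 2 ^ (Y + 1) := by
        have := numE_two Y
        rw [pow_succ]
        omega
      calc _ ≤ (ν + 8) * 2 ^ K := by nlinarith
        _ ≤ 2 ^ (Y + 1) * 2 ^ K := by gcongr
        _ = 2 ^ (Y + 1 + K) := by rw [← pow_add]
        _ ≤ 2 ^ Y ^ 5 := by
          refine Nat.pow_le_pow_right (by norm_num) ?_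
          have b1 : Y ≤ Y ^ 4 := Nat.le_self_pow (by norm_num) Y
          have b2 : 256 * Y ^ 4 ≤ Y ^ 5 := numE_step hY 4
          omega

theorem numE_T (Y D ν : ℕ) (hY : 256 ≤ Y) (hD : D ≤ Y) (hν : ν ≤ Y) :
    (2 * (4 * D + 6) + 1) ^ (ν + 1) * (2 ^ Y ^ 8 * (2 * Y ^ 2)) ≤ 2 ^ Y ^ 9 := by
  have h1 : 2 * (4 * D + 6) + 1 ≤ 2 ^ (Y + 4) := by
    have := numE_two Y
    rw [pow_add]
    omega
  have h2 : (2 * (4 * D + 6) + 1) ^ (ν + 1) ≤ (2 ^ (Y + 4)) ^ (Y + 1) :=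
    (Nat.pow_le_pow_left h1 _).trans (Nat.pow_le_pow_right (by positivity) (by omega))
  have h3 := numE_sq Y
  calc _ ≤ (2 ^ (Y + 4)) ^ (Y + 1) * (2 ^ Y ^ 8 * 2 ^ (2 * Y + 1)) := by gcongr
    _ = 2 ^ (Y ^ 8 + Y ^ 2 + 7 * Y + 5) := by
      rw [← pow_mul, ← pow_add, ← pow_add]
      congr 1
      ring
    _ ≤ 2 ^ Y ^ 9 := by
      refine Nat.pow_le_pow_right (by norm_num) ?_
      have a1 : Y ≤ Y ^ 8 := Nat.le_self_pow (by norm_num) Y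
      have a2 : Y ^ 2 ≤ Y ^ 8 := Nat.pow_le_pow_right (by omega) (by norm_num)
      have a3 : 256 * Y ^ 8 ≤ Y ^ 9 := numE_step hY 8
      omega

end Pool.Agent.Lib.MP_f2f914_nt.EAB
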