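import Pool.Agent.Lib.MP_f2f914_nt.EAB.Word

namespace Pool.Agent.Lib.MP_f2f914_nt.EAB

open Polynomial

theorem omega_prod {M : Type*} [CommMonoid M] (a : M) {D i : ℕ} (hi : i ≤ D) :
    ∏ k : Fin D, (if (k : ℕ) < i then a else 1) = a ^ i := by
  rw [Fin.prod_univ_eq_prod_range (fun k => if k < i then a else 1) D, ← Finset.prod_filter,
    Finset.prod_const]
  congr 1
  rw [show (Finset.range D).filter (· < i) = Finset.range i from by
    ext k; simp only [Finset.mem_filter, Finset.mem_range]; omega, Finset.card_range]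

/-- The coefficient of a letter in the factor number `k` of the power number `i`. -/
def omegaC {m : ℕ} (w : Fin m → ℤ) (i k : ℕ) (o : Option (Fin m)) : ℤ :=
  if k < i then o.elim 0 w else o.elim 1 fun _ => 0

/-- The monomial of a word. -/
noncomputable def omegaW {m D : ℕ} (f : Fin D → Option (Fin m)) :
    MvPolynomial (Option (Fin m)) ℤ := ∏ i, (f i).elim 1 fun j => MvPolynomial.X (some j)

theorem omega_pow {m D : ℕ} (w : Fin m → ℤ) {i : ℕ} (hi : i ≤ D) :
    ∑ f : Fin D → Option (Fin m), MvPolynomial.C (∏ k : Fin D, omegaC w i k (f k)) * omegaW f =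
      (∑ j, MvPolynomial.C (w j) * MvPolynomial.X (some j)) ^ i := by
  simp only [omegaW, map_prod, ← Finset.prod_mul_distrib]
  rw [← Fintype.piFinset_univ, ← Finset.prod_univ_sum (fun _ : Fin D => Finset.univ)
    fun (k : Fin D) (o : Option (Fin m)) => MvPolynomial.C (omegaC w i k o) *
      (o.elim 1 fun j => (MvPolynomial.X (some j) : MvPolynomial (Option (Fin m)) ℤ)),
    ← omega_prod _ hi]
  refine Finset.prod_congr rfl fun k _ => ?_
  rw [Fintype.sum_option]
  by_cases hk : (k : ℕ) < i <;> simp [omegaC, hk]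

theorem omega_pderiv {m : ℕ} (j : Fin m) (p : ℤ[X]) :
    MvPolynomial.pderiv (some j)
      (aeval (MvPolynomial.X none : MvPolynomial (Option (Fin m)) ℤ) p) = 0 := by
  rw [Derivation.map_aeval]
  simp

theorem omega_evS {m : ℕ} (S : Fin m → ℤ[X]) (p : ℤ[X]) :
    evS S (aeval (MvPolynomial.X none : MvPolynomial (Option (Fin m)) ℤ) p) = p := by
  rw [← aeval_algHom_apply]
  simp [evS]

/-- The form `w₀ ^ D P (w . Y / w₀)` written on words, its value and its gradient. -/
theorem omega_weights {m D : ℕ} (hD : 1 ≤ D) (P : ℤ[X]) (hP : P.natDegree ≤ D) (w₀ : ℤ)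
    (w : Fin m → ℤ) (A : ℕ) (hA : 1 ≤ A) (hcoef : ∀ i, (P.coeff i).natAbs ≤ A)
    (hw₀ : w₀.natAbs ≤ A) (hw : ∀ j, (w j).natAbs ≤ A) :
    ∃ ω : (Fin D → Option (Fin m)) → ℤ, (∀ f, (ω f).natAbs ≤ (D + 1) * A ^ (D + 1)) ∧
      ∀ (B : ℕ) (S : Fin m → ℤ[X]) (x : ℚ), (w₀ : ℚ) * x = ∑ j, (w j : ℚ) * ev B (S j) →
        ∑ f, (ω f : ℚ) * ev B (wordS S f) = (w₀ : ℚ) ^ D * aeval x P ∧
        ∀ (l : (Fin D → Option (Fin m)) → (Fin D → Option (Fin m)) → ℤ[X]) (α₀ : ℤ)
          (α : (Fin D → Option (Fin m)) → ℤ),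
          (∀ f, (α₀ : ℚ) * (ω f : ℚ) = ∑ k, (α k : ℚ) * ev B (l k f)) → ∀ j,
            ∑ k, (α k : ℚ) * ev B (evS S (jac (fun k => wordP (l k)) k j)) =
              (α₀ : ℚ) * (w₀ : ℚ) ^ (D - 1) * aeval x (derivative P) * (w j : ℚ) := by
  set ω : (Fin D → Option (Fin m)) → ℤ := fun f => ∑ i ∈ Finset.range (D + 1),
    P.coeff i * w₀ ^ (D - i) * ∏ k : Fin D, omegaC w i k (f k) with hω
  set L : MvPolynomial (Option (Fin m)) ℤ := ∑ j, MvPolynomial.C (w j) * MvPolynomial.X (some j)
    with hL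
  have key : ∑ f, MvPolynomial.C (ω f) * omegaW f =
      ∑ i ∈ Finset.range (D + 1), MvPolynomial.C (P.coeff i * w₀ ^ (D - i)) * L ^ i := by
    simp only [hω, map_sum, Finset.sum_mul]
    rw [Finset.sum_comm]
    refine Finset.sum_congr rfl fun i hi => ?_
    rw [hL, ← omega_pow w (Nat.lt_succ_iff.1 (Finset.mem_range.1 hi)), Finset.mul_sum]
    refine Finset.sum_congr rfl fun f _ => ?_
    rw [map_mul _ (P.coeff i * w₀ ^ (D - i)), mul_assoc]
  refine ⟨ω, fun f => ?_, fun B S x hx => ?_⟩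
  · refine (Int.natAbs_sum_le _ _).trans ?_
    refine (Finset.sum_le_card_nsmul _ _ (A ^ (D + 1)) fun i hi => ?_).trans (by simp)
    have hi' : i ≤ D := Nat.lt_succ_iff.1 (Finset.mem_range.1 hi)
    have h1 : (∏ k : Fin D, omegaC w i k (f k)).natAbs ≤ A ^ i := by
      rw [← omega_prod A hi', ← Int.natAbsHom_apply, map_prod]
      refine Finset.prod_le_prod' fun k _ => ?_
      rw [Int.natAbsHom_apply, omegaC]
      by_cases hk : (k : ℕ) < i <;> cases f k <;> simp [hk, hw]
    rw [Int.natAbs_mul, Int.natAbs_mul, Int.natAbs_pow,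
      show D + 1 = 1 + (D - i) + i by omega, pow_add, pow_add, pow_one]
    exact Nat.mul_le_mul (Nat.mul_le_mul (hcoef i) (Nat.pow_le_pow_left hw₀ _)) h1
  have hC : ∀ a : ℤ, ev B (evS S (MvPolynomial.C a)) = a := fun a => by simp
  have hLx : ev B (evS S L) = w₀ * x := by
    rw [hx, hL]
    simp only [map_sum, map_mul, hC]
    simp [evS]
  have hP' := P.as_sum_range' (D + 1) (Nat.lt_succ_of_le hP)
  refine ⟨?_, fun l α₀ α hα j => ?_⟩
  · have h1 : ∀ f : Fin D → Option (Fin m), wordS S f = evS S (omegaW f) := fun f => by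
      rw [omegaW, map_prod, wordS]
      refine Finset.prod_congr rfl fun k _ => ?_
      cases f k <;> simp [evS]
    have h2 := congrArg (fun q => ev B (evS S q)) key
    simp only [map_sum, map_mul, map_pow, hC, hLx] at h2
    simp only [h1]
    rw [h2, aeval_eq_sum_range' (Nat.lt_succ_of_le hP), Finset.mul_sum]
    refine Finset.sum_congr rfl fun i hi => ?_
    have hi' : i ≤ D := Nat.lt_succ_iff.1 (Finset.mem_range.1 hi)
    rw [← pow_sub_mul_pow (w₀ : ℚ) hi', zsmul_eq_mul]
    ring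
  · have h1 : ∀ k, ev B (evS S (jac (fun k => wordP (l k)) k j)) =
        ∑ f, ev B (l k f) * ev B (evS S (MvPolynomial.pderiv (some j) (omegaW f))) := fun k => by
      simp only [jac, wordP, map_sum, Derivation.leibniz, omega_pderiv, smul_eq_mul, mul_zero,
        add_zero, map_mul, omega_evS, omegaW]
    have h3 : MvPolynomial.pderiv (some j) L = MvPolynomial.C (w j) := by
      simp [hL, MvPolynomial.pderiv_X, Pi.single_apply]
    have h2 := congrArg (fun q => ev B (evS S (MvPolynomial.pderiv (some j) q))) key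
    simp only [map_sum, MvPolynomial.pderiv_C_mul, MvPolynomial.pderiv_pow, h3] at h2
    simp only [map_mul, map_pow, map_natCast, hC, hLx] at h2
    have h4 : aeval x (derivative P) =
        ∑ i ∈ Finset.range (D + 1), (P.coeff i : ℚ) * i * x ^ (i - 1) := by
      conv_lhs => rw [hP']
      simp [derivative_monomial, aeval_monomial]
    simp only [h1, Finset.mul_sum]
    rw [Finset.sum_comm]
    simp only [← mul_assoc, ← Finset.sum_mul, ← hα]
    simp only [mul_assoc, ← Finset.mul_sum]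
    rw [h2, h4]
    congr 1
    rw [Finset.sum_mul, Finset.mul_sum]
    refine Finset.sum_congr rfl fun i hi => ?_
    have hi' : i ≤ D := Nat.lt_succ_iff.1 (Finset.mem_range.1 hi)
    rcases Nat.eq_zero_or_pos i with rfl | h0
    · simp
    · rw [show D - 1 = D - i + (i - 1) by omega, pow_add]
      ring

end Pool.Agent.Lib.MP_f2f914_nt.EAB
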