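import Pool.Agent.Lib.MP_f2f914_nt.EAB.Word

namespace Pool.Agent.Lib.MP_f2f914_nt.EAB

open Polynomial

/-- First order Taylor expansion along a line. -/
theorem lowest_taylor {σ Q : Type*} [Fintype σ] [CommRing Q] [Algebra ℤ Q] (p h : σ → Q)
    (P : MvPolynomial σ ℤ) :
    (MvPolynomial.aeval (fun o => C (p o) + X * C (h o)) P).coeff 0 = MvPolynomial.aeval p P ∧
      (MvPolynomial.aeval (fun o => C (p o) + X * C (h o)) P).coeff 1 =
        ∑ o, MvPolynomial.aeval p (MvPolynomial.pderiv o P) * h o := by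
  classical
  induction P using MvPolynomial.induction_on with
  | C a =>
    simp only [MvPolynomial.aeval_C, MvPolynomial.pderiv_C, map_zero, zero_mul,
      Finset.sum_const_zero, Polynomial.algebraMap_apply, coeff_C_zero, true_and]
    exact coeff_C_of_ne_zero one_ne_zero
  | add P₁ P₂ h₁ h₂ =>
    simp only [map_add, coeff_add, h₁.1, h₁.2, h₂.1, h₂.2, add_mul, Finset.sum_add_distrib,
      and_self]
  | mul_X P o ih =>
    rw [map_mul, map_mul, MvPolynomial.aeval_X, MvPolynomial.aeval_X, mul_add, ← mul_assoc,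
      coeff_add, coeff_add, coeff_mul_C, coeff_mul_C, coeff_mul_C, coeff_mul_C, coeff_mul_X_zero,
      coeff_mul_X, ih.1, ih.2]
    refine ⟨by simp, ?_⟩
    have h1 : ∀ o', MvPolynomial.aeval p (MvPolynomial.pderiv o' (P * MvPolynomial.X o)) * h o' =
        MvPolynomial.aeval p (MvPolynomial.pderiv o' P) * h o' * p o +
          if o' = o then MvPolynomial.aeval p P * h o' else 0 := by
      intro o'
      rw [Derivation.leibniz, smul_eq_mul, smul_eq_mul, MvPolynomial.pderiv_X]
      by_cases ho : o' = o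
      · subst ho; simp; ring
      · simp [ho, Ne.symm ho]; ring
    simp only [h1, Finset.sum_add_distrib, Finset.sum_mul, Finset.sum_ite_eq', Finset.mem_univ,
      if_true]

theorem lowest_abs {m a : ℕ} {R : Type*} [CommRing R] [Algebra ℤ R] (pt : Option (Fin m) → R)
    (Φ : Fin m → MvPolynomial (Option (Fin m)) ℤ) (hΦ : ∀ i, MvPolynomial.aeval pt (Φ i) = 0)
    (c : (Fin m → Fin (a + 1)) → MvPolynomial (Option (Fin m)) ℤ)
    (h : ∑ α, (∏ i, Φ i ^ (α i : ℕ)) * c α = 0) (α₀ : Fin m → Fin (a + 1))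
    (hmin : ∀ α : Fin m → Fin (a + 1), ∑ i, (α i : ℕ) < ∑ i, (α₀ i : ℕ) → c α = 0) :
    MvPolynomial.aeval pt (jac Φ).det ^ (∑ i, (α₀ i : ℕ)) * MvPolynomial.aeval pt (c α₀) = 0 := by
  classical
  set J : Matrix (Fin m) (Fin m) R := (MvPolynomial.aeval pt).mapMatrix (jac Φ) with hJ
  have hdet : MvPolynomial.aeval pt (jac Φ).det = J.det := by rw [AlgHom.map_det]
  rw [hdet]
  set p : Option (Fin m) → MvPolynomial (Fin m) R := fun o => MvPolynomial.C (pt o) with hp
  set v : Option (Fin m) → MvPolynomial (Fin m) R := fun o =>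
    o.elim 0 fun j => ∑ l, MvPolynomial.C (J.adjugate j l) * MvPolynomial.X l with hv
  have hC : ∀ P : MvPolynomial (Option (Fin m)) ℤ,
      MvPolynomial.aeval p P = MvPolynomial.C (MvPolynomial.aeval pt P) := by
    intro P
    induction P using MvPolynomial.induction_on with
    | C a => simp
    | add P₁ P₂ h₁ h₂ => simp only [map_add, h₁, h₂]
    | mul_X P o ih => rw [map_mul, map_mul, map_mul, ih, MvPolynomial.aeval_X, MvPolynomial.aeval_X]
  set ψ := MvPolynomial.aeval (R := ℤ) fun o => C (p o) + X * C (v o) with hψ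
  have hf : ∀ i, ∃ f, ψ (Φ i) = X * f ∧ f.coeff 0 = MvPolynomial.C J.det * MvPolynomial.X i := by
    intro i
    obtain ⟨h0, h1⟩ := lowest_taylor p v (Φ i)
    rw [hC, hΦ, map_zero] at h0
    obtain ⟨f, hf⟩ := X_dvd_iff.mpr h0
    refine ⟨f, hf, ?_⟩
    rw [hf, coeff_X_mul, Fintype.sum_option] at h1
    rw [h1]
    simp only [hv, Option.elim_none, Option.elim_some, mul_zero, zero_add, hC, Finset.mul_sum]
    rw [Finset.sum_comm]
    have h2 : ∀ l, ∑ j, MvPolynomial.C (σ := Fin m)
        (MvPolynomial.aeval pt (MvPolynomial.pderiv (some j) (Φ i))) *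
          (MvPolynomial.C (J.adjugate j l) * MvPolynomial.X l) =
        MvPolynomial.C ((J * J.adjugate) i l) * MvPolynomial.X l := by
      intro l
      rw [Matrix.mul_apply, map_sum, Finset.sum_mul]
      refine Finset.sum_congr rfl fun j _ => ?_
      rw [map_mul, mul_assoc]; rfl
    simp only [h2, Matrix.mul_adjugate, Matrix.smul_apply, Matrix.one_apply, smul_eq_mul]
    rw [Finset.sum_eq_single i]
    · simp
    · intro l _ hl; simp [Ne.symm hl]
    · simp
  choose f hf hf0 using hf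
  set N := ∑ i, (α₀ i : ℕ) with hN
  set ex : (Fin m → Fin (a + 1)) → Fin m →₀ ℕ := fun α =>
    Finsupp.equivFunOnFinite.symm fun i => (α i : ℕ) with hex
  have hterm : ∀ α : Fin m → Fin (a + 1), (ψ ((∏ i, Φ i ^ (α i : ℕ)) * c α)).coeff N =
      if ∑ i, (α i : ℕ) = N then
        MvPolynomial.monomial (ex α) (J.det ^ N * MvPolynomial.aeval pt (c α)) else 0 := by
    intro α
    rw [map_mul, map_prod]
    simp only [map_pow, hf, mul_pow]
    rw [Finset.prod_mul_distrib, Finset.prod_pow_eq_pow_sum, mul_assoc, coeff_X_pow_mul']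
    rcases lt_trichotomy (∑ i, (α i : ℕ)) N with hlt | heq | hgt
    · rw [hmin α hlt, if_neg hlt.ne]; simp
    · rw [if_pos heq.le, if_pos heq, heq, Nat.sub_self, mul_coeff_zero, (lowest_taylor p v _).1, hC,
        coeff_zero_prod]
      have h3 : ∀ i, (f i ^ (α i : ℕ)).coeff 0 =
          MvPolynomial.C J.det ^ (α i : ℕ) * MvPolynomial.X i ^ (α i : ℕ) := by
        intro i
        rw [← mul_pow, ← hf0, ← constantCoeff_apply, map_pow, constantCoeff_apply]
      simp only [h3]
      rw [Finset.prod_mul_distrib, Finset.prod_pow_eq_pow_sum, heq, MvPolynomial.monomial_eq,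
        Finsupp.prod_fintype _ _ (fun i => pow_zero _), map_mul, map_pow]
      simp only [hex, Finsupp.equivFunOnFinite_symm_apply_apply]
      ring
    · rw [if_neg (by omega), if_neg hgt.ne']
  have h4 := congrArg (fun z => MvPolynomial.coeff (ex α₀) ((ψ z).coeff N)) h
  simp only [map_sum, finsetSum_coeff, hterm, map_zero, coeff_zero, MvPolynomial.coeff_zero,
    MvPolynomial.coeff_sum] at h4
  rw [Finset.sum_eq_single α₀] at h4
  · simpa [hN] using h4
  · intro α _ hα
    split_ifs
    · rw [MvPolynomial.coeff_monomial, if_neg]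
      intro he
      apply hα
      funext i
      have := DFunLike.congr_fun he i
      simp only [hex, Finsupp.equivFunOnFinite_symm_apply_apply] at this
      exact Fin.ext this
    · simp
  · simp

/-- The lowest term of the relation along a curve transversal to `Φ = 0`. -/
theorem perron_lowest {m : ℕ} (Φ : Fin m → MvPolynomial (Option (Fin m)) ℤ)
    (G : Fin m → ℕ → MvPolynomial (Option (Fin m)) ℤ) (a ν T : ℕ)
    (A : ℕ → (Fin m → Fin (a + 1)) → ℤ[X]) (hA : ∃ e α, e ≤ ν ∧ A e α ≠ 0)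
    (h : ∀ j, ∑ e ∈ Finset.range (ν + 1), ∑ α,
        aeval (MvPolynomial.X none : MvPolynomial (Option (Fin m)) ℤ) (A e α) *
          (∏ i, Φ i ^ (α i : ℕ)) * G j e = 0)
    (S : Fin m → ℤ[X]) (hS : ∀ i, X ^ T ∣ evS S (Φ i)) :
    ∃ α, (∃ e, e ≤ ν ∧ A e α ≠ 0) ∧ ∀ j, X ^ T ∣ evS S (jac Φ).det ^ (∑ i, (α i : ℕ)) *
      ∑ e ∈ Finset.range (ν + 1), A e α * evS S (G j e) := by
  classical
  obtain ⟨α₀, hα₀, hmin⟩ := Finset.exists_min_image
    (Finset.univ.filter fun α : Fin m → Fin (a + 1) => ∃ e, e ≤ ν ∧ A e α ≠ 0)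
    (fun α => ∑ i, (α i : ℕ)) (by
      obtain ⟨e, α, he⟩ := hA
      exact ⟨α, Finset.mem_filter.mpr ⟨Finset.mem_univ _, e, he⟩⟩)
  refine ⟨α₀, (Finset.mem_filter.mp hα₀).2, fun j => ?_⟩
  set mk := Ideal.Quotient.mkₐ ℤ (Ideal.span {(X : ℤ[X]) ^ T}) with hmk
  have hker : ∀ f : ℤ[X], mk f = 0 ↔ X ^ T ∣ f := fun f => by
    rw [hmk, Ideal.Quotient.mkₐ_eq_mk, Ideal.Quotient.eq_zero_iff_mem, Ideal.mem_span_singleton]
  have hev : ∀ P, MvPolynomial.aeval (fun o : Option (Fin m) => mk (o.elim X S)) P =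
      mk (evS S P) := fun P => by
    rw [evS, ← AlgHom.comp_apply, MvPolynomial.comp_aeval]
  have key := lowest_abs (fun o : Option (Fin m) => mk (o.elim X S)) Φ
    (fun i => by rw [hev, hker]; exact hS i)
    (fun α => ∑ e ∈ Finset.range (ν + 1),
      aeval (MvPolynomial.X none : MvPolynomial (Option (Fin m)) ℤ) (A e α) * G j e)
    (by
      rw [← h j, Finset.sum_comm]
      refine Finset.sum_congr rfl fun α _ => ?_
      rw [Finset.mul_sum]
      exact Finset.sum_congr rfl fun e _ => by ring)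
    α₀ (fun α hα => Finset.sum_eq_zero fun e he => by
      have : A e α = 0 := by
        by_contra hne
        exact absurd (hmin α (Finset.mem_filter.mpr ⟨Finset.mem_univ _, e,
          Nat.lt_succ_iff.mp (Finset.mem_range.mp he), hne⟩)) (not_le.mpr hα)
      rw [this, map_zero, zero_mul])
  rw [hev, hev, ← map_pow, ← map_mul, hker] at key
  simpa only [map_sum, map_mul, evS_aeval_X] using key

end Pool.Agent.Lib.MP_f2f914_nt.EAB
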