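import Pool.Agent.Lib.MP_f2f914_nt.EAB.Siegel
import Pool.Agent.Lib.MP_f2f914_nt.EAB.Mv

namespace Pool.Agent.Lib.MP_f2f914_nt.EAB

open Polynomial

theorem perSiegel_coeff {U : ℕ} (c : Fin (U + 1) → ℤ) (s : Fin (U + 1)) :
    (∑ t : Fin (U + 1), monomial (t : ℕ) (c t)).coeff s = c s := by
  rw [finset_sum_coeff, Finset.sum_eq_single s]
  · simp
  · intro t _ ht
    rw [coeff_monomial, if_neg fun h => ht (Fin.ext h)]
  · simp

theorem perSiegel_deg {U : ℕ} (c : Fin (U + 1) → ℤ) :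
    (∑ t : Fin (U + 1), monomial (t : ℕ) (c t)).natDegree ≤ U :=
  natDegree_sum_le_of_forall_le _ _ fun t _ =>
    (natDegree_monomial_le _).trans (Nat.lt_succ_iff.1 t.2)

theorem perSiegel_prod {m a : ℕ} (Φ : Fin m → MvPolynomial (Option (Fin m)) ℤ)
    (α : Fin m → Fin (a + 1)) (o : Option (Fin m)) {D : ℕ} (h : ∀ i, (Φ i).degreeOf o ≤ D) :
    (∏ i, Φ i ^ (α i : ℕ)).degreeOf o ≤ m * a * D := by
  refine (MvPolynomial.degreeOf_prod_le _ _ _).trans ?_
  calc _ ≤ ∑ _i : Fin m, a * D := Finset.sum_le_sum fun i _ =>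
        (MvPolynomial.degreeOf_pow_le _ _ _).trans
          (Nat.mul_le_mul (Nat.lt_succ_iff.1 (α i).2) (h i))
    _ = _ := by simp [mul_assoc]

/-- A relation over the ring generated by the `Φ i` and `v`, found by counting. -/
theorem perron_siegel {m : ℕ} (hm : 1 ≤ m) (Φ : Fin m → MvPolynomial (Option (Fin m)) ℤ)
    (G : Fin m → ℕ → MvPolynomial (Option (Fin m)) ℤ) (D V a U H N ν : ℕ) (hH : 2 ≤ H)
    (hD : ∀ i j, (Φ i).degreeOf (some j) ≤ D) (hV : ∀ i, (Φ i).degreeOf none ≤ V)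
    (hΦ : ∀ i, nmv (Φ i) ≤ H) (hGa : ∀ j e k, e ≤ ν → (G j e).degreeOf (some k) ≤ a)
    (hGU : ∀ j e, e ≤ ν → m * a * V + (G j e).degreeOf none ≤ U)
    (hGN : ∀ j e, e ≤ ν → nmv (G j e) ≤ H ^ N) (hν : 4 * m * (m * D + 1) ^ m ≤ ν + 1)
    (h1 : ν + 1 ≤ H) (h2 : a + 1 ≤ H) (h3 : U + 1 ≤ H) :
    ∃ A : ℕ → (Fin m → Fin (a + 1)) → ℤ[X], (∃ e α, e ≤ ν ∧ A e α ≠ 0) ∧
      (∀ e α, (A e α).natDegree ≤ U) ∧ (∀ e α, nm (A e α) ≤ H ^ (N + m * a + m + 3)) ∧
      ∀ j, ∑ e ∈ Finset.range (ν + 1), ∑ α,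
        aeval (MvPolynomial.X none : MvPolynomial (Option (Fin m)) ℤ) (A e α) *
          (∏ i, Φ i ^ (α i : ℕ)) * G j e = 0 := by
  classical
  let P : Fin m → Fin (ν + 1) × (Fin m → Fin (a + 1)) × Fin (U + 1) →
      MvPolynomial (Option (Fin m)) ℤ := fun j b =>
    MvPolynomial.X none ^ (b.2.2 : ℕ) * (∏ i, Φ i ^ (b.2.1 i : ℕ)) * G j b.1
  let mon : Fin (2 * U + 1) × (Fin m → Fin ((m * D + 1) * a + 1)) → (Option (Fin m) →₀ ℕ) :=
    fun r => Finsupp.equivFunOnFinite.symm fun o => o.elim (r.1 : ℕ) fun k => (r.2 k : ℕ)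
  have H0 : 0 < H := by omega
  have hP : ∀ j b, nmv (P j b) ≤ H ^ (N + m * a) := by
    intro j b
    have e1 : nmv (MvPolynomial.X none ^ (b.2.2 : ℕ) : MvPolynomial (Option (Fin m)) ℤ) ≤ 1 :=
      (nmv_pow_le _ _).trans (by rw [nmv_X, one_pow])
    have e2 : nmv (∏ i, Φ i ^ (b.2.1 i : ℕ)) ≤ H ^ (m * a) := by
      refine (nmv_prod_le _ _).trans ?_
      calc _ ≤ ∏ _i : Fin m, H ^ a := Finset.prod_le_prod' fun i _ =>
            (nmv_pow_le _ _).trans ((Nat.pow_le_pow_left (hΦ i) _).trans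
              (Nat.pow_le_pow_right H0 (Nat.lt_succ_iff.1 (b.2.1 i).2)))
        _ = _ := by simp [← pow_mul, mul_comm]
    refine (nmv_mul_le _ _).trans ?_
    calc _ ≤ (1 * H ^ (m * a)) * H ^ N := Nat.mul_le_mul
          ((nmv_mul_le _ _).trans (Nat.mul_le_mul e1 e2)) (hGN j _ (Nat.lt_succ_iff.1 b.1.2))
      _ = _ := by ring
  have d0 : ∀ j b, (P j b).degreeOf none ≤ 2 * U := by
    intro j b
    have a1 := MvPolynomial.degreeOf_mul_le none
      (MvPolynomial.X none ^ (b.2.2 : ℕ) * (∏ i, Φ i ^ (b.2.1 i : ℕ))) (G j b.1)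
    have a2 := MvPolynomial.degreeOf_mul_le none
      (MvPolynomial.X none ^ (b.2.2 : ℕ)) (∏ i, Φ i ^ (b.2.1 i : ℕ))
    have a3 := perSiegel_prod Φ b.2.1 none hV
    have a4 := hGU j _ (Nat.lt_succ_iff.1 b.1.2)
    have a5 := b.2.2.2
    rw [MvPolynomial.degreeOf_X_self_pow] at a2
    show MvPolynomial.degreeOf none (_ * _ * _) ≤ _
    omega
  have d1 : ∀ j b k, (P j b).degreeOf (some k) ≤ (m * D + 1) * a := by
    intro j b k
    have a1 := MvPolynomial.degreeOf_mul_le (some k)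
      (MvPolynomial.X none ^ (b.2.2 : ℕ) * (∏ i, Φ i ^ (b.2.1 i : ℕ))) (G j b.1)
    have a2 := MvPolynomial.degreeOf_mul_le (some k)
      (MvPolynomial.X none ^ (b.2.2 : ℕ)) (∏ i, Φ i ^ (b.2.1 i : ℕ))
    have a3 := perSiegel_prod Φ b.2.1 (some k) fun i => hD i k
    have a4 := hGa j _ k (Nat.lt_succ_iff.1 b.1.2)
    rw [MvPolynomial.degreeOf_X_pow_of_ne _ (by simp)] at a2
    have a5 : (m * D + 1) * a = m * a * D + a := by ring
    show MvPolynomial.degreeOf (some k) (_ * _ * _) ≤ _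
    omega
  have cb : Fintype.card (Fin (ν + 1) × (Fin m → Fin (a + 1)) × Fin (U + 1)) =
      (ν + 1) * ((a + 1) ^ m * (U + 1)) := by simp
  obtain ⟨c, c0, hc, hb⟩ := siegel_half
    (Matrix.of fun (r : Fin m × Fin (2 * U + 1) × (Fin m → Fin ((m * D + 1) * a + 1))) b =>
      MvPolynomial.coeff (mon r.2) (P r.1 b)) (H ^ (N + m * a)) (Nat.one_le_pow _ _ H0)
    (fun r b => (natAbs_coeff_le_nmv _ _).trans (hP _ _))
    (by
      rw [cb]
      simp only [Fintype.card_prod, Fintype.card_fin, Fintype.card_pi, Finset.prod_const,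
        Finset.card_univ]
      have a1 : ((m * D + 1) * a + 1) ^ m ≤ (m * D + 1) ^ m * (a + 1) ^ m := by
        rw [← mul_pow]
        exact Nat.pow_le_pow_left (by nlinarith [Nat.zero_le (m * D)]) _
      calc 2 * (m * ((2 * U + 1) * ((m * D + 1) * a + 1) ^ m))
          ≤ 2 * (m * ((2 * (U + 1)) * ((m * D + 1) ^ m * (a + 1) ^ m))) := by gcongr; omega
        _ = (4 * m * (m * D + 1) ^ m) * ((a + 1) ^ m * (U + 1)) := by ring
        _ ≤ _ := Nat.mul_le_mul_right _ hν)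
    (by rw [cb]; positivity)
  have hz : ∀ j, ∑ b, MvPolynomial.C (c b) * P j b = 0 := by
    intro j
    ext d
    rw [MvPolynomial.coeff_sum, MvPolynomial.coeff_zero]
    simp only [MvPolynomial.coeff_C_mul]
    by_cases hd : d none ≤ 2 * U ∧ ∀ k, d (some k) ≤ (m * D + 1) * a
    · have e := congrFun hc (j, ⟨d none, Nat.lt_succ_iff.2 hd.1⟩,
        fun k => ⟨d (some k), Nat.lt_succ_iff.2 (hd.2 k)⟩)
      have em : mon (⟨d none, Nat.lt_succ_iff.2 hd.1⟩,
          fun k => ⟨d (some k), Nat.lt_succ_iff.2 (hd.2 k)⟩) = d := by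
        ext o
        cases o <;> rfl
      simp only [Matrix.mulVec, dotProduct, Matrix.of_apply, em, Pi.zero_apply] at e
      rw [← e]
      exact Finset.sum_congr rfl fun b _ => mul_comm _ _
    · refine Finset.sum_eq_zero fun b _ => ?_
      rw [MvPolynomial.notMem_support_iff.1, mul_zero]
      exact fun h => hd ⟨(MvPolynomial.monomial_le_degreeOf _ h).trans (d0 j b),
        fun k => (MvPolynomial.monomial_le_degreeOf _ h).trans (d1 j b k)⟩
  refine ⟨fun e α => if h : e < ν + 1 then ∑ t : Fin (U + 1), monomial (t : ℕ) (c (⟨e, h⟩, α, t))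
    else 0, ?_, fun e α => ?_, fun e α => ?_, fun j => ?_⟩
  · obtain ⟨⟨e, α, t⟩, hb0⟩ := Function.ne_iff.1 c0
    refine ⟨e, α, Nat.lt_succ_iff.1 e.2, fun h => hb0 ?_⟩
    simp only [dif_pos e.2] at h
    have := perSiegel_coeff (fun t => c (e, α, t)) t
    rw [h] at this
    simpa using this.symm
  · dsimp only
    split_ifs
    · exact perSiegel_deg _
    · simp
  · dsimp only
    split_ifs with h
    · refine (nm_sum_le _ _).trans ?_
      calc _ ≤ ∑ _t : Fin (U + 1), (ν + 1) * ((a + 1) ^ m * (U + 1)) * H ^ (N + m * a) :=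
            Finset.sum_le_sum fun t _ => by rw [nm_monomial, ← cb]; exact hb _
        _ = (U + 1) * ((ν + 1) * ((a + 1) ^ m * (U + 1)) * H ^ (N + m * a)) := by simp
        _ ≤ H * (H * (H ^ m * H) * H ^ (N + m * a)) := by gcongr
        _ = _ := by ring
    · simp
  · rw [← hz j, Finset.sum_range, Fintype.sum_prod_type]
    refine Finset.sum_congr rfl fun e _ => ?_
    rw [Fintype.sum_prod_type]
    refine Finset.sum_congr rfl fun α _ => ?_
    simp only [dif_pos e.2, map_sum, Finset.sum_mul, aeval_monomial]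
    refine Finset.sum_congr rfl fun t _ => ?_
    simp only [P, MvPolynomial.algebraMap_eq]
    ring

end Pool.Agent.Lib.MP_f2f914_nt.EAB
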