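import Pool.Agent.Lib.MP_f2f914_nt.EAB.Word

namespace Pool.Agent.Lib.MP_f2f914_nt.EAB

open Polynomial

section tower

variable {m : ℕ} (Φ : Fin m → MvPolynomial (Option (Fin m)) ℤ)

/-- The polynomials that represent `δ θ S_j`. -/
noncomputable def towerR (j : Fin m) : MvPolynomial (Option (Fin m)) ℤ :=
  -∑ i, (jac Φ).adjugate j i * (MvPolynomial.X none * MvPolynomial.pderiv none (Φ i))

/-- The derivation that represents `δ θ`. -/
noncomputable def towerD (G : MvPolynomial (Option (Fin m)) ℤ) : MvPolynomial (Option (Fin m)) ℤ :=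
  (jac Φ).det * (MvPolynomial.X none * MvPolynomial.pderiv none G) +
    ∑ j, towerR Φ j * MvPolynomial.pderiv (some j) G

/-- The polynomials that represent `δ ^ (2 e) θ ^ e S_j`. -/
noncomputable def towerG (j : Fin m) : ℕ → MvPolynomial (Option (Fin m)) ℤ
  | 0 => MvPolynomial.X (some j)
  | e + 1 => (jac Φ).det * towerD Φ (towerG j e) -
      ((2 * e : ℕ) : MvPolynomial (Option (Fin m)) ℤ) * (towerD Φ (jac Φ).det * towerG j e)

theorem tower_th_pow (f : ℤ[X]) (n : ℕ) : f * th (f ^ n) = n * f ^ n * th f := by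
  induction n with
  | zero => simp [th]
  | succ n ih =>
    rw [pow_succ, th_mul]
    push_cast
    linear_combination f * ih

variable {Φ}

theorem tower_dvd_R {S : Fin m → ℤ[X]} {T : ℕ} (h : ∀ i, X ^ T ∣ evS S (Φ i)) (j : Fin m) :
    X ^ T ∣ evS S (towerR Φ j) - evS S (jac Φ).det * th (S j) := by
  have key : ∀ k, ∑ i, evS S ((jac Φ).adjugate j i) * evS S (MvPolynomial.pderiv (some k) (Φ i)) =
      if j = k then evS S (jac Φ).det else 0 := by
    intro k
    have := congrArg (fun A => evS S (A j k)) (Matrix.adjugate_mul (jac Φ))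
    simp only [Matrix.mul_apply, map_sum, map_mul, Matrix.smul_apply, Matrix.one_apply,
      smul_eq_mul] at this
    refine this.trans ?_
    split_ifs <;> simp
  have e : evS S (towerR Φ j) - evS S (jac Φ).det * th (S j) =
      -∑ i, evS S ((jac Φ).adjugate j i) * th (evS S (Φ i)) := by
    simp only [th_evS, mul_add, Finset.sum_add_distrib, Finset.mul_sum]
    rw [Finset.sum_comm]
    simp only [← mul_assoc, ← Finset.sum_mul, key, ite_mul, zero_mul, Finset.sum_ite_eq,
      Finset.mem_univ, if_true, towerR, map_neg, map_sum, map_mul]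
    ring
  rw [e, dvd_neg]
  exact Finset.dvd_sum fun i _ => (X_pow_dvd_th (h i)).mul_left _

theorem tower_dvd_D {S : Fin m → ℤ[X]} {T : ℕ} (h : ∀ i, X ^ T ∣ evS S (Φ i))
    (G : MvPolynomial (Option (Fin m)) ℤ) :
    X ^ T ∣ evS S (towerD Φ G) - evS S (jac Φ).det * th (evS S G) := by
  have e : evS S (towerD Φ G) - evS S (jac Φ).det * th (evS S G) =
      ∑ j, evS S (MvPolynomial.pderiv (some j) G) *
        (evS S (towerR Φ j) - evS S (jac Φ).det * th (S j)) := by
    rw [th_evS, towerD, map_add, map_mul, map_sum, mul_add, Finset.mul_sum, add_sub_add_left_eq_sub,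
      ← Finset.sum_sub_distrib]
    exact Finset.sum_congr rfl fun j _ => by rw [map_mul]; ring
  rw [e]
  exact Finset.dvd_sum fun j _ => (tower_dvd_R h j).mul_left _

theorem tower_dvd_G {S : Fin m → ℤ[X]} {T : ℕ} (h : ∀ i, X ^ T ∣ evS S (Φ i)) (j : Fin m)
    (e : ℕ) : X ^ T ∣ evS S (towerG Φ j e) - evS S (jac Φ).det ^ (2 * e) * th^[e] (S j) := by
  induction e with
  | zero => simp [towerG, evS_X_some]
  | succ e ih =>
    obtain ⟨a, ha⟩ := tower_dvd_D h (towerG Φ j e)
    obtain ⟨b, hb⟩ := tower_dvd_D h (jac Φ).det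
    obtain ⟨c, hc⟩ := X_pow_dvd_th ih
    obtain ⟨d, hd⟩ := ih
    rw [th_sub, th_mul] at hc
    have hp := tower_th_pow (evS S (jac Φ).det) (2 * e)
    rw [towerG, map_sub, map_mul, map_mul, map_mul, map_natCast, Function.iterate_succ_apply']
    generalize evS S (jac Φ).det = δ at *
    generalize evS S (towerG Φ j e) = g at *
    generalize th^[e] (S j) = y at *
    refine ⟨δ * a + δ ^ 2 * c - (2 * e : ℕ) * (b * g + δ * th δ * d), ?_⟩
    linear_combination δ * ha + δ ^ 2 * hc - ((2 * e : ℕ) : ℤ[X]) * g * hb -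
      ((2 * e : ℕ) : ℤ[X]) * δ * th δ * hd + δ * y * hp

section deg

variable {k : Option (Fin m)} {d : ℕ}

theorem tower_deg_det (h : ∀ i, (Φ i).degreeOf k ≤ d) : (jac Φ).det.degreeOf k ≤ m * d := by
  have := degreeOf_det_le (jac Φ) k (d := d) fun i j => (degreeOf_pderiv_le _ _ _).trans (h i)
  rwa [Fintype.card_fin] at this

theorem tower_deg_adj (h : ∀ i, (Φ i).degreeOf k ≤ d) (j i : Fin m) :
    ((jac Φ).adjugate j i).degreeOf k ≤ m * d := by
  rw [Matrix.adjugate_apply]
  have := degreeOf_det_le ((jac Φ).updateRow i (Pi.single j 1)) k (d := d) fun a b => by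
    rw [Matrix.updateRow_apply]
    split_ifs
    · rw [Pi.single_apply]
      split_ifs <;> simp
    · exact (degreeOf_pderiv_le _ _ _).trans (h a)
  rwa [Fintype.card_fin] at this

theorem tower_deg_R (h : ∀ i, (Φ i).degreeOf k ≤ d) (j : Fin m) :
    (towerR Φ j).degreeOf k ≤ 2 * (m * d) := by
  rw [towerR, MvPolynomial.degreeOf_neg]
  refine (MvPolynomial.degreeOf_sum_le _ _ _).trans (Finset.sup_le fun i _ => ?_)
  refine (MvPolynomial.degreeOf_mul_le _ _ _).trans ?_
  have h1 := tower_deg_adj h j i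
  have h2 := (degreeOf_X_mul_pderiv_le (Φ i) none k).trans (h i)
  have h3 : 1 * d ≤ m * d := Nat.mul_le_mul_right _ j.pos
  omega

theorem tower_deg_D (h : ∀ i, (Φ i).degreeOf k ≤ d) (G : MvPolynomial (Option (Fin m)) ℤ) :
    (towerD Φ G).degreeOf k ≤ 2 * (m * d) + G.degreeOf k := by
  refine (MvPolynomial.degreeOf_add_le _ _ _).trans (max_le ?_ ?_)
  · refine (MvPolynomial.degreeOf_mul_le _ _ _).trans ?_
    have h1 := tower_deg_det h
    have h2 := degreeOf_X_mul_pderiv_le G none k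
    omega
  · refine (MvPolynomial.degreeOf_sum_le _ _ _).trans (Finset.sup_le fun j _ => ?_)
    exact (MvPolynomial.degreeOf_mul_le _ _ _).trans
      (Nat.add_le_add (tower_deg_R h j) (degreeOf_pderiv_le _ _ _))

theorem tower_deg_G (h : ∀ i, (Φ i).degreeOf k ≤ d) (j : Fin m) (e : ℕ) :
    (towerG Φ j e).degreeOf k ≤
      (MvPolynomial.X (some j) : MvPolynomial (Option (Fin m)) ℤ).degreeOf k + 3 * e * (m * d) := by
  induction e with
  | zero => simp [towerG]
  | succ e ih =>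
    have h1 := tower_deg_det h
    have h2 := tower_deg_D h (towerG Φ j e)
    have h3 := tower_deg_D h (jac Φ).det
    have h4 : 3 * (e + 1) * (m * d) = 3 * e * (m * d) + 3 * (m * d) := by ring
    rw [towerG]
    refine (MvPolynomial.degreeOf_sub_le _ _ _).trans (max_le ?_ ?_)
    · refine (MvPolynomial.degreeOf_mul_le _ _ _).trans ?_
      omega
    · refine (MvPolynomial.degreeOf_mul_le _ _ _).trans ?_
      have h5 := MvPolynomial.degreeOf_mul_le k (towerD Φ (jac Φ).det) (towerG Φ j e)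
      have h6 : (((2 * e : ℕ) : MvPolynomial (Option (Fin m)) ℤ)).degreeOf k = 0 := by
        rw [← map_natCast (MvPolynomial.C : ℤ →+* MvPolynomial (Option (Fin m)) ℤ)]
        exact MvPolynomial.degreeOf_C _ _
      omega

theorem tower_deg_top (h : ∀ i, (Φ i).degreeOf k ≤ d) (j : Fin m) {e ν : ℕ} (he : e ≤ ν) :
    ((jac Φ).det ^ (2 * (ν - e)) * towerG Φ j e).degreeOf k ≤
      (MvPolynomial.X (some j) : MvPolynomial (Option (Fin m)) ℤ).degreeOf k + 3 * ν * m * d := by
  refine (MvPolynomial.degreeOf_mul_le _ _ _).trans ?_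
  have h1 := (MvPolynomial.degreeOf_pow_le k (jac Φ).det (2 * (ν - e))).trans
    (Nat.mul_le_mul_left _ (tower_deg_det h))
  have h2 := tower_deg_G h j e
  obtain ⟨r, rfl⟩ := Nat.exists_eq_add_of_le he
  rw [Nat.add_sub_cancel_left] at h1 ⊢
  have h3 : 3 * (e + r) * m * d = 3 * e * (m * d) + 2 * r * (m * d) + r * (m * d) := by ring
  omega

end deg

section nrm

variable {H : ℕ}

theorem tower_nm_pd {P : MvPolynomial (Option (Fin m)) ℤ} (h : ∀ k, P.degreeOf k ≤ H)
    (k : Option (Fin m)) : nmv (MvPolynomial.pderiv k P) ≤ H * nmv P :=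
  (nmv_pderiv_le P k).trans (Nat.mul_le_mul_right _ (h k))

theorem tower_nm_xpd {P : MvPolynomial (Option (Fin m)) ℤ} (h : ∀ k, P.degreeOf k ≤ H) :
    nmv (MvPolynomial.X none * MvPolynomial.pderiv none P) ≤ H * nmv P := by
  refine (nmv_mul_le _ _).trans ?_
  rw [nmv_X, one_mul]
  exact tower_nm_pd h none

theorem tower_nm_mat (hm : m ≤ H) (A : Matrix (Fin m) (Fin m) (MvPolynomial (Option (Fin m)) ℤ))
    (hA : ∀ i j, nmv (A i j) ≤ H * H) : nmv A.det ≤ H ^ (3 * m) := by
  have := nmv_det_le A hA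
  rw [Fintype.card_fin] at this
  refine this.trans ?_
  rw [pow_mul]
  refine Nat.pow_le_pow_left ?_ _
  calc m * (H * H) ≤ H * (H * H) := Nat.mul_le_mul_right _ hm
    _ = H ^ 3 := by ring

variable (hH : 2 ≤ H) (hm : m ≤ H) (hd : ∀ i k, (Φ i).degreeOf k ≤ H) (hΦ : ∀ i, nmv (Φ i) ≤ H)

include hm hd hΦ in
theorem tower_nm_det : nmv (jac Φ).det ≤ H ^ (3 * m) :=
  tower_nm_mat hm _ fun i _ => (tower_nm_pd (hd i) _).trans (Nat.mul_le_mul_left _ (hΦ i))

include hH hm hd hΦ

theorem tower_nm_adj (j i : Fin m) : nmv ((jac Φ).adjugate j i) ≤ H ^ (3 * m) := by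
  rw [Matrix.adjugate_apply]
  refine tower_nm_mat hm _ fun a b => ?_
  rw [Matrix.updateRow_apply]
  split_ifs
  · rw [Pi.single_apply]
    split_ifs
    · rw [nmv_one]
      exact Nat.mul_pos (by omega) (by omega)
    · rw [nmv_zero]
      exact Nat.zero_le _
  · exact (tower_nm_pd (hd a) _).trans (Nat.mul_le_mul_left _ (hΦ a))

theorem tower_nm_R (j : Fin m) : nmv (towerR Φ j) ≤ H ^ (3 * m + 3) := by
  rw [towerR, nmv_neg]
  refine (nmv_sum_le _ _).trans ?_
  refine (Finset.sum_le_card_nsmul _ _ (H ^ (3 * m) * (H * H)) fun i _ =>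
    (nmv_mul_le _ _).trans (Nat.mul_le_mul (tower_nm_adj hH hm hd hΦ j i)
      ((tower_nm_xpd (hd i)).trans (Nat.mul_le_mul_left _ (hΦ i))))).trans ?_
  rw [Finset.card_univ, Fintype.card_fin, smul_eq_mul]
  calc m * (H ^ (3 * m) * (H * H)) ≤ H * (H ^ (3 * m) * (H * H)) := Nat.mul_le_mul_right _ hm
    _ = H ^ (3 * m + 3) := by ring

theorem tower_nm_D {G : MvPolynomial (Option (Fin m)) ℤ} (h : ∀ k, G.degreeOf k ≤ H) :
    nmv (towerD Φ G) ≤ H ^ (3 * m + 6) * nmv G := by
  refine (nmv_add_le _ _).trans ?_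
  have h1 : nmv ((jac Φ).det * (MvPolynomial.X none * MvPolynomial.pderiv none G)) ≤
      H ^ (3 * m + 5) * nmv G := by
    refine ((nmv_mul_le _ _).trans
      (Nat.mul_le_mul (tower_nm_det hm hd hΦ) (tower_nm_xpd h))).trans ?_
    rw [← mul_assoc, ← pow_succ]
    exact Nat.mul_le_mul_right _ (Nat.pow_le_pow_right (by omega) (by omega))
  have h2 : nmv (∑ j, towerR Φ j * MvPolynomial.pderiv (some j) G) ≤ H ^ (3 * m + 5) * nmv G := by
    refine (nmv_sum_le _ _).trans ?_
    refine (Finset.sum_le_card_nsmul _ _ (H ^ (3 * m + 3) * (H * nmv G)) fun j _ =>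
      (nmv_mul_le _ _).trans (Nat.mul_le_mul (tower_nm_R hH hm hd hΦ j)
        (tower_nm_pd h _))).trans ?_
    rw [Finset.card_univ, Fintype.card_fin, smul_eq_mul]
    calc m * (H ^ (3 * m + 3) * (H * nmv G)) ≤ H * (H ^ (3 * m + 3) * (H * nmv G)) :=
          Nat.mul_le_mul_right _ hm
      _ = H ^ (3 * m + 5) * nmv G := by ring
  calc _ ≤ 2 * (H ^ (3 * m + 5) * nmv G) := by omega
    _ ≤ H * (H ^ (3 * m + 5) * nmv G) := Nat.mul_le_mul_right _ hH
    _ = H ^ (3 * m + 6) * nmv G := by ring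

theorem tower_nm_G (j : Fin m) (e : ℕ) (he : 2 * e ≤ H)
    (h1 : 0 < e → ∀ k, (jac Φ).det.degreeOf k ≤ H)
    (h2 : ∀ e' < e, ∀ k, (towerG Φ j e').degreeOf k ≤ H) :
    nmv (towerG Φ j e) ≤ H ^ ((6 * m + 7) * e) := by
  induction e with
  | zero => simp [towerG, nmv_X]
  | succ e ih =>
    have i1 := ih (by omega) (fun _ => h1 (by omega)) fun e' h => h2 e' (by omega)
    have i2 := tower_nm_det hm hd hΦ
    have i3 := (tower_nm_D hH hm hd hΦ (h2 e (by omega))).trans (Nat.mul_le_mul_left _ i1)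
    have i4 := (tower_nm_D hH hm hd hΦ (h1 (by omega))).trans (Nat.mul_le_mul_left _ i2)
    have i5 := (nmv_mul_le _ _).trans (Nat.mul_le_mul i2 i3)
    have i6 := (nmv_mul_le _ _).trans (Nat.mul_le_mul (nmv_natCast (2 * e)).le
      ((nmv_mul_le _ _).trans (Nat.mul_le_mul i4 i1)))
    rw [towerG]
    refine ((nmv_sub_le _ _).trans (Nat.add_le_add i5 i6)).trans ?_
    calc _ = (2 * e + 1) * (H ^ (6 * m + 6) * H ^ ((6 * m + 7) * e)) := by ring
      _ ≤ H * (H ^ (6 * m + 6) * H ^ ((6 * m + 7) * e)) := Nat.mul_le_mul_right _ (by omega)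
      _ = H ^ ((6 * m + 7) * (e + 1)) := by ring

end nrm

end tower

/-- Polynomials that represent `δ ^ (2 ν) θ ^ e S_j`. -/
theorem perron_tower {m : ℕ} (Φ : Fin m → MvPolynomial (Option (Fin m)) ℤ) (D V H ν : ℕ)
    (hH : 2 ≤ H) (hD : ∀ i j, (Φ i).degreeOf (some j) ≤ D) (hV : ∀ i, (Φ i).degreeOf none ≤ V)
    (hΦ : ∀ i, nmv (Φ i) ≤ H) (h1 : 1 + 3 * ν * m * D ≤ H) (h2 : 3 * ν * m * V + V ≤ H)
    (h3 : 2 * ν + m + D ≤ H) :
    ∃ G : Fin m → ℕ → MvPolynomial (Option (Fin m)) ℤ,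
      (∀ j e k, e ≤ ν → (G j e).degreeOf (some k) ≤ 1 + 3 * ν * m * D) ∧
      (∀ j e, e ≤ ν → (G j e).degreeOf none ≤ 3 * ν * m * V) ∧
      (∀ j e, e ≤ ν → nmv (G j e) ≤ H ^ ((12 * m + 8) * ν)) ∧
      ∀ (S : Fin m → ℤ[X]) (T : ℕ), (∀ i, X ^ T ∣ evS S (Φ i)) → ∀ j e, e ≤ ν →
        X ^ T ∣ evS S (G j e) - evS S (jac Φ).det ^ (2 * ν) * th^[e] (S j) := by
  have x1 : ∀ j k : Fin m,
      (MvPolynomial.X (some j) : MvPolynomial (Option (Fin m)) ℤ).degreeOf (some k) ≤ 1 := by
    intro j k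
    rw [MvPolynomial.degreeOf_X]
    split_ifs <;> omega
  have x0 : ∀ j : Fin m,
      (MvPolynomial.X (some j) : MvPolynomial (Option (Fin m)) ℤ).degreeOf none = 0 := by
    intro j
    rw [MvPolynomial.degreeOf_X, if_neg (by simp)]
  have hd : ∀ i k, (Φ i).degreeOf k ≤ H := by
    intro i k
    cases k with
    | none => exact (hV i).trans (by omega)
    | some k => exact (hD i k).trans (by omega)
  have mono : ∀ e d : ℕ, e ≤ ν → 3 * e * (m * d) ≤ 3 * ν * m * d := fun e d he => by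
    rw [mul_assoc (3 * ν)]
    exact Nat.mul_le_mul_right _ (by omega)
  refine ⟨fun j e => (jac Φ).det ^ (2 * (ν - e)) * towerG Φ j e, fun j e k he => ?_,
    fun j e he => ?_, fun j e he => ?_, fun S T h j e he => ?_⟩
  · exact (tower_deg_top (fun i => hD i k) j he).trans (Nat.add_le_add_right (x1 j k) _)
  · have := tower_deg_top hV j he
    rwa [x0, zero_add] at this
  · have a := tower_nm_G hH (by omega) hd hΦ j e (by omega) (fun e0 k => by
      have b1 := mono 1 D (by omega)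
      have b2 := mono 1 V (by omega)
      cases k with
      | none => exact (tower_deg_det hV).trans (by omega)
      | some k => exact (tower_deg_det fun i => hD i k).trans (by omega)) fun e' he' k => by
      have b1 := mono e' D (by omega)
      have b2 := mono e' V (by omega)
      cases k with
      | none =>
        have := tower_deg_G hV j e'
        rw [x0] at this
        omega
      | some k =>
        have := tower_deg_G (fun i => hD i k) j e'
        have := x1 j k
        omega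
    have b := (nmv_pow_le _ (2 * (ν - e))).trans
      (Nat.pow_le_pow_left (tower_nm_det (by omega) hd hΦ) _)
    refine ((nmv_mul_le _ _).trans (Nat.mul_le_mul b a)).trans ?_
    rw [← pow_mul, ← pow_add]
    refine Nat.pow_le_pow_right (by omega) ?_
    obtain ⟨r, rfl⟩ := Nat.exists_eq_add_of_le he
    rw [Nat.add_sub_cancel_left]
    nlinarith [Nat.zero_le (m * r), Nat.zero_le (m * e)]
  · have := (tower_dvd_G h j e).mul_left (evS S (jac Φ).det ^ (2 * (ν - e)))
    rw [mul_sub, ← mul_assoc, ← pow_add, show 2 * (ν - e) + 2 * e = 2 * ν by omega] at this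
    rwa [map_mul, map_pow]

end Pool.Agent.Lib.MP_f2f914_nt.EAB
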