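import Pool.Agent.Lib.MP_f2f914_nt.EAB.Consts
import Pool.Agent.Lib.MP_f2f914_nt.EAB.Tower
import Pool.Agent.Lib.MP_f2f914_nt.EAB.PerSiegel
import Pool.Agent.Lib.MP_f2f914_nt.EAB.PerLowest

namespace Pool.Agent.Lib.MP_f2f914_nt.EAB

open Polynomial

/-- Cutting the operator at its top nonzero coefficient. -/
theorem perron_top (ν : ℕ) (a : ℕ → ℤ[X]) (h : ∃ e, e ≤ ν ∧ a e ≠ 0) :
    ∃ ν', ν' ≤ ν ∧ a ν' ≠ 0 ∧ ∀ y, opL ν a y = opL ν' a y := by
  classical
  obtain ⟨e, he, hae⟩ := h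
  refine ⟨Nat.findGreatest (fun e => a e ≠ 0) ν, Nat.findGreatest_le ν,
    Nat.findGreatest_spec (P := fun e => a e ≠ 0) he hae, fun y => ?_⟩
  unfold opL
  symm
  refine Finset.sum_subset (Finset.range_mono (Nat.succ_le_succ (Nat.findGreatest_le ν)))
    fun k hk hk' => ?_
  have h1 : Nat.findGreatest (fun e => a e ≠ 0) ν < k := by
    simpa [Nat.succ_le_iff] using hk'
  have h2 : k ≤ ν := Nat.lt_succ_iff.mp (Finset.mem_range.mp hk)
  have h3 := Nat.findGreatest_is_greatest h1 h2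
  rw [not_not.mp h3, zero_mul]

theorem perron_consts (m D : ℕ) (hm : 1 ≤ m) :
    aP m D + 1 ≤ cP m D ∧ m * aP m D + 3 * nuP m D * m + 1 ≤ cP m D ∧
      2 * nuP m D + m + D ≤ cP m D ∧ nuP m D + 1 ≤ cP m D ∧
      (12 * m + 8) * nuP m D + m * aP m D + m + 3 ≤ cP m D ∧
      m * aP m D + 2 * nuP m D ≤ cP m D := by
  have hν : 1 ≤ nuP m D := by
    unfold nuP
    exact Nat.mul_pos (by omega) (by positivity)
  have hD : D ≤ aP m D := by
    unfold aP
    have : 1 ≤ nuP m D * m := Nat.mul_pos hν hm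
    nlinarith
  unfold cP
  generalize aP m D = a at *
  generalize nuP m D = ν at *
  have e : 20 * (m + 1) * (a + ν + 1) =
      20 * (m * a) + 20 * (m * ν) + 20 * m + 20 * a + 20 * ν + 20 := by ring
  have e1 : 3 * ν * m = 3 * (m * ν) := by ring
  have e2 : (12 * m + 8) * ν = 12 * (m * ν) + 8 * ν := by ring
  rw [e, e1, e2]
  generalize m * a = p
  generalize m * ν = q
  omega

/-- Full rank: one differential operator kills all the series. -/
theorem perron {m : ℕ} (hm : 1 ≤ m) (Φ : Fin m → MvPolynomial (Option (Fin m)) ℤ)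
    (S : Fin m → ℤ[X]) (D V H T θ : ℕ) (hD : ∀ i j, (Φ i).degreeOf (some j) ≤ D)
    (hV : ∀ i, (Φ i).degreeOf none ≤ V) (hΦ : ∀ i, nmv (Φ i) ≤ H) (hH : cP m D * (V + 1) ≤ H)
    (hS : ∀ i, X ^ T ∣ evS S (Φ i)) (hδ : ¬ X ^ (θ + 1) ∣ evS S (jac Φ).det) :
    ∃ (ν : ℕ) (a : ℕ → ℤ[X]), ν ≤ cP m D ∧ a ν ≠ 0 ∧ (∀ e, (a e).natDegree ≤ cP m D * V) ∧
      (∀ e, nm (a e) ≤ H ^ cP m D) ∧ ∀ j, X ^ (T - cP m D * θ) ∣ opL ν a (S j) := by
  obtain ⟨c1, c2, c3, c4, c5, c6⟩ := perron_consts m D hm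
  have h20 := twenty_le_cP m D
  have hcV : cP m D * V + cP m D ≤ H := by rw [mul_add, mul_one] at hH; exact hH
  have hU : m * aP m D * V + 3 * nuP m D * m * V ≤ cP m D * V := by
    rw [← add_mul]; exact Nat.mul_le_mul_right _ (by omega)
  have hU' : 3 * nuP m D * m * V + V ≤ cP m D * V := by
    have : (3 * nuP m D * m + 1) * V ≤ cP m D * V := Nat.mul_le_mul_right _ (by omega)
    rw [add_mul, one_mul] at this; exact this
  have ha : 1 + 3 * nuP m D * m * D = aP m D := rfl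
  obtain ⟨G, hG1, hG2, hG3, hG4⟩ := perron_tower Φ D V H (nuP m D) (by omega) hD hV hΦ
    (by omega) (by omega) (by omega)
  obtain ⟨A, hA0, hA1, hA2, hA3⟩ := perron_siegel hm Φ G D V (aP m D)
    (m * aP m D * V + 3 * nuP m D * m * V) H ((12 * m + 8) * nuP m D) (nuP m D) (by omega) hD hV hΦ
    (fun j e k he => ha ▸ hG1 j e k he) (fun j e he => Nat.add_le_add_left (hG2 j e he) _) hG3
    (Nat.le_succ _) (by omega) (by omega) (by omega)
  obtain ⟨α, hα0, hα⟩ := perron_lowest Φ G (aP m D) (nuP m D) T A hA0 hA3 S hS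
  obtain ⟨ν', hν', hne, hop⟩ := perron_top (nuP m D) (fun e => A e α) hα0
  refine ⟨ν', fun e => A e α, by omega, hne, fun e => (hA1 e α).trans hU, fun e =>
    (hA2 e α).trans (Nat.pow_le_pow_right (by omega) c5), fun j => ?_⟩
  rw [← hop]
  set δ := evS S (jac Φ).det with hδdef
  have hsum : ∑ i, (α i : ℕ) ≤ m * aP m D := by
    calc ∑ i, (α i : ℕ) ≤ ∑ _i : Fin m, aP m D :=
          Finset.sum_le_sum fun i _ => Nat.lt_succ_iff.mp (α i).2
      _ = m * aP m D := by simp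
  have h1 : X ^ T ∣ δ ^ (∑ i, (α i : ℕ) + 2 * nuP m D) *
      opL (nuP m D) (fun e => A e α) (S j) := by
    have h2 : X ^ T ∣ δ ^ (∑ i, (α i : ℕ)) * ∑ e ∈ Finset.range (nuP m D + 1),
        A e α * (evS S (G j e) - δ ^ (2 * nuP m D) * th^[e] (S j)) := by
      refine Dvd.dvd.mul_left (Finset.dvd_sum fun e he => Dvd.dvd.mul_left ?_ _) _
      exact hG4 S T hS j e (Nat.lt_succ_iff.mp (Finset.mem_range.mp he))
    have h3 := dvd_sub (hα j) h2
    convert h3 using 1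
    unfold opL
    rw [← mul_sub, ← Finset.sum_sub_distrib, pow_add, mul_assoc, Finset.mul_sum]
    congr 1
    exact Finset.sum_congr rfl fun e _ => by ring
  have h4 := X_pow_dvd_of_mul (not_X_pow_dvd_pow hδ _) h1
  refine (pow_dvd_pow X ?_).trans h4
  have : (∑ i, (α i : ℕ) + 2 * nuP m D) * θ ≤ cP m D * θ := Nat.mul_le_mul_right _ (by omega)
  omega

end Pool.Agent.Lib.MP_f2f914_nt.EAB
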