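import Pool.Agent.Lib.MP_f2f914_nt.EAB.Defs

namespace Pool.Agent.Lib.MP_f2f914_nt.EAB

open Polynomial

/-- The numerators of the iterated derivatives of `f / A`. -/
noncomputable def prgP (A f : ℤ[X]) : ℕ → ℤ[X]
  | 0 => f
  | e + 1 => A * th (prgP A f e) - ((e + 1 : ℕ) : ℤ[X]) * th A * prgP A f e

/-- The numerator of the operator applied to `f / A`. -/
noncomputable def prgQ (ν : ℕ) (a : ℕ → ℤ[X]) (A f : ℤ[X]) : ℤ[X] :=
  ∑ e ∈ Finset.range (ν + 1), a e * A ^ (ν - e) * prgP A f e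

/-- The order is at least `s` and the coefficient of index `s` is `c`. -/
def PrgLow (f : ℤ[X]) (s : ℕ) (c : ℤ) : Prop := X ^ s ∣ f ∧ f.coeff s = c

theorem prg_th_pow (A : ℤ[X]) (e : ℕ) :
    th (A ^ (e + 1)) = ((e + 1 : ℕ) : ℤ[X]) * A ^ e * th A := by
  induction e with
  | zero => simp
  | succ e ih =>
    rw [pow_succ A (e + 1), th_mul, ih]
    push_cast
    ring

theorem prgP_mul (A g : ℤ[X]) (e : ℕ) : prgP A (A * g) e = A ^ (e + 1) * th^[e] g := by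
  induction e with
  | zero => simp [prgP]
  | succ e ih =>
    rw [prgP, ih, th_mul, prg_th_pow, Function.iterate_succ_apply']
    ring

theorem prgP_add (A f g : ℤ[X]) (e : ℕ) : prgP A (f + g) e = prgP A f e + prgP A g e := by
  induction e with
  | zero => rfl
  | succ e ih =>
    rw [prgP, prgP, prgP, ih, th_add]
    ring

theorem prgP_zero (A : ℤ[X]) (e : ℕ) : prgP A 0 e = 0 := by
  have := prgP_add A 0 0 e
  rw [add_zero] at this
  exact left_eq_add.mp this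

theorem prgP_dvd (A : ℤ[X]) {f : ℤ[X]} {s : ℕ} (h : X ^ s ∣ f) (e : ℕ) : X ^ s ∣ prgP A f e := by
  induction e with
  | zero => exact h
  | succ e ih => exact dvd_sub ((X_pow_dvd_th ih).mul_left _) (ih.mul_left _)

theorem prgP_deg {A : ℤ[X]} {d : ℕ} (hA : A.natDegree ≤ d) (f : ℤ[X]) (e : ℕ) :
    (prgP A f e).natDegree ≤ f.natDegree + e * d := by
  induction e with
  | zero => simp [prgP]
  | succ e ih =>
    rw [prgP]
    have h1 := natDegree_th_le (prgP A f e)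
    have h2 := natDegree_th_le A
    have h3 := natDegree_mul_le (p := A) (q := th (prgP A f e))
    have h4 := natDegree_mul_le (p := ((e + 1 : ℕ) : ℤ[X]) * th A) (q := prgP A f e)
    have h5 := natDegree_mul_le (p := ((e + 1 : ℕ) : ℤ[X])) (q := th A)
    rw [natDegree_natCast] at h5
    refine (natDegree_sub_le _ _).trans (max_le ?_ ?_) <;> rw [add_mul] <;> omega

theorem prgQ_mul (ν : ℕ) (a : ℕ → ℤ[X]) (A g : ℤ[X]) :
    prgQ ν a A (A * g) = A ^ (ν + 1) * opL ν a g := by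
  rw [prgQ, opL, Finset.mul_sum]
  refine Finset.sum_congr rfl fun e he => ?_
  have h : ν + 1 = ν - e + (e + 1) := by
    have := Finset.mem_range.mp he
    omega
  rw [prgP_mul, h, pow_add]
  ring

theorem prgQ_add (ν : ℕ) (a : ℕ → ℤ[X]) (A f g : ℤ[X]) :
    prgQ ν a A (f + g) = prgQ ν a A f + prgQ ν a A g := by
  simp only [prgQ, prgP_add, mul_add, Finset.sum_add_distrib]

theorem prgQ_zero (ν : ℕ) (a : ℕ → ℤ[X]) (A : ℤ[X]) : prgQ ν a A 0 = 0 := by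
  simp [prgQ, prgP_zero]

theorem prgQ_dvd (ν : ℕ) (a : ℕ → ℤ[X]) (A : ℤ[X]) {f : ℤ[X]} {s : ℕ} (h : X ^ s ∣ f) :
    X ^ s ∣ prgQ ν a A f :=
  Finset.dvd_sum fun e _ => (prgP_dvd A h e).mul_left _

theorem prgQ_deg (ν : ℕ) {a : ℕ → ℤ[X]} {A : ℤ[X]} {d : ℕ} (ha : ∀ e, (a e).natDegree ≤ d)
    (hA : A.natDegree ≤ d) (f : ℤ[X]) :
    (prgQ ν a A f).natDegree ≤ f.natDegree + (ν + 1) * d := by
  refine natDegree_sum_le_of_forall_le _ _ fun e he => ?_
  obtain ⟨k, rfl⟩ : ∃ k, ν = e + k := Nat.exists_eq_add_of_le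
    (Nat.lt_succ_iff.mp (Finset.mem_range.mp he))
  rw [Nat.add_sub_cancel_left]
  have h1 := prgP_deg hA f e
  have h2 := natDegree_mul_le (p := a e * A ^ k) (q := prgP A f e)
  have h3 := natDegree_mul_le (p := a e) (q := A ^ k)
  have h4 : (A ^ k).natDegree ≤ k * d := natDegree_pow_le.trans (Nat.mul_le_mul_left _ hA)
  have h5 := ha e
  have h6 : (e + k + 1) * d = e * d + k * d + d := by ring
  omega

theorem PrgLow.mul {f g : ℤ[X]} {s t : ℕ} {c c' : ℤ} (hf : PrgLow f s c) (hg : PrgLow g t c') :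
    PrgLow (f * g) (s + t) (c * c') := by
  obtain ⟨⟨f', rfl⟩, h1⟩ := hf
  obtain ⟨⟨g', rfl⟩, h2⟩ := hg
  have e : X ^ s * f' * (X ^ t * g') = X ^ (s + t) * (f' * g') := by ring
  have k : ∀ (p : ℤ[X]) (n : ℕ), (X ^ n * p).coeff n = p.coeff 0 := fun p n => by
    simpa using coeff_X_pow_mul p n 0
  rw [k] at h1 h2
  exact ⟨e ▸ dvd_mul_right _ _, by rw [e, k, mul_coeff_zero, h1, h2]⟩

theorem PrgLow.der {f : ℤ[X]} {s : ℕ} {c : ℤ} (hf : PrgLow f s c) : PrgLow (th f) s (s * c) :=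
  ⟨X_pow_dvd_th hf.1, by rw [coeff_th, hf.2]⟩

theorem PrgLow.pow {f : ℤ[X]} {s : ℕ} {c : ℤ} (hf : PrgLow f s c) (k : ℕ) :
    PrgLow (f ^ k) (k * s) (c ^ k) := by
  induction k with
  | zero => exact ⟨by simp, by simp⟩
  | succ k ih =>
    rw [pow_succ, pow_succ, add_mul, one_mul]
    exact ih.mul hf

theorem prgP_low {A f : ℤ[X]} {α r : ℕ} {cA c : ℤ} (hA : PrgLow A α cA)
    (hf : PrgLow f (r + α) c) (e : ℕ) :
    PrgLow (prgP A f e) (r + α + e * α) (c * cA ^ e * (r : ℤ) ^ e) := by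
  induction e with
  | zero => simpa [prgP] using hf
  | succ e ih =>
    have h0 : PrgLow ((e + 1 : ℕ) : ℤ[X]) 0 ((e + 1 : ℕ) : ℤ) := ⟨by simp, by simp⟩
    have h1 := hA.mul ih.der
    have h2 := (h0.mul hA.der).mul ih
    rw [zero_add] at h2
    rw [show r + α + (e + 1) * α = α + (r + α + e * α) by ring, prgP]
    refine ⟨dvd_sub h1.1 h2.1, ?_⟩
    rw [coeff_sub, h1.2, h2.2]
    push_cast
    ring

theorem prgQ_coeff (ν : ℕ) {a : ℕ → ℤ[X]} {A f : ℤ[X]} {α r o : ℕ} {cA c : ℤ}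
    (ha : ∀ e ≤ ν, X ^ o ∣ a e) (hA : PrgLow A α cA) (hf : PrgLow f (r + α) c) :
    (prgQ ν a A f).coeff (o + r + (ν + 1) * α) =
      c * cA ^ ν * ∑ e ∈ Finset.range (ν + 1), (a e).coeff o * (r : ℤ) ^ e := by
  rw [prgQ, finsetSum_coeff, Finset.mul_sum]
  refine Finset.sum_congr rfl fun e he => ?_
  have he' := Nat.lt_succ_iff.mp (Finset.mem_range.mp he)
  have h1 : PrgLow (a e) o ((a e).coeff o) := ⟨ha e he', rfl⟩
  obtain ⟨k, rfl⟩ : ∃ k, ν = e + k := Nat.exists_eq_add_of_le he'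
  rw [Nat.add_sub_cancel_left]
  have h2 := ((h1.mul (hA.pow k)).mul (prgP_low hA hf e)).2
  rw [show o + k * α + (r + α + e * α) = o + r + (e + k + 1) * α by ring] at h2
  rw [h2]
  ring

/-- A gap ends only at a root of the indicial polynomial. -/
theorem propagate (ν d T : ℕ) (a : ℕ → ℤ[X]) (ha : a ν ≠ 0) (hdeg : ∀ e, (a e).natDegree ≤ d) :
    ∃ I : ℤ[X], I ≠ 0 ∧ I.natDegree ≤ ν ∧ ∀ (A y : ℤ[X]) (t₀ t' : ℕ), A ≠ 0 → A.natDegree ≤ d →
      X ^ T ∣ opL ν a y → (∀ t, t₀ ≤ t → t < t₀ + (ν + 2) * d → (A * y).coeff t = 0) →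
      t₀ + (ν + 2) * d ≤ T → t' + d ≤ T → (∀ r : ℕ, t₀ ≤ r + d → r < t' → I.eval (r : ℤ) ≠ 0) →
      ∀ t, t₀ ≤ t → t < t' → (A * y).coeff t = 0 := by
  classical
  have hex : ∃ o, ∃ e ≤ ν, (a e).coeff o ≠ 0 := ⟨_, ν, le_rfl, leadingCoeff_ne_zero.mpr ha⟩
  obtain ⟨o, ⟨e0, he0, ho⟩, hmin⟩ : ∃ o, (∃ e ≤ ν, (a e).coeff o ≠ 0) ∧
      ∀ i < o, ¬ ∃ e ≤ ν, (a e).coeff i ≠ 0 :=
    ⟨Nat.find hex, Nat.find_spec hex, fun i hi => Nat.find_min hex hi⟩
  have hod : o ≤ d := (le_natDegree_of_ne_zero ho).trans (hdeg e0)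
  have hoa : ∀ e ≤ ν, X ^ o ∣ a e := fun e he => X_pow_dvd_iff.mpr fun i hi => by
    by_contra hc
    exact hmin i hi ⟨e, he, hc⟩
  refine ⟨∑ e ∈ Finset.range (ν + 1), monomial e ((a e).coeff o), fun h0 => ho ?_, ?_, ?_⟩
  · have := congrArg (fun p : ℤ[X] => p.coeff e0) h0
    simpa [finsetSum_coeff, coeff_monomial, Nat.lt_succ_iff, he0] using this
  · exact natDegree_sum_le_of_forall_le _ _ fun e he =>
      (natDegree_monomial_le _).trans (Nat.lt_succ_iff.mp (Finset.mem_range.mp he))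
  intro A y t₀ t' hA0 hA hL hgap hT hT' hI
  by_contra hc
  push Not at hc
  obtain ⟨t1, ⟨h10, h11, h12⟩, h1min⟩ : ∃ t, (t₀ ≤ t ∧ t < t' ∧ (A * y).coeff t ≠ 0) ∧
      ∀ i < t, ¬ (t₀ ≤ i ∧ i < t' ∧ (A * y).coeff i ≠ 0) :=
    ⟨Nat.find hc, Nat.find_spec hc, fun i hi => Nat.find_min hc hi⟩
  have h13 : t₀ + (ν + 2) * d ≤ t1 := by
    by_contra hlt
    exact h12 (hgap t1 h10 (by omega))
  obtain ⟨N0, hN⟩ : ∃ N0 : ℤ[X], ∀ j, N0.coeff j = if j < t₀ then (A * y).coeff j else 0 :=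
    ⟨∑ i ∈ Finset.range t₀, monomial i ((A * y).coeff i), fun j => by
      simp [coeff_monomial]⟩
  obtain ⟨R, hR⟩ : ∃ R : ℤ[X], A * y = N0 + R := ⟨A * y - N0, by ring⟩
  have hRc : ∀ j, R.coeff j = if j < t₀ then 0 else (A * y).coeff j := fun j => by
    have := congrArg (fun p : ℤ[X] => p.coeff j) hR
    simp only [coeff_add, hN] at this
    split_ifs at this ⊢ <;> omega
  have hRd : X ^ t1 ∣ R := X_pow_dvd_iff.mpr fun i hi => by
    rw [hRc]
    split_ifs with h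
    · rfl
    · by_contra hne
      exact h1min i hi ⟨by omega, by omega, hne⟩
  have hQ := prgQ_mul ν a A y
  rw [hR, prgQ_add] at hQ
  have hQ0 : prgQ ν a A N0 = 0 := by
    by_cases hN0 : N0 = 0
    · rw [hN0, prgQ_zero]
    have hd : N0.natDegree < t₀ := by
      by_contra hge
      exact leadingCoeff_ne_zero.mpr hN0 ((hN _).trans (if_neg hge))
    refine eq_zero_of_dvd_of_natDegree_lt (p := X ^ (t₀ + (ν + 2) * d)) ?_ ?_
    · rw [eq_sub_of_add_eq hQ]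
      exact dvd_sub (((pow_dvd_pow X hT).trans hL).mul_left _)
        (prgQ_dvd ν a A ((pow_dvd_pow X h13).trans hRd))
    · have h1 := prgQ_deg ν hdeg hA N0
      have h2 : (ν + 2) * d = (ν + 1) * d + d := by ring
      rw [natDegree_X_pow]
      omega
  rw [hQ0, zero_add] at hQ
  have hAl : PrgLow A A.natTrailingDegree A.trailingCoeff :=
    ⟨X_pow_dvd_iff.mpr fun i hi => coeff_eq_zero_of_lt_natTrailingDegree hi, rfl⟩
  have hα : A.natTrailingDegree ≤ d := (natTrailingDegree_le_natDegree A).trans hA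
  have hc0 : A.trailingCoeff ≠ 0 := mt trailingCoeff_eq_zero.mp hA0
  generalize A.natTrailingDegree = α at hAl hα
  obtain ⟨r, rfl⟩ : ∃ r, t1 = r + α := ⟨t1 - α, by
    have : (ν + 2) * d = (ν + 1) * d + d := by ring
    omega⟩
  have hRl : PrgLow R (r + α) ((A * y).coeff (r + α)) := ⟨hRd, (hRc _).trans (if_neg (by omega))⟩
  have hco := prgQ_coeff ν hoa hAl hRl
  have hdv : X ^ ((ν + 1) * α + T) ∣ prgQ ν a A R := by
    rw [hQ, pow_add]
    exact mul_dvd_mul (hAl.pow (ν + 1)).1 hL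
  rw [X_pow_dvd_iff.mp hdv _ (by omega)] at hco
  refine hI r (by omega) (by omega) ?_
  rw [eval_finsetSum]
  simp only [eval_monomial]
  exact (mul_eq_zero.mp hco.symm).resolve_left (mul_ne_zero h12 (pow_ne_zero _ hc0))

end Pool.Agent.Lib.MP_f2f914_nt.EAB
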