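import Pool.Agent.Lib.MP_f2f914_nt.EAB.Defs

namespace Pool.Agent.Lib.MP_f2f914_nt.EAB

open Polynomial

theorem shift_th_iterate_add (e : ℕ) (f g : ℤ[X]) :
    th^[e] (f + g) = th^[e] f + th^[e] g := by
  ext n
  simp only [coeff_add, coeff_th_iterate]
  ring

theorem opL_add (ν : ℕ) (a : ℕ → ℤ[X]) (f g : ℤ[X]) :
    opL ν a (f + g) = opL ν a f + opL ν a g := by
  simp only [opL, shift_th_iterate_add, mul_add, Finset.sum_add_distrib]

theorem shift_opL_zero (ν : ℕ) (a : ℕ → ℤ[X]) : opL ν a 0 = 0 := by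
  have h := opL_add ν a 0 0
  rw [add_zero] at h
  exact left_eq_add.mp h

theorem opL_sum {α : Type*} (ν : ℕ) (a : ℕ → ℤ[X]) (s : Finset α) (f : α → ℤ[X]) :
    opL ν a (∑ i ∈ s, f i) = ∑ i ∈ s, opL ν a (f i) := by
  classical
  induction s using Finset.induction_on with
  | empty => simp [shift_opL_zero]
  | insert x s hx ih => rw [Finset.sum_insert hx, Finset.sum_insert hx, opL_add, ih]

theorem shift_natDegree_th_iterate (e : ℕ) (l : ℤ[X]) : (th^[e] l).natDegree ≤ l.natDegree := by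
  induction e with
  | zero => simp
  | succ e ih =>
    rw [Function.iterate_succ_apply']
    exact (natDegree_th_le _).trans ih

theorem shift_binom {ν e : ℕ} (he : e ≤ ν) (p i : ℤ) :
    (i + p) ^ e = ∑ e' ∈ Finset.range (ν + 1), p ^ e' * ((e.choose e' : ℤ) * i ^ (e - e')) := by
  rw [add_comm i p, add_pow]
  have hsub : Finset.range (e + 1) ⊆ Finset.range (ν + 1) :=
    Finset.range_subset_range.mpr (by omega)
  rw [← Finset.sum_subset hsub]
  · exact Finset.sum_congr rfl fun e' _ => by ring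
  · intro e' _ h2
    have : e < e' := by
      rw [Finset.mem_range] at h2
      omega
    rw [Nat.choose_eq_zero_of_lt this]
    simp

theorem shift_th_monomial {ν e : ℕ} (he : e ≤ ν) (l : ℤ[X]) (p : ℕ) (c : ℤ) :
    th^[e] (l * monomial p c) = monomial p c * ∑ e' ∈ Finset.range (ν + 1),
      C ((p : ℤ) ^ e') * (C (e.choose e' : ℤ) * th^[e - e'] l) := by
  ext n
  rw [coeff_th_iterate, ← C_mul_X_pow_eq_monomial, ← mul_assoc, coeff_mul_X_pow',
    mul_assoc (C c), mul_comm (X ^ p), coeff_C_mul, coeff_mul_X_pow']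
  split_ifs with h
  · obtain ⟨i, rfl⟩ := Nat.exists_eq_add_of_le' h
    rw [Nat.add_sub_cancel, coeff_mul_C, finsetSum_coeff]
    simp only [coeff_C_mul, coeff_th_iterate]
    push_cast
    rw [shift_binom he, Finset.sum_mul, Finset.mul_sum]
    exact Finset.sum_congr rfl fun e' _ => by ring
  · simp

/-- The operator on `l * c v ^ p` is a polynomial in `p` with top coefficient `a ν * l`. -/
theorem opL_shift (ν d : ℕ) (a : ℕ → ℤ[X]) (ha : ∀ e, (a e).natDegree ≤ d) (l : ℤ[X]) :
    ∃ q : ℕ → ℤ[X], q ν = a ν * l ∧ (∀ e, (q e).natDegree ≤ d + l.natDegree) ∧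
      ∀ (p : ℕ) (c : ℤ), opL ν a (l * monomial p c) =
        monomial p c * ∑ e ∈ Finset.range (ν + 1), C ((p : ℤ) ^ e) * q e := by
  refine ⟨fun e' => ∑ e ∈ Finset.range (ν + 1), a e * (C (e.choose e' : ℤ) * th^[e - e'] l),
    ?_, ?_, ?_⟩
  · beta_reduce
    rw [Finset.sum_range_succ, Finset.sum_eq_zero, zero_add]
    · simp
    · intro e he
      rw [Nat.choose_eq_zero_of_lt (Finset.mem_range.mp he)]
      simp
  · intro e'
    refine natDegree_sum_le_of_forall_le _ _ fun e _ => ?_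
    refine natDegree_mul_le.trans (Nat.add_le_add (ha e) ?_)
    exact (natDegree_C_mul_le _ _).trans (shift_natDegree_th_iterate _ _)
  · intro p c
    unfold opL
    have h1 : ∀ e ∈ Finset.range (ν + 1), a e * th^[e] (l * monomial p c) =
        ∑ e' ∈ Finset.range (ν + 1), monomial p c * (C ((p : ℤ) ^ e') *
          (a e * (C (e.choose e' : ℤ) * th^[e - e'] l))) := by
      intro e he
      rw [shift_th_monomial (ν := ν) (Nat.lt_succ_iff.mp (Finset.mem_range.mp he)),
        Finset.mul_sum, Finset.mul_sum]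
      exact Finset.sum_congr rfl fun e' _ => by ring
    rw [Finset.sum_congr rfl h1, Finset.sum_comm, Finset.mul_sum]
    refine Finset.sum_congr rfl fun e' _ => ?_
    rw [Finset.mul_sum, Finset.mul_sum]

/-- Each slot is empty or has an offset. -/
theorem shift_exists_offset {m W' : ℕ} (Λ X₀ : ℕ) (Ev : Fin m → Finset ℕ) :
    ∃ (occ : ℕ → Fin m × Fin W' → Prop) (o : ℕ → Fin m × Fin W' → ℕ),
      (∀ a j, occ a j → o a j < Λ ∧ (X₀ + a * W' + j.2) * Λ + o a j ∈ Ev j.1) ∧
      ∀ a j r, r < Λ → (X₀ + a * W' + j.2) * Λ + r ∈ Ev j.1 → occ a j := by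
  classical
  refine ⟨fun a j => ∃ r, r < Λ ∧ (X₀ + a * W' + j.2) * Λ + r ∈ Ev j.1,
    fun a j => if h : ∃ r, r < Λ ∧ (X₀ + a * W' + j.2) * Λ + r ∈ Ev j.1 then h.choose else 0,
    ?_, ?_⟩
  · intro a j h
    beta_reduce
    rw [dif_pos h]
    exact h.choose_spec
  · intro a j r h1 h2
    exact ⟨r, h1, h2⟩

/-- Many windows have the same occupied slots and the same cells. -/
theorem window_class (m Λ lam F W' Nw N X₀ : ℕ) (hlam : 1 ≤ lam) (hF : Λ ≤ (F + 1) * lam)
    (Ev : Fin m → Finset ℕ) (hsp : ∀ β, ∀ p ∈ Ev β, ∀ p' ∈ Ev β, p < p' → p + Λ ≤ p')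
    (hN : (F + 2) ^ (m * W') * N < Nw) :
    ∃ (𝒜 : Finset ℕ) (s : Finset (Fin m × Fin W')) (φ : Fin m × Fin W' → ℕ)
      (ι : ℕ → Fin m × Fin W' → ℕ), N < 𝒜.card ∧ (∀ a ∈ 𝒜, a < Nw) ∧ (∀ a j, ι a j < lam) ∧
      (∀ a ∈ 𝒜, ∀ j ∈ s, φ j * lam + ι a j < Λ) ∧
      ∀ a ∈ 𝒜, ∀ f : Fin m → ℕ → ℤ[X],
        ∑ β, ∑ p ∈ (Ev β).filter fun p => (X₀ + a * W') * Λ ≤ p ∧ p < (X₀ + a * W' + W') * Λ,
          f β p = ∑ j ∈ s, f j.1 ((X₀ + a * W' + j.2) * Λ + φ j * lam + ι a j) := by
  classical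
  obtain ⟨occ, o, ho, hocc⟩ := shift_exists_offset (W' := W') Λ X₀ Ev
  let κ : ℕ → Fin m × Fin W' → ℕ := fun a j => if occ a j then o a j / lam + 1 else 0
  have hmaps : ∀ a ∈ Finset.range Nw,
      κ a ∈ Fintype.piFinset fun _ : Fin m × Fin W' => Finset.range (F + 2) := by
    intro a _
    rw [Fintype.mem_piFinset]
    intro j
    rw [Finset.mem_range]
    by_cases h : occ a j
    · have h1 : o a j / lam < F + 1 :=
        (Nat.div_lt_iff_lt_mul (by omega)).mpr (lt_of_lt_of_le (ho a j h).1 hF)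
      simp only [κ, if_pos h]
      omega
    · simp only [κ, if_neg h]
      omega
  have hcard : (Fintype.piFinset fun _ : Fin m × Fin W' => Finset.range (F + 2)).card * N <
      (Finset.range Nw).card := by
    rw [Fintype.card_piFinset, Finset.card_range, Finset.prod_const, Finset.card_range,
      Finset.card_univ, Fintype.card_prod, Fintype.card_fin, Fintype.card_fin]
    exact hN
  obtain ⟨y, -, hy⟩ := Finset.exists_lt_card_fiber_of_mul_lt_card_of_maps_to hmaps hcard
  have hiff : ∀ a, κ a = y → ∀ j, y j ≠ 0 ↔ occ a j := by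
    intro a ha j
    rw [← ha]
    by_cases h : occ a j
    · simp [κ, h]
    · simp [κ, h]
  have hoff : ∀ a, κ a = y → ∀ j, y j ≠ 0 → (y j - 1) * lam + o a j % lam = o a j := by
    intro a ha j hj
    have h := (hiff a ha j).mp hj
    have h1 : y j = o a j / lam + 1 := by
      rw [← ha]
      simp only [κ, if_pos h]
    rw [h1, Nat.add_sub_cancel]
    exact Nat.div_add_mod' _ _
  refine ⟨(Finset.range Nw).filter fun a => κ a = y, Finset.univ.filter fun j => y j ≠ 0,
    fun j => y j - 1, fun a j => o a j % lam, hy, ?_, ?_, ?_, ?_⟩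
  · intro a ha
    exact Finset.mem_range.mp (Finset.mem_filter.mp ha).1
  · intro a j
    exact Nat.mod_lt _ (by omega)
  · intro a ha j hj
    have ha' := (Finset.mem_filter.mp ha).2
    have hj' := (Finset.mem_filter.mp hj).2
    rw [hoff a ha' j hj']
    exact (ho a j ((hiff a ha' j).mp hj')).1
  · intro a ha f
    have ha' := (Finset.mem_filter.mp ha).2
    rw [Finset.sum_sigma']
    symm
    refine Finset.sum_bij
      (fun j _ => (⟨j.1, (X₀ + a * W' + j.2) * Λ + o a j⟩ : (_ : Fin m) × ℕ)) ?_ ?_ ?_ ?_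
    · intro j hj
      have hj' := (Finset.mem_filter.mp hj).2
      obtain ⟨h1, h2⟩ := ho a j ((hiff a ha' j).mp hj')
      rw [Finset.mem_sigma, Finset.mem_filter]
      refine ⟨Finset.mem_univ _, h2, ?_, ?_⟩
      · have : (X₀ + a * W') * Λ ≤ (X₀ + a * W' + j.2) * Λ :=
          Nat.mul_le_mul_right _ (Nat.le_add_right _ _)
        exact this.trans (Nat.le_add_right _ _)
      · have h3 : (X₀ + a * W' + j.2 + 1) * Λ ≤ (X₀ + a * W' + W') * Λ :=
          Nat.mul_le_mul_right _ (by have := j.2.isLt; omega)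
        rw [Nat.add_mul _ 1, one_mul] at h3
        show (X₀ + a * W' + j.2) * Λ + o a j < _
        omega
    · intro j hj j' hj' h
      have h1 := (ho a j ((hiff a ha' j).mp (Finset.mem_filter.mp hj).2)).1
      have h2 := (ho a j' ((hiff a ha' j').mp (Finset.mem_filter.mp hj').2)).1
      have h3 : j.1 = j'.1 := congrArg Sigma.fst h
      have h4 : (X₀ + a * W' + j.2) * Λ + o a j = (X₀ + a * W' + j'.2) * Λ + o a j' :=
        congrArg (fun x : (_ : Fin m) × ℕ => x.2) h
      have hΛ : 0 < Λ := by omega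
      have h5 := congrArg (fun x => x / Λ) h4
      simp only [mul_comm _ Λ, Nat.mul_add_div hΛ, Nat.div_eq_of_lt h1, Nat.div_eq_of_lt h2] at h5
      exact Prod.ext h3 (Fin.ext (by omega))
    · rintro ⟨β, p⟩ hp
      rw [Finset.mem_sigma, Finset.mem_filter] at hp
      obtain ⟨-, hp1, hp2, hp3⟩ := hp
      dsimp only at hp1 hp2 hp3
      have hΛ : 0 < Λ := by
        rcases Nat.eq_zero_or_pos Λ with h | h
        · rw [h, mul_zero] at hp3
          omega
        · exact h
      have h1 : X₀ + a * W' ≤ p / Λ := (Nat.le_div_iff_mul_le hΛ).mpr hp2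
      have h2 : p / Λ < X₀ + a * W' + W' := (Nat.div_lt_iff_lt_mul hΛ).mpr hp3
      let j : Fin m × Fin W' := (β, ⟨p / Λ - (X₀ + a * W'), by omega⟩)
      have h3 : (X₀ + a * W' + j.2) * Λ + p % Λ = p := by
        have : X₀ + a * W' + j.2 = p / Λ := by
          show X₀ + a * W' + (p / Λ - (X₀ + a * W')) = p / Λ
          omega
        rw [this]
        exact Nat.div_add_mod' _ _
      have h4 : p % Λ < Λ := Nat.mod_lt _ hΛ
      have h5 : occ a j := hocc a j (p % Λ) h4 (by rw [h3]; exact hp1)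
      obtain ⟨h6, h7⟩ := ho a j h5
      have h8 : (X₀ + a * W' + j.2) * Λ + o a j = p := by
        rcases lt_trichotomy ((X₀ + a * W' + j.2) * Λ + o a j) p with h | h | h
        · have := hsp β _ h7 p hp1 h
          omega
        · exact h
        · have := hsp β p hp1 _ h7 h
          omega
      refine ⟨j, Finset.mem_filter.mpr ⟨Finset.mem_univ _, (hiff a ha' j).mpr h5⟩, ?_⟩
      rw [h8]
    · intro j hj
      have hj' := (Finset.mem_filter.mp hj).2
      show f j.1 ((X₀ + a * W' + j.2) * Λ + (y j - 1) * lam + o a j % lam) = _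
      rw [add_assoc, hoff a ha' j hj']

end Pool.Agent.Lib.MP_f2f914_nt.EAB
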