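import Pool.Agent.Lib.MP_f2f914_nt.EAB.Defs

namespace Pool.Agent.Lib.MP_f2f914_nt.EAB

open Polynomial

attribute [local instance] Matrix.seminormedAddCommGroup in
theorem siegel_core {κ β : Type*} [Fintype κ] [Fintype β] (A : Matrix κ β ℤ) {H s e : ℕ}
    (H1 : 1 ≤ H) (hA : ∀ i j, (A i j).natAbs ≤ H) (hs : 1 ≤ s)
    (r4 : Fintype.card κ + s ≤ Fintype.card β) (hn : Fintype.card β ≤ (e + 1) * s) :
    ∃ c : β → ℤ, c ≠ 0 ∧ A.mulVec c = 0 ∧ ∀ j, (c j).natAbs ≤ (Fintype.card β * H) ^ e := by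
  classical
  have n1 : 1 ≤ Fintype.card β * H := Nat.mul_pos (by omega) H1
  rcases Nat.eq_zero_or_pos (Fintype.card κ) with k0 | k0
  · obtain ⟨i₀⟩ := Fintype.card_pos_iff.1 (show 0 < Fintype.card β by omega)
    have := Fintype.card_eq_zero_iff.1 k0
    refine ⟨Pi.single i₀ 1, by simp, funext fun a => isEmptyElim a, fun i => ?_⟩
    have := Nat.one_le_pow e _ n1
    by_cases h : i = i₀ <;> simp [h, this]
  obtain ⟨t, t0, t1, t2⟩ := Int.Matrix.exists_ne_zero_int_vec_norm_le A
    (show Fintype.card κ < Fintype.card β by omega) k0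
  refine ⟨t, t0, t1, fun i => ?_⟩
  have b1 : ‖A‖ ≤ H := (Matrix.norm_le_iff (by positivity)).2 fun a i => by
    rw [Int.norm_eq_abs, ← Int.cast_abs, Int.abs_eq_natAbs]
    exact_mod_cast hA _ _
  have H1' : (1 : ℝ) ≤ H := by exact_mod_cast H1
  have n1' : (1 : ℝ) ≤ Fintype.card β * H := by exact_mod_cast n1
  have b2 : (Fintype.card κ : ℝ) / (Fintype.card β - Fintype.card κ) ≤ e := by
    have c1 : (Fintype.card κ + s : ℝ) ≤ Fintype.card β := by exact_mod_cast r4
    have c2 : (Fintype.card β : ℝ) ≤ (e + 1) * s := by exact_mod_cast hn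
    have c3 : (0 : ℝ) < s := by exact_mod_cast hs
    have c4 : (0 : ℝ) ≤ e := by positivity
    rw [div_le_iff₀ (by linarith)]
    nlinarith
  have b3 : ‖t i‖ ≤ (Fintype.card β * H : ℝ) ^ (e : ℝ) :=
    (norm_le_pi_norm t i).trans (t2.trans ((Real.rpow_le_rpow (by positivity)
      (mul_le_mul_of_nonneg_left (max_le H1' b1) (by positivity)) (by
        have : (Fintype.card κ : ℝ) ≤ Fintype.card β := by exact_mod_cast (by omega)
        exact div_nonneg (by positivity) (by linarith))).trans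
      (Real.rpow_le_rpow_of_exponent_le n1' b2)))
  rw [Real.rpow_natCast, Int.norm_eq_abs, ← Int.cast_abs, Int.abs_eq_natAbs] at b3
  exact_mod_cast b3

/-- Siegel's lemma with at least twice as many unknowns as equations. -/
theorem siegel_half {α β : Type*} [Fintype α] [Fintype β] (A : Matrix α β ℤ) (H : ℕ) (hH : 1 ≤ H)
    (hA : ∀ i j, (A i j).natAbs ≤ H) (h : 2 * Fintype.card α ≤ Fintype.card β)
    (hβ : 0 < Fintype.card β) :
    ∃ c : β → ℤ, c ≠ 0 ∧ A.mulVec c = 0 ∧ ∀ j, (c j).natAbs ≤ Fintype.card β * H := by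
  simpa using siegel_core A (s := Fintype.card β - Fintype.card α) (e := 1) hH hA (by omega)
    (by omega) (by omega)

/-- Siegel's lemma when the kernel is known to have dimension at least `k`. -/
theorem siegel_rank {α β : Type*} [Fintype α] [Fintype β] (A : Matrix α β ℤ) (H : ℕ) (hH : 1 ≤ H)
    (hA : ∀ i j, (A i j).natAbs ≤ H) (k g : ℕ) (hk : 1 ≤ k) (v : Fin k → β → ℚ)
    (hv : LinearIndependent ℚ v) (hker : ∀ r i, ∑ j, (A i j : ℚ) * v r j = 0)
    (hg : Fintype.card β ≤ (g + 1) * k) :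
    ∃ c : β → ℤ, c ≠ 0 ∧ A.mulVec c = 0 ∧ ∀ j, (c j).natAbs ≤ (Fintype.card β * H) ^ g := by
  classical
  obtain ⟨κ, f, -, sp, lf⟩ := exists_linearIndependent' ℚ fun a i => (A a i : ℚ)
  have := lf.finite
  have := Fintype.ofFinite κ
  let M : Matrix κ β ℚ := Matrix.of fun a i => (A (f a) i : ℚ)
  have r1 : M.rank = Fintype.card κ := LinearIndependent.rank_matrix lf
  have r2 := M.mulVecLin.finrank_range_add_finrank_ker
  have r3 : k ≤ Module.finrank ℚ (LinearMap.ker M.mulVecLin) := by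
    let w : Fin k → LinearMap.ker M.mulVecLin := fun r =>
      ⟨v r, LinearMap.mem_ker.2 (funext fun a => hker r (f a))⟩
    simpa using (LinearIndependent.of_comp (v := w) (LinearMap.ker M.mulVecLin).subtype
      hv).fintype_card_le_finrank
  obtain ⟨t, t0, t1, t2⟩ := siegel_core (Matrix.of fun a i => A (f a) i) hH (fun _ _ => hA _ _) hk
    (by
      rw [Module.finrank_fintype_fun_eq_card] at r2
      rw [← r1, ← r2]
      exact Nat.add_le_add_left r3 _) hg
  refine ⟨t, t0, funext fun a => ?_, t2⟩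
  have m : (fun i => (A a i : ℚ)) ∈ Submodule.span ℚ (Set.range
    ((fun a i => (A a i : ℚ)) ∘ f)) := sp ▸ Submodule.subset_span ⟨a, rfl⟩
  obtain ⟨c, hc⟩ := (Submodule.mem_span_range_iff_exists_fun ℚ).1 m
  apply Int.cast_injective (α := ℚ)
  simp only [Matrix.mulVec, dotProduct, Pi.zero_apply]
  push_cast
  simp only [fun i => (congrFun hc i).symm, Finset.sum_apply, Pi.smul_apply, smul_eq_mul,
    Function.comp, Finset.sum_mul, mul_assoc]
  rw [Finset.sum_comm]
  refine Finset.sum_eq_zero fun r _ => ?_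
  rw [← Finset.mul_sum]
  exact mul_eq_zero_of_right _ (by exact_mod_cast (show ∑ i, A (f r) i * t i = 0 from congrFun t1 r))

end Pool.Agent.Lib.MP_f2f914_nt.EAB
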