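import Pool.Agent.Lib.MP_f2f914_nt.EAB.Siegel

namespace Pool.Agent.Lib.MP_f2f914_nt.EAB

open Polynomial

open Finset in
theorem small_core {ι τ : Type*} [Fintype ι] [Fintype τ] (z : τ → ι → ℤ) (G : τ → ℤ) (H : ℕ)
    (hH : 1 ≤ H) (hz : ∀ t i, (z t i).natAbs ≤ H) :
    (∃ l : ι → ℚ, ∀ t, (G t : ℚ) = ∑ i, l i * (z t i : ℚ)) ∨
      ∃ d : τ → ℤ, (∀ i, ∑ t, d t * z t i = 0) ∧ ∑ t, d t * G t ≠ 0 ∧
        ∑ t, (d t).natAbs ≤ ((Fintype.card ι + 1) * H) ^ (Fintype.card ι + 1) := by
  classical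
  refine or_iff_not_imp_right.2 fun hn => ?_
  obtain ⟨κ, f, -, sp, lf⟩ := exists_linearIndependent' ℚ fun a i => (z a i : ℚ)
  have := lf.finite
  have := Fintype.ofFinite κ
  have r : Fintype.card κ ≤ Fintype.card ι := by simpa using lf.fintype_card_le_finrank
  obtain ⟨φ, hφ⟩ := (Fintype.linearCombination ℚ ((fun a i => (z a i : ℚ)) ∘ f)
    ).exists_leftInverse_of_injective (LinearMap.ker_eq_bot.2 lf.fintypeLinearCombination_injective)
  let ψ := Fintype.linearCombination ℚ (fun k => (G (f k) : ℚ)) ∘ₗ φ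
  refine ⟨fun i => ψ fun j => if i = j then 1 else 0, fun a => ?_⟩
  have m : (fun i => (z a i : ℚ)) ∈ Submodule.span ℚ (Set.range
    ((fun a i => (z a i : ℚ)) ∘ f)) := sp ▸ Submodule.subset_span ⟨a, rfl⟩
  obtain ⟨c, hc⟩ := (Submodule.mem_span_range_iff_exists_fun ℚ).1 m
  have e1 : ∑ i, (ψ fun j => if i = j then 1 else 0) * z a i = ∑ k, c k * G (f k) := by
    have := LinearMap.pi_apply_eq_sum_univ ψ fun i => (z a i : ℚ)
    simp only [smul_eq_mul, mul_comm (z a _ : ℚ)] at this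
    rw [← this, ← hc, ← Fintype.linearCombination_apply, LinearMap.comp_apply,
      ← LinearMap.comp_apply φ, hφ]
    simp [Fintype.linearCombination_apply]
  obtain ⟨t, t0, t1, t2⟩ := siegel_rank (Matrix.of fun i (o : Option κ) => z (o.elim a f) i) H hH
    (fun i o => hz _ _) 1 (Fintype.card κ) le_rfl
    (fun _ o => o.elim (-1) c) (linearIndependent_unique_iff.2 fun e => by
      simpa using congrFun e none) (fun _ i => by
      have := congrFun hc i
      simp only [Finset.sum_apply, Pi.smul_apply, smul_eq_mul, Function.comp] at this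
      simp [Fintype.sum_option, ← this, mul_comm]) (by simp)
  have t1' : ∀ i, ∑ o : Option κ, t o * z (o.elim a f) i = 0 := fun i => by
    simpa [Matrix.mulVec, dotProduct, mul_comm] using congrFun t1 i
  have fib : ∀ g : τ → ℤ, ∑ s, (∑ o with Option.elim o a f = s, t o) * g s =
      ∑ o, t o * g (o.elim a f) := fun g => by
    rw [← sum_fiberwise univ fun o => Option.elim o a f]
    refine sum_congr rfl fun s _ => ?_
    rw [sum_mul]
    exact sum_congr rfl fun o ho => by rw [(mem_filter.1 ho).2]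
  have e2 : ∑ o : Option κ, t o * G (o.elim a f) = 0 := by
    by_contra e2
    refine hn ⟨fun s => ∑ o with Option.elim o a f = s, t o, fun i => (fib _).trans (t1' i),
      by rwa [fib], ?_⟩
    refine (sum_le_sum fun s _ => Int.natAbs_sum_le _ t).trans ?_
    rw [sum_fiberwise univ (fun o => Option.elim o a f) fun o => (t o).natAbs]
    refine (sum_le_card_nsmul _ _ _ fun o _ => t2 o).trans ?_
    rw [card_univ, Fintype.card_option, smul_eq_mul, pow_succ']
    exact Nat.mul_le_mul (by nlinarith) ((Nat.pow_le_pow_left (by gcongr) _).trans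
      (Nat.pow_le_pow_right (by positivity) r))
  have e4 : ∀ k, (t (some k) : ℚ) + t none * c k = 0 :=
    Fintype.linearIndependent_iff.1 lf _ (funext fun i => by
      have h1 : ∑ o : Option κ, (t o : ℚ) * z (o.elim a f) i = 0 := by exact_mod_cast t1' i
      have h2 := congrFun hc i
      simp only [Finset.sum_apply, Pi.smul_apply, smul_eq_mul, Function.comp, Fintype.sum_option,
        Option.elim, Pi.zero_apply, add_mul, sum_add_distrib, mul_assoc, ← mul_sum] at h1 h2 ⊢
      rw [h2]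
      linarith)
  have n0 : (t none : ℚ) ≠ 0 := fun e => t0 (funext fun o => by
    cases o with
    | none => exact_mod_cast e
    | some k => have := e4 k; rw [e, zero_mul, add_zero] at this; exact_mod_cast this)
  have e5 : (t none : ℚ) * G a + ∑ k, (t (some k) : ℚ) * G (f k) = 0 := by
    rw [Fintype.sum_option] at e2
    exact_mod_cast e2
  rw [e1]
  refine mul_left_cancel₀ n0 ?_
  simp only [mul_sum, ← mul_assoc, fun k => eq_neg_of_add_eq_zero_right (e4 k), neg_mul,
    sum_neg_distrib]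
  linarith

/-- A rational relation that does not kill `G` can be replaced by a small integer one. -/
theorem small_comb {ι τ : Type*} [Fintype ι] [Fintype τ] (z : τ → ι → ℤ) (G : τ → ℤ) (H : ℕ)
    (hH : 1 ≤ H) (hz : ∀ t i, (z t i).natAbs ≤ H) (c : τ → ℚ)
    (hc : ∀ i, ∑ t, c t * (z t i : ℚ) = 0) (hG : ∑ t, c t * (G t : ℚ) ≠ 0) :
    ∃ d : τ → ℤ, (∀ i, ∑ t, d t * z t i = 0) ∧ ∑ t, d t * G t ≠ 0 ∧
      ∑ t, (d t).natAbs ≤ ((Fintype.card ι + 1) * H) ^ (Fintype.card ι + 1) := by
  refine (small_core z G H hH hz).resolve_left fun ⟨l, hl⟩ => hG ?_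
  simp only [hl, Finset.mul_sum, mul_left_comm (c _)]
  rw [Finset.sum_comm]
  simp [← Finset.mul_sum, hc]

/-- Integers that are very close to a linear function of small integer vectors are a linear
function of them. -/
theorem exists_functional {ι τ : Type*} [Fintype ι] [Fintype τ] (z : τ → ι → ℤ) (G : τ → ℤ)
    (H : ℕ) (hH : 1 ≤ H) (hz : ∀ t i, (z t i).natAbs ≤ H) (μ : ι → ℚ) (ε : ℚ)
    (hε : ∀ t, |(G t : ℚ) - ∑ i, μ i * (z t i : ℚ)| ≤ ε)
    (hsmall : ε * ((((Fintype.card ι + 1) * H) ^ (Fintype.card ι + 1) : ℕ) : ℚ) < 1) :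
    ∃ lam : ι → ℚ, ∀ t, (G t : ℚ) = ∑ i, lam i * (z t i : ℚ) := by
  refine (small_core z G H hH hz).resolve_right fun ⟨d, h1, h2, h3⟩ => h2 ?_
  have h1' : ∀ i, ∑ t, (d t : ℚ) * z t i = 0 := fun i => by exact_mod_cast h1 i
  have e : ((∑ t, d t * G t : ℤ) : ℚ) = ∑ t, d t * (G t - ∑ i, μ i * (z t i : ℚ)) := by
    simp only [mul_sub, Finset.sum_sub_distrib, Finset.mul_sum, mul_left_comm (d _ : ℚ)]
    rw [Finset.sum_comm]
    simp [← Finset.mul_sum, h1']
  obtain ⟨t₀, -⟩ := Finset.nonempty_of_sum_ne_zero h2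
  have h3' : ∑ t, |(d t : ℚ)| ≤ (((Fintype.card ι + 1) * H) ^ (Fintype.card ι + 1) : ℕ) := by
    simp only [← Int.cast_abs, Int.abs_eq_natAbs]
    exact_mod_cast h3
  have : |((∑ t, d t * G t : ℤ) : ℚ)| < 1 := by
    rw [e]
    refine ((Finset.abs_sum_le_sum_abs _ _).trans ((Finset.sum_le_sum fun t _ => ?_).trans
      ((Finset.mul_sum _ _ _).ge.trans (mul_le_mul_of_nonneg_left h3'
        ((abs_nonneg _).trans (hε t₀)))))).trans_lt hsmall
    rw [abs_mul, mul_comm]
    exact mul_le_mul_of_nonneg_right (hε t) (abs_nonneg _)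
  exact Int.abs_lt_one_iff.1 (by exact_mod_cast this)

end Pool.Agent.Lib.MP_f2f914_nt.EAB
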