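import Pool.Agent.Lib.MP_f2f914_nt.EAB.Count

namespace Pool.Agent.Lib.MP_f2f914_nt.EAB

open Polynomial

open Finset in
/-- Among many windows one has its top vector in the span of the window vectors. -/
theorem exists_mem_span {A J : Type*} [Fintype J] [DecidableEq J] (b : ℕ) (hb : 2 ≤ b)
    (ν W Ξ Λ G : ℕ) (hΛ : 1 ≤ Λ) (hΞ : 1 ≤ Ξ) (hG : W * ((ν + 1) * Ξ ^ ν) ^ 2 < 2 ^ G)
    (σ : A → J → ℤ) (π : A → J → ℕ) (s : Finset J) (hs : s.card ≤ W) (𝒜 : Finset A)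
    (hsp : ∀ j ∈ s, ∀ a ∈ 𝒜, ∀ a' ∈ 𝒜, a ≠ a' →
      (Λ : ℤ) ≤ |(π a j : ℤ) - π a' j| ∧ |(π a j : ℤ) - π a' j| ≤ (Ξ * Λ : ℕ))
    (hrig : ∀ j ∈ s, ∀ j' ∈ s, ∀ a ∈ 𝒜, ∀ a' ∈ 𝒜, σ a j - σ a j' = σ a' j - σ a' j' →
      (π a j : ℤ) - π a j' = (π a' j : ℤ) - π a' j')
    (hcard : (W ^ 2 * G + W * ν + 1) ^ W < 𝒜.card) (Xv Yv : A → J × Fin (ν + 1) → ℚ)
    (hX : ∀ a p, Xv a p = if p.1 ∈ s then (b : ℚ) ^ (-σ a p.1) * (π a p.1 : ℚ) ^ (p.2 : ℕ) else 0)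
    (hY : ∀ a p, Yv a p = if p.1 ∈ s ∧ p.2 = Fin.last ν then (b : ℚ) ^ (-σ a p.1) else 0) :
    ∃ a ∈ 𝒜, Yv a ∈ Submodule.span ℚ (Xv '' (𝒜 : Set A)) := by
  classical
  by_contra hcon
  push Not at hcon
  set U := Submodule.span ℚ (Xv '' (𝒜 : Set A)) with hU
  obtain ⟨f, hf⟩ := Module.exists_dual_forall_apply_ne_zero (K := ℚ) (ι := 𝒜)
    (fun a => U.mkQ (Yv a)) (fun a h => hcon a a.2 ((Submodule.Quotient.mk_eq_zero U).mp h))
  let c : J × Fin (ν + 1) → ℚ := fun p => f (U.mkQ fun q => if p = q then 1 else 0)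
  have hc : ∀ x : J × Fin (ν + 1) → ℚ, (∀ j ∉ s, ∀ e, x (j, e) = 0) →
      f (U.mkQ x) = ∑ j ∈ s, ∑ e, x (j, e) * c (j, e) := fun x hx => by
    have := LinearMap.pi_apply_eq_sum_univ (f ∘ₗ U.mkQ) x
    rw [Fintype.sum_prod_type, ← sum_subset (subset_univ s) fun j _ hj => by simp [hx j hj]] at this
    exact this
  have h := count_windows b hb ν W Ξ Λ G hΛ hΞ hG σ π s hs 𝒜 hsp hrig
    (fun j => ∑ e : Fin (ν + 1), C (c (j, e)) * X ^ (e : ℕ))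
    (fun j => natDegree_sum_le_of_forall_le _ _ fun e _ =>
      (natDegree_C_mul_X_pow_le _ _).trans (Nat.le_of_lt_succ e.2))
    (fun a ha => by
      have h1 : U.mkQ (Xv a) = 0 :=
        (Submodule.Quotient.mk_eq_zero U).mpr (Submodule.subset_span ⟨a, ha, rfl⟩)
      have h2 := hc (Xv a) fun j hj e => by simp [hX, hj]
      rw [h1, map_zero] at h2
      refine Eq.trans (sum_congr rfl fun j hj => ?_) h2.symm
      rw [eval_finsetSum, mul_sum]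
      exact sum_congr rfl fun e _ => by simp [hX, hj]; ring)
    (fun a ha h => hf ⟨a, ha⟩ (by
      rw [hc _ fun j hj e => by simp [hY, hj]]
      refine Eq.trans (sum_congr rfl fun j hj => ?_) h
      rw [finsetSum_coeff, mul_sum]
      refine sum_congr rfl fun e _ => ?_
      rw [coeff_C_mul_X_pow, hY]
      by_cases he : e = Fin.last ν
      · simp [he, hj]
      · have : ν ≠ e := fun h => he (Fin.ext h.symm)
        simp [he, this]))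
  have := Nat.pow_le_pow_right (n := W ^ 2 * G + W * ν + 1) (by omega) hs
  omega

end Pool.Agent.Lib.MP_f2f914_nt.EAB
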