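import Pool.Agent.Lib.MP_f2f914_nt.EAB.Consts
import Pool.Agent.Lib.MP_f2f914_nt.EAB.Lift2
import Pool.Agent.Lib.MP_f2f914_nt.EAB.Tan
import Pool.Agent.Lib.MP_f2f914_nt.EAB.Perron
import Pool.Agent.Lib.MP_f2f914_nt.EAB.Omega

namespace Pool.Agent.Lib.MP_f2f914_nt.EAB

open Polynomial

theorem stage_consts (m D : ℕ) :
    (m + 1) ^ D * (2 * (10 * ((m + 1) ^ D + 1) * (D + 2)) + 1) ≤ sC m D ∧
    D * (6 * ((m + 1) ^ D + 1) ^ 2) ≤ sC m D ∧
    10 * ((m + 1) ^ D + 1) * (D + 2) + D + 1 ≤ sC m D ∧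
    cP m D * (10 * ((m + 1) ^ D + 1) * (D + 2) + 1) ≤ sC m D ∧
    (D * (4 * (m + 1) ^ D + 1) + 1) * cP m D ≤ sC m D ∧
    D + cP m D * (m * (10 * ((m + 1) ^ D + 1) * (D + 2) + (10 * (m + 1) + 2))) ≤ sC m D ∧
    m * (2 * (10 * (m + 1)) + 1) ≤ sC m D := by
  have hp : 1 ≤ cP m D := by have := twenty_le_cP m D; omega
  have ha : 1 ≤ (m + 1) ^ 3 := by have := succ_le_cube m; omega
  have hd : 1 ≤ (D + 2) ^ 2 := by have := add_two_le_sq D; omega
  have hM := one_le_M m D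
  have h1 := le_sC m D 21 1 1 (D + 2) ((m + 1) ^ D + 1) ((m + 1) ^ D + 1) (by norm_num) hp ha
    (add_two_le_sq D) le_rfl le_rfl
  have h4 := le_sC m D 11 (cP m D) 1 (D + 2) ((m + 1) ^ D + 1) 1 (by norm_num) le_rfl ha
    (add_two_le_sq D) le_rfl (by omega)
  have h6 := le_sC m D 23 (cP m D) ((m + 1) ^ 2) (D + 2) ((m + 1) ^ D + 1) 1 (by norm_num)
    le_rfl (sq_le_cube m) (add_two_le_sq D) le_rfl (by omega)
  have h8 := le_sC m D 21 1 ((m + 1) ^ 2) 1 1 1 (by norm_num) hp (sq_le_cube m) hd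
    (by omega) (by omega)
  generalize (m + 1) ^ D = M at *
  generalize cP m D = p at *
  generalize sC m D = s at *
  have e0 : 10 * (M + 1) * (D + 2) = 10 * ((D + 2) * (M + 1)) := by ring
  have e1 : 21 * 1 * 1 * (D + 2) * (M + 1) * (M + 1) = 21 * ((D + 2) * (M + 1)) * (M + 1) := by ring
  have e4 : 11 * p * 1 * (D + 2) * (M + 1) * 1 = p * (11 * ((D + 2) * (M + 1))) := by ring
  have e6 : 23 * p * (m + 1) ^ 2 * (D + 2) * (M + 1) * 1 =
      p * ((m + 1) * (23 * ((m + 1) * ((D + 2) * (M + 1))))) := by ring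
  have k0 : D + 2 ≤ (D + 2) * (M + 1) := Nat.le_mul_of_pos_right _ (by omega)
  have k1 : D * (M + 1) ≤ (D + 2) * (M + 1) := Nat.mul_le_mul_right _ (by omega)
  have k2 : D * (4 * M + 1) + 1 ≤ 11 * ((D + 2) * (M + 1)) := by nlinarith
  have e2 : D * (6 * (M + 1) ^ 2) = 6 * (D * (M + 1)) * (M + 1) := by ring
  rw [e1] at h1
  rw [e4] at h4
  rw [e6] at h6
  rw [e0, e2]
  generalize D * (M + 1) = F at *
  generalize (D + 2) * (M + 1) = E at *
  refine ⟨le_trans ?_ h1, le_trans ?_ h1, le_trans ?_ h4, le_trans ?_ h4, le_trans ?_ h4,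
    le_trans ?_ h6, le_trans ?_ h8⟩
  · rw [mul_comm]; exact Nat.mul_le_mul (by omega) (by omega)
  · exact Nat.mul_le_mul_right _ (by omega)
  · exact le_trans (by omega) (Nat.le_mul_of_pos_left _ hp)
  · exact Nat.mul_le_mul_left _ (by omega)
  · rw [mul_comm]; exact Nat.mul_le_mul_left _ k2
  · have k3 : E ≤ (m + 1) * E := Nat.le_mul_of_pos_left _ (by omega)
    have k4 : m + 1 ≤ (m + 1) * E := Nat.le_mul_of_pos_right _ (by omega)
    generalize (m + 1) * E = G at *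
    have k5 : p * (m * (10 * E + (10 * (m + 1) + 2))) ≤ p * ((m + 1) * (22 * G)) :=
      Nat.mul_le_mul_left _ (Nat.mul_le_mul (by omega) (by omega))
    have k6 : D ≤ p * ((m + 1) * G) := by
      calc D ≤ 1 * (1 * G) := by omega
        _ ≤ _ := by gcongr; omega
    calc _ ≤ p * ((m + 1) * G) + p * ((m + 1) * (22 * G)) := Nat.add_le_add k6 k5
      _ = _ := by ring
  · nlinarith

theorem stage_consts' (m D : ℕ) (hD : 1 ≤ D) :
    (D * (4 * (m + 1) ^ D + 1) + m * D + 2 + 1) * m * (6 * m + 2) ≤ sN m D ∧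
    D * (4 * (m + 1) ^ D + 1) + m * D + 2 + (D * (4 * (m + 1) ^ D + 1) + m * D + 2 + 1) * m + 2
      ≤ sN m D ∧
    (D * (4 * (m + 1) ^ D + 1) + m * D + 2 + 1) * m * (6 * (m + 1) ^ 2) ≤ sC m D := by
  have hM := le_pow_M m D hD
  have h7 := le_sC m D 30 1 ((m + 1) ^ 3) (D + 2) ((m + 1) ^ D + 1) 1 (by norm_num)
    (by have := twenty_le_cP m D; omega) le_rfl (add_two_le_sq D) le_rfl (by omega)
  unfold sN
  generalize sC m D = s at *
  generalize (m + 1) ^ D = M at *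
  have h1 : D * (4 * M + 1) + m * D + 2 + 1 ≤ 5 * ((D + 2) * (M + 1)) := by nlinarith
  have h0 : 1 ≤ (D + 2) * (M + 1) := Nat.mul_pos (by omega) (by omega)
  have e : 40 * (m + 1) ^ 2 * (D + 2) * (M + 1) = 40 * (m + 1) ^ 2 * ((D + 2) * (M + 1)) := by ring
  have e' : 30 * 1 * (m + 1) ^ 3 * (D + 2) * (M + 1) * 1 =
      5 * ((D + 2) * (M + 1)) * (m + 1) * (6 * (m + 1) ^ 2) := by ring
  rw [e]
  rw [e'] at h7
  generalize (D + 2) * (M + 1) = c at *
  generalize D * (4 * M + 1) + m * D + 2 = n at *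
  refine ⟨?_, ?_, le_trans (Nat.mul_le_mul_right _ (Nat.mul_le_mul h1 (by omega))) h7⟩
  · calc (n + 1) * m * (6 * m + 2) = (n + 1) * (m * (6 * m + 2)) := by ring
      _ ≤ (5 * c) * (8 * (m + 1) ^ 2) := Nat.mul_le_mul h1 (by nlinarith)
      _ = _ := by ring
  · calc n + (n + 1) * m + 2 ≤ (n + 1) * (m + 1) + 1 := by nlinarith
      _ ≤ (5 * c) * (m + 1) + c := Nat.add_le_add (Nat.mul_le_mul_right _ h1) h0
      _ = (5 * (m + 1) + 1) * c := by ring
      _ ≤ _ := Nat.mul_le_mul_right _ (by nlinarith)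

theorem stage_lin (c u : ℕ) (hu : 1 ≤ u) :
    2 * (c * u) + 1 ≤ (2 * c + 1) * u ∧ c * u + 1 ≤ (c + 1) * u := by
  rw [add_mul, add_mul, one_mul, mul_assoc]
  omega

/-- The gradient of the numerical relation is almost orthogonal to an approximate kernel vector. -/
theorem stage_small {ρ : Type*} [Fintype ρ] {m : ℕ} (B V u N R : ℕ) (hB : 1 ≤ B)
    (J : Matrix ρ (Fin m) ℤ[X]) (τ : Fin m → ℤ[X]) (α : ρ → ℤ) (w : Fin m → ℤ) (c d : ℚ)
    (hc : 1 ≤ |c|) (hd : 1 / (B : ℚ) ^ u ≤ |d|) (hα : ∀ k, (α k).natAbs ≤ B ^ V)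
    (hgrad : ∀ j, ∑ k, (α k : ℚ) * ev B (J k j) = c * d * (w j : ℚ))
    (hdvd : ∀ k, X ^ (R + 1) ∣ ∑ j, J k j * τ j) (hN : ∀ k, nm (∑ j, J k j * τ j) ≤ N)
    (hNB : Fintype.card ρ * N ≤ B) (hR : V + u ≤ R) :
    |∑ j, (w j : ℚ) * ev B (τ j)| ≤ 1 / (B : ℚ) ^ (R - V - u) := by
  have hB1 : (1 : ℚ) ≤ B := by exact_mod_cast hB
  have hB0 : (0 : ℚ) < B := by linarith
  have h1 : c * d * ∑ j, (w j : ℚ) * ev B (τ j) = ∑ k, (α k : ℚ) * ev B (∑ j, J k j * τ j) := by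
    simp only [map_sum, map_mul, Finset.mul_sum]
    rw [Finset.sum_comm]
    refine Finset.sum_congr rfl fun j _ => ?_
    rw [← mul_assoc, ← hgrad j, Finset.sum_mul]
    exact Finset.sum_congr rfl fun k _ => by ring
  have h2 : |∑ k, (α k : ℚ) * ev B (∑ j, J k j * τ j)| ≤ (B : ℚ) ^ V / (B : ℚ) ^ R := by
    refine (Finset.abs_sum_le_sum_abs _ _).trans ?_
    have h3 : ∀ k, |(α k : ℚ) * ev B (∑ j, J k j * τ j)| ≤
        (B : ℚ) ^ V * (N / (B : ℚ) ^ (R + 1)) := by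
      intro k
      rw [abs_mul]
      refine mul_le_mul ?_ ((abs_ev_le hB (hdvd k)).trans ?_) (abs_nonneg _) (by positivity)
      · have := hα k
        rw [← Int.cast_abs, Int.abs_eq_natAbs]
        exact_mod_cast this
      · have : ((nm (∑ j, J k j * τ j) : ℕ) : ℚ) ≤ N := by exact_mod_cast hN k
        gcongr
    refine (Finset.sum_le_sum fun k _ => h3 k).trans ?_
    rw [Finset.sum_const, Finset.card_univ, nsmul_eq_mul]
    have h4 : (Fintype.card ρ : ℚ) * N ≤ B := by exact_mod_cast hNB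
    calc (Fintype.card ρ : ℚ) * ((B : ℚ) ^ V * (N / (B : ℚ) ^ (R + 1)))
        = (B : ℚ) ^ V * ((Fintype.card ρ : ℚ) * N) / (B : ℚ) ^ (R + 1) := by ring
      _ ≤ (B : ℚ) ^ V * B / (B : ℚ) ^ (R + 1) := by gcongr
      _ = (B : ℚ) ^ V / (B : ℚ) ^ R := by field_simp; ring
  rw [← h1, abs_mul, abs_mul] at h2
  set z := |∑ j, (w j : ℚ) * ev B (τ j)| with hz
  have hz0 : 0 ≤ z := abs_nonneg _
  have h5 : 1 / (B : ℚ) ^ u * z ≤ (B : ℚ) ^ V / (B : ℚ) ^ R := by
    refine le_trans (mul_le_mul_of_nonneg_right ?_ hz0) h2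
    calc 1 / (B : ℚ) ^ u ≤ 1 * |d| := by rw [one_mul]; exact hd
      _ ≤ |c| * |d| := mul_le_mul_of_nonneg_right hc (abs_nonneg _)
  have h6 : (B : ℚ) ^ R = (B : ℚ) ^ (R - V - u) * (B : ℚ) ^ V * (B : ℚ) ^ u := by
    rw [← pow_add, ← pow_add]; congr 1; omega
  rw [h6] at h5
  calc z = (B : ℚ) ^ u * (1 / (B : ℚ) ^ u * z) := by field_simp
    _ ≤ (B : ℚ) ^ u * ((B : ℚ) ^ V / ((B : ℚ) ^ (R - V - u) * (B : ℚ) ^ V * (B : ℚ) ^ u)) := by
        gcongr
    _ = 1 / (B : ℚ) ^ (R - V - u) := by field_simp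

/-- One stage: a differential operator, or one series less. -/
theorem stage {m : ℕ} (hm : 1 ≤ m) (D B T u H : ℕ) (hD : 1 ≤ D) (hu : 1 ≤ u) (P : ℤ[X])
    (hP : P.natDegree ≤ D) (hcoef : ∀ i, (P.coeff i).natAbs ≤ B ^ u) (x : ℚ)
    (hx : |aeval x P| ≤ 1 / (B : ℚ) ^ T) (hd : 1 / (B : ℚ) ^ u ≤ |aeval x (derivative P)|)
    (S : Fin m → ℤ[X]) (hS : ∀ j, nm (S j) ≤ H) (w₀ : ℤ) (w : Fin m → ℤ) (hw0 : w₀ ≠ 0)
    (hw₀ : w₀.natAbs ≤ B ^ u) (hw : ∀ j, (w j).natAbs ≤ B ^ u)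
    (hxw : (w₀ : ℚ) * x = ∑ j, (w j : ℚ) * ev B (S j)) (huH : sC m D * u ≤ H)
    (hB : H ^ sC m D ≤ B) (hT : sC m D * u ≤ T) :
    (∃ (ν : ℕ) (a : ℕ → ℤ[X]), ν ≤ sC m D ∧ a ν ≠ 0 ∧ (∀ e, (a e).natDegree ≤ sC m D * u) ∧
      (∀ e, nm (a e) ≤ H ^ sC m D) ∧ ∀ j, X ^ (T - sC m D * u) ∣ opL ν a (S j)) ∨
    ∃ (i₀ : Fin m) (l : Fin m → Fin m → ℤ[X]) (α₀ : ℤ) (α : Fin m → ℤ), α₀ ≠ 0 ∧ l i₀ = 0 ∧
      α₀.natAbs ≤ B ^ (10 * (m + 1) * u) ∧ (∀ k, (α k).natAbs ≤ B ^ (10 * (m + 1) * u)) ∧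
      (∀ k i, (l k i).natDegree ≤ 10 * (m + 1) * u) ∧ (∀ k i, nm (l k i) ≤ H ^ sN m D) ∧
      ∀ i, (α₀ : ℚ) * (w i : ℚ) = ∑ k, (α k : ℚ) * ev B (l k i) := by
  classical
  obtain ⟨n1, n2, n3, n4, n5, n6, n8⟩ := stage_consts m D
  obtain ⟨n7, n9, n10⟩ := stage_consts' m D hD
  have hDs := D_le_sC m D
  have hms := m_le_sC m D
  have hNs := sN_le_sC m D
  have hcs := cP_le_sC m D
  have hM1 := one_le_M m D
  have hcard : Fintype.card (Fin D → Option (Fin m)) = (m + 1) ^ D := by simp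
  set M := (m + 1) ^ D with hMdef
  set c := 10 * (M + 1) * (D + 2) with hcdef
  set s := sC m D with hsdef
  have hsu : s ≤ s * u := Nat.le_mul_of_pos_right _ hu
  have hsH : s ≤ H := hsu.trans huH
  have hH2 : 2 ≤ H := by omega
  have hH1 : 1 ≤ H := by omega
  have hpow : ∀ k, 1 ≤ k → H ≤ H ^ k := fun k hk => Nat.le_self_pow (by omega) H
  have hpB : ∀ k, k ≤ s → H ^ k ≤ B := fun k hk => (Nat.pow_le_pow_right hH1 hk).trans hB
  have hHB : H ≤ B := by simpa using hpB 1 (by omega)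
  have hB1 : 1 ≤ B := by omega
  have hBq : (0 : ℚ) < B := by exact_mod_cast hB1
  have hMs : M ≤ s := le_trans (Nat.le_mul_of_pos_right _ (by omega)) n1
  obtain ⟨ω, hω, hΩ⟩ := omega_weights hD P hP w₀ w (B ^ u) (Nat.one_le_pow _ _ hB1) hcoef hw₀ hw
  obtain ⟨hval, hgrad⟩ := hΩ B S x hxw
  have hV : 10 * (M + 1) * ((D + 2) * u) = c * u := by rw [hcdef]; ring
  have hDu : c * u + D * u + u ≤ T := by
    calc c * u + D * u + u = (c + D + 1) * u := by ring
      _ ≤ s * u := Nat.mul_le_mul_right _ n3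
      _ ≤ T := hT
  obtain ⟨l, α₀, α, hα0, -, hα, -, hldeg, hlnm, hldvd, hrel⟩ :=
    lift (fun f => wordS S f) ω (fun _ => none) B (H ^ D) ((D + 2) * u) 0 (T - D * u)
      (Nat.mul_pos (by omega) hu) (hH2.trans (hpow D hD)) (fun f => nm_wordS_le S hH1 hS f)
      (fun f => (hω f).trans (by
        calc (D + 1) * (B ^ u) ^ (D + 1) ≤ B ^ u * (B ^ u) ^ (D + 1) :=
              Nat.mul_le_mul_right _ (le_trans (by omega) (Nat.le_self_pow (by omega) B))
          _ = B ^ ((D + 2) * u) := by rw [← pow_succ', ← pow_mul, mul_comm]))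
      (by
        rw [hval, abs_mul, abs_pow]
        have h1 : |(w₀ : ℚ)| ≤ (B : ℚ) ^ u := by
          rw [← Int.cast_abs, Int.abs_eq_natAbs]; exact_mod_cast hw₀
        have h2 : (B : ℚ) ^ T = (B : ℚ) ^ (T - D * u) * ((B : ℚ) ^ u) ^ D := by
          rw [← pow_mul, ← pow_add]; congr 1; rw [mul_comm u D]; omega
        calc |(w₀ : ℚ)| ^ D * |aeval x P| ≤ ((B : ℚ) ^ u) ^ D * (1 / (B : ℚ) ^ T) := by gcongr
          _ = 1 / (B : ℚ) ^ (T - D * u) := by rw [h2]; field_simp)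
      (by
        rw [wordS_none]
        exact not_X_pow_dvd_of_natDegree one_ne_zero (by simp))
      (by rw [hcard, hV]; omega)
      (by
        rw [hcard, hV]
        calc M * (2 * (c * u) + 1) ≤ M * ((2 * c + 1) * u) :=
              Nat.mul_le_mul_left _ (stage_lin c u hu).1
          _ = M * (2 * c + 1) * u := by ring
          _ ≤ s * u := Nat.mul_le_mul_right _ n1
          _ ≤ H := huH
          _ ≤ H ^ D := hpow D hD)
      (by rw [hcard, ← pow_mul]; exact hpB _ n2)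
  rw [hcard, hV] at hα hldeg
  rw [hcard, ← pow_mul] at hlnm
  set Φ : (Fin D → Option (Fin m)) → MvPolynomial (Option (Fin m)) ℤ := fun k => wordP (l k)
    with hΦdef
  have hΦn : ∀ k, nmv (Φ k) ≤ H ^ (D * (4 * M + 1) + 1) := by
    intro k
    refine (nmv_wordP_le _).trans ((Finset.sum_le_sum fun f _ => hlnm k f).trans ?_)
    rw [Finset.sum_const, Finset.card_univ, hcard, smul_eq_mul, pow_succ']
    exact Nat.mul_le_mul_right _ (by omega)
  set J : Matrix (Fin D → Option (Fin m)) (Fin m) ℤ[X] := fun k j => evS S (jac Φ k j) with hJdef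
  set n := D * (4 * M + 1) + m * D + 2 with hndef
  have hJ : ∀ k j, nm (J k j) ≤ H ^ n := by
    intro k j
    refine (nm_evS_le S (d := D) hH1 hS _ fun j' =>
      (degreeOf_pderiv_le _ _ _).trans (degreeOf_some_wordP _ _)).trans ?_
    have h1 : nmv (jac Φ k j) ≤ H * H ^ (D * (4 * M + 1) + 1) :=
      (nmv_pderiv_le _ _).trans
        (Nat.mul_le_mul ((degreeOf_some_wordP _ _).trans (by omega)) (hΦn k))
    calc nmv (jac Φ k j) * H ^ (m * D) ≤ H * H ^ (D * (4 * M + 1) + 1) * H ^ (m * D) :=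
          Nat.mul_le_mul_right _ h1
      _ = H ^ n := by rw [← pow_succ', ← pow_add, hndef]; congr 1; ring
  set g := (c + (10 * (m + 1) + 2)) * u with hgdef
  rcases tan_dichotomy J (H ^ n) g (Nat.one_le_pow _ _ hH1) hJ with ⟨e, he⟩ |
    ⟨r, τ, i₀, hr, hτ0, hτdvd, hτn⟩
  · left
    have hdet : evS S (jac fun i => Φ (e i)).det = (J.submatrix e id).det := by
      rw [AlgHom.map_det]; rfl
    obtain ⟨ν, a, hν, ha0, hadeg, hanm, hL⟩ := perron hm (fun i => Φ (e i)) S D (c * u)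
      (H ^ (D * (4 * M + 1) + 1)) (T - D * u) (m * g) (fun i j => degreeOf_some_wordP _ _)
      (fun i => degreeOf_none_wordP _ (hldeg (e i))) (fun i => hΦn (e i))
      (by
        calc cP m D * (c * u + 1) ≤ cP m D * ((c + 1) * u) :=
              Nat.mul_le_mul_left _ (stage_lin c u hu).2
          _ = cP m D * (c + 1) * u := by ring
          _ ≤ s * u := Nat.mul_le_mul_right _ n4
          _ ≤ H := huH
          _ ≤ _ := hpow _ (by omega))
      (fun i => by rw [hΦdef]; dsimp only; rw [evS_wordP]; exact hldvd (e i))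
      (by rw [hdet]; exact he)
    refine ⟨ν, a, hν.trans hcs, ha0, fun k => (hadeg k).trans ?_, fun k => (hanm k).trans ?_,
      fun j => (pow_dvd_pow X ?_).trans (hL j)⟩
    · calc cP m D * (c * u) = cP m D * c * u := by ring
        _ ≤ s * u := Nat.mul_le_mul_right _ (le_trans (Nat.mul_le_mul_left _ (by omega)) n4)
    · rw [← pow_mul]; exact Nat.pow_le_pow_right hH1 n5
    · have : D * u + cP m D * (m * g) ≤ s * u := by
        calc D * u + cP m D * (m * g) = (D + cP m D * (m * (c + (10 * (m + 1) + 2)))) * u := by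
              rw [hgdef]; ring
          _ ≤ s * u := Nat.mul_le_mul_right _ n6
      omega
  · right
    have hτn' : ∀ j, nm (τ j) ≤ H ^ ((n + 1) * m) := by
      intro j
      refine (hτn j).trans ?_
      rw [pow_mul, pow_succ' H n]
      exact Nat.pow_le_pow_left (Nat.mul_le_mul_right _ (by omega)) _
    have hg : g = c * u + 10 * (m + 1) * u + 2 * u := by rw [hgdef]; ring
    have hrg : (r + 1) * g = r * g + g := by ring
    have hsmall := stage_small B (c * u) u (H * (H ^ n * H ^ ((n + 1) * m))) ((r + 1) * g) hB1 J τ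
      α w ((α₀ : ℚ) * (w₀ : ℚ) ^ (D - 1)) (aeval x (derivative P))
      (by
        have h1 : (1 : ℤ) ≤ |α₀ * w₀ ^ (D - 1)| :=
          Int.one_le_abs (mul_ne_zero hα0 (pow_ne_zero _ hw0))
        exact_mod_cast h1)
      hd hα (fun j => hgrad l α₀ α hrel j) hτdvd
      (fun k => by
        refine (nm_sum_le _ _).trans ((Finset.sum_le_sum fun j _ => (nm_mul_le _ _).trans
          (Nat.mul_le_mul (hJ k j) (hτn' j))).trans ?_)
        rw [Finset.sum_const, Finset.card_univ, Fintype.card_fin, smul_eq_mul]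
        exact Nat.mul_le_mul_right _ (by omega))
      (by
        rw [hcard]
        calc M * (H * (H ^ n * H ^ ((n + 1) * m))) ≤ H * (H * (H ^ n * H ^ ((n + 1) * m))) :=
              Nat.mul_le_mul_right _ (by omega)
          _ = H ^ (n + (n + 1) * m + 2) := by rw [pow_add, pow_add]; ring
          _ ≤ B := hpB _ (by omega))
      (by omega)
    have hnm1 : 1 ≤ (n + 1) * m := Nat.mul_pos (by omega) hm
    obtain ⟨l', β₀, β, hβ0, hβ₀, hβ, hl0, hldeg', hlnm', -, hrel'⟩ :=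
      lift τ w i₀ B (H ^ ((n + 1) * m)) u (r * g) ((r + 1) * g - c * u - u) hu
        (hH2.trans (hpow _ hnm1)) hτn' hw hsmall hτ0
        (by rw [Fintype.card_fin]; omega)
        (by
          rw [Fintype.card_fin]
          calc m * (2 * (10 * (m + 1) * u) + 1) ≤ m * ((2 * (10 * (m + 1)) + 1) * u) :=
                Nat.mul_le_mul_left _ (stage_lin _ u hu).1
            _ = m * (2 * (10 * (m + 1)) + 1) * u := by ring
            _ ≤ s * u := Nat.mul_le_mul_right _ n8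
            _ ≤ H := huH
            _ ≤ _ := hpow _ hnm1)
        (by rw [Fintype.card_fin, ← pow_mul]; exact hpB _ n10)
    rw [Fintype.card_fin] at hβ₀ hβ hldeg' hlnm'
    refine ⟨i₀, l', β₀, β, hβ0, hl0, hβ₀, hβ, hldeg', fun k i => (hlnm' k i).trans ?_, hrel'⟩
    rw [← pow_mul]
    exact Nat.pow_le_pow_right hH1 (le_trans (Nat.mul_le_mul_left _ (by omega)) n7)

end Pool.Agent.Lib.MP_f2f914_nt.EAB
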