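import Pool.Agent.Lib.MP_f2f914_nt.EAB.Stage

namespace Pool.Agent.Lib.MP_f2f914_nt.EAB

open Polynomial

/-- From the numerical relation to a differential operator. -/
theorem thmA (D μ lam B T : ℕ) (hD : 1 ≤ D) (P : ℤ[X]) (hP : P.natDegree ≤ D) (x : ℚ)
    (hx : |aeval x P| ≤ 1 / (B : ℚ) ^ T) (m : ℕ) (hμ : ∀ k, k ≤ m → sC k D ≤ μ)
    (hlam : 22 * (m + 1) ≤ lam) (u H : ℕ)
    (hu : 1 ≤ u) (hcoef : ∀ i, (P.coeff i).natAbs ≤ B ^ u)
    (hd : 1 / (B : ℚ) ^ u ≤ |aeval x (derivative P)|) (S : Fin m → ℤ[X])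
    (hS : ∀ j, nm (S j) ≤ H) (w₀ : ℤ) (w : Fin m → ℤ) (hw0 : w₀ ≠ 0) (hw₀ : w₀.natAbs ≤ B ^ u)
    (hw : ∀ j, (w j).natAbs ≤ B ^ u) (hxw : (w₀ : ℚ) * x = ∑ j, (w j : ℚ) * ev B (S j))
    (huH : μ * lam ^ m * u ≤ H) (hB : H ^ μ ^ (m + 1) ≤ B) (hT : μ * lam ^ m * u ≤ T) :
    ∃ (m' : ℕ) (l : Fin m' → Fin m → ℤ[X]) (α₀ : ℤ) (α : Fin m' → ℤ) (ν : ℕ) (a : ℕ → ℤ[X]),
      m' ≤ m ∧ ν ≤ μ ∧ α₀ ≠ 0 ∧ a ν ≠ 0 ∧ α₀.natAbs ≤ B ^ (μ * lam ^ m * u) ∧
      (∀ j, (α j).natAbs ≤ B ^ (μ * lam ^ m * u)) ∧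
      (∀ j β, (l j β).natDegree ≤ μ * lam ^ m * u) ∧ (∀ j β, nm (l j β) ≤ H ^ μ ^ (m + 1)) ∧
      (∀ e, (a e).natDegree ≤ μ * lam ^ m * u) ∧ (∀ e, nm (a e) ≤ H ^ μ ^ (m + 1)) ∧
      (α₀ : ℚ) * x = ∑ j, (α j : ℚ) * ev B (∑ β, l j β * S β) ∧
      ∀ j, X ^ (T - μ * lam ^ m * u) ∣ opL ν a (∑ β, l j β * S β) := by
  classical
  induction m generalizing u H w₀ with
  | zero =>
    have hμ1 : 1 ≤ μ := le_trans (by have := m_le_sC 0 D; omega) (hμ 0 le_rfl)
    have h1 : u ≤ μ * lam ^ 0 * u := Nat.le_mul_of_pos_left _ (by rw [pow_zero]; omega)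
    have hH1 : 1 ≤ H := by omega
    have hB1 : 1 ≤ B := (Nat.one_le_pow _ _ hH1).trans hB
    refine ⟨0, Fin.elim0, w₀, Fin.elim0, 0, fun _ => 1, le_rfl, Nat.zero_le _, hw0, one_ne_zero,
      hw₀.trans (Nat.pow_le_pow_right hB1 h1), fun j => j.elim0, fun j => j.elim0,
      fun j => j.elim0, fun _ => by simp, fun _ => ?_, by simpa using hxw, fun j => j.elim0⟩
    rw [nm_one]; exact Nat.one_le_pow _ _ hH1
  | succ m ih =>
    have hs : sC (m + 1) D ≤ μ := hμ _ le_rfl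
    have hms := m_le_sC (m + 1) D
    have hNs := sN_le_sC (m + 1) D
    have hμ1 : 1 ≤ μ := by omega
    have hq1 : 1 ≤ μ ^ (m + 1) := Nat.one_le_pow _ _ hμ1
    have hpow : μ ^ (m + 1 + 1) = μ ^ (m + 1) * μ := pow_succ _ _
    have hμq : μ ≤ μ ^ (m + 1 + 1) := Nat.le_self_pow (by omega) μ
    have hsq : sC (m + 1) D ≤ μ ^ (m + 1 + 1) := hs.trans hμq
    have hl1 : ∀ k, μ ≤ μ * lam ^ k := fun k => Nat.le_mul_of_pos_right _ (Nat.pow_pos (by omega))
    have hsu : sC (m + 1) D * u ≤ μ * lam ^ (m + 1) * u :=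
      Nat.mul_le_mul_right _ (hs.trans (hl1 _))
    have huq : u ≤ μ * lam ^ (m + 1) * u := Nat.le_mul_of_pos_left _ (hμ1.trans (hl1 _))
    have hqH : μ ≤ H := (hl1 _).trans ((Nat.le_mul_of_pos_right _ hu).trans huH)
    have hH1 : 1 ≤ H := by omega
    have hB1 : 1 ≤ B := (Nat.one_le_pow _ _ hH1).trans hB
    rcases stage (Nat.succ_pos m) D B T u H hD hu P hP hcoef x hx hd S hS w₀ w hw0 hw₀ hw hxw
      (hsu.trans huH) ((Nat.pow_le_pow_right hH1 hsq).trans hB) (hsu.trans hT) with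
      ⟨ν, a, hν, ha0, hadeg, hanm, hL⟩ | ⟨i₀, l, α₀, α, hα0, hl0, hα₀, hα, hldeg, hlnm, hrel⟩
    · have hid : ∀ j, ∑ β, (if j = β then (1 : ℤ[X]) else 0) * S β = S j := by
        intro j; simp
      refine ⟨m + 1, fun j β => if j = β then 1 else 0, w₀, w, ν, a, le_rfl, hν.trans hs, hw0, ha0,
        hw₀.trans (Nat.pow_le_pow_right hB1 huq),
        fun j => (hw j).trans (Nat.pow_le_pow_right hB1 huq), fun j β => ?_, fun j β => ?_,
        fun e => (hadeg e).trans hsu, fun e => (hanm e).trans (Nat.pow_le_pow_right hH1 hsq), ?_,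
        fun j => ?_⟩
      · dsimp only; split_ifs <;> simp
      · dsimp only
        split_ifs
        · rw [nm_one]; exact Nat.one_le_pow _ _ hH1
        · simp
      · simp only [hid]; exact hxw
      · rw [hid]; exact (pow_dvd_pow X (Nat.sub_le_sub_left hsu T)).trans (hL j)
    · set c := 10 * (m + 1 + 1) with hc
      set N := sN (m + 1) D with hN
      have hu' : (c + 1) * u = c * u + u := by ring
      have huu : u ≤ (c + 1) * u := by omega
      have hq2 : 2 * (μ * lam ^ m * ((c + 1) * u)) ≤ μ * lam ^ (m + 1) * u := by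
        calc 2 * (μ * lam ^ m * ((c + 1) * u)) = μ * lam ^ m * (2 * (c + 1)) * u := by ring
          _ ≤ μ * lam ^ m * lam * u :=
            Nat.mul_le_mul_right _ (Nat.mul_le_mul_left _ (by omega))
          _ = _ := by ring
      have hq3 : 2 * ((N + 2) * μ ^ (m + 1)) ≤ μ ^ (m + 1 + 1) := by
        calc 2 * ((N + 2) * μ ^ (m + 1)) = μ ^ (m + 1) * (2 * (N + 2)) := by ring
          _ ≤ μ ^ (m + 1) * μ := Nat.mul_le_mul_left _ (hNs.trans hs)
          _ = _ := by rw [hpow]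
      have hq4 : (c + 1) * u ≤ μ * lam ^ m * ((c + 1) * u) :=
        Nat.le_mul_of_pos_left _ (hμ1.trans (hl1 _))
      have hq5 : N + 2 ≤ (N + 2) * μ ^ (m + 1) := Nat.le_mul_of_pos_right _ hq1
      have hBq : (1 : ℚ) ≤ B := by exact_mod_cast hB1
      obtain ⟨m', l', β₀, β, ν, a, hm', hν, hβ0, ha0, hβ₀, hβ, hl'deg, hl'nm, hadeg, hanm, hxβ,
        hL⟩ := ih (fun k hk => hμ k (by omega)) (by omega) ((c + 1) * u) (H ^ (N + 2)) (by omega)
        (fun i => (hcoef i).trans (Nat.pow_le_pow_right hB1 huu))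
        (le_trans (one_div_le_one_div_of_le (by positivity) (pow_le_pow_right₀ hBq huu)) hd)
        (fun k => ∑ i, l (i₀.succAbove k) i * S i)
        (fun k => by
          refine (nm_sum_le _ _).trans ((Finset.sum_le_sum fun i _ => (nm_mul_le _ _).trans
            (Nat.mul_le_mul (hlnm _ i) (hS i))).trans ?_)
          rw [Finset.sum_const, Finset.card_univ, Fintype.card_fin, smul_eq_mul]
          calc (m + 1) * (H ^ N * H) ≤ H * (H ^ N * H) := Nat.mul_le_mul_right _ (by omega)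
            _ = H ^ (N + 2) := by ring)
        (α₀ * w₀) (fun k => α (i₀.succAbove k)) (mul_ne_zero hα0 hw0)
        (by rw [Int.natAbs_mul, hu', pow_add]; exact Nat.mul_le_mul hα₀ hw₀)
        (fun k => (hα _).trans (Nat.pow_le_pow_right hB1 (by omega)))
        (by
          have h1 : ∑ k, (α k : ℚ) * ev B (∑ i, l k i * S i) =
              ∑ k : Fin m, (α (i₀.succAbove k) : ℚ) * ev B (∑ i, l (i₀.succAbove k) i * S i) := by
            rw [Fin.sum_univ_succAbove _ i₀, hl0]; simp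
          rw [← h1]
          push_cast
          rw [mul_assoc, hxw, Finset.mul_sum]
          simp only [map_sum, map_mul, Finset.mul_sum]
          rw [Finset.sum_comm]
          refine Finset.sum_congr rfl fun i _ => ?_
          rw [← mul_assoc, hrel i, Finset.sum_mul]
          exact Finset.sum_congr rfl fun k _ => by ring)
        (le_trans (by omega) (Nat.le_self_pow (by omega) H))
        (by rw [← pow_mul]; exact (Nat.pow_le_pow_right hH1 (by omega)).trans hB) (by omega)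
      have hcomp : ∀ j, ∑ γ, (∑ k, l' j k * l (i₀.succAbove k) γ) * S γ =
          ∑ k, l' j k * ∑ i, l (i₀.succAbove k) i * S i := by
        intro j
        simp only [Finset.sum_mul, Finset.mul_sum]
        rw [Finset.sum_comm]
        exact Finset.sum_congr rfl fun k _ => Finset.sum_congr rfl fun i _ => by ring
      rw [← pow_mul] at hl'nm hanm
      refine ⟨m', fun j γ => ∑ k, l' j k * l (i₀.succAbove k) γ, β₀, β, ν, a, by omega, hν, hβ0,
        ha0, hβ₀.trans (Nat.pow_le_pow_right hB1 (by omega)),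
        fun j => (hβ j).trans (Nat.pow_le_pow_right hB1 (by omega)), fun j γ => ?_, fun j γ => ?_,
        fun e => (hadeg e).trans (by omega),
        fun e => (hanm e).trans (Nat.pow_le_pow_right hH1 (by omega)), ?_, fun j => ?_⟩
      · refine natDegree_sum_le_of_forall_le _ _ fun k _ => natDegree_mul_le.trans ?_
        have h1 := hl'deg j k
        have h2 := hldeg (i₀.succAbove k) γ
        omega
      · refine (nm_sum_le _ _).trans ((Finset.sum_le_sum fun k _ => (nm_mul_le _ _).trans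
          (Nat.mul_le_mul (hl'nm j k) (hlnm _ γ))).trans ?_)
        rw [Finset.sum_const, Finset.card_univ, Fintype.card_fin, smul_eq_mul]
        calc m * (H ^ ((N + 2) * μ ^ (m + 1)) * H ^ N)
            ≤ H * (H ^ ((N + 2) * μ ^ (m + 1)) * H ^ N) := Nat.mul_le_mul_right _ (by omega)
          _ = H ^ ((N + 2) * μ ^ (m + 1) + N + 1) := by rw [pow_succ' H, pow_add H]
          _ ≤ _ := Nat.pow_le_pow_right hH1 (by omega)
      · simp only [hcomp]; exact hxβ
      · rw [hcomp]; exact (pow_dvd_pow X (by omega)).trans (hL j)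

end Pool.Agent.Lib.MP_f2f914_nt.EAB
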