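import Pool.Agent.Lib.MP_f2f914_nt.EAB.ThmV
import Pool.Agent.Lib.MP_f2f914_nt.EAB.Dirichlet
import Pool.Agent.Lib.MP_f2f914_nt.EAB.NumB

namespace Pool.Agent.Lib.MP_f2f914_nt.EAB

open Polynomial

theorem thmB_le_pow {b k e : ℕ} (hb : 2 ≤ b) (h : k ≤ e) : k ≤ b ^ e :=
  h.trans (Nat.lt_pow_self (by omega)).le

theorem thmB_nm (b : ℕ) (hb : 1 ≤ b) (E : Finset ℕ) (η : ℕ → ℕ) (e : ℕ) (h : ∀ p, η p ≤ e) :
    nm (spS b E η) ≤ E.card * b ^ e := by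
  refine (nm_sum_le _ _).trans (Finset.sum_le_card_nsmul _ _ _ fun p _ => ?_)
  rw [nm_monomial, Int.natAbs_pow, Int.natAbs_natCast]
  exact Nat.pow_le_pow_right hb (h p)

theorem thmB_T {Y T : ℕ} (hY : 256 ≤ Y) (hT : 2 ^ Y ^ 10 ≤ T) : 2 ^ Y ^ 9 + 2 * Y ≤ T := by
  have h1 : Y ≤ Y ^ 9 := Nat.le_self_pow (by norm_num) Y
  have h2 : Y ^ 9 + 2 ≤ Y ^ 10 := by
    rw [pow_succ Y 9]
    generalize Y ^ 9 = Z at h1
    nlinarith
  have h3 : Y ^ 9 < 2 ^ Y ^ 9 := Nat.lt_two_pow_self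
  have h4 : 2 ^ (Y ^ 9 + 2) ≤ T := (Nat.pow_le_pow_right two_pos h2).trans hT
  rw [pow_add] at h4
  omega

theorem thmB_small {D A B u t : ℕ} (hB : 1 ≤ B) (hA : A ^ (D + 3) ≤ B ^ u) (hDA : D + 1 ≤ A)
    (P : ℤ[X]) (hP : P.natDegree ≤ D) (hcoef : ∀ i, (P.coeff i).natAbs ≤ A) (x : ℝ)
    (hroot : aeval x P = 0) (y : ℚ) (hx : |x| ≤ A) (hy : |y| ≤ A)
    (h : |x - y| ≤ 1 / (B : ℝ) ^ (t + u)) : |aeval y P| ≤ 1 / (B : ℚ) ^ t := by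
  have hB0 : (0 : ℝ) < B := by exact_mod_cast hB
  have h1 := abs_aeval_sub_le P D A hP hcoef (A : ℝ) x y (by exact_mod_cast (by omega : 1 ≤ A)) hx
    (by exact_mod_cast hy)
  have h2 : aeval (y : ℝ) P = ((aeval y P : ℚ) : ℝ) := aeval_algebraMap_apply ℝ y P
  have h3 : (D + 1) * D * A * A ^ D ≤ B ^ u :=
    calc (D + 1) * D * A * A ^ D ≤ A * A * A * A ^ D := by gcongr; omega
      _ = A ^ (D + 3) := by ring
      _ ≤ _ := hA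
  have h4 : (((D + 1) * D * A : ℕ) : ℝ) * (A : ℝ) ^ D ≤ (B : ℝ) ^ u := by exact_mod_cast h3
  rw [hroot, zero_sub, abs_neg, h2] at h1
  have h5 := h1.trans (mul_le_mul h4 h (abs_nonneg _) (by positivity))
  rw [pow_add, show (B : ℝ) ^ u * (1 / (B ^ t * B ^ u)) = 1 / B ^ t by field_simp] at h5
  exact (Rat.cast_le (K := ℝ)).1 (by push_cast; exact h5)

/-- The contradiction, given a one variable model of the sparse sums. -/
theorem thmB_core (D m κ μ lam Y T n b : ℕ) (hκ : 1 ≤ κ) (hμ : ∀ k, k ≤ m → sC k D ≤ μ) (hY : 256 ≤ Y)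
    (hlam : 22 * (m + 1) ≤ lam) (hYμ : μ * lam ^ m * (30 * (D + 1) * κ) + 1 ≤ Y)
    (hT : 2 ^ Y ^ 10 ≤ T)
    (hb : 2 ≤ b) (P : ℤ[X]) (hirr : Irreducible (P.map (Int.castRingHom ℚ)))
    (hP : P.natDegree ≤ D) (hcoef : ∀ i, (P.coeff i).natAbs ≤ b ^ (κ * n)) (x : ℝ)
    (hx : Irrational x) (hroot : aeval x P = 0) (w₀ : ℤ) (w : Fin m → ℤ) (hw0 : w₀ ≠ 0)
    (hw₀ : w₀.natAbs ≤ b ^ (κ * n)) (hw : ∀ β, (w β).natAbs ≤ b ^ (κ * n))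
    (E : Fin m → Finset ℕ) (Λ n₀ e H : ℕ) (Ev : Fin m → Finset ℕ) (η : Fin m → ℕ → ℕ)
    (hΛ1 : 1 ≤ Λ) (h1 : n₀ * Λ ≤ n) (h2 : n < (n₀ + 1) * Λ) (hη : ∀ β p, η β p ≤ 2 * e)
    (a2 : 4 * e < n₀) (hsp' : ∀ β, ∀ p ∈ Ev β, ∀ p' ∈ Ev β, p < p' → p + Λ ≤ p')
    (hev : ∀ β, ev (b ^ n₀) (spS b (Ev β) (η β)) = (b : ℚ) ^ e * ∑ s ∈ E β, 1 / (b : ℚ) ^ s)
    (hS : ∀ β, nm (spS b (Ev β) (η β)) ≤ H) (hH1 : T * Λ ≤ H) (hbH : b ^ (2 * e) ≤ H)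
    (hHB : H ^ (2 ^ Y * 2 ^ Y ^ 5) ≤ b ^ n₀) :
    1 / (b : ℝ) ^ (T * n) <
      |(w₀ : ℝ) * x - ∑ β, (w β : ℝ) * ∑ s ∈ E β, 1 / (b : ℝ) ^ s| := by
  by_contra hlt
  rw [not_lt] at hlt
  have hD : 2 ≤ D := (two_le_natDegree P hirr x hx hroot).trans hP
  have hms := (m_le_sC m D).trans (hμ m le_rfl)
  have hμq : μ ≤ μ * lam ^ m := Nat.le_mul_of_pos_right _ (Nat.pow_pos (by omega))
  obtain ⟨k, hk⟩ : ∃ k, k = 30 * (D + 1) * κ := ⟨_, rfl⟩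
  rw [← hk] at hYμ
  have hk1 : 30 * (D + 1) ≤ k := hk ▸ Nat.le_mul_of_pos_right _ hκ
  have hmY : μ * lam ^ m ≤ μ * lam ^ m * k := Nat.le_mul_of_pos_right _ (by omega)
  have hkY : k ≤ μ * lam ^ m * k := Nat.le_mul_of_pos_left _ (by omega)
  have hTY := thmB_T hY hT
  clear hT
  have hZ : 1 ≤ 2 ^ Y ^ 9 := Nat.one_le_two_pow
  have hYZ : Y ≤ 2 ^ Y * 2 ^ Y ^ 5 :=
    Nat.lt_two_pow_self.le.trans (Nat.le_mul_of_pos_right _ Nat.one_le_two_pow)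
  have hb1 : 1 ≤ b := by omega
  have hTΛ : T ≤ T * Λ := Nat.le_mul_of_pos_right _ hΛ1
  have hmH : m * H ≤ b ^ n₀ :=
    calc m * H ≤ H * H := Nat.mul_le_mul_right _ (by omega)
      _ = H ^ 2 := (sq H).symm
      _ ≤ _ := (Nat.pow_le_pow_right (by omega) (by omega)).trans hHB
  have hBn : H ≤ b ^ n₀ := (Nat.le_self_pow (by omega) H).trans hHB
  have heB : b ^ e ≤ b ^ n₀ := Nat.pow_le_pow_right hb1 (by omega)
  have hκn : b ^ (κ * n) ≤ (b ^ n₀) ^ (2 * (κ * Λ)) := by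
    rw [← pow_mul]
    refine Nat.pow_le_pow_right hb1 ?_
    calc κ * n ≤ κ * ((n₀ + n₀) * Λ) :=
          Nat.mul_le_mul_left _ (h2.le.trans (Nat.mul_le_mul_right _ (by omega)))
      _ = _ := by ring
  have hTn : (b ^ n₀) ^ (T * Λ) ≤ b ^ (T * n) := by
    rw [← pow_mul, mul_left_comm]
    exact Nat.pow_le_pow_right hb1 (Nat.mul_le_mul_left _ h1)
  obtain ⟨B, hB⟩ : ∃ B, B = b ^ n₀ := ⟨_, rfl⟩
  rw [← hB] at hev hmH hBn heB hκn hTn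
  have hB1 : 1 ≤ B := by omega
  have hv : 1 ≤ κ * Λ := Nat.mul_pos hκ hΛ1
  have hkΛ : k * Λ = 30 * (D + 1) * (κ * Λ) := by rw [hk, mul_assoc]
  generalize κ * Λ = v at hκn hv hkΛ
  have hDv : v ≤ D * v := Nat.le_mul_of_pos_left _ (by omega)
  have mono : ∀ {i j : ℕ}, i ≤ j → B ^ i ≤ B ^ j := fun h => Nat.pow_le_pow_right hB1 h
  obtain ⟨y, hy⟩ : ∃ y : ℚ, y = (∑ β, (w β : ℚ) * ∑ s ∈ E β, 1 / (b : ℚ) ^ s) / w₀ := ⟨_, rfl⟩
  have hwq : (w₀ : ℚ) ≠ 0 := by exact_mod_cast hw0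
  have hw1 : 1 ≤ |w₀| := Int.one_le_abs hw0
  have hxw : ((w₀ * b ^ e : ℤ) : ℚ) * y = ∑ β, (w β : ℚ) * ev B (spS b (Ev β) (η β)) := by
    simp only [hev, mul_left_comm _ ((b : ℚ) ^ e)]
    rw [← Finset.mul_sum, hy]
    push_cast
    field_simp
  have hw0' : w₀ * b ^ e ≠ 0 := mul_ne_zero hw0 (by positivity)
  have hy1 : |y| ≤ (B ^ (3 * v) : ℕ) := by
    have c1 : (1 : ℚ) ≤ |((w₀ * b ^ e : ℤ) : ℚ)| := by exact_mod_cast Int.one_le_abs hw0'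
    refine (le_mul_of_one_le_left (abs_nonneg _) c1).trans ?_
    rw [← abs_mul, hxw]
    refine (Finset.abs_sum_le_sum_abs _ _).trans ((Finset.sum_le_card_nsmul _ _
      ((B ^ (2 * v) * H : ℕ) : ℚ) fun β _ => ?_).trans ?_)
    · rw [abs_mul, Nat.cast_mul, ← Int.cast_abs, ← Nat.cast_natAbs]
      exact mul_le_mul (Nat.cast_le.2 ((hw β).trans hκn))
        ((abs_ev_le_nm hB1 _).trans (Nat.cast_le.2 (hS β))) (abs_nonneg _) (Nat.cast_nonneg _)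
    · rw [Finset.card_univ, Fintype.card_fin, nsmul_eq_mul, ← Nat.cast_mul, Nat.cast_le,
        mul_left_comm]
      exact (Nat.mul_le_mul_left _ hmH).trans (by rw [← pow_succ]; exact mono (by omega))
  have hxy : |x - y| ≤ 1 / (B : ℝ) ^ (T * Λ) := by
    have c1 : (1 : ℝ) ≤ |(w₀ : ℝ)| := by exact_mod_cast hw1
    have c2 : (w₀ : ℝ) ≠ 0 := by exact_mod_cast hw0
    refine (le_mul_of_one_le_left (abs_nonneg _) c1).trans ?_
    rw [← abs_mul, mul_sub, hy]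
    push_cast
    rw [mul_div_cancel₀ _ c2]
    exact hlt.trans (one_div_le_one_div_of_le (by positivity) (by exact_mod_cast hTn))
  have hA1 : B ^ (3 * v) + 1 ≤ B ^ (4 * v) :=
    Nat.pow_lt_pow_right (by omega) (by omega)
  have hA2 : B ≤ B ^ (4 * v) := Nat.le_self_pow (by omega) B
  have hyA : |y| ≤ (B ^ (4 * v) : ℕ) := hy1.trans (Nat.cast_le.2 (by omega))
  have hxA : |x| ≤ (B ^ (4 * v) : ℕ) := by
    have c1 : |(y : ℝ)| ≤ (B ^ (3 * v) : ℕ) := by exact_mod_cast hy1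
    have c2 : 1 / (B : ℝ) ^ (T * Λ) ≤ 1 :=
      div_le_one_of_le₀ (one_le_pow₀ (by exact_mod_cast hB1)) (by positivity)
    have c3 : ((B ^ (3 * v) : ℕ) : ℝ) + 1 ≤ (B ^ (4 * v) : ℕ) := by exact_mod_cast hA1
    linarith [abs_sub_abs_le_abs_sub x y]
  have hcA : ∀ i, (P.coeff i).natAbs ≤ B ^ (4 * v) := fun i =>
    (hcoef i).trans (hκn.trans (mono (by omega)))
  have hT' : (T - k) * Λ + k * Λ = T * Λ := by rw [← add_mul, Nat.sub_add_cancel (by omega)]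
  have hsm := thmB_small (u := k * Λ) (t := (T - k) * Λ) hB1
    (by rw [← pow_mul]; exact mono (by nlinarith)) (by omega) P hP hcA x hroot y hxA hyA
    (hT' ▸ hxy)
  have hBq : (1 : ℚ) ≤ B := by exact_mod_cast hB1
  have h7 : 4 * v * (7 * D + 4) ≤ k * Λ := by nlinarith
  have hkT : k * Λ ≤ (T - k) * Λ := Nat.mul_le_mul_right _ (by omega)
  have hd := deriv_lower P hirr D _ hP hcA (by omega) y hyA (by
    rw [Nat.cast_pow, ← pow_mul]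
    exact hsm.trans (one_div_le_one_div_of_le (by positivity)
      (pow_le_pow_right₀ hBq (h7.trans hkT))))
  rw [Nat.cast_pow, ← pow_mul] at hd
  have h3 : 3 * v ≤ k * Λ := by nlinarith
  subst hB
  refine thmV Y μ lam k b n₀ (2 * e) Λ m D H ((T - k) * Λ) (by omega) (by omega) hY hμ hlam hYμ hb
    (by omega) hΛ1 P hP (no_rat_root P hirr x hx hroot)
    (fun i => (hcoef i).trans (hκn.trans (mono (by omega)))) y hsm
    ((one_div_le_one_div_of_le (by positivity) (pow_le_pow_right₀ hBq h7)).trans hd) Ev η hη hsp'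
    hS _ w hw0' ?_ (fun β => (hw β).trans (hκn.trans (mono (by omega)))) hxw
    (Nat.mul_le_mul_right _ (by omega)) (by omega)
    hbH hHB
  rw [Int.natAbs_mul, Int.natAbs_pow, Int.natAbs_natCast]
  exact (Nat.mul_le_mul (hw₀.trans hκn) heB).trans (by rw [← pow_succ]; exact mono (by omega))

theorem thmB_base {Y T n b : ℕ} (hY : 256 ≤ Y) (hT : 2 ^ Y ^ 10 ≤ T) (hn : n ≤ 2 ^ T ^ 2)
    (hb : 2 ^ T ^ 3 ≤ b) : (3 * T * n) ^ (2 ^ Y * 2 ^ Y ^ 5) ≤ b := by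
  have y1 : Y ≤ Y ^ 5 := Nat.le_self_pow (by norm_num) Y
  have y2 : 256 * Y ^ 5 ≤ Y ^ 6 := numB_step hY 5
  have y5 : Y ^ 6 ≤ Y ^ 10 := Nat.pow_le_pow_right (by omega) (by norm_num)
  have t1 : Y ^ 10 ≤ T := Nat.lt_two_pow_self.le.trans hT
  have p0 : 2 * (2 ^ Y * 2 ^ Y ^ 5) ≤ T := by
    calc 2 * (2 ^ Y * 2 ^ Y ^ 5) = 2 ^ 1 * (2 ^ Y * 2 ^ Y ^ 5) := rfl
      _ = 2 ^ (1 + (Y + Y ^ 5)) := by rw [← pow_add, ← pow_add]
      _ ≤ 2 ^ Y ^ 10 := Nat.pow_le_pow_right (by norm_num) (by omega)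
      _ ≤ T := hT
  generalize 2 ^ Y * 2 ^ Y ^ 5 = N at p0 ⊢
  have t2 : 3 * T ≤ 2 ^ T ^ 2 := le_trans (by nlinarith) Nat.lt_two_pow_self.le
  calc (3 * T * n) ^ N ≤ (2 ^ T ^ 2 * 2 ^ T ^ 2) ^ N :=
        Nat.pow_le_pow_left (Nat.mul_le_mul t2 hn) _
    _ = 2 ^ (T ^ 2 * (2 * N)) := by rw [← pow_add, ← pow_mul]; congr 1; ring
    _ ≤ 2 ^ T ^ 3 := Nat.pow_le_pow_right (by norm_num)
        (by rw [pow_succ T 2]; exact Nat.mul_le_mul_left _ p0)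
    _ ≤ b := hb

/-- An algebraic irrational is not close to a sparse sum with few weights. -/
theorem thmB (D m κ μ lam Y T n b : ℕ) (hκ : 1 ≤ κ) (hμ : ∀ k, k ≤ m → sC k D ≤ μ) (hY : 256 ≤ Y)
    (hlam : 22 * (m + 1) ≤ lam) (hYμ : μ * lam ^ m * (30 * (D + 1) * κ) + 1 ≤ Y)
    (hT : 2 ^ Y ^ 10 ≤ T) (hn1 : 1 ≤ n)
    (hn : 2 ^ T ^ 3 ≤ max b n)
    (hb : 2 ≤ b) (P : ℤ[X]) (hirr : Irreducible (P.map (Int.castRingHom ℚ)))
    (hP : P.natDegree ≤ D) (hcoef : ∀ i, (P.coeff i).natAbs ≤ b ^ (κ * n)) (x : ℝ)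
    (hx : Irrational x) (hroot : aeval x P = 0) (w₀ : ℤ) (w : Fin m → ℤ) (hw0 : w₀ ≠ 0)
    (hw₀ : w₀.natAbs ≤ b ^ (κ * n)) (hw : ∀ β, (w β).natAbs ≤ b ^ (κ * n))
    (E : Fin m → Finset ℕ) (hE : ∀ β, ∀ s ∈ E β, s ≤ 2 * T * n)
    (hsp : ∀ β, ∀ s ∈ E β, ∀ s' ∈ E β, s < s' → s + n ≤ s') :
    1 / (b : ℝ) ^ (T * n) <
      |(w₀ : ℝ) * x - ∑ β, (w β : ℝ) * ∑ s ∈ E β, 1 / (b : ℝ) ^ s| := by
  have hb1 : 1 ≤ b := by omega
  have hTY := thmB_T hY hT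
  have hZ : 1 ≤ 2 ^ Y ^ 9 := Nat.one_le_two_pow
  by_cases hn2 : 2 ^ T ^ 2 ≤ n
  · have hms := (m_le_sC m D).trans (hμ m le_rfl)
    have hμq : μ ≤ μ * lam ^ m := Nat.le_mul_of_pos_right _ (Nat.pow_pos (by omega))
    have hmY : μ * lam ^ m ≤ μ * lam ^ m * (30 * (D + 1) * κ) :=
      Nat.le_mul_of_pos_right _ (by positivity)
    obtain ⟨Λ, n₀, Ev, η, hΛ1, hΛ, h1, h2, hη, hcard, hmod⟩ := dirichlet_model b m T n (2 ^ Y ^ 6)
      hb hn1 Nat.one_le_two_pow E hE hsp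
    obtain ⟨a1, a2, -⟩ := numB Y m T n Λ n₀ hY (by omega) hT hn2 hΛ hΛ1 h2
    obtain ⟨hsp', hev⟩ := hmod a2
    generalize n₀ / 2 ^ Y ^ 6 + 2 * Λ * T + 3 = e at hη hev a1 a2
    have hTΛ : T ≤ T * Λ := Nat.le_mul_of_pos_right _ hΛ1
    have hg : 3 * (T * Λ) ≤ 3 * Y * T * Λ := by
      rw [mul_assoc, mul_assoc]
      exact Nat.mul_le_mul_left _ (Nat.le_mul_of_pos_left _ (by omega))
    generalize 3 * Y * T * Λ = g at a1 hg
    refine thmB_core D m κ μ lam Y T n b hκ hμ hY hlam hYμ hT hb P hirr hP hcoef x hx hroot w₀ w hw0 hw₀ hw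
      E Λ n₀ e (b ^ (2 * e + g)) Ev η hΛ1 h1 h2 hη a2 hsp' hev (fun β => ?_)
      (thmB_le_pow hb (by omega)) (Nat.pow_le_pow_right hb1 (by omega)) ?_
    · rw [pow_add, mul_comm]
      exact (thmB_nm b hb1 _ _ _ (hη β)).trans
        (Nat.mul_le_mul_right _ (thmB_le_pow hb ((hcard β).trans (by omega))))
    · rw [← pow_mul]
      exact Nat.pow_le_pow_right hb1 a1
  · have h23 : 2 ^ T ^ 2 ≤ 2 ^ T ^ 3 :=
      Nat.pow_le_pow_right (by norm_num) (Nat.pow_le_pow_right (by omega) (by norm_num))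
    have hbT : 2 ^ T ^ 3 ≤ b := by
      rcases le_max_iff.mp hn with h | h
      · exact h
      · omega
    have hTn : 1 ≤ T * n := Nat.mul_pos (by omega) hn1
    have e3 : 3 * T * n = 3 * (T * n) := mul_assoc _ _ _
    have e2 : 2 * T * n = 2 * (T * n) := mul_assoc _ _ _
    refine thmB_core D m κ μ lam Y T n b hκ hμ hY hlam hYμ hT hb P hirr hP hcoef x hx hroot w₀ w hw0 hw₀ hw
      E n 1 0 (3 * T * n) E (fun _ _ => 0) hn1 (by omega) (by omega) (fun _ _ => le_rfl)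
      (by omega) hsp (fun β => ?_) (fun β => ?_) (by omega) (by rw [mul_zero, pow_zero]; omega)
      (by rw [pow_one]; exact thmB_base hY hT (by omega) hbT)
    · rw [spS, map_sum, pow_zero (b : ℚ), one_mul, pow_one]
      refine Finset.sum_congr rfl fun s _ => ?_
      rw [ev_monomial]
      simp
    · refine (thmB_nm b hb1 _ _ 0 fun _ => le_rfl).trans ?_
      have : (E β).card ≤ (Finset.range (2 * T * n + 1)).card :=
        Finset.card_le_card fun s hs => Finset.mem_range.mpr (Nat.lt_succ_of_le (hE β s hs))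
      rw [Finset.card_range] at this
      rw [pow_zero, mul_one]
      omega

end Pool.Agent.Lib.MP_f2f914_nt.EAB
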