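import Pool.Agent.Lib.MP_f2f914_nt.EAB.Window
import Pool.Agent.Lib.MP_f2f914_nt.EAB.Propagate
import Pool.Agent.Lib.MP_f2f914_nt.EAB.Liouville
import Pool.Agent.Lib.MP_f2f914_nt.EAB.NumE

namespace Pool.Agent.Lib.MP_f2f914_nt.EAB

open Polynomial

/-- Among `ν + 1` consecutive geometric scales one holds no natural root. -/
theorem thmE_scale (I : ℤ[X]) (hI : I ≠ 0) (ν : ℕ) (hdeg : I.natDegree ≤ ν) (u : ℕ → ℕ)
    (hu : Monotone u) :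
    ∃ i, i ≤ ν ∧ ∀ r : ℕ, u i ≤ r → r < u (i + 1) → I.eval (r : ℤ) ≠ 0 := by
  classical
  by_contra hcon
  have h1 : ∀ i, i ≤ ν → ∃ r : ℕ, u i ≤ r ∧ r < u (i + 1) ∧ I.eval (r : ℤ) = 0 := by
    intro i hi
    by_contra h2
    exact hcon ⟨i, hi, fun r h3 h4 h5 => h2 ⟨r, h3, h4, h5⟩⟩
  choose! r hr using h1
  have hlt : ∀ i j, i ≤ ν → j ≤ ν → i < j → r i < r j := by
    intro i j hi hj hij
    have h2 := hr i hi
    have h3 := hr j hj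
    have h4 : u (i + 1) ≤ u j := hu hij
    omega
  have hcard : (Finset.range (ν + 1)).card ≤ I.roots.toFinset.card := by
    refine Finset.card_le_card_of_injOn (fun i => (r i : ℤ)) ?_ ?_
    · intro i hi
      have hi' : i ≤ ν := by simpa [Nat.lt_succ_iff] using hi
      simp only [Finset.mem_coe, Multiset.mem_toFinset]
      exact (mem_roots hI).mpr (hr i hi').2.2
    · intro i hi j hj hij
      have hi' : i ≤ ν := by simpa [Nat.lt_succ_iff] using hi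
      have hj' : j ≤ ν := by simpa [Nat.lt_succ_iff] using hj
      have h2 : r i = r j := Int.ofNat_inj.mp hij
      rcases lt_trichotomy i j with h | h | h
      · have := hlt i j hi' hj' h
        omega
      · exact h
      · have := hlt j i hj' hi' h
        omega
  have h5 := Multiset.toFinset_card_le I.roots
  have h6 := card_roots' I
  rw [Finset.card_range] at hcard
  omega

theorem thmE_nm {m : ℕ} (f g : Fin m → ℤ[X]) {H : ℕ} (hf : ∀ β, nm (f β) ≤ H)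
    (hg : ∀ β, nm (g β) ≤ H) : nm (∑ β, f β * g β) ≤ m * (H * H) := by
  refine (nm_sum_le _ _).trans ?_
  refine (Finset.sum_le_sum fun β _ =>
    (nm_mul_le _ _).trans (Nat.mul_le_mul (hf β) (hg β))).trans ?_
  simp

/-- The end game. -/
theorem thmE (Y b n₀ E₂ Λ C ν m m' D H T : ℕ) (hY : 256 ≤ Y) (hm : m ≤ Y) (hm' : m' ≤ Y)
    (hD : D ≤ Y) (hν : ν ≤ Y) (hC : C + 1 ≤ Y) (hb : 2 ≤ b) (hE : 2 * E₂ < n₀) (hΛ : 1 ≤ Λ)
    (P : ℤ[X]) (hP : P.natDegree ≤ D) (hroot : ∀ r : ℚ, aeval r P ≠ 0)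
    (hcoef : ∀ i, (P.coeff i).natAbs ≤ (b ^ n₀) ^ (C * Λ)) (x : ℚ)
    (hx : |aeval x P| ≤ 1 / ((b ^ n₀ : ℕ) : ℚ) ^ T) (Ev : Fin m → Finset ℕ) (η : Fin m → ℕ → ℕ)
    (hη : ∀ β p, η β p ≤ E₂) (hsp : ∀ β, ∀ p ∈ Ev β, ∀ p' ∈ Ev β, p < p' → p + Λ ≤ p')
    (hS : ∀ β, nm (spS b (Ev β) (η β)) ≤ H) (l : Fin m' → Fin m → ℤ[X])
    (hl : ∀ j β, (l j β).natDegree ≤ C * Λ) (hln : ∀ j β, nm (l j β) ≤ H) (α₀ : ℤ)
    (α : Fin m' → ℤ) (hα0 : α₀ ≠ 0) (hα₀ : α₀.natAbs ≤ (b ^ n₀) ^ (C * Λ))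
    (hα : ∀ j, (α j).natAbs ≤ (b ^ n₀) ^ (C * Λ))
    (hxα : (α₀ : ℚ) * x = ∑ j, (α j : ℚ) * ev (b ^ n₀) (∑ β, l j β * spS b (Ev β) (η β)))
    (a : ℕ → ℤ[X]) (ha : ∀ e, (a e).natDegree ≤ C * Λ) (haν : a ν ≠ 0) (hnm : nm (a ν) ≤ H)
    (hL : ∀ j, X ^ T ∣ opL ν a (∑ β, l j β * spS b (Ev β) (η β))) (hT : 2 ^ Y ^ 9 * Λ ≤ T)
    (hTH : T ≤ H) (hbH : b ^ E₂ ≤ H) (hB : H ^ 2 ^ Y ^ 5 ≤ b ^ n₀) : False := by
  have hG := numE_G Y m ν hY hm hν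
  have hNw := numE_Nw Y m ν hY hm hν
  have hT9 := numE_T Y D ν hY hD hν
  have hYT : Y + 2 ≤ 2 ^ Y ^ 9 := by
    have h1 : Y + 1 ≤ Y ^ 9 :=
      calc Y + 1 ≤ Y ^ 2 := by nlinarith
        _ ≤ Y ^ 9 := Nat.pow_le_pow_right (by omega) (by norm_num)
    have h2 : Y ^ 9 < 2 ^ Y ^ 9 := Nat.lt_two_pow_self
    omega
  have hYH : Y + 2 ≤ H :=
    hYT.trans ((Nat.le_mul_of_pos_right _ hΛ).trans (hT.trans hTH))
  have hZ := (numE_B Y m ν H hY hm hν (by omega)).trans hB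
  have hNw0 : 1 ≤ 2 ^ Y ^ 8 := Nat.one_le_two_pow
  have hW1 : (ν + 2) * (C + 1) + (2 * C + 1) ≤ 2 * Y ^ 2 := by
    have h1 : (ν + 2) * (C + 1) ≤ (Y + 2) * Y := Nat.mul_le_mul (by omega) hC
    nlinarith
  have hW2 : 2 * C + 4 ≤ 2 * Y ^ 2 := by nlinarith
  clear hB hYT
  generalize 2 ^ Y ^ 9 = N9 at hT9 hT
  generalize 2 ^ Y ^ 8 = Nw at hG hNw hT9 hNw0
  generalize Y ^ 10 = G at hG hNw
  generalize 2 * Y ^ 2 = W' at hG hNw hT9 hZ hW1 hW2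
  have hB1 : 1 ≤ b ^ n₀ := Nat.one_le_pow _ _ (by omega)
  have hCd : C * Λ ≤ (C + 1) * Λ := Nat.mul_le_mul_right _ (Nat.le_succ C)
  have hZ0 : 1 ≤ (2 * H ^ (ν + 1)) ^ 2 ^ (m * W' * (ν + 1)) :=
    Nat.one_le_pow _ _ (by have : 0 < H ^ (ν + 1) := Nat.pow_pos (by omega); omega)
  have hH6 : 1 ≤ H ^ 6 := Nat.one_le_pow _ _ (by omega)
  obtain ⟨I, hI0, hId, hI⟩ := propagate ν ((C + 1) * Λ) T a haν fun e => (ha e).trans hCd
  obtain ⟨K, hK⟩ : ∃ K, K = 4 * D + 6 := ⟨_, rfl⟩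
  rw [← hK] at hT9
  obtain ⟨i, hi, hroots⟩ := thmE_scale I hI0 ν hId (fun i => (2 * K + 1) ^ i * (Nw * W') * Λ)
    fun i j hij => Nat.mul_le_mul_right _
      (Nat.mul_le_mul_right _ (Nat.pow_le_pow_right (by omega) hij))
  have hnext : (2 * K + 1) ^ (i + 1) * (Nw * W') * Λ ≤ T :=
    (Nat.mul_le_mul_right _ ((Nat.mul_le_mul_right _
      (Nat.pow_le_pow_right (by omega) (by omega))).trans hT9)).trans hT
  have hX0 : Nw * W' ≤ (2 * K + 1) ^ i * (Nw * W') :=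
    Nat.le_mul_of_pos_left _ (Nat.pow_pos (by omega))
  have hsucc : (2 * K + 1) ^ (i + 1) * (Nw * W') * Λ =
      (2 * K + 1) * ((2 * K + 1) ^ i * (Nw * W') * Λ) := by ring
  simp only [hsucc] at hroots hnext
  generalize (2 * K + 1) ^ i * (Nw * W') = X₀ at hroots hnext hX0
  have hWX : W' ≤ X₀ := (Nat.le_mul_of_pos_left _ hNw0).trans hX0
  have hXT : (X₀ + Nw * W') * Λ ≤ 2 * (X₀ * Λ) :=
    calc (X₀ + Nw * W') * Λ ≤ (X₀ + X₀) * Λ := Nat.mul_le_mul_right _ (by omega)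
      _ = 2 * (X₀ * Λ) := by ring
  have h2K : 2 * (X₀ * Λ) ≤ (2 * K + 1) * (X₀ * Λ) := Nat.mul_le_mul_right _ (by omega)
  obtain ⟨A, t₀, hA0, hAd, hAn, ht1, ht2, hgap⟩ := good_window b n₀ E₂ Λ C ν m m' W' Nw G X₀ H T
    hb hE hΛ (by omega) Ev η hη hsp l hl a ha haν hnm hL (hXT.trans (h2K.trans hnext)) hTH hbH hG
    hNw ((Nat.le_mul_of_pos_right _ hH6).trans hZ)
  have hgl : (ν + 2) * ((C + 1) * Λ) ≤ (W' - (2 * C + 1)) * Λ := by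
    rw [← mul_assoc]
    exact Nat.mul_le_mul_right _ (by omega)
  have hdX : (C + 1) * Λ ≤ X₀ * Λ := Nat.mul_le_mul_right _ (by omega)
  have ht3 : X₀ * Λ + (C + 1) * Λ ≤ t₀ := by
    refine le_trans ?_ ht1
    rw [← add_mul]
    exact Nat.mul_le_mul_right _ (by omega)
  have ht4 : 2 * ((C + 1) * Λ) + 2 ≤ t₀ := by
    refine le_trans ?_ ht1
    calc 2 * ((C + 1) * Λ) + 2 ≤ 2 * ((C + 1) * Λ) + 2 * Λ := by omega
      _ = (2 * C + 4) * Λ := by ring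
      _ ≤ _ := Nat.mul_le_mul_right _ (by omega)
  have hKt : K * t₀ + X₀ * Λ ≤ (2 * K + 1) * (X₀ * Λ) :=
    calc K * t₀ + X₀ * Λ ≤ K * (2 * (X₀ * Λ)) + X₀ * Λ :=
          Nat.add_le_add_right (Nat.mul_le_mul_left _ (by omega)) _
      _ = (2 * K + 1) * (X₀ * Λ) := by ring
  have hx' : |aeval x P| ≤ 1 / ((b ^ n₀ : ℕ) : ℚ) ^ (K * t₀) := by
    refine hx.trans (one_div_le_one_div_of_le (by positivity) ?_)
    exact pow_le_pow_right₀ (by exact_mod_cast hB1) (by omega)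
  have hpow : (b ^ n₀) ^ (C * Λ) ≤ (b ^ n₀) ^ ((C + 1) * Λ) := Nat.pow_le_pow_right hB1 hCd
  generalize (2 * H ^ (ν + 1)) ^ 2 ^ (m * W' * (ν + 1)) = Z at hZ hZ0 hAn
  have hH5 : H ^ 5 < H ^ 6 := Nat.pow_lt_pow_right (by omega) (by norm_num)
  have hH1 : H ≤ H ^ 5 := Nat.le_self_pow (by norm_num) H
  have hZ5 : Z * H ^ 5 < b ^ n₀ := lt_of_lt_of_le (Nat.mul_lt_mul_of_pos_left hH5 hZ0) hZ
  refine liouville_gap D (b ^ n₀) ((C + 1) * Λ) t₀ K m' P hP hroot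
    (fun i => (hcoef i).trans hpow) x hx' hK.ge ?_ ht4
    (fun j => ∑ β, l j β * spS b (Ev β) (η β)) α₀ α hα0 (hα₀.trans hpow)
    (fun j => (hα j).trans hpow) hxα A hA0 hAd ?_ ?_ ?_
  · have h1 : H ^ 5 ≤ Z * H ^ 5 := Nat.le_mul_of_pos_left _ hZ0
    omega
  · exact lt_of_le_of_lt (hAn.trans (Nat.mul_le_mul_left _ hH1)) hZ5
  · intro j
    have h1 := thmE_nm (l j) (fun β => spS b (Ev β) (η β)) (hln j) hS
    refine le_trans ?_ hZ5.le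
    calc m' * (nm A * nm (∑ β, l j β * spS b (Ev β) (η β))) ≤ H * (Z * H * (H * (H * H))) :=
          Nat.mul_le_mul (by omega)
            (Nat.mul_le_mul hAn (h1.trans (Nat.mul_le_mul_right _ (by omega))))
      _ = Z * H ^ 5 := by ring
  · intro j
    refine hI A _ t₀ (K * t₀) hA0 hAd (hL j) (fun t h1 h2 => hgap j t h1 (by omega)) (by omega)
      (by omega) fun r h1 h2 => hroots r (by omega) (by omega)

end Pool.Agent.Lib.MP_f2f914_nt.EAB
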