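import Pool.Agent.Lib.MP_f2f914_nt.EAB.ThmA
import Pool.Agent.Lib.MP_f2f914_nt.EAB.ThmE

namespace Pool.Agent.Lib.MP_f2f914_nt.EAB

open Polynomial

/-- The contradiction in the one variable model. -/
theorem thmV (Y μ lam κ b n₀ E₂ Λ m D H T : ℕ) (hD : 1 ≤ D) (hκ : 1 ≤ κ) (hY : 256 ≤ Y)
    (hμ : ∀ k, k ≤ m → sC k D ≤ μ) (hlam : 22 * (m + 1) ≤ lam)
    (hYμ : μ * lam ^ m * κ + 1 ≤ Y) (hb : 2 ≤ b)
    (hE : 2 * E₂ < n₀) (hΛ : 1 ≤ Λ) (P : ℤ[X]) (hP : P.natDegree ≤ D)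
    (hroot : ∀ r : ℚ, aeval r P ≠ 0) (hcoef : ∀ i, (P.coeff i).natAbs ≤ (b ^ n₀) ^ (κ * Λ))
    (x : ℚ) (hx : |aeval x P| ≤ 1 / ((b ^ n₀ : ℕ) : ℚ) ^ T)
    (hd : 1 / ((b ^ n₀ : ℕ) : ℚ) ^ (κ * Λ) ≤ |aeval x (derivative P)|) (Ev : Fin m → Finset ℕ)
    (η : Fin m → ℕ → ℕ) (hη : ∀ β p, η β p ≤ E₂)
    (hsp : ∀ β, ∀ p ∈ Ev β, ∀ p' ∈ Ev β, p < p' → p + Λ ≤ p')
    (hS : ∀ β, nm (spS b (Ev β) (η β)) ≤ H) (w₀ : ℤ) (w : Fin m → ℤ) (hw0 : w₀ ≠ 0)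
    (hw₀ : w₀.natAbs ≤ (b ^ n₀) ^ (κ * Λ)) (hw : ∀ β, (w β).natAbs ≤ (b ^ n₀) ^ (κ * Λ))
    (hxw : (w₀ : ℚ) * x = ∑ β, (w β : ℚ) * ev (b ^ n₀) (spS b (Ev β) (η β)))
    (hT : (2 ^ Y ^ 9 + Y) * Λ ≤ T) (hTH : T ≤ H) (hbH : b ^ E₂ ≤ H)
    (hB : H ^ (2 ^ Y * 2 ^ Y ^ 5) ≤ b ^ n₀) : False := by
  have hs : sC m D ≤ μ := hμ m le_rfl
  have hms := m_le_sC m D
  have hDs := D_le_sC m D
  have hml : m + 1 ≤ lam ^ m :=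
    le_trans (Nat.lt_two_pow_self (n := m)) (Nat.pow_le_pow_left (by omega) m)
  have hμq : μ ≤ μ * lam ^ m := Nat.le_mul_of_pos_right _ (by omega)
  have hqC : μ * lam ^ m ≤ μ * lam ^ m * κ := Nat.le_mul_of_pos_right _ hκ
  have hκC : κ ≤ μ * lam ^ m * κ := Nat.le_mul_of_pos_left _ (by omega)
  have hN : μ ^ (m + 1) ≤ 2 ^ Y :=
    calc μ ^ (m + 1) ≤ (2 ^ μ) ^ (m + 1) := Nat.pow_le_pow_left Nat.lt_two_pow_self.le _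
      _ = 2 ^ (μ * (m + 1)) := (pow_mul _ _ _).symm
      _ ≤ 2 ^ Y := Nat.pow_le_pow_right (by norm_num)
          ((Nat.mul_le_mul_left _ hml).trans (by omega))
  have hN1 : 1 ≤ μ ^ (m + 1) := Nat.one_le_pow _ _ (by omega)
  have hZ : 1 ≤ 2 ^ Y ^ 5 := Nat.one_le_two_pow
  have hassoc : μ * lam ^ m * (κ * Λ) = μ * lam ^ m * κ * Λ := by ring
  have hCΛ : μ * lam ^ m * κ * Λ ≤ Y * Λ := Nat.mul_le_mul_right _ (by omega)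
  have hκΛ : κ * Λ ≤ μ * lam ^ m * κ * Λ := Nat.mul_le_mul_right _ hκC
  have hYΛ : Y ≤ Y * Λ := Nat.le_mul_of_pos_right _ hΛ
  rw [add_mul] at hT
  have hH1 : 1 ≤ H := by omega
  have hHq : H ≤ H ^ μ ^ (m + 1) := Nat.le_self_pow (by omega) H
  have hB1 : 1 ≤ b ^ n₀ := Nat.one_le_pow _ _ (by omega)
  have hBq : (1 : ℚ) ≤ ((b ^ n₀ : ℕ) : ℚ) := by exact_mod_cast hB1
  have hYZ : 2 ^ Y ≤ 2 ^ Y * 2 ^ Y ^ 5 := Nat.le_mul_of_pos_right _ hZ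
  obtain ⟨m', l, α₀, α, ν, a, hm', hν, hα0, ha0, hα₀, hα, hldeg, hlnm, hadeg, hanm, hxα, hL⟩ :=
    thmA D μ lam (b ^ n₀) T hD P hP x hx m hμ hlam (κ * Λ) H (Nat.mul_pos hκ hΛ) hcoef hd
      (fun β => spS b (Ev β) (η β)) hS w₀ w hw0 hw₀ hw hxw (by omega)
      ((Nat.pow_le_pow_right hH1 (hN.trans hYZ)).trans hB) (by omega)
  rw [hassoc] at hα₀ hα hldeg hadeg hL
  refine thmE Y b n₀ E₂ Λ (μ * lam ^ m * κ) ν m m' D (H ^ μ ^ (m + 1))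
    (T - μ * lam ^ m * κ * Λ) hY (by omega) (by omega) (by omega) (by omega) hYμ hb hE hΛ P hP hroot
    (fun i => (hcoef i).trans (Nat.pow_le_pow_right hB1 hκΛ)) x
    (hx.trans (one_div_le_one_div_of_le (by positivity) (pow_le_pow_right₀ hBq (Nat.sub_le _ _))))
    Ev η hη hsp (fun β => (hS β).trans hHq) l hldeg hlnm α₀ α hα0 hα₀ hα hxα a hadeg ha0 (hanm ν) hL
    (by omega) (by omega) (hbH.trans hHq) (le_trans ?_ hB)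
  rw [← pow_mul]
  exact Nat.pow_le_pow_right hH1 (Nat.mul_le_mul_right _ hN)

end Pool.Agent.Lib.MP_f2f914_nt.EAB
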