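import Pool.Agent.Lib.MP_f2f914_nt.EAB.Span
import Pool.Agent.Lib.MP_f2f914_nt.EAB.Elim
import Pool.Agent.Lib.MP_f2f914_nt.EAB.Shift

namespace Pool.Agent.Lib.MP_f2f914_nt.EAB

open Polynomial

/-- The coefficients of `f` in `[s, t)` vanish. -/
def WGap (f : ℤ[X]) (s t : ℕ) : Prop := ∀ i, s ≤ i → i < t → f.coeff i = 0

theorem wgap_add {f g : ℤ[X]} {s t : ℕ} (hf : WGap f s t) (hg : WGap g s t) :
    WGap (f + g) s t := fun i h1 h2 => by rw [coeff_add, hf i h1 h2, hg i h1 h2, add_zero]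

theorem wgap_sub {f g : ℤ[X]} {s t : ℕ} (hf : WGap f s t) (hg : WGap g s t) :
    WGap (f - g) s t := fun i h1 h2 => by rw [coeff_sub, hf i h1 h2, hg i h1 h2, sub_zero]

theorem wgap_sum {α : Type*} {S : Finset α} {f : α → ℤ[X]} {s t : ℕ}
    (h : ∀ a ∈ S, WGap (f a) s t) : WGap (∑ a ∈ S, f a) s t := fun i h1 h2 => by
  rw [finsetSum_coeff]
  exact Finset.sum_eq_zero fun a ha => h a ha i h1 h2

theorem wgap_mul {f g : ℤ[X]} {s t d : ℕ} (hf : WGap f s t) (hg : g.natDegree ≤ d) :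
    WGap (g * f) (s + d) t := fun i h1 h2 => by
  rw [coeff_mul]
  refine Finset.sum_eq_zero fun c hc => ?_
  have hc' : c.1 + c.2 = i := by simpa using hc
  by_cases h : d < c.1
  · rw [coeff_eq_zero_of_natDegree_lt (lt_of_le_of_lt hg h), zero_mul]
  · rw [hf c.2 (by omega) (by omega), mul_zero]

theorem wgap_monomial {p s t : ℕ} (c : ℤ) (h : ¬ (s ≤ p ∧ p < t)) : WGap (monomial p c) s t :=
  fun i h1 h2 => by
    rw [coeff_monomial, if_neg]
    rintro rfl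
    exact h ⟨h1, h2⟩

theorem wgap_of_dvd {f : ℤ[X]} {s t T : ℕ} (h : X ^ T ∣ f) (ht : t ≤ T) : WGap f s t :=
  fun i _ h2 => X_pow_dvd_iff.mp h i (by omega)

theorem wgap_X_pow_mul {f : ℤ[X]} {u s t : ℕ} :
    WGap (X ^ u * f) (u + s) (u + t) ↔ WGap f s t := by
  constructor
  · intro h i h1 h2
    have := h (i + u) (by omega) (by omega)
    rwa [coeff_X_pow_mul] at this
  · intro h i h1 h2
    obtain ⟨k, rfl⟩ : ∃ k, i = k + u := ⟨i - u, by omega⟩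
    rw [coeff_X_pow_mul]
    exact h k (by omega) (by omega)

/-- The events outside a window do not reach its upper part. -/
theorem wgap_split {m : ℕ} (Ev : Fin m → Finset ℕ) (u v d : ℕ) (g : Fin m → ℕ → ℤ[X])
    (c : Fin m → ℕ → ℤ) (hg : ∀ β p, (g β p).natDegree ≤ d) :
    WGap (∑ β, ∑ p ∈ Ev β, g β p * monomial p (c β p) -
      ∑ β, ∑ p ∈ (Ev β).filter fun p => u ≤ p ∧ p < v, g β p * monomial p (c β p)) (u + d) v := by
  rw [← Finset.sum_sub_distrib]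
  refine wgap_sum fun β _ => ?_
  rw [← Finset.sum_filter_add_sum_filter_not (Ev β) fun p => u ≤ p ∧ p < v, add_sub_cancel_left]
  exact wgap_sum fun p hp => wgap_mul (wgap_monomial _ (Finset.mem_filter.mp hp).2) (hg β p)

theorem window_rigid (n₀ E₂ : ℕ) (hE : 2 * E₂ < n₀) (i₁ i₂ i₃ i₄ e₁ e₂ e₃ e₄ : ℕ) (h₁ : e₁ ≤ E₂)
    (h₂ : e₂ ≤ E₂) (h₃ : e₃ ≤ E₂) (h₄ : e₄ ≤ E₂)
    (h : ((n₀ : ℤ) * i₁ - e₁) - ((n₀ : ℤ) * i₂ - e₂) = ((n₀ : ℤ) * i₃ - e₃) - ((n₀ : ℤ) * i₄ - e₄)) :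
    (i₁ : ℤ) - i₂ = (i₃ : ℤ) - i₄ := by
  have h0 : (n₀ : ℤ) * ((i₁ : ℤ) - i₂ - (i₃ - i₄)) = (e₁ : ℤ) - e₂ - (e₃ - e₄) := by linarith
  generalize hz : (i₁ : ℤ) - i₂ - (i₃ - i₄) = z at h0
  have hz0 : z = 0 := by
    by_contra hne
    have hn : (2 * E₂ : ℤ) < n₀ := by exact_mod_cast hE
    rcases lt_or_gt_of_ne hne with hlt | hgt
    · have : (n₀ : ℤ) * z ≤ (n₀ : ℤ) * (-1) := mul_le_mul_of_nonneg_left (by omega) (by omega)
      omega
    · have : (n₀ : ℤ) * 1 ≤ (n₀ : ℤ) * z := mul_le_mul_of_nonneg_left (by omega) (by omega)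
      omega
  omega

theorem window_spaced (Λ W' Nw a a' r r' c : ℕ) (hW' : 2 ≤ W') (ha : a < Nw) (ha' : a' < a)
    (hr : r < Λ) (hr' : r' < Λ) :
    (c + a' * W') * Λ + r' + Λ ≤ (c + a * W') * Λ + r ∧
      (c + a * W') * Λ + r ≤ (c + a' * W') * Λ + r' + Nw * W' * Λ := by
  obtain ⟨k, rfl⟩ : ∃ k, a = a' + 1 + k := ⟨a - a' - 1, by omega⟩
  obtain ⟨k', rfl⟩ : ∃ k', Nw = a' + 1 + k + 1 + k' := ⟨Nw - (a' + 1 + k + 1), by omega⟩
  have h1 : 2 * Λ ≤ W' * Λ := Nat.mul_le_mul_right _ hW'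
  have e1 : (c + (a' + 1 + k) * W') * Λ = (c + a' * W') * Λ + W' * Λ + k * (W' * Λ) := by ring
  have e2 : (a' + 1 + k + 1 + k') * W' * Λ =
      W' * Λ + k * (W' * Λ) + W' * Λ + (a' + k') * (W' * Λ) := by ring
  rw [e1, e2]
  constructor <;> omega

theorem window_ev (b n₀ i e : ℕ) (hb : 2 ≤ b) (z : ℤ) :
    ev (b ^ n₀) (monomial i ((b : ℤ) ^ e * z)) = (b : ℚ) ^ (-((n₀ : ℤ) * i - e)) * z := by
  have hb0 : (b : ℚ) ≠ 0 := by positivity
  rw [ev_monomial, neg_sub, zpow_sub₀ hb0, ← Nat.cast_mul, zpow_natCast, zpow_natCast]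
  push_cast
  rw [pow_mul, inv_pow]
  ring

/-- A window in which a bounded multiple of every series vanishes. -/
theorem good_window (b n₀ E₂ Λ C ν m m' W' Nw G X₀ H T : ℕ) (hb : 2 ≤ b) (hE : 2 * E₂ < n₀)
    (hΛ : 1 ≤ Λ) (hW' : 2 * C + 2 ≤ W') (Ev : Fin m → Finset ℕ) (η : Fin m → ℕ → ℕ)
    (hη : ∀ β p, η β p ≤ E₂) (hsp : ∀ β, ∀ p ∈ Ev β, ∀ p' ∈ Ev β, p < p' → p + Λ ≤ p')
    (l : Fin m' → Fin m → ℤ[X]) (hl : ∀ j β, (l j β).natDegree ≤ C * Λ) (a : ℕ → ℤ[X])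
    (ha : ∀ e, (a e).natDegree ≤ C * Λ) (haν : a ν ≠ 0) (hnm : nm (a ν) ≤ H)
    (hL : ∀ j, X ^ T ∣ opL ν a (∑ β, l j β * spS b (Ev β) (η β)))
    (hT : (X₀ + Nw * W') * Λ ≤ T) (hTH : T ≤ H) (hbH : b ^ E₂ ≤ H)
    (hG : m * W' * ((ν + 1) * (Nw * W') ^ ν) ^ 2 < 2 ^ G)
    (hNw : (2 ^ (m * W' * (ν + 1)) + 2) ^ (m * W') *
      ((m * W') ^ 2 * G + m * W' * ν + 1) ^ (m * W') < Nw)
    (hB : (2 * H ^ (ν + 1)) ^ 2 ^ (m * W' * (ν + 1)) ≤ b ^ n₀) :
    ∃ (A : ℤ[X]) (t₀ : ℕ), A ≠ 0 ∧ A.natDegree ≤ (C + 1) * Λ ∧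
      nm A ≤ (2 * H ^ (ν + 1)) ^ 2 ^ (m * W' * (ν + 1)) * H ∧ (X₀ + 2 * C + 1) * Λ ≤ t₀ ∧
      t₀ + (W' - (2 * C + 1)) * Λ ≤ (X₀ + Nw * W') * Λ ∧
      ∀ j t, t₀ ≤ t → t < t₀ + (W' - (2 * C + 1)) * Λ →
        (A * ∑ β, l j β * spS b (Ev β) (η β)).coeff t = 0 := by
  classical
  have hcardκ : Fintype.card ((Fin m × Fin W') × Fin (ν + 1)) = m * W' * (ν + 1) := by simp
  set F := 2 ^ (m * W' * (ν + 1)) with hFdef
  have hF0 : 0 < F := Nat.two_pow_pos _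
  have hFΛ : F * (Λ / F) ≤ Λ := Nat.mul_div_le _ _
  obtain ⟨𝒜, s, φ, ι, hcard, hlt, hι, hφ, hid⟩ := window_class m Λ (Λ / F + 1) F W' Nw _ X₀
    (Nat.succ_pos _) (by have := Nat.lt_mul_div_succ Λ hF0; nlinarith) Ev hsp hNw
  set lam := Λ / F + 1 with hlam
  set π : ℕ → Fin m × Fin W' → ℕ := fun a j => (X₀ + a * W' + j.2) * Λ + φ j * lam + ι a j
    with hπ
  have hH1 : 1 ≤ H := (Nat.one_le_pow _ _ (by omega)).trans hbH
  have hwin : ∀ a ∈ 𝒜, (X₀ + a * W' + W') * Λ ≤ (X₀ + Nw * W') * Λ := fun a ha =>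
    Nat.mul_le_mul_right _ (by have := hlt a ha; nlinarith)
  have hπH : ∀ a ∈ 𝒜, ∀ j ∈ s, π a j ≤ H := by
    intro a ha j hj
    have h1 := hφ a ha j hj
    have h2 := hwin a ha
    have h3 : (X₀ + a * W' + j.2 + 1) * Λ ≤ (X₀ + a * W' + W') * Λ :=
      Nat.mul_le_mul_right _ (by have := j.2.2; omega)
    rw [add_mul _ 1, one_mul] at h3
    simp only [hπ]
    omega
  set Xp : ℕ → (Fin m × Fin W') × Fin (ν + 1) → ℤ[X] := fun a κ =>
    if κ.1 ∈ s then monomial (ι a κ.1) ((b : ℤ) ^ η κ.1.1 (π a κ.1) * (π a κ.1 : ℤ) ^ (κ.2 : ℕ))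
    else 0 with hXp
  set Yp : ℕ → (Fin m × Fin W') × Fin (ν + 1) → ℤ[X] := fun a κ =>
    if κ.1 ∈ s ∧ κ.2 = Fin.last ν then monomial (ι a κ.1) ((b : ℤ) ^ η κ.1.1 (π a κ.1) * 1)
    else 0 with hYp
  obtain ⟨a₀, ha₀, hspan⟩ := exists_mem_span b hb ν (m * W') (Nw * W') Λ G hΛ
    (Nat.mul_pos (by omega) (by omega)) hG (fun a j => (n₀ : ℤ) * ι a j - η j.1 (π a j)) π s
    (by simpa using Finset.card_le_univ s) 𝒜
    (by
      intro j hj a ha a' ha' hne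
      have e : ∀ a, π a j = (X₀ + j.2 + a * W') * Λ + (φ j * lam + ι a j) := fun a => by
        simp only [hπ]; ring
      rw [e a, e a']
      rcases lt_or_gt_of_ne hne with h | h
      · obtain ⟨k1, k2⟩ := window_spaced Λ W' Nw a' a _ _ (X₀ + j.2) (by omega) (hlt a' ha') h
          (hφ a' ha' j hj) (hφ a ha j hj)
        rw [abs_of_nonpos (by omega)]
        constructor <;> omega
      · obtain ⟨k1, k2⟩ := window_spaced Λ W' Nw a a' _ _ (X₀ + j.2) (by omega) (hlt a ha) h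
          (hφ a ha j hj) (hφ a' ha' j hj)
        rw [abs_of_nonneg (by omega)]
        constructor <;> omega)
    (by
      intro j _ j' _ a _ a' _ h
      have := window_rigid n₀ E₂ hE _ _ _ _ _ _ _ _ (hη _ _) (hη _ _) (hη _ _) (hη _ _) h
      simp only [hπ]
      push_cast
      linarith)
    hcard (fun a κ => ev (b ^ n₀) (Xp a κ)) (fun a κ => ev (b ^ n₀) (Yp a κ))
    (by
      intro a κ
      simp only [hXp]
      split_ifs
      · rw [window_ev b n₀ _ _ hb]; push_cast; rfl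
      · simp)
    (by
      intro a κ
      simp only [hYp]
      split_ifs
      · rw [window_ev b n₀ _ _ hb]; simp
      · simp)
  have hbη : ∀ β p, b ^ η β p ≤ H := fun β p =>
    (Nat.pow_le_pow_right (by omega) (hη β p)).trans hbH
  obtain ⟨Δ, Δa, hΔ0, hΔd, hΔad, hΔn, hΔ⟩ := elim_span (b ^ n₀) (H ^ (ν + 1)) (Λ / F)
    (Nat.one_le_pow _ _ hH1) 𝒜 Xp (Yp a₀)
    (by
      intro a _ κ
      simp only [hXp]
      split_ifs
      · exact (natDegree_monomial_le _).trans (by have := hι a κ.1; omega)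
      · simp)
    (by
      intro a ha κ
      simp only [hXp]
      split_ifs with h
      · rw [nm_monomial, Int.natAbs_mul, Int.natAbs_pow, Int.natAbs_pow, Int.natAbs_natCast,
          Int.natAbs_natCast, pow_succ' H]
        refine Nat.mul_le_mul (hbη _ _) ((Nat.pow_le_pow_left (hπH a ha _ h) _).trans ?_)
        exact Nat.pow_le_pow_right hH1 (Nat.lt_succ_iff.mp κ.2.2)
      · simp)
    (by
      intro κ
      simp only [hYp]
      split_ifs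
      · exact (natDegree_monomial_le _).trans (by have := hι a₀ κ.1; omega)
      · simp)
    (by
      intro κ
      simp only [hYp]
      split_ifs with h
      · rw [nm_monomial, mul_one, Int.natAbs_pow, Int.natAbs_natCast]
        exact (hbη _ _).trans (Nat.le_self_pow (by omega) H)
      · simp)
    (by rw [hcardκ]; exact hB) hspan
  rw [hcardκ] at hΔd hΔad hΔn
  have hAd : (Δ * a ν).natDegree ≤ (C + 1) * Λ := by
    refine natDegree_mul_le.trans ?_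
    have h1 := ha ν
    have h2 : Δ.natDegree ≤ Λ := hΔd.trans hFΛ
    rw [add_mul, one_mul]
    omega
  have hWs : (2 * C + 1) * Λ + (W' - (2 * C + 1)) * Λ = W' * Λ := by
    rw [← add_mul]; congr 1; omega
  have hsplit : ∀ a k : ℕ, (X₀ + a * W' + k) * Λ = (X₀ + a * W') * Λ + k * Λ := fun a k => by ring
  refine ⟨Δ * a ν, (X₀ + a₀ * W') * Λ + (2 * C + 1) * Λ, mul_ne_zero hΔ0 haν, hAd,
    (nm_mul_le _ _).trans (Nat.mul_le_mul hΔn hnm), ?_, ?_, fun j₀ => ?_⟩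
  · rw [← add_mul]; exact Nat.mul_le_mul_right _ (by omega)
  · have := hwin a₀ ha₀
    rw [hsplit] at this
    omega
  choose q hqν hqd hq using fun β => opL_shift ν (C * Λ) a ha (l j₀ β)
  set γ : (Fin m × Fin W') × Fin (ν + 1) → ℤ[X] := fun κ =>
    X ^ (κ.1.2 * Λ + φ κ.1 * lam) * q κ.1.1 κ.2 with hγ
  have hmono : ∀ (a : ℕ) (j : Fin m × Fin W') (z : ℤ),
      X ^ ((X₀ + a * W') * Λ) * (monomial (ι a j) z * X ^ (j.2 * Λ + φ j * lam)) =
        (monomial (π a j) z : ℤ[X]) := by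
    intro a j z
    rw [monomial_mul_X_pow, X_pow_mul, monomial_mul_X_pow]
    congr 2
    simp only [hπ]; ring
  have hZ : ∀ a ∈ 𝒜, WGap (∑ κ, Xp a κ * γ κ) (2 * C * Λ) (W' * Λ) := by
    intro a' ha'
    rw [← wgap_X_pow_mul (u := (X₀ + a' * W') * Λ)]
    have h1 : X ^ ((X₀ + a' * W') * Λ) * ∑ κ, Xp a' κ * γ κ =
        ∑ j ∈ s, (∑ e ∈ Finset.range (ν + 1), Polynomial.C ((π a' j : ℤ) ^ e) * q j.1 e) *
          monomial (π a' j) ((b : ℤ) ^ η j.1 (π a' j)) := by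
      rw [Fintype.sum_prod_type, Finset.mul_sum, ← Finset.sum_subset (Finset.subset_univ s)]
      · refine Finset.sum_congr rfl fun j hj => ?_
        rw [Finset.mul_sum, Finset.sum_mul, Finset.sum_range]
        refine Finset.sum_congr rfl fun e _ => ?_
        simp only [hXp, hγ, if_pos hj]
        rw [← mul_assoc (monomial _ _), ← mul_assoc, hmono, ← monomial_mul_C]
        ring
      · intro j _ hj
        simp [hXp, hj]
    have h2 := hid a' ha' fun β p =>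
      (∑ e ∈ Finset.range (ν + 1), Polynomial.C ((p : ℤ) ^ e) * q β e) *
        monomial p ((b : ℤ) ^ η β p)
    have h3 := wgap_split Ev ((X₀ + a' * W') * Λ) ((X₀ + a' * W' + W') * Λ) (2 * C * Λ)
      (fun β p => ∑ e ∈ Finset.range (ν + 1), Polynomial.C ((p : ℤ) ^ e) * q β e)
      (fun β p => (b : ℤ) ^ η β p) (fun β p => natDegree_sum_le_of_forall_le _ _ fun e _ =>
        (natDegree_C_mul_le _ _).trans ((hqd β e).trans (by have := hl j₀ β; nlinarith)))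
    have h4 : ∑ β, ∑ p ∈ Ev β,
        (∑ e ∈ Finset.range (ν + 1), Polynomial.C ((p : ℤ) ^ e) * q β e) *
          monomial p ((b : ℤ) ^ η β p) = opL ν a (∑ β, l j₀ β * spS b (Ev β) (η β)) := by
      rw [opL_sum]
      refine Finset.sum_congr rfl fun β _ => ?_
      rw [spS, Finset.mul_sum, opL_sum]
      exact Finset.sum_congr rfl fun p _ => by rw [hq, mul_comm]
    rw [h4, h2, hsplit] at h3
    have h5 := wgap_sub (wgap_of_dvd (s := (X₀ + a' * W') * Λ + 2 * C * Λ) (hL j₀)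
      (t := (X₀ + a' * W') * Λ + W' * Λ) (by have := hwin a' ha'; rw [hsplit] at this; omega)) h3
    rw [sub_sub_cancel] at h5
    rw [h1]
    exact h5
  have hY : WGap (Δ * ∑ κ, Yp a₀ κ * γ κ) (2 * C * Λ + Λ) (W' * Λ) := by
    have h1 : Δ * ∑ κ, Yp a₀ κ * γ κ = ∑ a ∈ 𝒜, Δa a * ∑ κ, Xp a κ * γ κ := by
      simp only [Finset.mul_sum]
      rw [Finset.sum_comm]
      refine Finset.sum_congr rfl fun κ _ => ?_
      rw [← mul_assoc, hΔ κ, Finset.sum_mul]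
      exact Finset.sum_congr rfl fun a _ => mul_assoc _ _ _
    rw [h1]
    exact wgap_sum fun a ha => wgap_mul (hZ a ha) ((hΔad a).trans hFΛ)
  rw [← wgap_X_pow_mul (u := (X₀ + a₀ * W') * Λ)] at hY
  have h1 : X ^ ((X₀ + a₀ * W') * Λ) * (Δ * ∑ κ, Yp a₀ κ * γ κ) =
      ∑ j ∈ s, (Δ * a ν * l j₀ j.1) * monomial (π a₀ j) ((b : ℤ) ^ η j.1 (π a₀ j)) := by
    rw [mul_left_comm, Fintype.sum_prod_type, Finset.mul_sum, Finset.mul_sum,
      ← Finset.sum_subset (Finset.subset_univ s)]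
    · refine Finset.sum_congr rfl fun j hj => ?_
      rw [Finset.sum_eq_single (Fin.last ν)]
      · simp only [hYp, hγ, hj, true_and, if_true, mul_one, Fin.val_last]
        rw [← mul_assoc (monomial _ _), ← mul_assoc (X ^ _), hmono, hqν]
        ring
      · intro e _ he
        simp [hYp, he]
      · simp
    · intro j _ hj
      simp [hYp, hj]
  have h2 := hid a₀ ha₀ fun β p => (Δ * a ν * l j₀ β) * monomial p ((b : ℤ) ^ η β p)
  have h3 := wgap_split Ev ((X₀ + a₀ * W') * Λ) ((X₀ + a₀ * W' + W') * Λ) (2 * C * Λ + Λ)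
    (fun β _ => Δ * a ν * l j₀ β) (fun β p => (b : ℤ) ^ η β p)
    (fun β _ => natDegree_mul_le.trans (by have := hl j₀ β; nlinarith))
  have h4 : ∑ β, ∑ p ∈ Ev β, (Δ * a ν * l j₀ β) * monomial p ((b : ℤ) ^ η β p) =
      Δ * a ν * ∑ β, l j₀ β * spS b (Ev β) (η β) := by
    rw [Finset.mul_sum]
    refine Finset.sum_congr rfl fun β _ => ?_
    rw [spS, ← mul_assoc, Finset.mul_sum]
  rw [h4, h2, hsplit] at h3
  rw [h1] at hY
  have h5 := wgap_add h3 hY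
  rw [sub_add_cancel] at h5
  intro t ht1 ht2
  have e : (2 * C + 1) * Λ = 2 * C * Λ + Λ := by ring
  exact h5 t (by omega) (by omega)

end Pool.Agent.Lib.MP_f2f914_nt.EAB
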