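import Pool.Agent.Lib.MP_f2f914_nt.EAB.Mv

namespace Pool.Agent.Lib.MP_f2f914_nt.EAB

open Polynomial

variable {m D : ℕ}

theorem evS_X_none (S : Fin m → ℤ[X]) : evS S (MvPolynomial.X none) = X := by
  simp [evS]

theorem evS_X_some (S : Fin m → ℤ[X]) (j : Fin m) : evS S (MvPolynomial.X (some j)) = S j := by
  simp [evS]

theorem evS_aeval_X (S : Fin m → ℤ[X]) (f : ℤ[X]) :
    evS S (aeval (MvPolynomial.X none : MvPolynomial (Option (Fin m)) ℤ) f) = f := by
  rw [← aeval_algHom_apply, evS_X_none, aeval_X_left_apply]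

theorem nm_evS_le (S : Fin m → ℤ[X]) {H d : ℕ} (hH : 1 ≤ H) (hS : ∀ j, nm (S j) ≤ H)
    (P : MvPolynomial (Option (Fin m)) ℤ) (hP : ∀ j, P.degreeOf (some j) ≤ d) :
    nm (evS S P) ≤ nmv P * H ^ (m * d) := by
  conv_lhs => rw [P.as_sum, map_sum]
  refine (nm_sum_le _ _).trans ?_
  rw [nmv, Finset.sum_mul]
  refine Finset.sum_le_sum fun s hs => ?_
  rw [evS, MvPolynomial.aeval_monomial, Finsupp.prod_fintype _ _ fun _ => pow_zero _,
    Fintype.prod_option]
  refine (nm_mul_le _ _).trans (Nat.mul_le_mul (nm_C _).le ?_)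
  refine (nm_mul_le _ _).trans ?_
  rw [Option.elim_none, nm_X_pow, one_mul]
  refine (nm_prod_le _ _).trans ?_
  calc ∏ j, nm ((some j).elim X S ^ s (some j)) ≤ ∏ _j : Fin m, H ^ d :=
        Finset.prod_le_prod' fun j _ => (nm_pow_le _ _).trans
          ((Nat.pow_le_pow_left (hS j) _).trans (Nat.pow_le_pow_right hH
            ((MvPolynomial.monomial_le_degreeOf _ hs).trans (hP j))))
    _ = H ^ (m * d) := by rw [Finset.prod_const, Finset.card_univ, Fintype.card_fin, ← pow_mul,
          mul_comm]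

/-- Chain rule. -/
theorem th_evS (S : Fin m → ℤ[X]) (P : MvPolynomial (Option (Fin m)) ℤ) :
    th (evS S P) = evS S (MvPolynomial.X none * MvPolynomial.pderiv none P) +
      ∑ j, evS S (MvPolynomial.pderiv (some j) P) * th (S j) := by
  have hX : ∀ o : Option (Fin m), th (evS S (MvPolynomial.X o)) =
      evS S (MvPolynomial.X none * MvPolynomial.pderiv none (MvPolynomial.X o)) +
      ∑ j, evS S (MvPolynomial.pderiv (some j) (MvPolynomial.X o)) * th (S j) := by
    rintro (_ | k)
    · simp [evS_X_none, th, MvPolynomial.pderiv_X]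
    · rw [Finset.sum_eq_single k (fun j _ hj => by
        rw [MvPolynomial.pderiv_X_of_ne (by simpa using hj.symm), map_zero, zero_mul]) (by simp)]
      simp [evS_X_some, MvPolynomial.pderiv_X]
  induction P using MvPolynomial.induction_on with
  | C a => simp [th]
  | add P Q hP hQ =>
    simp only [map_add, th_add, hP, hQ, mul_add, add_mul, Finset.sum_add_distrib]
    ring
  | mul_X P o hP =>
    rw [map_mul, th_mul, hP, hX o]
    simp only [Derivation.leibniz, smul_eq_mul, map_add, map_mul, mul_add, add_mul,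
      Finset.sum_add_distrib, Finset.mul_sum, Finset.sum_mul]
    have e1 : ∀ j, evS S (MvPolynomial.pderiv (some j) P) * th (S j) * evS S (MvPolynomial.X o) =
        evS S (MvPolynomial.X o) * evS S (MvPolynomial.pderiv (some j) P) * th (S j) :=
      fun j => by ring
    simp only [e1, mul_assoc]
    ring

theorem nm_wordS_le (S : Fin m → ℤ[X]) {H : ℕ} (hH : 1 ≤ H) (hS : ∀ j, nm (S j) ≤ H)
    (f : Fin D → Option (Fin m)) : nm (wordS S f) ≤ H ^ D := by
  refine (nm_prod_le _ _).trans ?_
  calc ∏ i, nm ((f i).elim 1 S) ≤ ∏ _i : Fin D, H := Finset.prod_le_prod' fun i _ => by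
        rcases f i with _ | j
        · exact nm_one.le.trans hH
        · exact hS j
    _ = H ^ D := by simp

theorem wordS_none (S : Fin m → ℤ[X]) : wordS S (fun _ : Fin D => none) = 1 := by
  simp [wordS]

theorem evS_wordP (S : Fin m → ℤ[X]) (l : (Fin D → Option (Fin m)) → ℤ[X]) :
    evS S (wordP l) = ∑ f, l f * wordS S f := by
  rw [wordP, map_sum]
  refine Finset.sum_congr rfl fun f _ => ?_
  rw [map_mul, evS_aeval_X, map_prod, wordS]
  congr 1
  refine Finset.prod_congr rfl fun i _ => ?_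
  rcases f i with _ | j
  · exact map_one _
  · exact evS_X_some S j

theorem degreeOf_some_wordP (l : (Fin D → Option (Fin m)) → ℤ[X]) (j : Fin m) :
    (wordP l).degreeOf (some j) ≤ D := by
  refine mv_degreeOf_sum_le _ _ _ fun f _ => (MvPolynomial.degreeOf_mul_le _ _ _).trans ?_
  rw [degreeOf_aeval_X_ne (by simp), zero_add]
  refine (MvPolynomial.degreeOf_prod_le _ _ _).trans ?_
  refine (Finset.sum_le_sum (g := fun _ => 1) fun i _ => ?_).trans (by simp)
  rcases f i with _ | k
  · simp
  · rw [Option.elim_some, MvPolynomial.degreeOf_X]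
    split_ifs <;> simp

theorem degreeOf_none_wordP (l : (Fin D → Option (Fin m)) → ℤ[X]) {V : ℕ}
    (hl : ∀ f, (l f).natDegree ≤ V) : (wordP l).degreeOf none ≤ V := by
  refine mv_degreeOf_sum_le _ _ _ fun f _ => (MvPolynomial.degreeOf_mul_le _ _ _).trans ?_
  have h0 : (∏ i, (f i).elim 1 fun j => (MvPolynomial.X (some j) :
      MvPolynomial (Option (Fin m)) ℤ)).degreeOf none ≤ 0 := by
    refine (MvPolynomial.degreeOf_prod_le _ _ _).trans ?_
    refine (Finset.sum_le_sum (g := fun _ => 0) fun i _ => ?_).trans (by simp)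
    rcases f i with _ | k
    · simp
    · rw [Option.elim_some, MvPolynomial.degreeOf_X_of_ne (by simp)]
  have h1 := (degreeOf_aeval_X_self (none : Option (Fin m)) (l f)).trans (hl f)
  omega

theorem nmv_wordP_le (l : (Fin D → Option (Fin m)) → ℤ[X]) : nmv (wordP l) ≤ ∑ f, nm (l f) := by
  refine (nmv_sum_le _ _).trans (Finset.sum_le_sum fun f _ => (nmv_mul_le _ _).trans ?_)
  have h0 : nmv (∏ i, (f i).elim 1 fun j => (MvPolynomial.X (some j) :
      MvPolynomial (Option (Fin m)) ℤ)) ≤ 1 := by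
    refine (nmv_prod_le _ _).trans (Finset.prod_le_one' fun i _ => ?_)
    rcases f i with _ | k
    · exact nmv_one.le
    · exact (nmv_X _).le
  exact (Nat.mul_le_mul (nmv_aeval_X _ _) h0).trans (by rw [mul_one])

end Pool.Agent.Lib.MP_f2f914_nt.EAB
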